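import Pool.Agent.Lib.MP_c70440_co.Classes

set_option autoImplicit false
set_option maxHeartbeats 4000000

namespace TCM

open Finset

/-- Special classes for all parts: class `i` colours `2 (a i / 2)` vertices of part `i`; `G i` is
the multigraph of its edges. -/
structure Specials {V : Type} [Fintype V] [DecidableEq V] (a : V → ℕ) (G : V → V → V → ℕ) :
    Prop where
  symm : ∀ i j k, G i j k = G i k j
  diag : ∀ i j, G i j j = 0
  deg : ∀ i j, ∑ k, G i j k = if j = i then a i % 2 else a j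
  le : ∀ j k, j ≠ k → ∑ i, G i j k ≤ a j * a k

/-- Total degree of `j` in the special classes. -/
theorem Specials.xdeg {V : Type} [Fintype V] [DecidableEq V] {a : V → ℕ} {G : V → V → V → ℕ}
    (h : Specials a G) (j : V) :
    ∑ i, ∑ k, G i j k + a j = Fintype.card V * a j + a j % 2 := by
  simp only [h.deg]
  rw [← Finset.add_sum_erase _ _ (Finset.mem_univ j), if_pos rfl]
  have h1 : ∑ i ∈ Finset.univ.erase j, (if j = i then a i % 2 else a j) =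
      ∑ i ∈ Finset.univ.erase j, a j := by
    apply Finset.sum_congr rfl
    intro i hi
    rw [Finset.mem_erase] at hi
    rw [if_neg (Ne.symm hi.1)]
  rw [h1, Finset.sum_const, Finset.card_erase_of_mem (Finset.mem_univ j), Finset.card_univ,
    smul_eq_mul]
  have h2 : 0 < Fintype.card V := Fintype.card_pos_iff.2 ⟨j⟩
  obtain ⟨c, hc⟩ : ∃ c, Fintype.card V = c + 1 := ⟨Fintype.card V - 1, by omega⟩
  rw [hc, Nat.add_sub_cancel]
  ring

/-- Main construction with all parts special. `Y S` is the number of special edges leaving `S`. -/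
theorem all_special {V : Type} [Fintype V] [DecidableEq V] (a : V → ℕ) (m : ℕ) (k0 : V)
    (hmin : ∀ k, m ≤ a k) (G : V → V → V → ℕ) (hG : Specials a G) (u w : V → ℕ)
    (huw : ∀ k, u k + w k = a k)
    (hγ : Fintype.card V + m + ∑ k, a k % 2 ≤ ∑ k, a k + 1)
    (hcut : ∀ S : Finset V, |((∑ k, (a k : ℤ)) + 1 - m - Fintype.card V) *
        ∑ k ∈ S, ((u k : ℤ) - w k)| ≤
      ∑ k ∈ S, ((a k : ℤ) * (a k - m) - (a k % 2 : ℕ)) +
      (∑ k ∈ S, (a k : ℤ)) * (∑ k ∈ Sᶜ, (a k : ℤ)) -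
      ∑ j ∈ S, ∑ k ∈ Sᶜ, ∑ i, (G i j k : ℤ)) :
    Col a ((∑ k, a k) - m + 1) := by
  classical
  have hmn : m ≤ ∑ k, a k := le_trans (hmin k0)
    (Finset.single_le_sum (f := a) (fun _ _ => Nat.zero_le _) (Finset.mem_univ k0))
  obtain ⟨γ, hγ'⟩ : ∃ γ, Fintype.card V + γ = (∑ k, a k) - m + 1 :=
    ⟨(∑ k, a k) - m + 1 - Fintype.card V, by omega⟩
  rw [← hγ']
  have hγz : (γ : ℤ) = (∑ k, (a k : ℤ)) + 1 - m - Fintype.card V := by
    have : Fintype.card V + γ + m = (∑ k, a k) + 1 := by omega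
    zify at this
    linarith
  have hcut' : ∀ S : Finset V, ∑ j ∈ S, ∑ k ∈ Sᶜ, ((a j : ℤ) * a k - ∑ i, (G i j k : ℤ)) =
      (∑ k ∈ S, (a k : ℤ)) * (∑ k ∈ Sᶜ, (a k : ℤ)) -
      ∑ j ∈ S, ∑ k ∈ Sᶜ, ∑ i, (G i j k : ℤ) := by
    intro S
    rw [Finset.sum_mul_sum, ← Finset.sum_sub_distrib]
    apply Finset.sum_congr rfl
    intro j _
    rw [← Finset.sum_sub_distrib]
  have hσ' : ∀ S : Finset V, ∑ k ∈ S, ((a k * (a k - m) : ℕ) : ℤ) - ∑ k ∈ S, ((a k % 2 : ℕ) : ℤ) =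
      ∑ k ∈ S, ((a k : ℤ) * (a k - m) - (a k % 2 : ℕ)) := by
    intro S
    rw [← Finset.sum_sub_distrib]
    apply Finset.sum_congr rfl
    intro k _
    rw [Nat.cast_mul, Nat.cast_sub (hmin k)]
  refine framework a (fun i : V => i) (fun i => 2 * (a i / 2)) G γ (fun k => a k % 2)
    (fun k => a k * (a k - m)) u w hG.symm hG.diag ?_ hG.le ?_ ?_ huw ?_ ?_ ?_
  · intro i k
    rw [hG.deg]
    by_cases h : k = i
    · rw [if_pos h, if_pos h, h]; omega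
    · rw [if_neg h, if_neg h, add_zero]
  · intro k
    rw [Finset.sum_ite_eq]
    simp only [Finset.mem_univ, if_true]
    omega
  · omega
  · intro k
    have h1 := hG.xdeg k
    have h2 : a k ≤ ∑ k, a k := Finset.single_le_sum (f := a) (fun _ _ => Nat.zero_le _)
      (Finset.mem_univ k)
    have h3 : Fintype.card V + γ + m = (∑ k, a k) + 1 := by omega
    zify [h2, hmin k] at h1 h3 ⊢
    push_cast at h1 h3 ⊢
    linear_combination (-(a k : ℤ)) * h3 - h1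
  · intro S
    rw [hcut']
    have h1 := hcut S
    rw [← hγz, ← hσ'] at h1
    have h2 := neg_le_of_abs_le h1
    have h3 : (0 : ℤ) ≤ ∑ k ∈ S, ((a k % 2 : ℕ) : ℤ) := by positivity
    linarith
  · intro S
    rw [hcut']
    have h1 := hcut S
    rw [← hγz, ← hσ'] at h1
    have h2 := le_of_abs_le h1
    linarith

/-- It is enough to check the cut condition for sets with at most half of the vertices. -/
theorem col_small {V : Type} [Fintype V] [DecidableEq V] (a : V → ℕ) (m : ℕ) (k0 : V)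
    (hmin : ∀ k, m ≤ a k) (G : V → V → V → ℕ) (hG : Specials a G) (u w : V → ℕ)
    (huw : ∀ k, u k + w k = a k) (hε : ∑ k, ((u k : ℤ) - w k) = 0)
    (hγ : Fintype.card V + m + ∑ k, a k % 2 ≤ ∑ k, a k + 1)
    (h1 : ∀ R : Finset V, 2 * ∑ k ∈ R, (a k : ℤ) ≤ ∑ k, (a k : ℤ) →
      |((∑ k, (a k : ℤ)) + 1 - m - Fintype.card V) * ∑ k ∈ R, ((u k : ℤ) - w k)| +
        ∑ j ∈ R, ∑ k ∈ Rᶜ, ∑ i, (G i j k : ℤ) ≤
      ∑ k ∈ R, ((a k : ℤ) * (a k - m) - (a k % 2 : ℕ)) +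
      (∑ k ∈ R, (a k : ℤ)) * (∑ k, (a k : ℤ) - ∑ k ∈ R, (a k : ℤ)))
    (h2 : ∀ R : Finset V, 2 * ∑ k ∈ R, (a k : ℤ) ≤ ∑ k, (a k : ℤ) →
      |((∑ k, (a k : ℤ)) + 1 - m - Fintype.card V) * ∑ k ∈ R, ((u k : ℤ) - w k)| +
        ∑ k ∈ R, ((a k : ℤ) * (a k - m) - (a k % 2 : ℕ)) +
        ∑ j ∈ R, ∑ k ∈ Rᶜ, ∑ i, (G i j k : ℤ) ≤
      ∑ k, ((a k : ℤ) * (a k - m) - (a k % 2 : ℕ)) +
      (∑ k ∈ R, (a k : ℤ)) * (∑ k, (a k : ℤ) - ∑ k ∈ R, (a k : ℤ))) :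
    Col a ((∑ k, a k) - m + 1) := by
  classical
  apply all_special a m k0 hmin G hG u w huw hγ
  intro S
  have hA : ∀ T : Finset V, ∑ k ∈ Tᶜ, (a k : ℤ) = ∑ k, (a k : ℤ) - ∑ k ∈ T, (a k : ℤ) := by
    intro T
    rw [← Finset.sum_add_sum_compl T]
    ring
  by_cases hS : 2 * ∑ k ∈ S, (a k : ℤ) ≤ ∑ k, (a k : ℤ)
  · have := h1 S hS
    rw [hA]
    linarith
  · have hS' : 2 * ∑ k ∈ Sᶜ, (a k : ℤ) ≤ ∑ k, (a k : ℤ) := by
      rw [hA]; linarith
    have h3 := h2 Sᶜ hS'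
    have h4 : ∑ k ∈ S, ((u k : ℤ) - w k) = - ∑ k ∈ Sᶜ, ((u k : ℤ) - w k) := by
      rw [← Finset.sum_add_sum_compl S] at hε
      linarith
    have h5 : ∑ k ∈ S, ((a k : ℤ) * (a k - m) - (a k % 2 : ℕ)) =
        ∑ k, ((a k : ℤ) * (a k - m) - (a k % 2 : ℕ)) -
        ∑ k ∈ Sᶜ, ((a k : ℤ) * (a k - m) - (a k % 2 : ℕ)) := by
      rw [← Finset.sum_add_sum_compl S]
      ring
    have h6 : ∑ j ∈ Sᶜ, ∑ k ∈ Sᶜᶜ, ∑ i, (G i j k : ℤ) = ∑ j ∈ S, ∑ k ∈ Sᶜ, ∑ i, (G i j k : ℤ) := by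
      rw [compl_compl, Finset.sum_comm]
      apply Finset.sum_congr rfl
      intro j _
      apply Finset.sum_congr rfl
      intro k _
      apply Finset.sum_congr rfl
      intro i _
      rw [hG.symm]
    rw [h6] at h3
    rw [h4, mul_neg, abs_neg, h5]
    have h7 := hA S
    have h8 : ∑ k, (a k : ℤ) - ∑ k ∈ Sᶜ, (a k : ℤ) = ∑ k ∈ S, (a k : ℤ) := by
      rw [h7]; ring
    rw [h8] at h3
    have h9 : (∑ k ∈ S, (a k : ℤ)) * (∑ k ∈ Sᶜ, (a k : ℤ)) =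
      (∑ k ∈ Sᶜ, (a k : ℤ)) * (∑ k ∈ S, (a k : ℤ)) := mul_comm _ _
    linarith

/-- Crossing bound. -/
theorem Specials.cross {V : Type} [Fintype V] [DecidableEq V] {a : V → ℕ} {G : V → V → V → ℕ}
    (h : Specials a G) (R : Finset V) :
    ∑ j ∈ R, ∑ k ∈ Rᶜ, ∑ i, (G i j k : ℤ) ≤
      ∑ j ∈ R, (((Fintype.card V : ℤ) - 1) * a j + (a j % 2 : ℕ)) := by
  apply Finset.sum_le_sum
  intro j _
  have h1 : ∑ k ∈ Rᶜ, ∑ i, (G i j k : ℤ) ≤ ∑ k, ∑ i, (G i j k : ℤ) :=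
    Finset.sum_le_sum_of_subset_of_nonneg (Finset.subset_univ _)
      (fun _ _ _ => by positivity)
  have h2 : ∑ k, ∑ i, (G i j k : ℤ) = ∑ i, ∑ k, (G i j k : ℤ) := Finset.sum_comm
  have h3 := h.xdeg j
  zify at h3
  push_cast at h1 h2 h3 ⊢
  linarith

theorem exists_signs_even {V : Type} [Fintype V] [DecidableEq V] (a : V → ℕ)
    (heven : Even (∑ k, a k)) :
    ∃ u w : V → ℕ, (∀ k, u k + w k = a k) ∧ (∀ k, |((u k : ℤ) - w k)| ≤ (a k % 2 : ℕ)) ∧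
      ∑ k, ((u k : ℤ) - w k) = 0 := by
  classical
  let O := Finset.univ.filter (fun k => a k % 2 = 1)
  have hsum : ∑ k, a k % 2 = O.card := by
    rw [Finset.card_eq_sum_ones, Finset.sum_filter]
    apply Finset.sum_congr rfl
    intro k _
    split_ifs with h <;> omega
  have hO : ∃ t, O.card = 2 * t := by
    have h1 : (∑ k, a k) % 2 = (∑ k, a k % 2) % 2 := Finset.sum_nat_mod _ _ _
    rw [hsum] at h1
    obtain ⟨r, hr⟩ := heven
    exact ⟨O.card / 2, by omega⟩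
  obtain ⟨t, ht⟩ := hO
  obtain ⟨P, hPO, hP⟩ := Finset.exists_subset_card_eq (s := O) (n := t) (by omega)
  refine ⟨fun k => if k ∈ P then (a k + 1) / 2 else a k / 2,
    fun k => if k ∈ P then a k / 2 else (a k + 1) / 2, ?_, ?_, ?_⟩
  · intro k
    dsimp only
    split_ifs <;> omega
  · intro k
    rw [abs_le]
    dsimp only
    constructor <;> split_ifs <;> omega
  · have h1 : ∀ k, (((if k ∈ P then (a k + 1) / 2 else a k / 2 : ℕ) : ℤ) -
        ((if k ∈ P then a k / 2 else (a k + 1) / 2 : ℕ) : ℤ)) =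
        (if k ∈ P then (2 : ℤ) else 0) - (if k ∈ O then 1 else 0) := by
      intro k
      by_cases hk : k ∈ P
      · have hkO := hPO hk
        have h2 : a k % 2 = 1 := by simpa [O] using hkO
        rw [if_pos hk, if_pos hk, if_pos hk, if_pos hkO]
        omega
      · rw [if_neg hk, if_neg hk, if_neg hk]
        by_cases hkO : k ∈ O
        · have h2 : a k % 2 = 1 := by simpa [O] using hkO
          rw [if_pos hkO]
          omega
        · have h2 : ¬ (a k % 2 = 1) := by simpa [O] using hkO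
          rw [if_neg hkO]
          omega
    rw [Finset.sum_congr rfl (fun k _ => h1 k), Finset.sum_sub_distrib]
    simp only [Finset.sum_ite_mem, Finset.univ_inter, Finset.sum_const, hP, ht]
    push_cast
    ring

/-- Part-by-part criterion. -/
theorem col_perpart {V : Type} [Fintype V] [DecidableEq V] (a : V → ℕ) (m : ℕ) (k0 : V)
    (hmin : ∀ k, m ≤ a k) (G : V → V → V → ℕ) (hG : Specials a G)
    (heven : Even (∑ k, a k))
    (hγ : Fintype.card V + m + ∑ k, a k % 2 ≤ ∑ k, a k + 1)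
    (hD : 0 ≤ ∑ k, ((a k : ℤ) * (a k - m) - (a k % 2 : ℕ)))
    (c0 : ℤ) (hc0 : 2 * c0 + 2 * Fintype.card V = ∑ k, (a k : ℤ) + 2)
    (h1 : ∀ k, ((∑ k, (a k : ℤ)) + 1 - m - Fintype.card V) * (a k % 2 : ℕ) +
      (a k : ℤ) * (a k - m) ≤ a k * c0)
    (h2 : ∀ k, ((∑ k, (a k : ℤ)) + 1 - m - Fintype.card V) * (a k % 2 : ℕ) +
      2 * (a k % 2 : ℕ) ≤ a k * c0 + (a k : ℤ) * (a k - m)) :
    Col a ((∑ k, a k) - m + 1) := by
  classical
  obtain ⟨u, w, huw, hε1, hε2⟩ := exists_signs_even a heven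
  have hγ0 : (0 : ℤ) ≤ (∑ k, (a k : ℤ)) + 1 - m - Fintype.card V := by
    zify at hγ
    have : (0 : ℤ) ≤ ∑ k, (a k : ℤ) % 2 :=
      Finset.sum_nonneg (fun k _ => Int.emod_nonneg _ (by norm_num))
    linarith
  have habs : ∀ R : Finset V, |((∑ k, (a k : ℤ)) + 1 - m - Fintype.card V) *
      ∑ k ∈ R, ((u k : ℤ) - w k)| ≤
      ∑ k ∈ R, ((∑ k, (a k : ℤ)) + 1 - m - Fintype.card V) * (a k % 2 : ℕ) := by
    intro R
    rw [abs_mul, abs_of_nonneg hγ0, ← Finset.mul_sum]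
    apply mul_le_mul_of_nonneg_left _ hγ0
    exact le_trans (Finset.abs_sum_le_sum_abs _ _) (Finset.sum_le_sum (fun k _ => hε1 k))
  have hprod : ∀ R : Finset V, 2 * ∑ k ∈ R, (a k : ℤ) ≤ ∑ k, (a k : ℤ) →
      ∑ k ∈ R, ((Fintype.card V : ℤ) - 1) * a k + ∑ k ∈ R, a k * c0 ≤
      (∑ k ∈ R, (a k : ℤ)) * (∑ k, (a k : ℤ) - ∑ k ∈ R, (a k : ℤ)) := by
    intro R hR
    rw [← Finset.mul_sum, ← Finset.sum_mul]
    have h3 : (0 : ℤ) ≤ ∑ k ∈ R, (a k : ℤ) := by positivity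
    have h4 : (0 : ℤ) ≤ (∑ k ∈ R, (a k : ℤ)) * (∑ k, (a k : ℤ) - 2 * ∑ k ∈ R, (a k : ℤ)) :=
      mul_nonneg h3 (by linarith)
    nlinarith
  refine col_small a m k0 hmin G hG u w huw hε2 hγ ?_ ?_
  · intro R hR
    have h3 := habs R
    have h4 := hprod R hR
    have h5 := hG.cross R
    have h6 : ∑ k ∈ R, (((∑ k, (a k : ℤ)) + 1 - m - Fintype.card V) * (a k % 2 : ℕ) +
      2 * (a k % 2 : ℕ)) ≤ ∑ k ∈ R, (a k * c0 + (a k : ℤ) * (a k - m)) :=
      Finset.sum_le_sum (fun k _ => h2 k)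
    rw [Finset.sum_add_distrib, Finset.sum_add_distrib] at h6
    rw [Finset.sum_add_distrib] at h5
    have h8 : ∑ k ∈ R, ((a k : ℤ) * (a k - m) - (a k % 2 : ℕ)) =
      ∑ k ∈ R, (a k : ℤ) * (a k - m) - ∑ k ∈ R, ((a k % 2 : ℕ) : ℤ) := Finset.sum_sub_distrib _ _
    rw [h8]
    have h7 : ∑ k ∈ R, 2 * ((a k % 2 : ℕ) : ℤ) = 2 * ∑ k ∈ R, ((a k % 2 : ℕ) : ℤ) := by
      rw [Finset.mul_sum]
    linarith
  · intro R hR
    have h3 := habs R
    have h4 := hprod R hR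
    have h5 := hG.cross R
    have h6 : ∑ k ∈ R, (((∑ k, (a k : ℤ)) + 1 - m - Fintype.card V) * (a k % 2 : ℕ) +
      (a k : ℤ) * (a k - m)) ≤ ∑ k ∈ R, (a k : ℤ) * c0 :=
      Finset.sum_le_sum (fun k _ => h1 k)
    rw [Finset.sum_add_distrib] at h6
    rw [Finset.sum_add_distrib] at h5
    have h8 : ∑ k ∈ R, ((a k : ℤ) * (a k - m) - (a k % 2 : ℕ)) =
      ∑ k ∈ R, (a k : ℤ) * (a k - m) - ∑ k ∈ R, ((a k % 2 : ℕ) : ℤ) := Finset.sum_sub_distrib _ _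
    rw [h8]
    linarith

end TCM
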