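import Mathlib

set_option autoImplicit false

/-!
Total colourings of complete multipartite graphs: basic definitions, monotonicity, and the
bridge to the formulation of the frozen statement.
-/

namespace TCM

/-- A total colouring (colours `C`) of the complete multipartite graph with vertex set `U` and
part map `π : U → V` (two vertices are adjacent iff they are in different parts). -/
structure TCol {U V : Type} (π : U → V) (C : Type) where
  cv : U → C
  ce : U → U → C
  symm : ∀ u v, π u ≠ π v → ce u v = ce v u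
  vv : ∀ u v, π u ≠ π v → cv u ≠ cv v
  ve : ∀ u v, π u ≠ π v → cv u ≠ ce u v
  ee : ∀ u v w, π u ≠ π v → π u ≠ π w → v ≠ w → ce u v ≠ ce u w

def HasTC {U V : Type} (π : U → V) (C : Type) : Prop := Nonempty (TCol π C)

/-- Complete multipartite graph with parts indexed by `V`, sizes `a`, coloured with `N` colours. -/
def Col {V : Type} (a : V → ℕ) (N : ℕ) : Prop :=
  HasTC (fun u : (Σ i, Fin (a i)) => u.1) (Fin N)

theorem HasTC.mono {U V U' V' C C' : Type} {π : U → V} {π' : U' → V'}
    (h : HasTC π C) (f : U' → U) (hf : Function.Injective f)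
    (hπ : ∀ u v, π' u ≠ π' v → π (f u) ≠ π (f v))
    (g : C → C') (hg : Function.Injective g) : HasTC π' C' := by
  obtain ⟨h⟩ := h
  refine ⟨⟨fun u => g (h.cv (f u)), fun u v => g (h.ce (f u) (f v)), ?_, ?_, ?_, ?_⟩⟩
  · intro u v huv
    show g _ = g _
    rw [h.symm _ _ (hπ u v huv)]
  · intro u v huv e
    exact h.vv _ _ (hπ u v huv) (hg e)
  · intro u v huv e
    exact h.ve _ _ (hπ u v huv) (hg e)
  · intro u v w huv huw hvw e
    exact h.ee _ _ _ (hπ u v huv) (hπ u w huw) (fun e => hvw (hf e)) (hg e)

theorem HasTC.mono_colors {U V C C' : Type} {π : U → V}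
    (h : HasTC π C) (g : C → C') (hg : Function.Injective g) : HasTC π C' :=
  h.mono id Function.injective_id (fun _ _ h => h) g hg

/-- A colouring with a finite colour type gives a colouring with `Fin N` as soon as `card ≤ N`. -/
theorem HasTC.to_fin {U V C : Type} [Fintype C] {π : U → V} {N : ℕ}
    (h : HasTC π C) (hN : Fintype.card C ≤ N) : HasTC π (Fin N) :=
  h.mono_colors (fun c => Fin.castLE hN (Fintype.equivFin C c))
    (fun _ _ e => (Fintype.equivFin C).injective (Fin.castLE_injective hN e))

/-- Passing to a graph whose parts are refined (`a'` refines `a` along `f : V' → V`). -/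
theorem Col.of_refine {V V' : Type} {a : V → ℕ} {a' : V' → ℕ} {N : ℕ} (h : Col a' N)
    (f : (Σ i, Fin (a i)) → (Σ i, Fin (a' i))) (hf : Function.Injective f)
    (hπ : ∀ u v, (f u).1 = (f v).1 → u.1 = v.1) : Col a N :=
  HasTC.mono h f hf (fun u v huv e => huv (hπ u v e)) id Function.injective_id

theorem Col.mono {V : Type} {a : V → ℕ} {N N' : ℕ} (h : Col a N) (hN : N ≤ N') : Col a N' :=
  HasTC.mono_colors h (Fin.castLE hN) (Fin.castLE_injective hN)

/-- Invariance under renaming the parts. -/
theorem Col.of_equiv {V V' : Type} {a : V → ℕ} {a' : V' → ℕ} {N : ℕ} (h : Col a' N)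
    (e : V ≃ V') (he : ∀ i, a' (e i) = a i) : Col a N := by
  refine h.of_refine (fun u => ⟨e u.1, Fin.cast (he u.1).symm u.2⟩) ?_ ?_
  · rintro ⟨i, x⟩ ⟨j, y⟩ h
    have h1 : e i = e j := congrArg Sigma.fst h
    have h2 : i = j := e.injective h1
    subst h2
    simp only [Sigma.mk.injEq, heq_eq_eq, true_and] at h
    have h3 := congrArg Fin.val h
    simp at h3
    have : x = y := Fin.ext h3
    rw [this]
  · rintro ⟨i, x⟩ ⟨j, y⟩ h
    exact e.injective h

/-- Smaller parts. -/
theorem Col.of_le {V : Type} {a a' : V → ℕ} {N : ℕ} (h : Col a' N)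
    (he : ∀ i, a i ≤ a' i) : Col a N := by
  refine h.of_refine (fun u => ⟨u.1, Fin.castLE (he u.1) u.2⟩) ?_ ?_
  · rintro ⟨i, x⟩ ⟨j, y⟩ h
    have h1 : i = j := congrArg Sigma.fst h
    subst h1
    simp only [Sigma.mk.injEq, heq_eq_eq, true_and] at h
    rw [Fin.castLE_injective _ h]
  · rintro ⟨i, x⟩ ⟨j, y⟩ h
    exact h

/-- Splitting one part `j` into two parts of sizes `x` and `y` (`x + y = a j`). -/
theorem Col.of_split {V : Type} [DecidableEq V] {a : V → ℕ} {N : ℕ} (j : V) (x y : ℕ)
    (hxy : x + y = a j)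
    (h : Col (fun i : Option V => match i with
      | none => x
      | some i => if i = j then y else a i) N) : Col a N := by
  classical
  refine h.of_refine (fun u => if hu : u.1 = j ∧ u.2.val < x then ⟨none, ⟨u.2.val, hu.2⟩⟩
    else ⟨some u.1, ⟨if u.1 = j then u.2.val - x else u.2.val, ?_⟩⟩) ?_ ?_
  · rcases u with ⟨i, z⟩
    have hz := z.2
    dsimp only at hu ⊢
    by_cases hij : i = j
    · subst hij
      simp only [true_and, not_lt] at hu
      simp only [if_true]
      omega
    · simp only [if_neg hij]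
      exact hz
  · rintro ⟨i, z⟩ ⟨i', z'⟩ h
    dsimp only at h
    have hz := z.2
    have hz' := z'.2
    by_cases h1 : i = j ∧ z.val < x <;> by_cases h2 : i' = j ∧ z'.val < x
    · rw [dif_pos h1, dif_pos h2] at h
      obtain ⟨rfl, h1⟩ := h1
      obtain ⟨rfl, h2⟩ := h2
      simp only [Sigma.mk.injEq, heq_eq_eq, true_and, Fin.mk.injEq] at h
      rw [Fin.ext h]
    · rw [dif_pos h1, dif_neg h2] at h
      simp at h
    · rw [dif_neg h1, dif_pos h2] at h
      simp at h
    · rw [dif_neg h1, dif_neg h2] at h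
      have hi : i = i' := by
        have := congrArg Sigma.fst h
        simpa using this
      subst hi
      simp only [Sigma.mk.injEq, heq_eq_eq, true_and, Fin.mk.injEq] at h
      by_cases hij : i = j
      · subst hij
        simp only [true_and, not_lt] at h1 h2
        simp only [if_true] at h
        have : z = z' := Fin.ext (by omega)
        rw [this]
      · simp only [if_neg hij] at h
        rw [Fin.ext h]
  · rintro ⟨i, z⟩ ⟨i', z'⟩ h
    dsimp only at h ⊢
    by_cases h1 : i = j ∧ z.val < x <;> by_cases h2 : i' = j ∧ z'.val < x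
    · rw [h1.1, h2.1]
    · rw [dif_pos h1, dif_neg h2] at h
      simp at h
    · rw [dif_neg h1, dif_pos h2] at h
      simp at h
    · rw [dif_neg h1, dif_neg h2] at h
      simpa using h

/-- The formulation used by the frozen statement. -/
def FCol {p : ℕ} (a : Fin p → ℕ) (N : ℕ) : Prop :=
  ∃ cv : (Σ i : Fin p, Fin (a i)) → Fin N,
    ∃ ce : (SimpleGraph.completeMultipartiteGraph (fun i : Fin p => Fin (a i))).edgeSet →
      Fin N,
    (∀ u v : (Σ i : Fin p, Fin (a i)),
      (SimpleGraph.completeMultipartiteGraph (fun i : Fin p => Fin (a i))).Adj u v →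
        cv u ≠ cv v) ∧
    (∀ e f : (SimpleGraph.completeMultipartiteGraph (fun i : Fin p => Fin (a i))).edgeSet,
      e ≠ f → ∀ v : (Σ i : Fin p, Fin (a i)), v ∈ e.1 → v ∈ f.1 → ce e ≠ ce f) ∧
    (∀ e : (SimpleGraph.completeMultipartiteGraph (fun i : Fin p => Fin (a i))).edgeSet,
      ∀ v : (Σ i : Fin p, Fin (a i)), v ∈ e.1 → cv v ≠ ce e)

theorem adj_iff {p : ℕ} (a : Fin p → ℕ) (u v : Σ i : Fin p, Fin (a i)) :
    (SimpleGraph.completeMultipartiteGraph (fun i : Fin p => Fin (a i))).Adj u v ↔ u.1 ≠ v.1 := by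
  simp [SimpleGraph.completeMultipartiteGraph]

theorem FCol_iff {p : ℕ} (a : Fin p → ℕ) (N : ℕ) : FCol a N ↔ Col a N := by
  classical
  constructor
  · rintro ⟨cv, ce, h1, h2, h3⟩
    have hadj : ∀ u v : (Σ i : Fin p, Fin (a i)), u.1 ≠ v.1 →
        s(u, v) ∈ (SimpleGraph.completeMultipartiteGraph
          (fun i : Fin p => Fin (a i))).edgeSet := by
      intro u v huv
      rw [SimpleGraph.mem_edgeSet, adj_iff]
      exact huv
    refine ⟨⟨cv, fun u v => if h : u.1 ≠ v.1 then ce ⟨s(u, v), hadj u v h⟩ else cv u,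
      ?_, ?_, ?_, ?_⟩⟩
    · intro u v huv
      rw [dif_pos huv, dif_pos (Ne.symm huv)]
      congr 1
      apply Subtype.ext
      exact Sym2.eq_swap
    · intro u v huv
      exact h1 u v ((adj_iff a u v).2 huv)
    · intro u v huv
      rw [dif_pos huv]
      exact h3 _ u (by simp)
    · intro u v w huv huw hvw
      rw [dif_pos huv, dif_pos huw]
      refine h2 _ _ ?_ u (by simp) (by simp)
      intro e
      have := congrArg Subtype.val e
      simp only at this
      rw [Sym2.congr_right] at this
      exact hvw this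
  · rintro ⟨h⟩
    refine ⟨h.cv, fun e => h.ce (Quot.out e.1).1 (Quot.out e.1).2, ?_, ?_, ?_⟩
    · intro u v huv
      exact h.vv u v ((adj_iff a u v).1 huv)
    · intro e f hef v hve hvf
      have key : ∀ e : (SimpleGraph.completeMultipartiteGraph
          (fun i : Fin p => Fin (a i))).edgeSet, ∀ v ∈ e.1, ∃ w, e.1 = s(v, w) ∧ v.1 ≠ w.1 ∧
          h.ce (Quot.out e.1).1 (Quot.out e.1).2 = h.ce v w := by
        rintro ⟨e, he⟩ v hv
        have he2 : e = s((Quot.out e).1, (Quot.out e).2) := by
          conv_lhs => rw [← Quot.out_eq e]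
        have hadj : (Quot.out e).1.1 ≠ (Quot.out e).2.1 := by
          rw [he2, SimpleGraph.mem_edgeSet, adj_iff] at he
          exact he
        dsimp only at hv ⊢
        have hv2 : v ∈ s((Quot.out e).1, (Quot.out e).2) := he2 ▸ hv
        rw [Sym2.mem_iff] at hv2
        rcases hv2 with hv2 | hv2
        · refine ⟨(Quot.out e).2, ?_, ?_, ?_⟩
          · rw [hv2]; exact he2
          · rw [hv2]; exact hadj
          · rw [hv2]
        · refine ⟨(Quot.out e).1, ?_, ?_, ?_⟩
          · rw [hv2]
            conv_lhs => rw [he2]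
            exact Sym2.eq_swap
          · rw [hv2]; exact Ne.symm hadj
          · rw [hv2]
            exact h.symm _ _ hadj
      obtain ⟨w, hw1, hw2, hw3⟩ := key e v hve
      obtain ⟨w', hw1', hw2', hw3'⟩ := key f v hvf
      dsimp only
      rw [hw3, hw3']
      apply h.ee v w w' hw2 hw2'
      intro hww
      apply hef
      apply Subtype.ext
      rw [hw1, hw1', hww]
    · rintro ⟨e, he⟩ v hv
      have he2 : e = s((Quot.out e).1, (Quot.out e).2) := by
        conv_lhs => rw [← Quot.out_eq e]
      have hadj : (Quot.out e).1.1 ≠ (Quot.out e).2.1 := by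
        rw [he2, SimpleGraph.mem_edgeSet, adj_iff] at he
        exact he
      dsimp only at hv ⊢
      have hv2 : v ∈ s((Quot.out e).1, (Quot.out e).2) := he2 ▸ hv
      rw [Sym2.mem_iff] at hv2
      rcases hv2 with hv2 | hv2
      · conv_lhs => rw [hv2]
        exact h.ve _ _ hadj
      · conv_lhs => rw [hv2]
        rw [h.symm _ _ hadj]
        exact h.ve _ _ (Ne.symm hadj)

end TCM
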