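import Mathlib

set_option autoImplicit false

namespace TCM

open Finset

/-- Orientation of a multigraph with bounds on out- and in-degrees (with slack). -/
theorem exists_orientation {V : Type} [Fintype V] [DecidableEq V] (m : V → V → ℕ)
    (hs : ∀ j k, m j k = m k j) (h0 : ∀ j, m j j = 0) (U W σ : V → ℕ)
    (hdeg : ∀ j, (∑ k, m j k) + σ j = U j + W j)
    (hU : ∀ S : Finset V, ∑ j ∈ S, ∑ k ∈ S, m j k ≤ 2 * ∑ j ∈ S, U j)
    (hW : ∀ S : Finset V, ∑ j ∈ S, ∑ k ∈ S, m j k ≤ 2 * ∑ j ∈ S, W j) :
    ∃ z : V → V → ℕ, (∀ j k, z j k + z k j = m j k) ∧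
      (∀ j, ∑ k, z j k ≤ U j) ∧ (∀ j, ∑ k, z k j ≤ W j) := by
  classical
  let ef := Fintype.equivFin V
  let m' : V → V → ℕ := fun j k => if ef j < ef k then m j k else 0
  have hm' : ∀ j k, m' j k + m' k j = m j k := by
    intro j k
    simp only [m']
    rcases lt_trichotomy (ef j) (ef k) with h | h | h
    · rw [if_pos h, if_neg (lt_asymm h), add_zero]
    · have : j = k := ef.injective h
      subst this
      rw [h0]; simp
    · rw [if_neg (lt_asymm h), if_pos h, zero_add, hs]
  have hm'S : ∀ S : Finset V, 2 * ∑ j ∈ S, ∑ k ∈ S, m' j k = ∑ j ∈ S, ∑ k ∈ S, m j k := by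
    intro S
    have h1 : ∑ j ∈ S, ∑ k ∈ S, m j k = ∑ j ∈ S, ∑ k ∈ S, m' j k + ∑ j ∈ S, ∑ k ∈ S, m' k j := by
      rw [← Finset.sum_add_distrib]
      apply Finset.sum_congr rfl
      intro j _
      rw [← Finset.sum_add_distrib]
      exact Finset.sum_congr rfl (fun k _ => (hm' j k).symm)
    have h2 : ∑ j ∈ S, ∑ k ∈ S, m' k j = ∑ j ∈ S, ∑ k ∈ S, m' j k := Finset.sum_comm
    omega
  let E := Σ (jk : V × V), Fin (m' jk.1 jk.2)
  let nE := ∑ j, ∑ k, m' j k
  have hnE : 2 * nE = ∑ j, ∑ k, m j k := hm'S Finset.univ
  have hsum : ∑ j, ∑ k, m j k + ∑ j, σ j = ∑ j, U j + ∑ j, W j := by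
    rw [← Finset.sum_add_distrib, ← Finset.sum_add_distrib]
    exact Finset.sum_congr rfl (fun j _ => hdeg j)
  obtain ⟨Uω, hUω⟩ : ∃ Uω, Uω + ∑ j, U j = nE + ∑ j, σ j := by
    have h1 := hW Finset.univ
    exact ⟨nE + ∑ j, σ j - ∑ j, U j, by omega⟩
  let sl : Finset V → Finset ((Σ k, Fin (U k)) ⊕ Fin Uω) := fun S =>
    (S.sigma (fun k => (Finset.univ : Finset (Fin (U k))))).disjSum ∅
  let slω : Finset V → Finset ((Σ k, Fin (U k)) ⊕ Fin Uω) := fun S =>
    (S.sigma (fun k => (Finset.univ : Finset (Fin (U k))))).disjSum Finset.univ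
  have hsl : ∀ S, (sl S).card = ∑ k ∈ S, U k := by
    intro S
    simp only [sl, Finset.card_disjSum, Finset.card_sigma, Finset.card_univ, Fintype.card_fin,
      Finset.card_empty, add_zero]
  have hslω : ∀ S, (slω S).card = ∑ k ∈ S, U k + Uω := by
    intro S
    simp only [slω, Finset.card_disjSum, Finset.card_sigma, Finset.card_univ, Fintype.card_fin]
  let t : ((Σ (jk : V × V), Fin (m' jk.1 jk.2)) ⊕ (Σ k, Fin (σ k))) → Finset ((Σ k, Fin (U k)) ⊕ Fin Uω) := fun x => match x with
    | Sum.inl e => sl {e.1.1, e.1.2}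
    | Sum.inr k => slω {k.1}
  have hE : ∀ S : Finset V, ((S ×ˢ S).sigma
      (fun jk => (Finset.univ : Finset (Fin (m' jk.1 jk.2))))).card =
      ∑ j ∈ S, ∑ k ∈ S, m' j k := by
    intro S
    rw [Finset.card_sigma]
    simp only [Finset.card_univ, Fintype.card_fin]
    rw [Finset.sum_product]
  have hall : ∀ s : Finset ((Σ (jk : V × V), Fin (m' jk.1 jk.2)) ⊕ (Σ k, Fin (σ k))), s.card ≤ (s.biUnion t).card := by
    intro s
    let ends : ((Σ (jk : V × V), Fin (m' jk.1 jk.2)) ⊕ (Σ k, Fin (σ k))) → Finset V := fun x => match x with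
      | Sum.inl e => {e.1.1, e.1.2}
      | Sum.inr k => {k.1}
    let S := s.biUnion ends
    by_cases hslack : ∃ k, Sum.inr k ∈ s
    · -- with slack
      obtain ⟨k0, hk0⟩ := hslack
      have h1 : s ⊆ (((S ×ˢ S).sigma
          (fun jk => (Finset.univ : Finset (Fin (m' jk.1 jk.2))))).disjSum
          (S.sigma (fun k => (Finset.univ : Finset (Fin (σ k)))))) := by
        intro x hx
        rcases x with e | k
        · rw [Finset.inl_mem_disjSum, Finset.mem_sigma, Finset.mem_product]
          refine ⟨⟨?_, ?_⟩, Finset.mem_univ _⟩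
          · exact Finset.mem_biUnion.2 ⟨_, hx, by simp [ends]⟩
          · exact Finset.mem_biUnion.2 ⟨_, hx, by simp [ends]⟩
        · rw [Finset.inr_mem_disjSum, Finset.mem_sigma]
          exact ⟨Finset.mem_biUnion.2 ⟨_, hx, by simp [ends]⟩, Finset.mem_univ _⟩
      have h2 := Finset.card_le_card h1
      rw [Finset.card_disjSum, hE, Finset.card_sigma] at h2
      simp only [Finset.card_univ, Fintype.card_fin] at h2
      have h3 : slω S ⊆ s.biUnion t := by
        intro a ha
        rw [Finset.mem_biUnion]
        rcases a with a | a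
        · simp only [slω, Finset.inl_mem_disjSum, Finset.mem_sigma, Finset.mem_univ,
            and_true] at ha
          obtain ⟨x, hx, hxa⟩ := Finset.mem_biUnion.1 ha
          simp only [ends] at hxa
          refine ⟨x, hx, ?_⟩
          rcases x with e | k
          · simp only [t, sl, Finset.inl_mem_disjSum, Finset.mem_sigma, Finset.mem_univ, and_true]
            exact hxa
          · simp only [t, slω, Finset.inl_mem_disjSum, Finset.mem_sigma, Finset.mem_univ, and_true]
            exact hxa
        · exact ⟨_, hk0, by simp [t, slω]⟩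
      have h4 := Finset.card_le_card h3
      rw [hslω] at h4
      -- arithmetic
      have h5 := hm'S S
      have h6 := hW Sᶜ
      have hcS : ∑ j ∈ S, U j + ∑ j ∈ Sᶜ, U j = ∑ j, U j := Finset.sum_add_sum_compl S _
      have hcσ : ∑ j ∈ S, σ j + ∑ j ∈ Sᶜ, σ j = ∑ j, σ j := Finset.sum_add_sum_compl S _
      have hd : ∑ j ∈ Sᶜ, ∑ k, m j k + ∑ j ∈ Sᶜ, σ j = ∑ j ∈ Sᶜ, U j + ∑ j ∈ Sᶜ, W j := by
        rw [← Finset.sum_add_distrib, ← Finset.sum_add_distrib]
        exact Finset.sum_congr rfl (fun j _ => hdeg j)
      have hd1 : ∑ j ∈ Sᶜ, ∑ k, m j k = ∑ j ∈ Sᶜ, ∑ k ∈ S, m j k + ∑ j ∈ Sᶜ, ∑ k ∈ Sᶜ, m j k := by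
        rw [← Finset.sum_add_distrib]
        exact Finset.sum_congr rfl (fun j _ => (Finset.sum_add_sum_compl S _).symm)
      have hd2 : ∑ j ∈ S, ∑ k, m j k = ∑ j ∈ S, ∑ k ∈ S, m j k + ∑ j ∈ S, ∑ k ∈ Sᶜ, m j k := by
        rw [← Finset.sum_add_distrib]
        exact Finset.sum_congr rfl (fun j _ => (Finset.sum_add_sum_compl S _).symm)
      have hd3 : ∑ j ∈ S, ∑ k ∈ Sᶜ, m j k = ∑ j ∈ Sᶜ, ∑ k ∈ S, m j k := by
        rw [Finset.sum_comm]
        exact Finset.sum_congr rfl (fun j _ => Finset.sum_congr rfl (fun k _ => hs k j))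
      have hd4 : ∑ j ∈ S, ∑ k, m j k + ∑ j ∈ Sᶜ, ∑ k, m j k = ∑ j, ∑ k, m j k :=
        Finset.sum_add_sum_compl S _
      omega
    · have h1 : s ⊆ (((S ×ˢ S).sigma
          (fun jk => (Finset.univ : Finset (Fin (m' jk.1 jk.2))))).disjSum ∅) := by
        intro x hx
        rcases x with e | k
        · rw [Finset.inl_mem_disjSum, Finset.mem_sigma, Finset.mem_product]
          refine ⟨⟨?_, ?_⟩, Finset.mem_univ _⟩
          · exact Finset.mem_biUnion.2 ⟨_, hx, by simp [ends]⟩
          · exact Finset.mem_biUnion.2 ⟨_, hx, by simp [ends]⟩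
        · exact absurd ⟨k, hx⟩ hslack
      have h2 := Finset.card_le_card h1
      rw [Finset.card_disjSum, hE, Finset.card_empty, add_zero] at h2
      have h3 : sl S ⊆ s.biUnion t := by
        intro a ha
        rw [Finset.mem_biUnion]
        rcases a with a | a
        · simp only [sl, Finset.inl_mem_disjSum, Finset.mem_sigma, Finset.mem_univ,
            and_true] at ha
          obtain ⟨x, hx, hxa⟩ := Finset.mem_biUnion.1 ha
          simp only [ends] at hxa
          refine ⟨x, hx, ?_⟩
          rcases x with e | k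
          · simp only [t, sl, Finset.inl_mem_disjSum, Finset.mem_sigma, Finset.mem_univ, and_true]
            exact hxa
          · simp only [t, slω, Finset.inl_mem_disjSum, Finset.mem_sigma, Finset.mem_univ, and_true]
            exact hxa
        · simp [sl] at ha
      have h4 := Finset.card_le_card h3
      rw [hsl] at h4
      have h5 := hm'S S
      have h6 := hU S
      omega
  obtain ⟨f, hf, hft⟩ := (Finset.all_card_le_biUnion_card_iff_exists_injective t).1 hall
  have hcardE : Fintype.card E = nE := by
    simp only [E, Fintype.card_sigma, Fintype.card_fin, nE]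
    rw [Fintype.sum_prod_type]
  have hcard : Fintype.card ((Σ (jk : V × V), Fin (m' jk.1 jk.2)) ⊕ (Σ k, Fin (σ k))) = Fintype.card ((Σ k, Fin (U k)) ⊕ Fin Uω) := by
    have h1 : Fintype.card (Σ k, Fin (σ k)) = ∑ k, σ k := by simp [Fintype.card_sigma]
    have h2 : Fintype.card (Σ k, Fin (U k)) = ∑ k, U k := by simp [Fintype.card_sigma]
    rw [Fintype.card_sum, Fintype.card_sum, h1, h2, Fintype.card_fin]
    change Fintype.card E + _ = _
    omega
  have hbij : Function.Bijective f := (Fintype.bijective_iff_injective_and_card f).2 ⟨hf, hcard⟩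
  -- tail relation
  let tl : E → V → Prop := fun x j => f (Sum.inl x) ∈ sl {j}
  have htl_mem : ∀ x j, tl x j → j = x.1.1 ∨ j = x.1.2 := by
    intro x j hx
    have h1 : f (Sum.inl x) ∈ sl {x.1.1, x.1.2} := hft (Sum.inl x)
    have hx' : f (Sum.inl x) ∈ sl {j} := hx
    rcases hfx : f (Sum.inl x) with a | a
    · rw [hfx] at h1 hx'
      simp only [sl, Finset.inl_mem_disjSum, Finset.mem_sigma, Finset.mem_univ, and_true,
        Finset.mem_insert, Finset.mem_singleton] at h1 hx'
      rw [← hx']
      exact h1
    · rw [hfx] at h1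
      simp [sl] at h1
  have htl_ex : ∀ x : E, tl x x.1.1 ∨ tl x x.1.2 := by
    intro x
    have h1 : f (Sum.inl x) ∈ sl {x.1.1, x.1.2} := hft (Sum.inl x)
    rcases hfx : f (Sum.inl x) with a | a
    · rw [hfx] at h1
      simp only [sl, Finset.inl_mem_disjSum, Finset.mem_sigma, Finset.mem_univ, and_true,
        Finset.mem_insert, Finset.mem_singleton] at h1
      simp only [tl, hfx, sl, Finset.inl_mem_disjSum, Finset.mem_sigma, Finset.mem_univ,
        and_true, Finset.mem_singleton]
      exact h1
    · rw [hfx] at h1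
      simp [sl] at h1
  have htl_uniq : ∀ x j k, tl x j → tl x k → j = k := by
    intro x j k hj hk
    have hj' : f (Sum.inl x) ∈ sl {j} := hj
    have hk' : f (Sum.inl x) ∈ sl {k} := hk
    rcases hfx : f (Sum.inl x) with a | a
    · rw [hfx] at hj' hk'
      simp only [sl, Finset.inl_mem_disjSum, Finset.mem_sigma, Finset.mem_univ, and_true,
        Finset.mem_singleton] at hj' hk'
      rw [← hj', ← hk']
    · rw [hfx] at hj'
      simp [sl] at hj'
  have hne : ∀ x : E, x.1.1 ≠ x.1.2 := by
    intro x hx
    have h1 := x.2.pos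
    simp only [m'] at h1
    rw [hx] at h1
    simp at h1
  let z : V → V → ℕ := fun j k =>
    (Finset.univ.filter (fun x : E => (x.1 = (j, k) ∨ x.1 = (k, j)) ∧ tl x j)).card
  have hz : ∀ j k, z j k + z k j = m j k := by
    intro j k
    by_cases hjk : j = k
    · subst hjk
      have : z j j = 0 := by
        simp only [z]
        rw [Finset.card_eq_zero, Finset.filter_eq_empty_iff]
        intro x _ hx
        apply hne x
        rcases hx.1 with h | h <;> rw [h]
      rw [this, h0]
    · have h1 : z j k + z k j =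
          (Finset.univ.filter (fun x : E => x.1 = (j, k) ∨ x.1 = (k, j))).card := by
        simp only [z]
        rw [← Finset.card_union_of_disjoint]
        · congr 1
          ext x
          simp only [Finset.mem_union, Finset.mem_filter, Finset.mem_univ, true_and]
          constructor
          · rintro (h | h)
            · exact h.1
            · exact h.1.symm
          · intro h
            have h2 := htl_ex x
            rcases h with h | h
            · rw [h] at h2
              rcases h2 with h2 | h2
              · left; exact ⟨Or.inl h, h2⟩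
              · right; exact ⟨Or.inr h, h2⟩
            · rw [h] at h2
              rcases h2 with h2 | h2
              · right; exact ⟨Or.inl h, h2⟩
              · left; exact ⟨Or.inr h, h2⟩
        · rw [Finset.disjoint_left]
          intro x hx hx'
          simp only [Finset.mem_filter, Finset.mem_univ, true_and] at hx hx'
          exact hjk (htl_uniq x j k hx.2 hx'.2)
      have h2 : ∀ j k, (Finset.univ.filter (fun x : E => x.1 = (j, k))).card = m' j k := by
        intro j k
        have : (Finset.univ.filter (fun e : E => e.1 = (j, k))) =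
            (Finset.univ : Finset (Fin (m' j k))).map
              ⟨fun x => (⟨(j, k), x⟩ : E), fun x y h => by
                simpa using h⟩ := by
          ext e
          simp only [Finset.mem_filter, Finset.mem_univ, true_and, Finset.mem_map]
          constructor
          · rintro he
            rcases e with ⟨rc, x⟩
            dsimp only at he
            subst he
            exact ⟨x, rfl⟩
          · rintro ⟨x, rfl⟩
            rfl
        rw [this, Finset.card_map, Finset.card_univ, Fintype.card_fin]
      rw [h1, Finset.filter_or, Finset.card_union_of_disjoint, h2, h2, hm']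
      rw [Finset.disjoint_left]
      intro x hx hx'
      simp only [Finset.mem_filter, Finset.mem_univ, true_and] at hx hx'
      rw [hx] at hx'
      exact hjk (Prod.ext_iff.1 hx').1
  have hout : ∀ j, ∑ k, z j k = (Finset.univ.filter (fun x : E => tl x j)).card := by
    intro j
    simp only [z]
    rw [← Finset.card_biUnion]
    · congr 1
      ext x
      simp only [Finset.mem_biUnion, Finset.mem_filter, Finset.mem_univ, true_and]
      constructor
      · rintro ⟨k, _, h⟩; exact h
      · intro h
        rcases htl_mem x j h with h1 | h1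
        · exact ⟨x.1.2, Or.inl (by rw [h1]), h⟩
        · exact ⟨x.1.1, Or.inr (by rw [h1]), h⟩
    · intro k _ k' _ hkk
      rw [Function.onFun, Finset.disjoint_left]
      intro x hx hx'
      simp only [Finset.mem_filter, Finset.mem_univ, true_and] at hx hx'
      have h3 := hne x
      rcases hx.1 with h1 | h1 <;> rcases hx'.1 with h2 | h2
      · rw [h1] at h2
        exact hkk (Prod.ext_iff.1 h2).2
      · rw [h1] at h2 h3
        have h4 := Prod.ext_iff.1 h2
        exact h3 h4.2.symm
      · rw [h1] at h2 h3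
        have h4 := Prod.ext_iff.1 h2
        exact h3 h4.1
      · rw [h1] at h2
        exact hkk (Prod.ext_iff.1 h2).1
  have hout1 : ∀ j, ∑ k, z j k ≤ U j := by
    intro j
    rw [hout]
    have h1 := hsl {j}
    rw [Finset.sum_singleton] at h1
    rw [← h1]
    apply Finset.card_le_card_of_injOn (fun x => f (Sum.inl x))
    · intro x hx
      simp only [Finset.coe_filter, Finset.mem_univ, true_and] at hx
      exact hx
    · intro x _ y _ hxy
      exact Sum.inl_injective (hf hxy)
  have hout2 : ∀ j, U j ≤ (∑ k, z j k) + σ j := by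
    intro j
    rw [hout]
    have h1 := hsl {j}
    rw [Finset.sum_singleton] at h1
    have h2 : (sl {j}).card ≤ ((Finset.univ.filter (fun x : E => tl x j)).disjSum
        (({j} : Finset V).sigma (fun k => (Finset.univ : Finset (Fin (σ k)))))).card := by
      apply Finset.card_le_card_of_surjOn f
      intro a ha
      obtain ⟨x, hx⟩ := hbij.2 a
      refine ⟨x, ?_, hx⟩
      rw [Finset.mem_coe] at ha ⊢
      rcases x with x | y
      · rw [Finset.inl_mem_disjSum, Finset.mem_filter]
        refine ⟨Finset.mem_univ _, ?_⟩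
        show f (Sum.inl x) ∈ sl {j}
        rw [hx]; exact ha
      · rw [Finset.inr_mem_disjSum, Finset.mem_sigma]
        refine ⟨?_, Finset.mem_univ _⟩
        have h3 : f (Sum.inr y) ∈ slω {y.1} := hft (Sum.inr y)
        rw [hx] at h3
        rcases a with a | a
        · simp only [sl, slω, Finset.inl_mem_disjSum, Finset.mem_sigma, Finset.mem_univ,
            and_true, Finset.mem_singleton] at ha h3
          rw [Finset.mem_singleton, ← h3, ha]
        · simp [sl] at ha
    rw [h1, Finset.card_disjSum, Finset.card_sigma] at h2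
    simpa using h2
  refine ⟨z, hz, hout1, ?_⟩
  intro j
  have h1 : ∑ k, z j k + ∑ k, z k j = ∑ k, m j k := by
    rw [← Finset.sum_add_distrib]
    exact Finset.sum_congr rfl (fun k _ => hz j k)
  have h2 := hout2 j
  have h3 := hdeg j
  omega

end TCM
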