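import Pool.Agent.Lib.MP_c70440_co.Outline
import Pool.Agent.Lib.MP_c70440_co.Orient

set_option autoImplicit false

namespace TCM

open Finset

/-- Decomposition of a multigraph (with loops `L` and vertex units `d`) into `γ` classes of
degree at most `a`. -/
theorem exists_classes {V : Type} [Fintype V] [DecidableEq V] (a : V → ℕ) (m : V → V → ℕ)
    (L d σ u w : V → ℕ) (γ : ℕ)
    (hs : ∀ j k, m j k = m k j) (h0 : ∀ j, m j j = 0) (huw : ∀ k, u k + w k = a k)
    (hdeg : ∀ k, (∑ j, m k j) + 2 * L k + d k + σ k = γ * a k)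
    (hd : ∑ k, d k ≤ γ)
    (hU : ∀ S : Finset V, ∑ j ∈ S, ∑ k ∈ S, m j k + 2 * ∑ j ∈ S, L j ≤ 2 * (γ * ∑ j ∈ S, u j))
    (hW : ∀ S : Finset V, ∑ j ∈ S, ∑ k ∈ S, m j k + 2 * ∑ j ∈ S, L j + 2 * ∑ j ∈ S, d j ≤
      2 * (γ * ∑ j ∈ S, w j)) :
    ∃ (x : Fin γ → V → V → ℕ) (l y : Fin γ → V → ℕ),
      (∀ c j k, x c j k = x c k j) ∧ (∀ c j, x c j j = 0) ∧ (∀ j k, ∑ c, x c j k = m j k) ∧
      (∀ j, ∑ c, l c j = L j) ∧ (∀ j, ∑ c, y c j = d j) ∧
      (∀ c j, (∑ k, x c j k) + 2 * l c j + y c j ≤ a j) ∧ (∀ c, ∑ j, y c j ≤ 1) := by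
  classical
  have hU1 : ∀ j, L j ≤ γ * u j := by
    intro j
    have := hU {j}
    simp only [Finset.sum_singleton, h0] at this
    omega
  have hW1 : ∀ j, L j + d j ≤ γ * w j := by
    intro j
    have := hW {j}
    simp only [Finset.sum_singleton, h0] at this
    omega
  obtain ⟨z, hz1, hz2, hz3⟩ := exists_orientation m hs h0 (fun j => γ * u j - L j)
    (fun j => γ * w j - L j - d j) σ
    (by
      intro j
      have h1 := hdeg j
      have h2 := hU1 j
      have h3 := hW1 j
      have h4 : γ * a j = γ * u j + γ * w j := by rw [← huw j]; ring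
      omega)
    (by
      intro S
      have h1 := hU S
      have h2 : ∑ j ∈ S, (γ * u j - L j) + ∑ j ∈ S, L j = γ * ∑ j ∈ S, u j := by
        rw [← Finset.sum_add_distrib, Finset.mul_sum]
        exact Finset.sum_congr rfl (fun j _ => by have := hU1 j; omega)
      omega)
    (by
      intro S
      have h1 := hW S
      have h2 : ∑ j ∈ S, (γ * w j - L j - d j) + ∑ j ∈ S, L j + ∑ j ∈ S, d j =
          γ * ∑ j ∈ S, w j := by
        rw [← Finset.sum_add_distrib, ← Finset.sum_add_distrib, Finset.mul_sum]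
        exact Finset.sum_congr rfl (fun j _ => by have := hW1 j; omega)
      omega)
  have hzd : ∀ j, z j j = 0 := by
    intro j
    have := hz1 j j
    rw [h0] at this
    omega
  let M : Option V → V → ℕ := fun o k => match o with
    | none => d k
    | some j => if j = k then L j else z j k
  let ρ : Option V → ℕ := fun o => match o with
    | none => 1
    | some j => u j
  have hrow : ∀ j, ∑ k, (if j = k then L j else z j k) = L j + ∑ k, z j k := by
    intro j
    rw [← Finset.add_sum_erase _ _ (Finset.mem_univ j),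
      ← Finset.add_sum_erase _ (fun k => z j k) (Finset.mem_univ j), if_pos rfl, hzd, zero_add]
    congr 1
    apply Finset.sum_congr rfl
    intro k hk
    rw [Finset.mem_erase] at hk
    rw [if_neg (Ne.symm hk.1)]
  have hcol : ∀ k, ∑ j, (if j = k then L j else z j k) = L k + ∑ j, z j k := by
    intro k
    rw [← Finset.add_sum_erase _ _ (Finset.mem_univ k),
      ← Finset.add_sum_erase _ (fun j => z j k) (Finset.mem_univ k), if_pos rfl, hzd, zero_add]
    congr 1
    apply Finset.sum_congr rfl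
    intro j hj
    rw [Finset.mem_erase] at hj
    rw [if_neg hj.1]
  obtain ⟨D, hD1, hD2, hD3⟩ := bd_decomp M γ ρ w
    (by
      rintro (_ | j)
      · simp only [M, ρ, mul_one]; exact hd
      · simp only [M, ρ]
        rw [hrow]
        have h1 := hz2 j
        have h2 := hU1 j
        omega)
    (by
      intro k
      rw [Fintype.sum_option]
      simp only [M]
      rw [hcol]
      have h1 := hz3 k
      have h2 := hW1 k
      omega)
  refine ⟨fun c j k => if j = k then 0 else D c (some j) k + D c (some k) j,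
    fun c j => D c (some j) j, fun c j => D c none j, ?_, ?_, ?_, ?_, ?_, ?_, ?_⟩
  · intro c j k
    dsimp only
    by_cases h : j = k
    · rw [if_pos h, if_pos h.symm]
    · rw [if_neg h, if_neg (Ne.symm h), add_comm]
  · intro c j
    dsimp only
    rw [if_pos rfl]
  · intro j k
    dsimp only
    by_cases h : j = k
    · subst h
      simp only [if_true, Finset.sum_const_zero, h0]
    · simp only [if_neg h]
      rw [Finset.sum_add_distrib, hD1, hD1]
      simp only [M]
      rw [if_neg h, if_neg (Ne.symm h), hz1]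
  · intro j
    rw [hD1]
    simp only [M, if_true]
  · intro j
    rw [hD1]
  · intro c j
    dsimp only
    have h1 := hD2 c (some j)
    have h2 := hD3 c j
    rw [Fintype.sum_option] at h2
    simp only [ρ] at h1
    have h3 : ∑ k, (if j = k then 0 else D c (some j) k + D c (some k) j) + 2 * D c (some j) j =
        ∑ k, D c (some j) k + ∑ k, D c (some k) j := by
      rw [← Finset.sum_add_distrib, ← Finset.add_sum_erase _ _ (Finset.mem_univ j),
        ← Finset.add_sum_erase _ (fun k => D c (some j) k + D c (some k) j) (Finset.mem_univ j),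
        if_pos rfl]
      have h4 : ∑ k ∈ Finset.univ.erase j, (if j = k then 0 else D c (some j) k + D c (some k) j) =
          ∑ k ∈ Finset.univ.erase j, (D c (some j) k + D c (some k) j) := by
        apply Finset.sum_congr rfl
        intro k hk
        rw [Finset.mem_erase] at hk
        rw [if_neg (Ne.symm hk.1)]
      rw [h4]
      omega
    have h5 := huw j
    omega
  · intro c
    exact hD2 c none

/-- Hall conditions from cut conditions. -/
theorem hall_of_cut {V : Type} [Fintype V] [DecidableEq V] (a : V → ℕ) (m : V → V → ℕ)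
    (L d σ u w : V → ℕ) (γ : ℕ)
    (huw : ∀ k, u k + w k = a k)
    (hdeg : ∀ k, (∑ j, m k j) + 2 * L k + d k + σ k = γ * a k) (S : Finset V)
    (h1 : 0 ≤ (γ : ℤ) * (∑ k ∈ S, ((u k : ℤ) - w k)) + ∑ k ∈ S, (σ k : ℤ) + ∑ k ∈ S, (d k : ℤ) +
      ∑ j ∈ S, ∑ k ∈ Sᶜ, (m j k : ℤ))
    (h2 : (γ : ℤ) * (∑ k ∈ S, ((u k : ℤ) - w k)) ≤ ∑ k ∈ S, (σ k : ℤ) - ∑ k ∈ S, (d k : ℤ) +
      ∑ j ∈ S, ∑ k ∈ Sᶜ, (m j k : ℤ)) :
    (∑ j ∈ S, ∑ k ∈ S, m j k + 2 * ∑ j ∈ S, L j ≤ 2 * (γ * ∑ j ∈ S, u j)) ∧
    (∑ j ∈ S, ∑ k ∈ S, m j k + 2 * ∑ j ∈ S, L j + 2 * ∑ j ∈ S, d j ≤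
      2 * (γ * ∑ j ∈ S, w j)) := by
  have e1 : ∑ k ∈ S, ((∑ j, m k j) + 2 * L k + d k + σ k) = ∑ k ∈ S, γ * (u k + w k) :=
    Finset.sum_congr rfl (fun k _ => by rw [hdeg k, huw k])
  have e2 : ∑ k ∈ S, ∑ j, m k j = ∑ j ∈ S, ∑ k ∈ S, m j k + ∑ j ∈ S, ∑ k ∈ Sᶜ, m j k := by
    rw [← Finset.sum_add_distrib]
    exact Finset.sum_congr rfl (fun j _ => (Finset.sum_add_sum_compl S _).symm)
  rw [Finset.sum_add_distrib, Finset.sum_add_distrib, Finset.sum_add_distrib, e2,
    ← Finset.mul_sum, ← Finset.mul_sum, Finset.sum_add_distrib] at e1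
  rw [Finset.sum_sub_distrib] at h1 h2
  zify at e1
  constructor
  · zify
    nlinarith
  · zify
    nlinarith

/-- The framework theorem (no clique node): special classes `T` plus `γ` uniform classes. -/
theorem framework {V T : Type} [Fintype V] [DecidableEq V] [Fintype T] [DecidableEq T]
    (a : V → ℕ) (τ : T → V) (s : T → ℕ) (G : T → V → V → ℕ) (γ : ℕ) (d σ u w : V → ℕ)
    (hGs : ∀ i j k, G i j k = G i k j) (hG0 : ∀ i j, G i j j = 0)
    (hGd : ∀ i k, (∑ j, G i k j) + (if k = τ i then s i else 0) ≤ a k)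
    (hX : ∀ j k, j ≠ k → ∑ i, G i j k ≤ a j * a k)
    (hdk : ∀ k, ∑ i, (if k = τ i then s i else 0) + d k = a k)
    (hd : ∑ k, d k ≤ γ) (huw : ∀ k, u k + w k = a k)
    (hdeg : ∀ k, a k * ((∑ j, a j) - a k) + d k + σ k = γ * a k + ∑ i, ∑ j, G i k j)
    (hcut1 : ∀ S : Finset V, 0 ≤ (γ : ℤ) * (∑ k ∈ S, ((u k : ℤ) - w k)) + ∑ k ∈ S, (σ k : ℤ) +
      ∑ k ∈ S, (d k : ℤ) + ∑ j ∈ S, ∑ k ∈ Sᶜ, ((a j : ℤ) * a k - ∑ i, (G i j k : ℤ)))
    (hcut2 : ∀ S : Finset V, (γ : ℤ) * (∑ k ∈ S, ((u k : ℤ) - w k)) ≤ ∑ k ∈ S, (σ k : ℤ) -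
      ∑ k ∈ S, (d k : ℤ) + ∑ j ∈ S, ∑ k ∈ Sᶜ, ((a j : ℤ) * a k - ∑ i, (G i j k : ℤ))) :
    Col a (Fintype.card T + γ) := by
  classical
  let m : V → V → ℕ := fun j k => if j = k then 0 else a j * a k - ∑ i, G i j k
  have hms : ∀ j k, m j k = m k j := by
    intro j k
    simp only [m]
    by_cases h : j = k
    · rw [if_pos h, if_pos h.symm]
    · rw [if_neg h, if_neg (Ne.symm h), mul_comm]
      congr 1
      exact Finset.sum_congr rfl (fun i _ => hGs i j k)
  have hm0 : ∀ j, m j j = 0 := by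
    intro j; simp only [m, if_true]
  have hmX : ∀ j k, j ≠ k → m j k + ∑ i, G i j k = a j * a k := by
    intro j k h
    have := hX j k h
    simp only [m, if_neg h]
    omega
  have hdeg' : ∀ k, (∑ j, m k j) + 2 * 0 + d k + σ k = γ * a k := by
    intro k
    have h1 : ∑ j, m k j + ∑ i, ∑ j, G i k j = a k * ((∑ j, a j) - a k) := by
      rw [Finset.sum_comm, ← Finset.sum_add_distrib,
        ← Finset.add_sum_erase _ _ (Finset.mem_univ k), hm0,
        ← Finset.add_sum_erase _ a (Finset.mem_univ k), Nat.add_sub_cancel_left,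
        Finset.mul_sum]
      have h2 : ∑ i, G i k k = 0 := Finset.sum_eq_zero (fun i _ => hG0 i k)
      rw [h2, add_zero, zero_add]
      apply Finset.sum_congr rfl
      intro j hj
      rw [Finset.mem_erase] at hj
      exact hmX k j (Ne.symm hj.1)
    have h3 := hdeg k
    omega
  have hcut : ∀ S : Finset V, ∑ j ∈ S, ∑ k ∈ Sᶜ, ((a j : ℤ) * a k - ∑ i, (G i j k : ℤ)) =
      ∑ j ∈ S, ∑ k ∈ Sᶜ, (m j k : ℤ) := by
    intro S
    apply Finset.sum_congr rfl
    intro j hj
    apply Finset.sum_congr rfl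
    intro k hk
    have hjk : j ≠ k := by
      intro e
      rw [Finset.mem_compl] at hk
      exact hk (e ▸ hj)
    have := hmX j k hjk
    zify at this
    linarith
  obtain ⟨x0, l0, y0, hx1, hx2, hx3, hl, hy, hxd, hyd⟩ := exists_classes a m (fun _ => 0) d σ u w γ
    hms hm0 huw hdeg' hd
    (fun S => (hall_of_cut a m (fun _ => 0) d σ u w γ huw hdeg' S
      (by rw [← hcut]; exact hcut1 S) (by rw [← hcut]; exact hcut2 S)).1)
    (fun S => (hall_of_cut a m (fun _ => 0) d σ u w γ huw hdeg' S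
      (by rw [← hcut]; exact hcut1 S) (by rw [← hcut]; exact hcut2 S)).2)
  let x : T ⊕ Fin γ → V → V → ℕ := fun c => match c with
    | Sum.inl i => G i
    | Sum.inr c => x0 c
  let y : T ⊕ Fin γ → V → ℕ := fun c k => match c with
    | Sum.inl i => if k = τ i then s i else 0
    | Sum.inr c => y0 c k
  have hO : Outline (fun k : V => k) a x y := by
    constructor
    · rintro (i | c) j k
      · exact hGs i j k
      · exact hx1 c j k
    · rintro (i | c) j k h
      · have h' : j = k := h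
        subst h'; exact hG0 i j
      · have h' : j = k := h
        subst h'; exact hx2 c j
    · intro j k h
      rw [Fintype.sum_sum_type]
      simp only [x]
      rw [hx3, add_comm]
      exact hmX j k h
    · intro k
      rw [Fintype.sum_sum_type]
      simp only [y]
      rw [hy]
      exact hdk k
    · rintro (i | c) k
      · exact hGd i k
      · simp only [x, y]
        have := hxd c k
        omega
    · rintro (i | c) j k hj hk
      · simp only [y] at hj hk
        have h1 : j = τ i := by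
          by_contra h; rw [if_neg h] at hj; exact hj rfl
        have h2 : k = τ i := by
          by_contra h; rw [if_neg h] at hk; exact hk rfl
        exact h1.trans h2.symm
      · simp only [y] at hj hk
        show j = k
        by_contra hne
        have h1 := hyd c
        have h2 : y0 c j + y0 c k ≤ ∑ j, y0 c j := by
          rw [← Finset.sum_pair hne]
          exact Finset.sum_le_sum_of_subset (Finset.subset_univ _)
        omega
  exact hO.hasTC.to_fin (by simp)

end TCM
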