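import Pool.Agent.Lib.MP_c70440_co.Outline

set_option autoImplicit false

namespace TCM

open Finset

/-- Outline total colouring with an additional clique node of size `r`: `g c w` edges of colour
`c` between the clique node and `w`, `l c` loops, `z c` vertex units. -/
structure OutlineM {W V C : Type} [Fintype W] [Fintype C] (π : W → V) (b : W → ℕ)
    (x : C → W → W → ℕ) (y : C → W → ℕ) (r : ℕ) (g : C → W → ℕ) (l : C → ℕ) (z : C → ℕ) :
    Prop where
  symm : ∀ c w w', x c w w' = x c w' w
  zero : ∀ c w w', π w = π w' → x c w w' = 0
  tot : ∀ w w', π w ≠ π w' → ∑ c, x c w w' = b w * b w'
  vtot : ∀ w, ∑ c, y c w = b w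
  deg : ∀ c w, (∑ w', x c w w') + g c w + y c w ≤ b w
  vpart : ∀ c w w', y c w ≠ 0 → y c w' ≠ 0 → π w = π w'
  gtot : ∀ w, ∑ c, g c w = r * b w
  ltot : 2 * ∑ c, l c = r * (r - 1)
  ztot : ∑ c, z c = r
  mdeg : ∀ c, (∑ w, g c w) + 2 * l c + z c ≤ r
  zpart : ∀ c w, z c ≠ 0 → y c w = 0
  zle : ∀ c, z c ≤ 1

theorem OutlineM.hasTC : ∀ (r : ℕ) {W V C : Type} [Fintype W] [Fintype C] {π : W → V}
    {b : W → ℕ} {x : C → W → W → ℕ} {y : C → W → ℕ} {g : C → W → ℕ} {l : C → ℕ} {z : C → ℕ}
    (_ : OutlineM π b x y r g l z),
    HasTC (fun u : (Σ w, Fin (b w)) ⊕ Fin r => (match u with
      | Sum.inl u => Sum.inl (π u.1)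
      | Sum.inr k => Sum.inr k : V ⊕ Fin r)) C := by
  classical
  intro r
  induction r with
  | zero =>
    intro W V C _ _ π b x y g l z h
    have hg : ∀ c w, g c w = 0 := by
      intro c w
      have h1 := h.mdeg c
      have h2 : g c w ≤ ∑ w, g c w :=
        Finset.single_le_sum (fun _ _ => Nat.zero_le _) (Finset.mem_univ w)
      omega
    have h' : Outline π b x y :=
      ⟨h.symm, h.zero, h.tot, h.vtot, fun c w => by have := h.deg c w; omega, h.vpart⟩
    refine h'.hasTC.mono (fun u => match u with
      | Sum.inl u => u
      | Sum.inr k => k.elim0) ?_ ?_ id Function.injective_id
    · rintro (u | k) (v | k') huv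
      · exact congrArg Sum.inl huv
      · exact k'.elim0
      · exact k.elim0
      · exact k.elim0
    · rintro (u | k) (v | k') huv
      · intro e
        apply huv
        exact congrArg Sum.inl e
      · exact k'.elim0
      · exact k.elim0
      · exact k.elim0
  | succ r ih =>
    intro W V C _ _ π b x y g l z h
    let M : C → Option (Option W) → ℕ := fun c o => match o with
      | none => z c
      | some none => 2 * l c
      | some (some w) => g c w
    let κ : Option (Option W) → ℕ := fun o => match o with
      | none => 1
      | some none => r
      | some (some w) => b w
    have hMr : ∀ c, ∑ o, M c o ≤ (r + 1) * 1 := by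
      intro c
      rw [Fintype.sum_option, Fintype.sum_option]
      simp only [M]
      have := h.mdeg c
      omega
    have hMc : ∀ o, ∑ c, M c o = (r + 1) * κ o := by
      rintro (_ | _ | w)
      · simp only [M, κ]
        rw [h.ztot, mul_one]
      · simp only [M, κ]
        rw [← Finset.mul_sum, h.ltot, Nat.add_sub_cancel]
      · simp only [M, κ]
        rw [h.gtot]
    obtain ⟨D, hD1, hD2, hD3, hD4, hD5⟩ :=
      bd_extract M r (fun _ => 1) κ hMr (fun o => (hMc o).le)
    have hDc : ∀ o, ∑ c, D c o = κ o ∧ ∑ c, (M c o - D c o) = r * κ o := by
      intro o
      have h1 := hD3 o
      have h2 := hD5 o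
      have h3 := hMc o
      have h4 : ∑ c, M c o = ∑ c, D c o + ∑ c, (M c o - D c o) := by
        rw [← Finset.sum_add_distrib]
        exact Finset.sum_congr rfl (fun c _ => by have := hD1 c o; omega)
      have h5 : (r + 1) * κ o = r * κ o + κ o := by ring
      constructor <;> omega
    have hrow : ∀ c, D c none + (D c (some none) + ∑ w, D c (some (some w))) ≤ 1 := by
      intro c
      have h1 := hD2 c
      rw [Fintype.sum_option, Fintype.sum_option] at h1
      exact h1
    have hrow2 : ∀ c, (z c - D c none) + ((2 * l c - D c (some none)) +
        ∑ w, (g c w - D c (some (some w)))) ≤ r := by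
      intro c
      have h1 := hD4 c
      rw [Fintype.sum_option, Fintype.sum_option, mul_one] at h1
      exact h1
    have hDL : ∀ c, D c (some none) ≤ l c := by
      intro c
      have h1 := hrow c
      have h2 := hD1 c (some none)
      simp only [M] at h2
      omega
    let π' : Option W → Option V := fun o => match o with
      | none => none
      | some w => some (π w)
    let b' : Option W → ℕ := fun o => match o with
      | none => 1
      | some w => b w
    let x' : C → Option W → Option W → ℕ := fun c o o' => match o, o' with
      | none, none => 0
      | none, some w => D c (some (some w))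
      | some w, none => D c (some (some w))
      | some w, some w' => x c w w'
    let y' : C → Option W → ℕ := fun c o => match o with
      | none => D c none
      | some w => y c w
    let g' : C → Option W → ℕ := fun c o => match o with
      | none => D c (some none)
      | some w => g c w - D c (some (some w))
    let l' : C → ℕ := fun c => l c - D c (some none)
    let z' : C → ℕ := fun c => z c - D c none
    have h' : OutlineM π' b' x' y' r g' l' z' := by
      constructor
      · rintro c (_ | w) (_ | w')
        · rfl
        · rfl
        · rfl
        · exact h.symm c w w'
      · rintro c (_ | w) (_ | w') hww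
        · rfl
        · exact absurd hww (by simp [π'])
        · exact absurd hww (by simp [π'])
        · exact h.zero c w w' (by simpa [π'] using hww)
      · rintro (_ | w) (_ | w') hww
        · exact absurd rfl hww
        · show ∑ c, D c (some (some w')) = 1 * b w'
          rw [one_mul]
          exact (hDc (some (some w'))).1
        · show ∑ c, D c (some (some w)) = b w * 1
          rw [mul_one]
          exact (hDc (some (some w))).1
        · exact h.tot w w' (by simpa [π'] using hww)
      · rintro (_ | w)
        · exact (hDc none).1
        · exact h.vtot w
      · rintro c (_ | w)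
        · rw [Fintype.sum_option]
          simp only [x', y', b', g', zero_add]
          have h1 := hrow c
          omega
        · rw [Fintype.sum_option]
          simp only [x', y', b', g']
          have h2 := h.deg c w
          have h3 := hD1 c (some (some w))
          simp only [M] at h3
          omega
      · rintro c (_ | w) (_ | w') h1 h2
        · rfl
        · exfalso
          simp only [y'] at h1 h2
          have h3 := hD1 c none
          simp only [M] at h3
          exact h2 (h.zpart c w' (by omega))
        · exfalso
          simp only [y'] at h1 h2
          have h3 := hD1 c none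
          simp only [M] at h3
          exact h1 (h.zpart c w (by omega))
        · show some (π w) = some (π w')
          rw [h.vpart c w w' h1 h2]
      · rintro (_ | w)
        · show ∑ c, D c (some none) = r * 1
          rw [mul_one]
          exact (hDc (some none)).1
        · show ∑ c, (g c w - D c (some (some w))) = r * b w
          exact (hDc (some (some w))).2
      · simp only [l']
        have h1 := (hDc (some none)).1
        simp only [κ] at h1
        have h2 := h.ltot
        have h3 : ∑ c, l c = ∑ c, (l c - D c (some none)) + ∑ c, D c (some none) := by
          rw [← Finset.sum_add_distrib]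
          exact Finset.sum_congr rfl (fun c _ => by have := hDL c; omega)
        rw [h3, h1, Nat.add_sub_cancel] at h2
        rcases r with _ | r
        · simp at h2 ⊢
          intro c
          exact h2 c
        · rw [Nat.add_sub_cancel]
          have e1 : (r + 1 + 1) * (r + 1) = (r + 1) * r + 2 * (r + 1) := by ring
          omega
      · have h2 := (hDc none).2
        simp only [κ, M, mul_one] at h2
        exact h2
      · intro c
        rw [Fintype.sum_option]
        simp only [g', l', z']
        have h1 := hrow2 c
        have h2 := hDL c
        omega
      · rintro c (_ | w) hz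
        · simp only [z'] at hz
          show D c none = 0
          have := h.zle c
          omega
        · simp only [z'] at hz
          exact h.zpart c w (by omega)
      · intro c
        have := h.zle c
        simp only [z']
        omega
    refine (ih h').mono (fun u => match u with
      | Sum.inl u => Sum.inl ⟨some u.1, u.2⟩
      | Sum.inr k => if hk : k.val < r then Sum.inr ⟨k.val, hk⟩ else
          Sum.inl ⟨none, ⟨0, by simp only [b']; exact Nat.one_pos⟩⟩) ?_ ?_ id
      Function.injective_id
    · rintro (⟨w, i⟩ | k) (⟨w', i'⟩ | k') huv
      · simp only [Sum.inl.injEq, Sigma.mk.injEq, Option.some.injEq] at huv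
        obtain ⟨h1, h2⟩ := huv
        subst h1
        rw [eq_of_heq h2]
      · dsimp only at huv
        by_cases hk : k'.val < r
        · rw [dif_pos hk] at huv
          simp at huv
        · rw [dif_neg hk] at huv
          simp at huv
      · dsimp only at huv
        by_cases hk : k.val < r
        · rw [dif_pos hk] at huv
          simp at huv
        · rw [dif_neg hk] at huv
          simp at huv
      · dsimp only at huv
        have hk1 := k.2
        have hk2 := k'.2
        by_cases hk : k.val < r <;> by_cases hk' : k'.val < r
        · rw [dif_pos hk, dif_pos hk'] at huv
          simp only [Sum.inr.injEq, Fin.mk.injEq] at huv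
          rw [Fin.ext huv]
        · rw [dif_pos hk, dif_neg hk'] at huv
          simp at huv
        · rw [dif_neg hk, dif_pos hk'] at huv
          simp at huv
        · have : k = k' := Fin.ext (by omega)
          rw [this]
    · rintro (⟨w, i⟩ | k) (⟨w', i'⟩ | k') huv e
      · dsimp only at huv e
        apply huv
        simp only [π', Sum.inl.injEq, Option.some.injEq] at e
        rw [e]
      · dsimp only at e
        by_cases hk : k'.val < r
        · rw [dif_pos hk] at e
          simp at e
        · rw [dif_neg hk] at e
          simp [π'] at e
      · dsimp only at e
        by_cases hk : k.val < r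
        · rw [dif_pos hk] at e
          simp at e
        · rw [dif_neg hk] at e
          simp [π'] at e
      · dsimp only at e huv
        apply huv
        have hk1 := k.2
        have hk2 := k'.2
        by_cases hk : k.val < r <;> by_cases hk' : k'.val < r
        · rw [dif_pos hk, dif_pos hk'] at e
          simp only [Sum.inr.injEq, Fin.mk.injEq] at e
          rw [Fin.ext e]
        · rw [dif_pos hk, dif_neg hk'] at e
          simp at e
        · rw [dif_neg hk, dif_pos hk'] at e
          simp at e
        · have : k = k' := Fin.ext (by omega)
          rw [this]

end TCM
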