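import Pool.Agent.Lib.MP_c70440_co.AllSpecial
import Pool.Agent.Lib.MP_c70440_co.OutlineM

set_option autoImplicit false
set_option maxHeartbeats 4000000

namespace TCM

open Finset

theorem sum_option_finset {V : Type} [Fintype V] [DecidableEq V] (S : Finset (Option V))
    (f : Option V → ℤ) :
    ∑ o ∈ S, f o = (if none ∈ S then f none else 0) + ∑ k ∈ S.eraseNone, f (some k) := by
  have h1 : ∑ o ∈ S, f o = ∑ o, if o ∈ S then f o else 0 := by
    rw [Finset.sum_ite_mem, Finset.univ_inter]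
  have h2 : ∑ k ∈ S.eraseNone, f (some k) = ∑ k, if k ∈ S.eraseNone then f (some k) else 0 := by
    rw [Finset.sum_ite_mem, Finset.univ_inter]
  rw [h1, h2, Fintype.sum_option]
  congr 1
  apply Finset.sum_congr rfl
  intro k _
  simp only [Finset.mem_eraseNone]

/-- Numerical core of the cut conditions. -/
theorem clique_num1 (X Y A ε o ρ : ℤ) (hX : 2 * ρ - 2 + 3 * o ≤ X) (hY : 0 ≤ Y)
    (hA : 2 * ρ + o ≤ A) (hε : 0 ≤ ε) (hεo : ε ≤ o) (hoρ : o ≤ ρ) (hρ : 1 ≤ ρ) :
    0 ≤ X * (A - ε - 1) + (Y - ρ) * (A - ε) - A * (ε - 1) - o := by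
  have h1 : 0 ≤ A - ε - 1 := by linarith
  have h2 : (2 * ρ - 2 + 3 * o) * (A - ε - 1) ≤ X * (A - ε - 1) :=
    mul_le_mul_of_nonneg_right hX h1
  have h3 : 0 ≤ Y * (A - ε) := mul_nonneg hY (by linarith)
  have h4 : 0 ≤ ρ - 1 + 3 * o - ε := by linarith
  have h5 : (2 * ρ + o - ε - 1) * (ρ - 1 + 3 * o - ε) ≤ (A - ε - 1) * (ρ - 1 + 3 * o - ε) :=
    mul_le_mul_of_nonneg_right (by linarith) h4
  have h6 : 0 ≤ (2 * ρ + o - ε - 1) * (ρ - 1 + 3 * o - ε) - ρ - ε ^ 2 + 1 - o := by
    have e1 : 0 ≤ (ρ - o) * ε := mul_nonneg (by linarith) hε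
    have e2 : 0 ≤ (o - ε) * ε := mul_nonneg (by linarith) hε
    have e3 : 0 ≤ (o - ε) * (ρ - 1) := mul_nonneg (by linarith) (by linarith)
    have e4 : 0 ≤ (ρ - 1) * ε := mul_nonneg (by linarith) hε
    have e5 : 0 ≤ (ρ - 1) * (ρ - 1) := mul_nonneg (by linarith) (by linarith)
    have e6 : 0 ≤ (o - ε) * (o - ε) := mul_nonneg (by linarith) (by linarith)
    linarith
  linarith

theorem clique_num2 (X Y A ε o ρ : ℤ) (hX : 2 * ρ - 2 + 3 * o ≤ X) (hY : 0 ≤ Y)
    (hA : 2 * ρ + o ≤ A) (hε : 0 ≤ ε) (hεo : ε ≤ o) (hoρ : o ≤ ρ) (hρ : 1 ≤ ρ) :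
    0 ≤ (X + Y - ρ) * (A - ε) - A * (ε - 1) := by
  have h1 : 0 ≤ A - ε := by linarith
  have h2 : (2 * ρ - 2 + 3 * o + 0 - ρ) * (A - ε) ≤ (X + Y - ρ) * (A - ε) :=
    mul_le_mul_of_nonneg_right (by linarith) h1
  have h5 : 0 ≤ ρ - 1 + 3 * o - ε := by linarith
  have h4 : (2 * ρ + o) * (ρ - 1 + 3 * o - ε) ≤ A * (ρ - 1 + 3 * o - ε) :=
    mul_le_mul_of_nonneg_right hA h5
  have e1 : 0 ≤ (ρ - o) * ε := mul_nonneg (by linarith) hε
  have e2 : 0 ≤ (o - ε) * ε := mul_nonneg (by linarith) hε
  have e3 : 0 ≤ (o - ε) * (ρ - 1) := mul_nonneg (by linarith) (by linarith)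
  have e4 : 0 ≤ (ρ - 1) * ε := mul_nonneg (by linarith) hε
  have e5 : 0 ≤ (ρ - 1) * (ρ - 1) := mul_nonneg (by linarith) (by linarith)
  have e6 : 0 ≤ (o - ε) * (o - ε) := mul_nonneg (by linarith) (by linarith)
  linarith

/-- Minimum part `1`: clique node of size `q`, all bigger parts special, irreducible case. -/
theorem clique_case {V : Type} [Fintype V] [DecidableEq V] (a : V → ℕ) (q D : ℕ) (k0 : V)
    (ha : ∀ k, 2 ≤ a k) (heven : Even (q + ∑ k, a k))
    (hD : q + D + ∑ k, a k % 2 = ∑ k, a k * (a k - 1))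
    (hIR : ∀ k, D + 2 + 2 * (a k % 2) ≤ 2 * a k) :
    HasTC (fun u : (Σ k, Fin (a k)) ⊕ Fin q => (match u with
      | Sum.inl u => Sum.inl u.1
      | Sum.inr k => Sum.inr k : V ⊕ Fin q)) (Fin (q + ∑ k, a k)) := by
  classical
  -- integer quantities
  let f : V → ℤ := fun k => (a k : ℤ) * (a k - 1) - (a k % 2 : ℕ)
  have hqD : (q : ℤ) + D = ∑ k, f k := by
    simp only [f]
    rw [Finset.sum_sub_distrib]
    have h1 : ((∑ k, a k * (a k - 1) : ℕ) : ℤ) = ∑ k, (a k : ℤ) * (a k - 1) := by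
      rw [Nat.cast_sum]
      apply Finset.sum_congr rfl
      intro k _
      rw [Nat.cast_mul, Nat.cast_sub (by have := ha k; omega)]
      simp
    rw [← h1, ← hD]
    push_cast
    ring
  have hf : ∀ k, 2 + 3 * ((a k % 2 : ℕ) : ℤ) ≤ f k := by
    intro k
    simp only [f]
    have h2 := ha k
    rcases Nat.mod_two_eq_zero_or_one (a k) with h | h
    · rw [h]
      have : (2 : ℤ) ≤ a k := by exact_mod_cast h2
      push_cast
      linarith [mul_self_nonneg ((a k : ℤ) - 2)]
    · rw [h]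
      have : (3 : ℤ) ≤ a k := by
        have : 3 ≤ a k := by omega
        exact_mod_cast this
      push_cast
      linarith [mul_self_nonneg ((a k : ℤ) - 3)]
  have hfa : ∀ k, (a k : ℤ) ≤ f k := by
    intro k
    simp only [f]
    have h2 := ha k
    rcases Nat.mod_two_eq_zero_or_one (a k) with h | h
    · rw [h]
      have : (2 : ℤ) ≤ a k := by exact_mod_cast h2
      push_cast
      linarith [mul_self_nonneg ((a k : ℤ) - 2)]
    · rw [h]
      have : (3 : ℤ) ≤ a k := by
        have : 3 ≤ a k := by omega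
        exact_mod_cast this
      push_cast
      linarith [mul_self_nonneg ((a k : ℤ) - 3)]
  have hfD : ∀ k, 3 * ((a k % 2 : ℕ) : ℤ) + D ≤ f k := by
    intro k
    simp only [f]
    have h2 := ha k
    have h3 := hIR k
    rcases Nat.mod_two_eq_zero_or_one (a k) with h | h
    · rw [h] at h3 ⊢
      have h4 : (2 : ℤ) ≤ a k := by exact_mod_cast h2
      have h5 : (D : ℤ) + 2 ≤ 2 * a k := by
        have : D + 2 ≤ 2 * a k := by omega
        exact_mod_cast this
      push_cast
      linarith [mul_self_nonneg ((a k : ℤ) - 2)]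
    · rw [h] at h3 ⊢
      have h4 : (3 : ℤ) ≤ a k := by
        have : 3 ≤ a k := by omega
        exact_mod_cast this
      have h5 : (D : ℤ) + 4 ≤ 2 * a k := by
        have : D + 4 ≤ 2 * a k := by omega
        exact_mod_cast this
      push_cast
      linarith [mul_self_nonneg ((a k : ℤ) - 3)]
  have ha2 : ∀ k, 2 + ((a k % 2 : ℕ) : ℤ) ≤ a k := by
    intro k
    have h2 := ha k
    have : 2 + a k % 2 ≤ a k := by omega
    exact_mod_cast this
  -- `q ≥ B - a i + δ i`
  have hK : ∀ i, (∑ k, a k) + a i % 2 ≤ q + a i := by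
    intro i
    have h1 : (∑ k, (a k : ℤ)) = a i + ∑ k ∈ Finset.univ.erase i, (a k : ℤ) :=
      (Finset.add_sum_erase Finset.univ (fun k => (a k : ℤ)) (Finset.mem_univ i)).symm
    have h2 : (∑ k, f k) = f i + ∑ k ∈ Finset.univ.erase i, f k := by
      rw [Finset.add_sum_erase _ _ (Finset.mem_univ i)]
    have h3 : ∑ k ∈ Finset.univ.erase i, (a k : ℤ) ≤ ∑ k ∈ Finset.univ.erase i, f k :=
      Finset.sum_le_sum (fun k _ => hfa k)
    have h4 := hfD i
    have h5 : (0 : ℤ) ≤ ((a i % 2 : ℕ) : ℤ) := by positivity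
    zify
    push_cast at h4 h5
    linarith
  have hB2 : 2 * Fintype.card V + ∑ k, a k % 2 ≤ ∑ k, a k := by
    have h1 : ∑ k : V, (2 + a k % 2) ≤ ∑ k, a k :=
      Finset.sum_le_sum (fun k _ => by have := ha k; omega)
    rw [Finset.sum_add_distrib] at h1
    simp only [Finset.sum_const, Finset.card_univ, smul_eq_mul] at h1
    omega
  have hV : 0 < Fintype.card V := Fintype.card_pos_iff.2 ⟨k0⟩
  have hq2 : ∀ i, 2 * Fintype.card V + a i % 2 ≤ q + 2 := by
    intro i
    have h1 : (∑ k ∈ Finset.univ.erase i, 2) ≤ ∑ k ∈ Finset.univ.erase i, a k :=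
      Finset.sum_le_sum (fun k _ => ha k)
    have h2 : a i + ∑ k ∈ Finset.univ.erase i, a k = ∑ k, a k :=
      Finset.add_sum_erase _ _ (Finset.mem_univ i)
    rw [Finset.sum_const, Finset.card_erase_of_mem (Finset.mem_univ i), Finset.card_univ,
      smul_eq_mul] at h1
    have h3 := hK i
    omega
  have hparδ : (∑ k, a k) % 2 = (∑ k, a k % 2) % 2 := Finset.sum_nat_mod _ _ _
  -- loops in the special classes
  have hlam : ∀ i, ∃ x, 2 * x + (∑ k, a k) + a i % 2 = q + a i := by
    intro i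
    have h1 := hK i
    obtain ⟨t, ht⟩ := heven
    exact ⟨(q + a i - (∑ k, a k) - a i % 2) / 2, by omega⟩
  choose lam hlam using hlam
  let g : V → V → ℕ := fun i k => if k = i then a k % 2 else a k
  have hg : ∀ k, ∑ i, g i k + a k = Fintype.card V * a k + a k % 2 := by
    intro k
    simp only [g]
    rw [← Finset.add_sum_erase _ _ (Finset.mem_univ k), if_pos rfl]
    have h1 : ∑ i ∈ Finset.univ.erase k, (if k = i then a k % 2 else a k) =
        ∑ i ∈ Finset.univ.erase k, a k := by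
      apply Finset.sum_congr rfl
      intro i hi
      rw [Finset.mem_erase] at hi
      rw [if_neg (Ne.symm hi.1)]
    rw [h1, Finset.sum_const, Finset.card_erase_of_mem (Finset.mem_univ k), Finset.card_univ,
      smul_eq_mul]
    obtain ⟨c, hc⟩ : ∃ c, Fintype.card V = c + 1 := ⟨Fintype.card V - 1, by omega⟩
    rw [hc, Nat.add_sub_cancel]
    ring
  have hg' : ∀ i, ∑ k, g i k + a i = (∑ k, a k) + a i % 2 := by
    intro i
    simp only [g]
    rw [← Finset.add_sum_erase _ _ (Finset.mem_univ i), if_pos rfl,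
      ← Finset.add_sum_erase _ a (Finset.mem_univ i)]
    have h1 : ∑ k ∈ Finset.univ.erase i, (if k = i then a k % 2 else a k) =
        ∑ k ∈ Finset.univ.erase i, a k := by
      apply Finset.sum_congr rfl
      intro k hk
      rw [Finset.mem_erase] at hk
      rw [if_neg hk.1]
    rw [h1]
    omega
  have hmk : ∀ k, ∃ x, x + ∑ i, g i k = q * a k := by
    intro k
    refine ⟨q * a k - ∑ i, g i k, Nat.sub_add_cancel ?_⟩
    have h1 := hg k
    have h2 := hq2 k
    have h3 := ha k
    have h4 : Fintype.card V * a k + a k % 2 ≤ (q + 1) * a k := by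
      rcases Nat.mod_two_eq_zero_or_one (a k) with h | h
      · rw [h, add_zero]
        apply Nat.mul_le_mul_right
        omega
      · rw [h] at h2 ⊢
        calc Fintype.card V * a k + 1 ≤ Fintype.card V * a k + a k := by omega
          _ = (Fintype.card V + 1) * a k := by ring
          _ ≤ (q + 1) * a k := by
            apply Nat.mul_le_mul_right
            omega
    have h5 : (q + 1) * a k = q * a k + a k := by ring
    omega
  choose mk hmk using hmk
  have hsumlam : 2 * ∑ i, lam i + Fintype.card V * (∑ k, a k) + ∑ k, a k % 2 =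
      Fintype.card V * q + ∑ k, a k := by
    have h1 : ∑ i, (2 * lam i + (∑ k, a k) + a i % 2) = ∑ i, (q + a i) :=
      Finset.sum_congr rfl (fun i _ => hlam i)
    rw [Finset.sum_add_distrib, Finset.sum_add_distrib, Finset.sum_add_distrib,
      ← Finset.mul_sum] at h1
    simp only [Finset.sum_const, Finset.card_univ, smul_eq_mul] at h1
    exact h1
  have hL : ∃ L0, 2 * L0 + 2 * ∑ i, lam i = q * (q - 1) := by
    have hle : 2 * ∑ i, lam i ≤ q * (q - 1) := by
      rcases Nat.lt_or_ge q 2 with hq | hq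
      · have h1 := hq2 k0
        have h2 : Fintype.card V = 1 := by omega
        rw [h2] at hsumlam
        obtain ⟨t, ht⟩ := heven
        interval_cases q
        · simp only [Nat.zero_mul]
          omega
        · simp only [Nat.sub_self, Nat.mul_zero]
          omega
      · obtain ⟨q', hq'⟩ : ∃ q', q = q' + 2 := ⟨q - 2, by omega⟩
        have h1 := hq2 k0
        have h3 : q * (q - 1) = q' * q' + 3 * q' + 2 := by
          subst hq'
          rw [show q' + 2 - 1 = q' + 1 by omega]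
          ring
        rw [h3]
        obtain ⟨r', hr'⟩ : ∃ r', Fintype.card V = r' + 1 := ⟨Fintype.card V - 1, by omega⟩
        rw [hr'] at hsumlam h1 hB2
        have h4 : 2 * r' ≤ q' + 2 := by omega
        have h5 : (r' + 1) * (∑ k, a k) = r' * (∑ k, a k) + ∑ k, a k := by ring
        have h6 : (r' + 1) * q = r' * q' + q' + 2 * r' + 2 := by subst hq'; ring
        rw [h5, h6] at hsumlam
        rcases Nat.eq_zero_or_pos r' with h7 | h7
        · subst h7
          simp only [Nat.zero_mul] at hsumlam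
          have h8 : 2 * ∑ i, lam i ≤ q' + 2 := by omega
          have h9 : 0 ≤ q' * q' := Nat.zero_le _
          omega
        · have h8 : r' * (2 * (r' + 1)) ≤ r' * (∑ k, a k) := Nat.mul_le_mul_left _ (by omega)
          have h9 : 2 * ∑ i, lam i + r' * (2 * (r' + 1)) ≤ r' * q' + q' + 2 * r' + 2 := by omega
          linarith [Nat.mul_le_mul_left q' h4, Nat.zero_le (q' * q'), Nat.zero_le (r' * r')]
    have hpar : q * (q - 1) % 2 = 0 := by
      rcases Nat.even_or_odd' q with ⟨t, ht | ht⟩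
      · rw [ht, mul_assoc]
        exact Nat.mul_mod_right 2 _
      · rw [ht, Nat.add_sub_cancel, mul_comm, mul_assoc]
        exact Nat.mul_mod_right 2 _
    exact ⟨q * (q - 1) / 2 - ∑ i, lam i, by omega⟩
  obtain ⟨L0, hL0⟩ := hL
  obtain ⟨γ, hγ⟩ : ∃ γ, γ + Fintype.card V = q + ∑ k, a k :=
    ⟨q + (∑ k, a k) - Fintype.card V, by omega⟩
  -- data on `Option V`
  let b : Option V → ℕ := fun o => match o with
    | none => q
    | some k => a k
  obtain ⟨u, w, huw, hε1, hε2⟩ := exists_signs_even b (by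
    rw [Fintype.sum_option]; exact heven)
  let m : Option V → Option V → ℕ := fun o o' => match o, o' with
    | none, none => 0
    | none, some k => mk k
    | some k, none => mk k
    | some j, some k => if j = k then 0 else a j * a k
  let L : Option V → ℕ := fun o => match o with
    | none => L0
    | some _ => 0
  let d : Option V → ℕ := fun o => match o with
    | none => q
    | some k => a k % 2
  let σ : Option V → ℕ := fun o => match o with
    | none => 0
    | some k => a k * (a k - 1)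
  have hms : ∀ j k, m j k = m k j := by
    rintro (_ | j) (_ | k)
    · rfl
    · rfl
    · rfl
    · simp only [m]
      by_cases h : j = k
      · rw [if_pos h, if_pos h.symm]
      · rw [if_neg h, if_neg (Ne.symm h), mul_comm]
  have hm0 : ∀ j, m j j = 0 := by
    rintro (_ | j)
    · rfl
    · simp only [m, if_true]
  have hsummk : ∑ k, mk k + Fintype.card V * (∑ k, a k) + ∑ k, a k % 2 =
      q * (∑ k, a k) + ∑ k, a k := by
    have h1 : ∑ k, (mk k + ∑ i, g i k) = ∑ k, q * a k := Finset.sum_congr rfl (fun k _ => hmk k)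
    rw [Finset.sum_add_distrib, ← Finset.mul_sum] at h1
    have h2 : ∑ k, (∑ i, g i k + a k) = ∑ k, (Fintype.card V * a k + a k % 2) :=
      Finset.sum_congr rfl (fun k _ => hg k)
    rw [Finset.sum_add_distrib, Finset.sum_add_distrib, ← Finset.mul_sum] at h2
    omega
  have hrow : ∀ k, ∑ j, (if k = j then 0 else a k * a j) + a k * a k = a k * ∑ j, a j := by
    intro k
    rw [Finset.mul_sum, ← Finset.add_sum_erase _ _ (Finset.mem_univ k),
      ← Finset.add_sum_erase _ (fun j => a k * a j) (Finset.mem_univ k), if_pos rfl, zero_add]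
    have h1 : ∑ j ∈ Finset.univ.erase k, (if k = j then 0 else a k * a j) =
        ∑ j ∈ Finset.univ.erase k, a k * a j := by
      apply Finset.sum_congr rfl
      intro j hj
      rw [Finset.mem_erase] at hj
      rw [if_neg (Ne.symm hj.1)]
    rw [h1]
    ring
  have hdeg : ∀ k, (∑ j, m k j) + 2 * L k + d k + σ k = γ * b k := by
    rintro (_ | k)
    · rw [Fintype.sum_option]
      simp only [m, L, d, σ, b]
      have e1 : γ * q + Fintype.card V * q = q * q + q * (∑ k, a k) := by
        rw [← add_mul, hγ]; ring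
      have e2 : q * (q - 1) + q = q * q := by
        rcases Nat.eq_zero_or_pos q with h | h
        · subst h; simp
        · obtain ⟨q', hq'⟩ : ∃ q', q = q' + 1 := ⟨q - 1, by omega⟩
          rw [hq', Nat.add_sub_cancel]; ring
      omega
    · rw [Fintype.sum_option]
      simp only [m, L, d, σ, b]
      have e1 := hrow k
      have e2 := hmk k
      have e3 := hg k
      have e4 : γ * a k + Fintype.card V * a k = q * a k + a k * (∑ k, a k) := by
        rw [← add_mul, hγ]; ring
      have e5 : a k * (a k - 1) + a k = a k * a k := by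
        obtain ⟨a', ha'⟩ : ∃ a', a k = a' + 1 := ⟨a k - 1, by have := ha k; omega⟩
        rw [ha', Nat.add_sub_cancel]; ring
      omega
  have hd : ∑ k, d k ≤ γ := by
    rw [Fintype.sum_option]
    simp only [d]
    omega
  -- cuts
  have hcompl : ∀ S : Finset (Option V), Sᶜ.eraseNone = S.eraseNoneᶜ := by
    intro S
    ext k
    simp only [Finset.mem_eraseNone, Finset.mem_compl]
  have hcutR : ∀ S : Finset (Option V), none ∉ S →
      ∑ j ∈ S, ∑ k ∈ Sᶜ, (m j k : ℤ) = ∑ k ∈ S.eraseNone, (mk k : ℤ) +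
        (∑ k ∈ S.eraseNone, (a k : ℤ)) * (∑ k ∈ S.eraseNoneᶜ, (a k : ℤ)) := by
    intro S hS
    rw [sum_option_finset, if_neg hS, zero_add, Finset.sum_mul_sum, ← Finset.sum_add_distrib]
    apply Finset.sum_congr rfl
    intro j hj
    rw [sum_option_finset, if_pos (by rw [Finset.mem_compl]; exact hS), hcompl]
    simp only [m]
    congr 1
    apply Finset.sum_congr rfl
    intro k hk
    have hjk : j ≠ k := by
      rintro rfl
      rw [Finset.mem_compl] at hk
      exact hk hj
    rw [if_neg hjk]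
    push_cast
    ring
  have hcutsymm : ∀ S : Finset (Option V), ∑ j ∈ S, ∑ k ∈ Sᶜ, (m j k : ℤ) =
      ∑ j ∈ Sᶜ, ∑ k ∈ Sᶜᶜ, (m j k : ℤ) := by
    intro S
    rw [compl_compl, Finset.sum_comm]
    apply Finset.sum_congr rfl
    intro j _
    apply Finset.sum_congr rfl
    intro k _
    rw [hms]
  have hγz : (γ : ℤ) + Fintype.card V = q + ∑ k, (a k : ℤ) := by exact_mod_cast hγ
  have key : ∀ R : Finset V,
      (γ : ℤ) * |∑ k ∈ R, ((u (some k) : ℤ) - w (some k))| ≤
        ∑ k ∈ R, ((a k * (a k - 1) : ℕ) : ℤ) - ∑ k ∈ R, ((a k % 2 : ℕ) : ℤ) +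
        (∑ k ∈ R, (mk k : ℤ) + (∑ k ∈ R, (a k : ℤ)) * (∑ k ∈ Rᶜ, (a k : ℤ))) ∧
      (γ : ℤ) * |∑ k ∈ R, ((u (some k) : ℤ) - w (some k))| ≤
        D - (∑ k ∈ R, ((a k * (a k - 1) : ℕ) : ℤ) - ∑ k ∈ R, ((a k % 2 : ℕ) : ℤ)) +
        (∑ k ∈ R, (mk k : ℤ) + (∑ k ∈ R, (a k : ℤ)) * (∑ k ∈ Rᶜ, (a k : ℤ))) := by
    intro R
    rcases R.eq_empty_or_nonempty with hR | hR
    · subst hR
      simp
    obtain ⟨i, hi⟩ := hR
    have hE : |∑ k ∈ R, ((u (some k) : ℤ) - w (some k))| ≤ ∑ k ∈ R, ((a k % 2 : ℕ) : ℤ) :=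
      le_trans (Finset.abs_sum_le_sum_abs _ _) (Finset.sum_le_sum (fun k _ => hε1 (some k)))
    have hE0 : 0 ≤ |∑ k ∈ R, ((u (some k) : ℤ) - w (some k))| := abs_nonneg _
    generalize |∑ k ∈ R, ((u (some k) : ℤ) - w (some k))| = ε at hE hE0 ⊢
    have hF : ∑ k ∈ R, ((a k * (a k - 1) : ℕ) : ℤ) - ∑ k ∈ R, ((a k % 2 : ℕ) : ℤ) =
        ∑ k ∈ R, f k := by
      simp only [f]
      rw [← Finset.sum_sub_distrib]
      apply Finset.sum_congr rfl
      intro k _
      rw [Nat.cast_mul, Nat.cast_sub (by have := ha k; omega)]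
      simp
    have hmkR : ∑ k ∈ R, (mk k : ℤ) + Fintype.card V * ∑ k ∈ R, (a k : ℤ) +
        ∑ k ∈ R, ((a k % 2 : ℕ) : ℤ) = q * ∑ k ∈ R, (a k : ℤ) + ∑ k ∈ R, (a k : ℤ) := by
      rw [Finset.mul_sum, Finset.mul_sum, ← Finset.sum_add_distrib, ← Finset.sum_add_distrib,
        ← Finset.sum_add_distrib]
      apply Finset.sum_congr rfl
      intro k _
      have e1 := hmk k
      have e2 := hg k
      zify at e1 e2
      push_cast at e1 e2 ⊢
      linarith
    have hAC : ∑ k ∈ R, (a k : ℤ) + ∑ k ∈ Rᶜ, (a k : ℤ) = ∑ k, (a k : ℤ) :=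
      Finset.sum_add_sum_compl R _
    have hFC : ∑ k ∈ R, f k + ∑ k ∈ Rᶜ, f k = ∑ k, f k := Finset.sum_add_sum_compl R _
    have hcard : (R.card : ℤ) + (Rᶜ.card : ℤ) = Fintype.card V := by
      have := Finset.card_add_card_compl R
      exact_mod_cast this
    have hC2 : 2 * (Rᶜ.card : ℤ) ≤ ∑ k ∈ Rᶜ, (a k : ℤ) := by
      have h1 : ∑ k ∈ Rᶜ, (2 : ℤ) ≤ ∑ k ∈ Rᶜ, (a k : ℤ) :=
        Finset.sum_le_sum (fun k _ => by exact_mod_cast ha k)
      rw [Finset.sum_const, nsmul_eq_mul] at h1
      linarith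
    have hc0 : (0 : ℤ) ≤ (Rᶜ.card : ℤ) := Int.natCast_nonneg _
    have hFC0 : 0 ≤ ∑ k ∈ Rᶜ, f k :=
      Finset.sum_nonneg (fun k _ => by
        have h1 := hf k
        have h2 : (0 : ℤ) ≤ ((a k % 2 : ℕ) : ℤ) := by positivity
        linarith)
    have hA2 : 2 * (R.card : ℤ) + ∑ k ∈ R, ((a k % 2 : ℕ) : ℤ) ≤ ∑ k ∈ R, (a k : ℤ) := by
      have h1 : ∑ k ∈ R, (2 + ((a k % 2 : ℕ) : ℤ)) ≤ ∑ k ∈ R, (a k : ℤ) :=
        Finset.sum_le_sum (fun k _ => ha2 k)
      rw [Finset.sum_add_distrib, Finset.sum_const, nsmul_eq_mul] at h1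
      linarith
    have hoR : ∑ k ∈ R, ((a k % 2 : ℕ) : ℤ) ≤ R.card := by
      have h1 : ∑ k ∈ R, ((a k % 2 : ℕ) : ℤ) ≤ ∑ k ∈ R, (1 : ℤ) :=
        Finset.sum_le_sum (fun k _ => by
          have : a k % 2 ≤ 1 := by omega
          exact_mod_cast this)
      rw [Finset.sum_const, nsmul_eq_mul, mul_one] at h1
      exact h1
    have hR1 : (1 : ℤ) ≤ R.card := by
      have : 0 < R.card := Finset.card_pos.2 ⟨i, hi⟩
      exact_mod_cast this
    have hX : 2 * (R.card : ℤ) - 2 + 3 * ∑ k ∈ R, ((a k % 2 : ℕ) : ℤ) ≤ ∑ k ∈ R, f k - D := by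
      have h1 : ∑ k ∈ R, f k = f i + ∑ k ∈ R.erase i, f k := (Finset.add_sum_erase _ _ hi).symm
      have h2 : ∑ k ∈ R, ((a k % 2 : ℕ) : ℤ) = ((a i % 2 : ℕ) : ℤ) +
          ∑ k ∈ R.erase i, ((a k % 2 : ℕ) : ℤ) :=
        (Finset.add_sum_erase R (fun k => ((a k % 2 : ℕ) : ℤ)) hi).symm
      have h3 : ∑ k ∈ R.erase i, (2 + 3 * ((a k % 2 : ℕ) : ℤ)) ≤ ∑ k ∈ R.erase i, f k :=
        Finset.sum_le_sum (fun k _ => hf k)
      rw [Finset.sum_add_distrib, Finset.sum_const, nsmul_eq_mul, ← Finset.mul_sum,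
        Finset.card_erase_of_mem hi] at h3
      have h4 := hfD i
      have h5 : ((R.card - 1 : ℕ) : ℤ) = R.card - 1 := by
        have : 0 < R.card := Finset.card_pos.2 ⟨i, hi⟩
        push_cast [this]
        ring
      rw [h5] at h3
      rw [h1, h2]
      linarith
    rw [hF]
    generalize ∑ k ∈ R, ((a k % 2 : ℕ) : ℤ) = o at *
    generalize ∑ k ∈ R, f k = FR at *
    generalize ∑ k ∈ Rᶜ, f k = FC at *
    generalize ∑ k ∈ R, (a k : ℤ) = A at *
    generalize ∑ k ∈ Rᶜ, (a k : ℤ) = C at *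
    generalize ∑ k ∈ R, (mk k : ℤ) = MK at *
    generalize (R.card : ℤ) = ρ at *
    generalize (Rᶜ.card : ℤ) = c at *
    have n1 := clique_num1 (FR - D) (FC + C - c) A ε o ρ hX (by linarith) hA2 hE0 hE hoR hR1
    have n2 := clique_num2 (FR - D) (FC + C - c) A ε o ρ hX (by linarith) hA2 hE0 hE hoR hR1
    have e1 : (γ : ℤ) = (FR - D + FC) + A + C - ρ - c := by linarith
    have e2 : MK = ((FR - D + FC) + 1 - ρ - c) * A - o := by
      have : (q : ℤ) = FR - D + FC := by linarith
      rw [← this]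
      rw [← hcard] at hmkR
      linarith
    rw [e1, e2]
    have hFRo : o ≤ FR - D := by linarith
    have hD0 : (0 : ℤ) ≤ D := by positivity
    constructor
    · linarith
    · linarith
  have hmain : ∀ S : Finset (Option V),
      0 ≤ (γ : ℤ) * (∑ k ∈ S, ((u k : ℤ) - w k)) + ∑ k ∈ S, (σ k : ℤ) + ∑ k ∈ S, (d k : ℤ) +
        ∑ j ∈ S, ∑ k ∈ Sᶜ, (m j k : ℤ) ∧
      (γ : ℤ) * (∑ k ∈ S, ((u k : ℤ) - w k)) ≤ ∑ k ∈ S, (σ k : ℤ) - ∑ k ∈ S, (d k : ℤ) +
        ∑ j ∈ S, ∑ k ∈ Sᶜ, (m j k : ℤ) := by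
    intro S
    have hγ0 : (0 : ℤ) ≤ γ := by positivity
    by_cases hS : none ∈ S
    · have hS' : none ∉ Sᶜ := by rw [Finset.mem_compl]; exact fun h => h hS
      have k2 := (key (Sᶜ.eraseNone)).2
      rw [← hcutR Sᶜ hS', ← hcutsymm] at k2
      have t1 : ∑ k ∈ S, ((u k : ℤ) - w k) + ∑ k ∈ Sᶜ, ((u k : ℤ) - w k) = 0 := by
        rw [Finset.sum_add_sum_compl, hε2]
      have t2 : ∑ k ∈ Sᶜ, ((u k : ℤ) - w k) =
          ∑ k ∈ Sᶜ.eraseNone, ((u (some k) : ℤ) - w (some k)) := by
        rw [sum_option_finset, if_neg hS', zero_add]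
      have t3 : ∑ k ∈ S, (σ k : ℤ) + ∑ k ∈ Sᶜ, (σ k : ℤ) = ∑ k, (σ k : ℤ) :=
        Finset.sum_add_sum_compl _ _
      have t4 : ∑ k ∈ S, (d k : ℤ) + ∑ k ∈ Sᶜ, (d k : ℤ) = ∑ k, (d k : ℤ) :=
        Finset.sum_add_sum_compl _ _
      have t5 : ∑ k ∈ Sᶜ, (σ k : ℤ) = ∑ k ∈ Sᶜ.eraseNone, ((a k * (a k - 1) : ℕ) : ℤ) := by
        rw [sum_option_finset, if_neg hS', zero_add]
      have t6 : ∑ k ∈ Sᶜ, (d k : ℤ) = ∑ k ∈ Sᶜ.eraseNone, ((a k % 2 : ℕ) : ℤ) := by
        rw [sum_option_finset, if_neg hS', zero_add]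
      have t7 : ∑ k, (σ k : ℤ) = ∑ k, (d k : ℤ) + D := by
        rw [Fintype.sum_option, Fintype.sum_option]
        simp only [σ, d]
        have := hD
        zify at this
        push_cast at this ⊢
        linarith
      have t8 : (0 : ℤ) ≤ ∑ k ∈ S, (d k : ℤ) := by positivity
      rw [← t2, ← t5, ← t6] at k2
      have a1 := neg_abs_le (∑ k ∈ Sᶜ, ((u k : ℤ) - w k))
      have a2 := le_abs_self (∑ k ∈ Sᶜ, ((u k : ℤ) - w k))
      have a3 := mul_le_mul_of_nonneg_left a1 hγ0
      have a4 := mul_le_mul_of_nonneg_left a2 hγ0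
      have t9 : ∑ k ∈ S, ((u k : ℤ) - w k) = - ∑ k ∈ Sᶜ, ((u k : ℤ) - w k) := by linarith
      rw [t9]
      constructor <;> linarith
    · have k1 := (key (S.eraseNone)).1
      rw [← hcutR S hS] at k1
      have t2 : ∑ k ∈ S, ((u k : ℤ) - w k) =
          ∑ k ∈ S.eraseNone, ((u (some k) : ℤ) - w (some k)) := by
        rw [sum_option_finset, if_neg hS, zero_add]
      have t5 : ∑ k ∈ S, (σ k : ℤ) = ∑ k ∈ S.eraseNone, ((a k * (a k - 1) : ℕ) : ℤ) := by
        rw [sum_option_finset, if_neg hS, zero_add]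
      have t6 : ∑ k ∈ S, (d k : ℤ) = ∑ k ∈ S.eraseNone, ((a k % 2 : ℕ) : ℤ) := by
        rw [sum_option_finset, if_neg hS, zero_add]
      have t8 : (0 : ℤ) ≤ ∑ k ∈ S, (d k : ℤ) := by positivity
      rw [← t2, ← t5, ← t6] at k1
      have a1 := neg_abs_le (∑ k ∈ S, ((u k : ℤ) - w k))
      have a2 := le_abs_self (∑ k ∈ S, ((u k : ℤ) - w k))
      have a3 := mul_le_mul_of_nonneg_left a1 hγ0
      have a4 := mul_le_mul_of_nonneg_left a2 hγ0
      constructor <;> linarith
  obtain ⟨x0, l0, y0, hx1, hx2, hx3, hl, hy, hxd, hyd⟩ := exists_classes b m L d σ u w γ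
    hms hm0 huw hdeg hd
    (fun S => (hall_of_cut b m L d σ u w γ huw hdeg S (hmain S).1 (hmain S).2).1)
    (fun S => (hall_of_cut b m L d σ u w γ huw hdeg S (hmain S).1 (hmain S).2).2)
  let x : V ⊕ Fin γ → V → V → ℕ := fun c j k => match c with
    | Sum.inl _ => 0
    | Sum.inr c => x0 c (some j) (some k)
  let y : V ⊕ Fin γ → V → ℕ := fun c k => match c with
    | Sum.inl i => if k = i then 2 * (a i / 2) else 0
    | Sum.inr c => y0 c (some k)
  let gg : V ⊕ Fin γ → V → ℕ := fun c k => match c with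
    | Sum.inl i => g i k
    | Sum.inr c => x0 c none (some k)
  let ll : V ⊕ Fin γ → ℕ := fun c => match c with
    | Sum.inl i => lam i
    | Sum.inr c => l0 c none
  let zz : V ⊕ Fin γ → ℕ := fun c => match c with
    | Sum.inl _ => 0
    | Sum.inr c => y0 c none
  have hO : OutlineM (fun k : V => k) a x y q gg ll zz := by
    constructor
    · rintro (i | c) j k
      · rfl
      · exact hx1 c _ _
    · rintro (i | c) j k h
      · rfl
      · have h' : j = k := h
        subst h'; exact hx2 c _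
    · intro j k h
      have h' : j ≠ k := h
      rw [Fintype.sum_sum_type]
      simp only [x, Finset.sum_const_zero, zero_add]
      rw [hx3]
      simp only [m, if_neg h']
    · intro k
      rw [Fintype.sum_sum_type]
      simp only [y]
      rw [hy, Finset.sum_ite_eq]
      simp only [Finset.mem_univ, if_true, d]
      omega
    · rintro (i | c) k
      · simp only [x, y, gg, g, Finset.sum_const_zero]
        by_cases h : k = i
        · rw [if_pos h, if_pos h, h]; omega
        · rw [if_neg h, if_neg h]; omega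
      · simp only [x, y, gg]
        have h1 := hxd c (some k)
        rw [Fintype.sum_option] at h1
        have h2 := hx1 c none (some k)
        simp only [b] at h1
        omega
    · rintro (i | c) j k hj hk
      · simp only [y] at hj hk
        have h1 : j = i := by
          by_contra h; rw [if_neg h] at hj; exact hj rfl
        have h2 : k = i := by
          by_contra h; rw [if_neg h] at hk; exact hk rfl
        exact h1.trans h2.symm
      · simp only [y] at hj hk
        show j = k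
        by_contra hne
        have h1 := hyd c
        have h2 : y0 c (some j) + y0 c (some k) ≤ ∑ j, y0 c j := by
          rw [← Finset.sum_pair (show some j ≠ some k from fun e => hne (Option.some.inj e))]
          exact Finset.sum_le_sum_of_subset (Finset.subset_univ _)
        omega
    · intro k
      rw [Fintype.sum_sum_type]
      simp only [gg]
      rw [hx3]
      simp only [m]
      have := hmk k
      omega
    · rw [Fintype.sum_sum_type]
      simp only [ll]
      rw [hl]
      simp only [L]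
      omega
    · rw [Fintype.sum_sum_type]
      simp only [zz, Finset.sum_const_zero, zero_add]
      rw [hy]
    · rintro (i | c)
      · simp only [gg, ll, zz]
        have h1 := hg' i
        have h2 := hlam i
        omega
      · simp only [gg, ll, zz]
        have h1 := hxd c none
        rw [Fintype.sum_option] at h1
        simp only [b] at h1
        have h3 := hx2 c none
        omega
    · rintro (i | c) k hz
      · exact absurd rfl hz
      · simp only [zz] at hz
        simp only [y]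
        have h1 := hyd c
        rw [Fintype.sum_option] at h1
        have h2 : y0 c (some k) ≤ ∑ k, y0 c (some k) :=
          Finset.single_le_sum (f := fun k => y0 c (some k)) (fun _ _ => Nat.zero_le _)
            (Finset.mem_univ k)
        omega
    · rintro (i | c)
      · exact Nat.zero_le _
      · simp only [zz]
        have h1 := hyd c
        rw [Fintype.sum_option] at h1
        omega
  have hfin := (OutlineM.hasTC q hO).mono (U' := (Σ k, Fin (a k)) ⊕ Fin q) (V' := V ⊕ Fin q)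
    (π' := fun u => (match u with
      | Sum.inl u => Sum.inl u.1
      | Sum.inr k => Sum.inr k : V ⊕ Fin q)) id Function.injective_id
    (by
      rintro (u | k) (v | k') h
      · exact h
      · exact h
      · exact h
      · exact h) id Function.injective_id
  refine hfin.to_fin ?_
  rw [Fintype.card_sum, Fintype.card_fin, add_comm]
  exact hγ.le

end TCM
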