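import Pool.Agent.Lib.MP_c70440_co.Basic

set_option autoImplicit false
set_option maxHeartbeats 4000000

namespace TCM

open Finset

/-- Contribution of a part of size `b` to `def - #odd`. -/
def Fc (m b : ℕ) : ℤ := (b : ℤ) * (b - m) - (b % 2 : ℕ)

/-- The family after splitting part `j` into parts of sizes `x` and `y`. -/
def splitF {V : Type} [DecidableEq V] (a : V → ℕ) (j : V) (x y : ℕ) : Option V → ℕ := fun o =>
  match o with
  | none => x
  | some i => if i = j then y else a i

theorem sum_split {V : Type} [Fintype V] [DecidableEq V] (F : ℕ → ℤ) (a : V → ℕ) (j : V)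
    (x y : ℕ) : ∑ o, F (splitF a j x y o) + F (a j) = F x + F y + ∑ k, F (a k) := by
  rw [Fintype.sum_option, ← Finset.add_sum_erase _ _ (Finset.mem_univ j),
    ← Finset.add_sum_erase _ (fun k => F (a k)) (Finset.mem_univ j)]
  simp only [splitF, if_true]
  have h1 : ∑ k ∈ Finset.univ.erase j, F (if k = j then y else a k) =
      ∑ k ∈ Finset.univ.erase j, F (a k) := by
    apply Finset.sum_congr rfl
    intro k hk
    rw [Finset.mem_erase] at hk
    rw [if_neg hk.1]
  rw [h1]
  ring

theorem sum_split_nat {V : Type} [Fintype V] [DecidableEq V] (a : V → ℕ) (j : V)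
    (x y : ℕ) (hxy : x + y = a j) : ∑ o, splitF a j x y o = ∑ k, a k := by
  have h := sum_split (fun n => (n : ℤ)) a j x y
  zify at hxy ⊢
  linarith

/-- Admissible configurations. -/
structure Adm {V : Type} [Fintype V] (m : ℕ) (a : V → ℕ) : Prop where
  min : ∀ k, m ≤ a k
  ex : ∃ k, a k = m
  even : Even (∑ k, a k)
  def' : 0 ≤ ∑ k, Fc m (a k)

theorem refine_induct (m p0 : ℕ) (hm : 0 < m)
    (hirr : ∀ (V : Type) [Fintype V] [DecidableEq V] (a : V → ℕ), p0 ≤ Fintype.card V →
      Adm m a → (∀ j, 2 * m ≤ a j →
        ∑ k, Fc m (a k) + Fc m m + Fc m (a j - m) < Fc m (a j)) →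
      Col a ((∑ k, a k) - m + 1)) :
    ∀ (M : ℕ) (V : Type) [Fintype V] [DecidableEq V] (a : V → ℕ), p0 ≤ Fintype.card V →
      (∑ k, a k) - Fintype.card V = M → Adm m a → Col a ((∑ k, a k) - m + 1) := by
  intro M
  induction M with
  | zero =>
    intro V _ _ a hp hM ha
    apply hirr V a hp ha
    intro j hj
    exfalso
    have h1 : ∑ k, (a k - 1) = (∑ k, a k) - Fintype.card V := by
      have h2 : ∑ k, (a k - 1) + ∑ k : V, 1 = ∑ k, a k := by
        rw [← Finset.sum_add_distrib]
        exact Finset.sum_congr rfl (fun k _ => by have := ha.min k; omega)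
      simp only [Finset.sum_const, Finset.card_univ, smul_eq_mul, mul_one] at h2
      omega
    have h3 : a j - 1 ≤ ∑ k, (a k - 1) :=
      Finset.single_le_sum (f := fun k => a k - 1) (fun _ _ => Nat.zero_le _) (Finset.mem_univ j)
    omega
  | succ M ih =>
    intro V _ _ a hp hM ha
    by_cases hir : ∀ j, 2 * m ≤ a j →
        ∑ k, Fc m (a k) + Fc m m + Fc m (a j - m) < Fc m (a j)
    · exact hirr V a hp ha hir
    · push Not at hir
      obtain ⟨j, hj, hD⟩ := hir
      have hxy : m + (a j - m) = a j := by omega
      have hsum := sum_split_nat a j m (a j - m) hxy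
      have hcol : Col (splitF a j m (a j - m)) ((∑ o, splitF a j m (a j - m) o) - m + 1) := by
        apply ih (Option V) (splitF a j m (a j - m))
        · rw [Fintype.card_option]; omega
        · rw [hsum, Fintype.card_option]; omega
        · refine ⟨?_, ⟨none, rfl⟩, ?_, ?_⟩
          · rintro (_ | k)
            · exact le_refl m
            · simp only [splitF]
              split_ifs
              · omega
              · exact ha.min k
          · rw [hsum]; exact ha.even
          · have := sum_split (Fc m) a j m (a j - m)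
            linarith
      rw [hsum] at hcol
      exact Col.of_split j m (a j - m) hxy hcol

end TCM
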