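import Pool.Agent.Lib.MP_c70440_co.Clique
import Pool.Agent.Lib.MP_c70440_co.Refine

set_option autoImplicit false
set_option maxHeartbeats 4000000

namespace TCM

open Finset

theorem even_def (m : ℕ) {V : Type} [Fintype V] (a : V → ℕ) (heven : Even (∑ k, a k)) :
    Even (∑ k, Fc m (a k)) := by
  have h1 : ∀ k, ∃ t : ℤ, Fc m (a k) + (m : ℤ) * ((a k % 2 : ℕ) : ℤ) = 2 * t := by
    intro k
    simp only [Fc]
    rcases Nat.even_or_odd' (a k) with ⟨c, hc | hc⟩
    · refine ⟨c * (2 * c - m), ?_⟩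
      rw [hc, Nat.mul_mod_right]
      push_cast
      ring
    · refine ⟨2 * c * c + 2 * c - c * m, ?_⟩
      have : (2 * c + 1) % 2 = 1 := by omega
      rw [hc, this]
      push_cast
      ring
  choose t ht using h1
  have h2 : Even (∑ k, Fc m (a k) + (m : ℤ) * ∑ k, ((a k % 2 : ℕ) : ℤ)) := by
    rw [Finset.mul_sum, ← Finset.sum_add_distrib, Finset.sum_congr rfl (fun k _ => ht k),
      ← Finset.mul_sum]
    exact even_two_mul _
  have h3 : Even (∑ k, ((a k % 2 : ℕ) : ℤ)) := by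
    have h4 : (∑ k, a k) % 2 = (∑ k, a k % 2) % 2 := Finset.sum_nat_mod _ _ _
    have h5 : Even (∑ k, a k % 2) := by
      rw [Nat.even_iff] at heven ⊢
      omega
    exact_mod_cast h5
  rw [Int.even_add] at h2
  exact h2.2 (h3.mul_left _)

theorem col_one {V : Type} [Fintype V] [DecidableEq V] (a : V → ℕ) (ha : Adm 1 a) :
    Col a ((∑ k, a k) - 1 + 1) := by
  classical
  apply refine_induct 1 0 Nat.one_pos _ _ V a (Nat.zero_le _) rfl ha
  intro V _ _ a _ ha hir
  let e := Fintype.equivFin {k // ¬ 2 ≤ a k}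
  have hone : ∀ k, ¬ 2 ≤ a k → a k = 1 := by
    intro k hk
    have := ha.min k
    omega
  have hsplit : ∀ f : V → ℤ, ∑ k : {k // 2 ≤ a k}, f k + ∑ k : {k // ¬ 2 ≤ a k}, f k = ∑ k, f k :=
    fun f => Fintype.sum_subtype_add_sum_subtype _ _
  have hsplitn : ∀ f : V → ℕ, ∑ k : {k // 2 ≤ a k}, f k + ∑ k : {k // ¬ 2 ≤ a k}, f k = ∑ k, f k :=
    fun f => Fintype.sum_subtype_add_sum_subtype _ _
  have hsum : Fintype.card {k // ¬ 2 ≤ a k} + ∑ k : {k // 2 ≤ a k}, a k = ∑ k, a k := by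
    rw [← hsplitn, add_comm]
    congr 1
    rw [Finset.sum_congr rfl (fun (k : {k // ¬ 2 ≤ a k}) _ => hone k.1 k.2)]
    simp
  have hFsum : ∑ k : {k // 2 ≤ a k}, Fc 1 (a k) = ∑ k, Fc 1 (a k) +
      Fintype.card {k // ¬ 2 ≤ a k} := by
    rw [← hsplit (fun k => Fc 1 (a k))]
    have : ∑ k : {k // ¬ 2 ≤ a k}, Fc 1 (a k) = ∑ k : {k // ¬ 2 ≤ a k}, (-1 : ℤ) := by
      apply Finset.sum_congr rfl
      intro k _
      rw [hone k.1 k.2]
      simp [Fc]
    rw [this]
    simp
  obtain ⟨D, hD⟩ : ∃ D : ℕ, (D : ℤ) = ∑ k, Fc 1 (a k) := ⟨_, Int.toNat_of_nonneg ha.def'⟩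
  have hDeven : Even (D : ℤ) := by
    rw [hD]
    exact even_def 1 a ha.even
  -- a big part exists
  obtain ⟨k1, hk1⟩ := ha.ex
  have hV1 : Nonempty {k // 2 ≤ a k} := by
    by_contra hne
    rw [not_nonempty_iff] at hne
    have h1 : ∑ k : {k // 2 ≤ a k}, Fc 1 (a k) = 0 := by simp
    have h2 : 0 < Fintype.card {k // ¬ 2 ≤ a k} :=
      Fintype.card_pos_iff.2 ⟨⟨k1, by omega⟩⟩
    rw [h1, ← hD] at hFsum
    omega
  obtain ⟨k0⟩ := hV1
  have hcl := clique_case (fun k : {k // 2 ≤ a k} => a k) (Fintype.card {k // ¬ 2 ≤ a k}) D k0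
    (fun k => k.2) (by rw [hsum]; exact ha.even)
    (by
      have h1 : ((∑ k : {k // 2 ≤ a k}, a k * (a k - 1) : ℕ) : ℤ) =
          ∑ k : {k // 2 ≤ a k}, (Fc 1 (a k) + ((a k % 2 : ℕ) : ℤ)) := by
        rw [Nat.cast_sum]
        apply Finset.sum_congr rfl
        intro k _
        have := k.2
        rw [Nat.cast_mul, Nat.cast_sub (by omega)]
        simp [Fc]
      rw [Finset.sum_add_distrib, hFsum, ← hD] at h1
      have h2 : ((Fintype.card {k // ¬ 2 ≤ a k} + D + ∑ k : {k // 2 ≤ a k}, a k % 2 : ℕ) : ℤ) =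
          ((∑ k : {k // 2 ≤ a k}, a k * (a k - 1) : ℕ) : ℤ) := by
        rw [h1]
        push_cast
        ring
      exact_mod_cast h2)
    (by
      intro k
      have h1 := hir k.1 (by have := k.2; omega)
      rw [← hD] at h1
      have h2 := k.2
      obtain ⟨t, ht⟩ := hDeven
      obtain ⟨c, hc⟩ : ∃ c, a k.1 = c + 2 := ⟨a k.1 - 2, by omega⟩
      simp only [Fc] at h1
      have h3 : a k.1 - 1 = c + 1 := by omega
      rw [h3, hc] at h1
      rcases Nat.mod_two_eq_zero_or_one c with h | h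
      · have e1 : (c + 2) % 2 = 0 := by omega
        have e2 : (c + 1) % 2 = 1 := by omega
        rw [e1, e2] at h1
        push_cast at h1
        have h4 : (D : ℤ) < 2 * (c + 2) := by nlinarith
        rw [hc, e1]
        omega
      · have e1 : (c + 2) % 2 = 1 := by omega
        have e2 : (c + 1) % 2 = 0 := by omega
        rw [e1, e2] at h1
        push_cast at h1
        have h4 : (D : ℤ) < 2 * (c + 2) - 2 := by nlinarith
        rw [hc, e1]
        omega)
  have hN : (∑ k, a k) - 1 + 1 = Fintype.card {k // ¬ 2 ≤ a k} + ∑ k : {k // 2 ≤ a k}, a k := by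
    rw [hsum]
    have h1 : a k1 ≤ ∑ k, a k := Finset.single_le_sum (f := a) (fun _ _ => Nat.zero_le _)
      (Finset.mem_univ k1)
    omega
  rw [hN]
  refine hcl.mono (fun u => if h : 2 ≤ a u.1 then Sum.inl ⟨⟨u.1, h⟩, u.2⟩ else
    Sum.inr (e ⟨u.1, h⟩)) ?_ ?_ id Function.injective_id
  · rintro ⟨i, x⟩ ⟨i', x'⟩ h
    dsimp only at h
    by_cases h1 : 2 ≤ a i <;> by_cases h2 : 2 ≤ a i'
    · rw [dif_pos h1, dif_pos h2] at h
      simp only [Sum.inl.injEq, Sigma.mk.injEq, Subtype.mk.injEq] at h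
      obtain ⟨h3, h4⟩ := h
      subst h3
      rw [eq_of_heq h4]
    · rw [dif_pos h1, dif_neg h2] at h
      simp at h
    · rw [dif_neg h1, dif_pos h2] at h
      simp at h
    · rw [dif_neg h1, dif_neg h2] at h
      have h3 := e.injective (Sum.inr_injective h)
      simp only [Subtype.mk.injEq] at h3
      subst h3
      have h4 := hone i h1
      have : x = x' := by
        apply Fin.ext
        have := x.2
        have := x'.2
        omega
      rw [this]
  · rintro ⟨i, x⟩ ⟨i', x'⟩ hne h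
    dsimp only at h hne
    apply hne
    by_cases h1 : 2 ≤ a i <;> by_cases h2 : 2 ≤ a i'
    · rw [dif_pos h1, dif_pos h2] at h
      simpa using h
    · rw [dif_pos h1, dif_neg h2] at h
      simp at h
    · rw [dif_neg h1, dif_pos h2] at h
      simp at h
    · rw [dif_neg h1, dif_neg h2] at h
      have h3 := e.injective (Sum.inr_injective h)
      simpa using h3

end TCM
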