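import Mathlib

namespace TCM

theorem exists_multigraph_aux {V : Type} [Fintype V] [DecidableEq V] (n : ℕ) :
    ∀ f : V → ℕ, (∑ i, f i) = 2 * n → (∀ k, f k ≤ n) →
  ∃ G : V → V → ℕ, (∀ j k, G j k = G k j) ∧ (∀ j, G j j = 0) ∧ ∀ j, ∑ k, G j k = f j := by
  induction n with
  | zero =>
    intro f hs hmax
    refine ⟨fun _ _ => 0, fun _ _ => rfl, fun _ => rfl, fun j => ?_⟩
    have := hmax j
    simp
    omega
  | succ n ih =>
    intro f hs hmax
    -- choose a maximal
    have hne : (Finset.univ : Finset V).Nonempty := by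
      by_contra h
      rw [Finset.not_nonempty_iff_eq_empty] at h
      rw [h] at hs
      simp at hs
    obtain ⟨a, -, ha⟩ := Finset.exists_max_image Finset.univ f hne
    have hsplit : f a + ∑ i ∈ Finset.univ.erase a, f i = 2 * (n + 1) := by
      rw [← hs]; exact Finset.add_sum_erase _ _ (Finset.mem_univ a)
    have hpos : 0 < ∑ i ∈ Finset.univ.erase a, f i := by
      have := hmax a
      omega
    obtain ⟨b, hb, hfb⟩ : ∃ b ∈ Finset.univ.erase a, 0 < f b := by
      by_contra h
      push Not at h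
      have : ∑ i ∈ Finset.univ.erase a, f i = 0 :=
        Finset.sum_eq_zero (fun i hi => by have := h i hi; omega)
      omega
    have hba : b ≠ a := Finset.ne_of_mem_erase hb
    have hfa : 0 < f a := lt_of_lt_of_le hfb (ha b (Finset.mem_univ b))
    -- new function
    let e : V → ℕ := fun i => (if i = a then 1 else 0) + (if i = b then 1 else 0)
    have hesum : ∑ i, e i = 2 := by
      simp [e, Finset.sum_add_distrib]
    have hle : ∀ i, e i ≤ f i := by
      intro i
      simp only [e]
      by_cases h1 : i = a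
      · subst h1
        simp [hba.symm]; omega
      · by_cases h2 : i = b
        · subst h2
          simp [h1]; omega
        · simp [h1, h2]
    have hsum' : ∑ i, (f i - e i) = 2 * n := by
      have h1 : ∑ i, (f i - e i) + ∑ i, e i = ∑ i, f i := by
        rw [← Finset.sum_add_distrib]
        exact Finset.sum_congr rfl (fun i _ => Nat.sub_add_cancel (hle i))
      omega
    have hmax' : ∀ k, f k - e k ≤ n := by
      intro k
      by_cases h1 : k = a
      · subst h1
        have := hmax k
        simp only [e]; simp; omega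
      · by_cases h2 : k = b
        · subst h2
          have := hmax k
          simp only [e]; simp; omega
        · have hek : e k = 0 := by simp [e, h1, h2]
          rw [hek]
          by_contra hcon
          have hk : f k = n + 1 := by have := hmax k; omega
          have hak : n + 1 ≤ f a := by have := ha k (Finset.mem_univ k); omega
          have h3 : f a + (f b + f k) ≤ ∑ i, f i := by
            have : ∑ i ∈ ({a, b, k} : Finset V), f i ≤ ∑ i, f i :=
              Finset.sum_le_sum_of_subset (Finset.subset_univ _)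
            rw [Finset.sum_insert (by simp; exact ⟨fun h => hba h.symm, fun h => h1 h.symm⟩),
              Finset.sum_insert (by simp; exact fun h => h2 h.symm), Finset.sum_singleton] at this
            exact this
          omega
    obtain ⟨G, hG1, hG2, hG3⟩ := ih (fun i => f i - e i) hsum' hmax'
    refine ⟨fun j k => G j k + ((if j = a ∧ k = b then 1 else 0) + (if j = b ∧ k = a then 1 else 0)),
      ?_, ?_, ?_⟩
    · intro j k
      have h1 : (j = a ∧ k = b) ↔ (k = b ∧ j = a) := and_comm
      have h2 : (j = b ∧ k = a) ↔ (k = a ∧ j = b) := and_comm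
      simp only [hG1 j k, h1, h2]
      rw [add_comm (if k = b ∧ j = a then 1 else 0)]
    · intro j
      have h1 : ¬ (j = a ∧ j = b) := fun h => hba (h.2.symm.trans h.1)
      have h2 : ¬ (j = b ∧ j = a) := fun h => h1 ⟨h.2, h.1⟩
      simp [hG2 j, h1, h2]
    · intro j
      rw [Finset.sum_add_distrib, hG3 j, Finset.sum_add_distrib]
      have h1 : ∑ k, (if j = a ∧ k = b then 1 else 0) = (if j = a then 1 else 0) := by
        by_cases h : j = a <;> simp [h]
      have h2 : ∑ k, (if j = b ∧ k = a then 1 else 0) = (if j = b then 1 else 0) := by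
        by_cases h : j = b <;> simp [h]
      rw [h1, h2]
      exact Nat.sub_add_cancel (hle j)

theorem exists_multigraph {V : Type} [Fintype V] [DecidableEq V] (f : V → ℕ)
    (heven : Even (∑ i, f i)) (hmax : ∀ k, 2 * f k ≤ ∑ i, f i) :
    ∃ G : V → V → ℕ, (∀ j k, G j k = G k j) ∧ (∀ j, G j j = 0) ∧ ∀ j, ∑ k, G j k = f j := by
  obtain ⟨n, hn⟩ := heven
  exact exists_multigraph_aux n f (by omega) (fun k => by have := hmax k; omega)

theorem card_sep_le {V : Type} [DecidableEq V] (O : Finset V) (w : ℕ) (hO : O.card = 2 * w)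
    (j k : V) (hj : j ∈ O) (hk : k ∈ O) (hjk : j ≠ k) :
    ((O.powersetCard w).filter (fun P => j ∈ P ∧ k ∉ P)).card ≤ Nat.choose (2 * (w - 1)) (w - 1) := by
  have hcard : (O \ {j, k}).card = 2 * (w - 1) := by
    rw [Finset.card_sdiff_of_subset (by intro x hx; simp at hx; rcases hx with h | h <;> simp [h, hj, hk]),
      Finset.card_pair hjk, hO]
    omega
  rw [← hcard, ← Finset.card_powersetCard]
  apply Finset.card_le_card_of_injOn (fun P => P.erase j)
  · intro P hP
    simp only [Finset.coe_filter, Set.mem_ofPred_eq, Finset.mem_powersetCard] at hP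
    simp only [Finset.mem_coe, Finset.mem_powersetCard]
    obtain ⟨⟨h1, h2⟩, h3, h4⟩ := hP
    refine ⟨?_, ?_⟩
    · intro x hx
      rw [Finset.mem_erase] at hx
      simp only [Finset.mem_sdiff, Finset.mem_insert, Finset.mem_singleton]
      refine ⟨h1 hx.2, ?_⟩
      rintro (h | h)
      · exact hx.1 h
      · exact h4 (h ▸ hx.2)
    · rw [Finset.card_erase_of_mem h3, h2]
  · intro P hP Q hQ hPQ
    simp only [Finset.coe_filter, Set.mem_ofPred_eq] at hP hQ
    simp only at hPQ
    rw [← Finset.insert_erase hP.2.1, ← Finset.insert_erase hQ.2.1, hPQ]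

theorem exists_balanced_cut {V : Type} [Fintype V] [DecidableEq V] (X : V → V → ℕ)
    (_hs : ∀ j k, X j k = X k j) (h0 : ∀ j, X j j = 0)
    (O : Finset V) (w : ℕ) (hO : O.card = 2 * w) :
    ∃ P, P ⊆ O ∧ P.card = w ∧
      2 * (2 * w - 1) * (∑ j ∈ P, ∑ k ∈ O \ P, X j k) ≤ w * ∑ j ∈ O, ∑ k ∈ O, X j k := by
  rcases Nat.eq_zero_or_pos w with hw | hw
  · subst hw
    exact ⟨∅, by simp, by simp, by simp⟩
  by_contra hcon
  push Not at hcon
  have hne : (O.powersetCard w).Nonempty := by
    apply Finset.powersetCard_nonempty.mpr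
    omega
  have h1 : ∑ P ∈ O.powersetCard w, (w * ∑ j ∈ O, ∑ k ∈ O, X j k)
      < ∑ P ∈ O.powersetCard w, (2 * (2 * w - 1) * (∑ j ∈ P, ∑ k ∈ O \ P, X j k)) := by
    apply Finset.sum_lt_sum_of_nonempty hne
    intro P hP
    rw [Finset.mem_powersetCard] at hP
    exact hcon P hP.1 hP.2
  rw [Finset.sum_const, Finset.card_powersetCard, hO, smul_eq_mul, ← Finset.mul_sum] at h1
  have h2 : ∑ P ∈ O.powersetCard w, (∑ j ∈ P, ∑ k ∈ O \ P, X j k)
      ≤ Nat.choose (2 * (w - 1)) (w - 1) * ∑ j ∈ O, ∑ k ∈ O, X j k := by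
    have e1 : ∀ P ∈ O.powersetCard w, (∑ j ∈ P, ∑ k ∈ O \ P, X j k)
        = ∑ j ∈ O, ∑ k ∈ O, (if j ∈ P ∧ k ∉ P then X j k else 0) := by
      intro P hP
      rw [Finset.mem_powersetCard] at hP
      have : ∀ j ∈ O, ∑ k ∈ O, (if j ∈ P ∧ k ∉ P then X j k else 0)
          = if j ∈ P then ∑ k ∈ O \ P, X j k else 0 := by
        intro j _
        by_cases hjP : j ∈ P
        · simp only [hjP, true_and, if_true]
          rw [← Finset.sum_filter]
          apply Finset.sum_congr _ (fun _ _ => rfl)
          ext x; simp [Finset.mem_sdiff]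
        · simp [hjP]
      rw [Finset.sum_congr rfl this, ← Finset.sum_filter]
      apply Finset.sum_congr _ (fun _ _ => rfl)
      ext x
      simp only [Finset.mem_filter]
      exact ⟨fun h => ⟨hP.1 h, h⟩, fun h => h.2⟩
    rw [Finset.sum_congr rfl e1, Finset.sum_comm, Finset.mul_sum]
    apply Finset.sum_le_sum
    intro j hj
    rw [Finset.sum_comm, Finset.mul_sum]
    apply Finset.sum_le_sum
    intro k hk
    by_cases hjk : j = k
    · subst hjk
      simp [h0]
    · rw [← Finset.sum_filter, Finset.sum_const, smul_eq_mul]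
      exact Nat.mul_le_mul_right _ (card_sep_le O w hO j k hj hk hjk)
  have h3 : Nat.choose (2 * w) w * w = 2 * (2 * w - 1) * Nat.choose (2 * (w - 1)) (w - 1) := by
    obtain ⟨m, rfl⟩ : ∃ m, w = m + 1 := ⟨w - 1, by omega⟩
    have := Nat.succ_mul_centralBinom_succ m
    rw [Nat.centralBinom, Nat.centralBinom] at this
    have e : 2 * (m + 1) - 1 = 2 * m + 1 := by omega
    rw [e, Nat.add_sub_cancel, mul_comm (Nat.choose _ _)]
    exact this
  have h4 : 2 * (2 * w - 1) * ∑ P ∈ O.powersetCard w, (∑ j ∈ P, ∑ k ∈ O \ P, X j k)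
      ≤ 2 * (2 * w - 1) * (Nat.choose (2 * (w - 1)) (w - 1) * ∑ j ∈ O, ∑ k ∈ O, X j k) :=
    Nat.mul_le_mul_left _ h2
  have h5 : 2 * (2 * w - 1) * (Nat.choose (2 * (w - 1)) (w - 1) * ∑ j ∈ O, ∑ k ∈ O, X j k)
      = Nat.choose (2 * w) w * (w * ∑ j ∈ O, ∑ k ∈ O, X j k) := by
    rw [← mul_assoc, ← h3, mul_assoc]
  omega

end TCM
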