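import Pool.Agent.Lib.MP_c70440_co.AllSpecial
import Pool.Agent.Lib.MP_c70440_co.Small

/-!
# Total colourings: minimum part of size three, near-regular case
-/

set_option autoImplicit false
set_option maxHeartbeats 4000000

namespace TCM

open Finset

/-! ### Inequalities -/

theorem near3_poly (w v r q : ℤ) (hv : 0 ≤ v) (hr : 0 ≤ r) (hq : 0 ≤ q) (hw : 2 * w = r + q + 7) :
    (2 * w - 1) * (6 * (2 * (v + 2 * w) + (v + r) - 2) * (v + 2 * w) + 36 * w +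
      18 * (v + 2 * w - 1) * (3 * w - (v + 2 * w) + r) + 18 * w - 6 * (v + 2 * w)) +
      18 * (2 * w - 1) * (v + 2 * w - 1) * (4 * v) +
      9 * w * ((v + 2 * w - 1) * (3 * (v + 2 * w) + (v + r) - 8 * v) + 2 * w) ≤
    2 * (2 * w - 1) * (4 * (v + 2 * w) + 2 * (v + r) + 3) * (5 * (v + 2 * w) + (v + r) - 3) := by
  have hq' : q = 2 * w - r - 7 := by linarith
  have key : 2 * (2 * (2 * w - 1) * (4 * (v + 2 * w) + 2 * (v + r) + 3) *
      (5 * (v + 2 * w) + (v + r) - 3) -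
      ((2 * w - 1) * (6 * (2 * (v + 2 * w) + (v + r) - 2) * (v + 2 * w) + 36 * w +
      18 * (v + 2 * w - 1) * (3 * w - (v + 2 * w) + r) + 18 * w - 6 * (v + 2 * w)) +
      18 * (2 * w - 1) * (v + 2 * w - 1) * (4 * v) +
      9 * w * ((v + 2 * w - 1) * (3 * (v + 2 * w) + (v + r) - 8 * v) + 2 * w))) =
      3081 + 1457 * q + 223 * q ^ 2 + 11 * q ^ 3 + 1559 * r + 457 * r * q + 32 * r * q ^ 2 +
      282 * r ^ 2 + 39 * r ^ 2 * q + 18 * r ^ 3 + 2313 * v + 624 * v * q + 39 * v * q ^ 2 +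
      705 * v * r + 93 * v * r * q + 54 * v * r ^ 2 + 252 * v ^ 2 + 36 * v ^ 2 * q +
      36 * v ^ 2 * r := by
    rw [hq']
    ring
  have hpos : 0 ≤ 3081 + 1457 * q + 223 * q ^ 2 + 11 * q ^ 3 + 1559 * r + 457 * r * q +
      32 * r * q ^ 2 +
      282 * r ^ 2 + 39 * r ^ 2 * q + 18 * r ^ 3 + 2313 * v + 624 * v * q + 39 * v * q ^ 2 +
      705 * v * r + 93 * v * r * q + 54 * v * r ^ 2 + 252 * v ^ 2 + 36 * v ^ 2 * q +
      36 * v ^ 2 * r := by positivity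
  linarith

theorem near3_main (p E w s v0 E0 ED x XOO XVV XPQ YS YR mu M : ℤ)
    (hp : 8 ≤ p) (hv0 : v0 = p - 2 * w) (hv : 0 ≤ v0) (hE0 : v0 ≤ E0) (hED : 0 ≤ ED)
    (hsum : E0 + ED ≤ E) (hE : E + 7 ≤ p) (hs : p < 3 * s) (hsw : s ≤ w)
    (hXVV0 : 0 ≤ XVV)
    (hO : XOO + x = (p - 1) * (3 * p + E - (3 * v0 + E0)) + 2 * w)
    (hV : x + XVV = (p - 1) * (3 * v0 + E0))
    (hcut : 2 * (2 * w - 1) * XPQ ≤ w * XOO)
    (hYS : 2 * YS ≤ 2 * XPQ + 2 * x + XVV)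
    (hYR : YR ≤ YS + (p - 1) * (3 * (w - s) + ED) + (w - s))
    (hmu : mu + M = 3 * p + E) (hmuM : mu ≤ M) (hM : 3 * M < 5 * p + E - 3) :
    (2 * p + E - 2) * s + YR + 2 * w ≤ mu * M := by
  have hw3 : 3 ≤ w := by linarith
  -- lower bound for the product
  have h1 : (4 * p + 2 * E + 3) * (5 * p + E - 3) ≤ 9 * (mu * M) := by
    have h2 : 0 ≤ (5 * p + E - 3 - 3 * M) * (3 * M - (4 * p + 2 * E + 3)) := by
      apply mul_nonneg <;> linarith
    have h3 : mu = 3 * p + E - M := by linarith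
    rw [h3]
    linarith
  -- everything is multiplied by 18 (2w-1)
  have hpos : 0 < 2 * w - 1 := by linarith
  have hxle : x ≤ (p - 1) * (3 * v0 + E0) := by linarith
  have h4 : 18 * (2 * w - 1) * YS ≤
      18 * (2 * w - 1) * ((p - 1) * (3 * v0 + E0)) +
      9 * w * ((p - 1) * (3 * p + E - 2 * (3 * v0 + E0)) + 2 * w) := by
    have h5 : 9 * (2 * w - 1) * (2 * YS) ≤ 9 * (2 * w - 1) * (2 * XPQ + 2 * x + XVV) :=
      mul_le_mul_of_nonneg_left hYS (by linarith)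
    have h6 : 0 ≤ (w - 1) * ((p - 1) * (3 * v0 + E0) - x) :=
      mul_nonneg (by linarith) (by linarith)
    have h7 : XOO = (p - 1) * (3 * p + E - (3 * v0 + E0)) + 2 * w - x := by linarith
    have h8 : XVV = (p - 1) * (3 * v0 + E0) - x := by linarith
    rw [h7] at hcut
    rw [h8] at h5
    linarith
  have h9 : 18 * (2 * w - 1) * YR ≤ 18 * (2 * w - 1) * YS +
      18 * (2 * w - 1) * ((p - 1) * (3 * (w - s) + ED) + (w - s)) := by
    have := mul_le_mul_of_nonneg_left hYR (by linarith : 0 ≤ 18 * (2 * w - 1))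
    linarith
  -- reduce ED, E0
  have h10 : 18 * (2 * w - 1) * ((p - 1) * ED) + 18 * (2 * w - 1) * ((p - 1) * (3 * v0 + E0)) +
      9 * w * ((p - 1) * (3 * p + E - 2 * (3 * v0 + E0)) + 2 * w) ≤
      18 * (2 * w - 1) * ((p - 1) * (E - v0)) + 18 * (2 * w - 1) * ((p - 1) * (4 * v0)) +
      9 * w * ((p - 1) * (3 * p + E - 8 * v0) + 2 * w) := by
    have h11 : 0 ≤ (2 * w - 1) * (p - 1) * (E - E0 - ED) :=
      mul_nonneg (mul_nonneg (by linarith) (by linarith)) (by linarith)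
    have h12 : 0 ≤ w * (p - 1) * (E0 - v0) :=
      mul_nonneg (mul_nonneg (by linarith) (by linarith)) (by linarith)
    linarith
  -- reduce s
  have h13 : 0 ≤ (2 * w - 1) * (p - E) * (3 * s - p) :=
    mul_nonneg (mul_nonneg (by linarith) (by linarith)) (by linarith)
  have h14 := near3_poly w v0 (E - v0) (2 * w - (E - v0) - 7) hv (by linarith) (by linarith)
    (by ring)
  have hp' : p = v0 + 2 * w := by linarith
  have h15 : 18 * (2 * w - 1) * ((2 * p + E - 2) * s + YR + 2 * w) ≤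
      2 * (2 * w - 1) * ((4 * p + 2 * E + 3) * (5 * p + E - 3)) := by
    have e1 : v0 + (E - v0) = E := by ring
    rw [e1, ← hp'] at h14
    linarith
  have h16 : 18 * (2 * w - 1) * ((2 * p + E - 2) * s + YR + 2 * w) ≤
      18 * (2 * w - 1) * (mu * M) := by
    have := mul_le_mul_of_nonneg_left h1 (by linarith : 0 ≤ 2 * (2 * w - 1))
    linarith
  exact le_of_mul_le_mul_left h16 (by linarith)

theorem near3_two (p E w s o YR mu M : ℤ) (hp : 8 ≤ p) (hw : 2 * w ≤ p) (hE : 0 ≤ E)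
    (hEp : E + 7 ≤ p) (hs0 : 0 ≤ s) (hs : 3 * s ≤ p) (ho : o ≤ p)
    (hYR : YR ≤ (p - 1) * mu + o)
    (hmu : mu + M = 3 * p + E) (hmuM : mu ≤ M) (hM : 3 * M < 5 * p + E - 3) :
    (2 * p + E - 2) * s + YR + 2 * w ≤ mu * M := by
  have h1 : 0 ≤ (M - mu) * (2 * p - 2 - (M - mu)) := mul_nonneg (by linarith) (by linarith)
  have h2 : 4 * (mu * (M - p + 1)) = (3 * p + E) * (p + E + 2) +
      (M - mu) * (2 * p - 2 - (M - mu)) := by
    rw [← hmu]
    have : p = (mu + M - E) - 2 * p := by linarith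
    have hE' : E = mu + M - 3 * p := by linarith
    rw [hE']
    ring
  have h3 : 3 * ((2 * p + E - 2) * s) ≤ (2 * p + E - 2) * p := by
    have := mul_le_mul_of_nonneg_left hs (by linarith : 0 ≤ 2 * p + E - 2)
    linarith
  have h4 : 0 ≤ p * E := mul_nonneg (by linarith) hE
  nlinarith

theorem near3_part1 (p E c a e d : ℤ) (ha : a = 3 + e) (he : 0 ≤ e)
    (hd0 : 0 ≤ d) (hd : d ≤ 1) (hc : 2 * p + E ≤ 3 * c) (hp : 0 ≤ 2 * p + E) :
    (2 * p + E - 2) * d + 2 * d ≤ a * c + a * e := by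
  have hc0 : 0 ≤ c := by linarith
  have h1 : 0 ≤ e * c := mul_nonneg he hc0
  have h2 : 0 ≤ (2 * p + E) * (1 - d) := mul_nonneg hp (by linarith)
  rw [ha]
  nlinarith

theorem near3_part2 (p E c a e d : ℤ) (ha : a = 3 + e) (he : 0 ≤ e) (heE : e ≤ E)
    (hEp : E + 7 ≤ p) (hd : d = 0 ∨ d = 1) (hc : 2 * p + E ≤ 3 * c) :
    (2 * p + E - 2) * d + a * e ≤ a * c := by
  rw [ha]
  rcases hd with rfl | rfl
  · have h1 : 0 ≤ (3 + e) * (c - e) := mul_nonneg (by linarith) (by linarith)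
    linarith
  · have h1 : 0 ≤ (3 + e) * (3 * c - (2 * p + E)) := mul_nonneg (by linarith) (by linarith)
    have h2 : 0 ≤ e * (2 * p + E - 9 - 3 * e) := mul_nonneg he (by linarith)
    linarith

/-! ### Cuts -/

theorem dsum {V : Type} [Fintype V] [DecidableEq V] (X : V → V → ℤ) (A B : Finset V) :
    ∑ j ∈ A, ∑ k ∈ B, X j k = ∑ j, ∑ k, if j ∈ A ∧ k ∈ B then X j k else 0 := by
  have h1 : ∀ j, (∑ k, if j ∈ A ∧ k ∈ B then X j k else 0) =
      if j ∈ A then ∑ k ∈ B, X j k else 0 := by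
    intro j
    by_cases hj : j ∈ A
    · simp [hj]
    · simp [hj]
  rw [Finset.sum_congr rfl fun j _ => h1 j]
  simp

theorem cut_le {V : Type} [Fintype V] [DecidableEq V] (X : V → V → ℤ)
    (h0 : ∀ j k, 0 ≤ X j k) (R S : Finset V) :
    ∑ j ∈ R, ∑ k ∈ Rᶜ, X j k ≤ ∑ j ∈ S, ∑ k ∈ Sᶜ, X j k +
      ∑ j ∈ R \ S, ∑ k ∈ univ, X j k + ∑ j ∈ univ, ∑ k ∈ S \ R, X j k := by
  rw [dsum X R Rᶜ, dsum X S Sᶜ, dsum X (R \ S) univ, dsum X univ (S \ R),
    ← Finset.sum_add_distrib, ← Finset.sum_add_distrib]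
  apply Finset.sum_le_sum
  intro j _
  rw [← Finset.sum_add_distrib, ← Finset.sum_add_distrib]
  apply Finset.sum_le_sum
  intro k _
  have h := h0 j k
  by_cases h1 : j ∈ R <;> by_cases h2 : k ∈ R <;> by_cases h3 : j ∈ S <;> by_cases h4 : k ∈ S <;>
    simp [h1, h2, h3, h4] <;> linarith

theorem cut_split {V : Type} [Fintype V] [DecidableEq V] (X : V → V → ℤ)
    (h0 : ∀ j k, 0 ≤ X j k) (hs : ∀ j k, X j k = X k j) (O P S : Finset V) (hP : P ⊆ O)
    (hS : ∀ j ∈ O, (j ∈ S ↔ j ∈ P)) :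
    2 * ∑ j ∈ S, ∑ k ∈ Sᶜ, X j k ≤ 2 * ∑ j ∈ P, ∑ k ∈ O \ P, X j k +
      2 * ∑ j ∈ O, ∑ k ∈ Oᶜ, X j k + ∑ j ∈ Oᶜ, ∑ k ∈ Oᶜ, X j k := by
  have hsym : ∀ A B : Finset V, 2 * ∑ j ∈ A, ∑ k ∈ B, X j k =
      ∑ j, ∑ k, ((if j ∈ A ∧ k ∈ B then X j k else 0) + (if k ∈ A ∧ j ∈ B then X j k else 0)) := by
    intro A B
    have h1 : ∑ j ∈ A, ∑ k ∈ B, X j k = ∑ j, ∑ k, if k ∈ A ∧ j ∈ B then X j k else 0 := by
      rw [dsum, Finset.sum_comm]
      apply Finset.sum_congr rfl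
      intro j _
      apply Finset.sum_congr rfl
      intro k _
      rw [hs]
    have h2 : 2 * ∑ j ∈ A, ∑ k ∈ B, X j k = ∑ j ∈ A, ∑ k ∈ B, X j k + ∑ j ∈ A, ∑ k ∈ B, X j k := by
      ring
    rw [h2]
    nth_rewrite 1 [dsum]
    rw [h1, ← Finset.sum_add_distrib]
    apply Finset.sum_congr rfl
    intro j _
    rw [← Finset.sum_add_distrib]
  rw [hsym S Sᶜ, hsym P (O \ P), hsym O Oᶜ, dsum X Oᶜ Oᶜ, ← Finset.sum_add_distrib,
    ← Finset.sum_add_distrib]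
  apply Finset.sum_le_sum
  intro j _
  rw [← Finset.sum_add_distrib, ← Finset.sum_add_distrib]
  apply Finset.sum_le_sum
  intro k _
  have h := h0 j k
  by_cases h1 : j ∈ O <;> by_cases h2 : k ∈ O
  · have e1 := hS j h1
    have e2 := hS k h2
    by_cases h3 : j ∈ P <;> by_cases h4 : k ∈ P <;> simp [h1, h2, h3, h4, e1, e2]
  · have h4 : k ∉ P := fun hk => h2 (hP hk)
    by_cases h3 : j ∈ S <;> by_cases h5 : k ∈ S <;> by_cases h6 : j ∈ P <;>
      simp [h1, h2, h3, h4, h5, h6] <;> linarith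
  · have h4 : j ∉ P := fun hk => h1 (hP hk)
    by_cases h3 : j ∈ S <;> by_cases h5 : k ∈ S <;> by_cases h6 : k ∈ P <;>
      simp [h1, h2, h3, h4, h5, h6] <;> linarith
  · have h4 : k ∉ P := fun hk => h2 (hP hk)
    have h6 : j ∉ P := fun hk => h1 (hP hk)
    by_cases h3 : j ∈ S <;> by_cases h5 : k ∈ S <;> simp [h1, h2, h3, h4, h5, h6] <;> linarith

/-- The odd parts. -/
def oddParts {V : Type} [Fintype V] [DecidableEq V] (a : V → ℕ) : Finset V :=
  Finset.univ.filter (fun k => a k % 2 = 1)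

theorem mem_oddParts {V : Type} [Fintype V] [DecidableEq V] (a : V → ℕ) (k : V) :
    k ∈ oddParts a ↔ a k % 2 = 1 := by
  simp [oddParts]

theorem Specials.xdeg' {V : Type} [Fintype V] [DecidableEq V] {a : V → ℕ} {G : V → V → V → ℕ}
    (h : Specials a G) (j : V) :
    ∑ k, ∑ i, (G i j k : ℤ) = ((Fintype.card V : ℤ) - 1) * a j + (a j % 2 : ℕ) := by
  have h2 : ∑ k, ∑ i, (G i j k : ℤ) = ∑ i, ∑ k, (G i j k : ℤ) := Finset.sum_comm
  have h3 := h.xdeg j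
  zify at h3
  push_cast at h2 h3 ⊢
  linarith

theorem near3_case3 {V : Type} [Fintype V] [DecidableEq V] (a : V → ℕ) (hmin : ∀ k, 3 ≤ a k)
    (G : V → V → V → ℕ) (hG : Specials a G) (hp : 8 ≤ Fintype.card V)
    (hE : ∑ k, a k + 6 < 4 * Fintype.card V) (w : ℕ) (hO : (oddParts a).card = 2 * w)
    (P : Finset V) (hP : P ⊆ oddParts a) (hPc : P.card = w)
    (hcut : 2 * (2 * (w : ℤ) - 1) * (∑ j ∈ P, ∑ k ∈ oddParts a \ P, ∑ i, (G i j k : ℤ)) ≤
      w * ∑ j ∈ oddParts a, ∑ k ∈ oddParts a, ∑ i, (G i j k : ℤ))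
    (R : Finset V) (hR : 2 * ∑ k ∈ R, (a k : ℤ) ≤ ∑ k, (a k : ℤ))
    (hM : 3 * (∑ k, (a k : ℤ) - ∑ k ∈ R, (a k : ℤ)) <
      ∑ k, (a k : ℤ) + 2 * Fintype.card V - 3)
    (hs : (Fintype.card V : ℤ) < 3 * (((R ∩ P).card : ℤ) - ((R ∩ (oddParts a \ P)).card : ℤ))) :
    ((∑ k, (a k : ℤ)) - Fintype.card V - 2) *
      (((R ∩ P).card : ℤ) - ((R ∩ (oddParts a \ P)).card : ℤ)) +
      ∑ j ∈ R, ∑ k ∈ Rᶜ, ∑ i, (G i j k : ℤ) + 2 * w ≤
    (∑ k ∈ R, (a k : ℤ)) * (∑ k, (a k : ℤ) - ∑ k ∈ R, (a k : ℤ)) := by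
  classical
  set O := oddParts a with hOdef
  set X : V → V → ℤ := fun j k => ∑ i, (G i j k : ℤ) with hX
  have hX0 : ∀ j k, 0 ≤ X j k := fun j k => by
    simp only [hX]
    positivity
  have hXs : ∀ j k, X j k = X k j := fun j k => by
    simp only [hX]
    exact Finset.sum_congr rfl fun i _ => by rw [hG.symm]
  have hdeg : ∀ j, ∑ k, X j k = ((Fintype.card V : ℤ) - 1) * a j + (a j % 2 : ℕ) := hG.xdeg'
  set p : ℤ := (Fintype.card V : ℤ) with hpdef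
  set n : ℤ := ∑ k, (a k : ℤ) with hn
  set e : V → ℤ := fun k => (a k : ℤ) - 3 with he
  have he0 : ∀ k, 0 ≤ e k := fun k => by
    have := hmin k
    simp only [he]
    have : (3 : ℤ) ≤ a k := by exact_mod_cast this
    linarith
  have hodd : ∀ k ∈ O, ((a k % 2 : ℕ) : ℤ) = 1 := fun k hk => by
    rw [(mem_oddParts a k).1 hk]
    rfl
  have heven : ∀ k ∈ Oᶜ, ((a k % 2 : ℕ) : ℤ) = 0 ∧ 1 ≤ e k := fun k hk => by
    rw [Finset.mem_compl, mem_oddParts] at hk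
    have h1 := hmin k
    have h2 : a k % 2 = 0 := by omega
    have h3 : 4 ≤ a k := by omega
    refine ⟨by rw [h2]; rfl, ?_⟩
    simp only [he]
    have : (4 : ℤ) ≤ a k := by exact_mod_cast h3
    linarith
  have hsumall : ∑ k, e k = n - 3 * p := by
    simp only [he, Finset.sum_sub_distrib, Finset.sum_const, Finset.card_univ, nsmul_eq_mul]
    rw [← hpdef, ← hn]
    ring
  have hcardc : ((Oᶜ).card : ℤ) = p - 2 * w := by
    rw [Finset.card_compl, hO, Nat.cast_sub]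
    · push_cast
      rfl
    · rw [← hO]
      exact Finset.card_le_univ _
  -- the modified set
  set S : Finset V := P ∪ (R \ O) with hS
  have hSO : ∀ j ∈ O, (j ∈ S ↔ j ∈ P) := by
    intro j hj
    simp only [hS, Finset.mem_union, Finset.mem_sdiff]
    tauto
  have hRS : R \ S = R ∩ (O \ P) := by
    ext k
    simp only [hS, Finset.mem_sdiff, Finset.mem_union, Finset.mem_inter]
    tauto
  have hSR : S \ R = P \ R := by
    ext k
    simp only [hS, Finset.mem_sdiff, Finset.mem_union]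
    tauto
  have hPO : ∀ k ∈ P \ R, k ∈ O := fun k hk => hP (Finset.mem_sdiff.1 hk).1
  have hQO : ∀ k ∈ R ∩ (O \ P), k ∈ O := fun k hk =>
    (Finset.mem_sdiff.1 (Finset.mem_inter.1 hk).2).1
  have hcardP : ((P \ R).card : ℤ) = w - ((R ∩ P).card : ℤ) := by
    have h1 := Finset.card_sdiff_add_card_inter P R
    rw [hPc, Finset.inter_comm] at h1
    have h2 : ((P \ R).card : ℤ) + ((R ∩ P).card : ℤ) = w := by exact_mod_cast h1
    linarith
  have hdegsum : ∀ T : Finset V, (∀ k ∈ T, k ∈ O) →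
      ∑ j ∈ T, ∑ k, X j k = (p - 1) * (3 * (T.card : ℤ) + ∑ k ∈ T, e k) + T.card := by
    intro T hT
    have h1 : ∀ j ∈ T, ∑ k, X j k = (p - 1) * (3 + e j) + 1 := by
      intro j hj
      rw [hdeg, hodd j (hT j hj)]
      simp only [he]
      ring
    rw [Finset.sum_congr rfl h1, Finset.sum_add_distrib, ← Finset.mul_sum,
      Finset.sum_add_distrib, Finset.sum_const, Finset.sum_const, nsmul_eq_mul, nsmul_eq_mul]
    ring
  have hYR : ∑ j ∈ R, ∑ k ∈ Rᶜ, X j k ≤ ∑ j ∈ S, ∑ k ∈ Sᶜ, X j k +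
      (p - 1) * (3 * (w - (((R ∩ P).card : ℤ) - ((R ∩ (O \ P)).card : ℤ))) +
        (∑ k ∈ R ∩ (O \ P), e k + ∑ k ∈ P \ R, e k)) +
      (w - (((R ∩ P).card : ℤ) - ((R ∩ (O \ P)).card : ℤ))) := by
    have h1 := cut_le X hX0 R S
    have h2 : ∑ j ∈ univ, ∑ k ∈ S \ R, X j k = ∑ j ∈ S \ R, ∑ k, X j k := by
      rw [Finset.sum_comm]
      apply Finset.sum_congr rfl
      intro j _
      apply Finset.sum_congr rfl
      intro k _
      exact hXs _ _
    rw [h2, hRS, hSR, hdegsum _ hQO, hdegsum _ hPO, hcardP] at h1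
    linarith
  have hYS := cut_split X hX0 hXs O P S hP hSO
  have hXO : ∑ j ∈ O, ∑ k ∈ O, X j k + ∑ j ∈ O, ∑ k ∈ Oᶜ, X j k =
      (p - 1) * (3 * (2 * (w : ℤ)) + ∑ k ∈ O, e k) + 2 * w := by
    have h1 := hdegsum O (fun k hk => hk)
    rw [← Finset.sum_add_distrib]
    have h2 : ∀ j ∈ O, ∑ k ∈ O, X j k + ∑ k ∈ Oᶜ, X j k = ∑ k, X j k :=
      fun j _ => Finset.sum_add_sum_compl O _
    rw [Finset.sum_congr rfl h2, h1, hO]
    push_cast
    ring
  have hXV : ∑ j ∈ O, ∑ k ∈ Oᶜ, X j k + ∑ j ∈ Oᶜ, ∑ k ∈ Oᶜ, X j k =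
      (p - 1) * (3 * (p - 2 * (w : ℤ)) + ∑ k ∈ Oᶜ, e k) := by
    have h1 : ∑ j ∈ O, ∑ k ∈ Oᶜ, X j k = ∑ j ∈ Oᶜ, ∑ k ∈ O, X j k := by
      rw [Finset.sum_comm]
      apply Finset.sum_congr rfl
      intro j _
      apply Finset.sum_congr rfl
      intro k _
      exact hXs _ _
    rw [h1, ← Finset.sum_add_distrib]
    have h2 : ∀ j ∈ Oᶜ, ∑ k ∈ O, X j k + ∑ k ∈ Oᶜ, X j k = (p - 1) * (3 + e j) := by
      intro j hj
      rw [Finset.sum_add_sum_compl O, hdeg, (heven j hj).1]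
      simp only [he]
      ring
    rw [Finset.sum_congr rfl h2, ← Finset.mul_sum, Finset.sum_add_distrib, Finset.sum_const,
      nsmul_eq_mul, hcardc]
    ring
  have hesplit : ∑ k ∈ O, e k + ∑ k ∈ Oᶜ, e k = n - 3 * p := by
    rw [Finset.sum_add_sum_compl, hsumall]
  have hEΔ : ∑ k ∈ R ∩ (O \ P), e k + ∑ k ∈ P \ R, e k ≤ ∑ k ∈ O, e k := by
    have h1 : ∑ k ∈ R ∩ (O \ P), e k ≤ ∑ k ∈ O \ P, e k :=
      Finset.sum_le_sum_of_subset_of_nonneg Finset.inter_subset_right (fun k _ _ => he0 k)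
    have h2 : ∑ k ∈ P \ R, e k ≤ ∑ k ∈ P, e k :=
      Finset.sum_le_sum_of_subset_of_nonneg Finset.sdiff_subset (fun k _ _ => he0 k)
    have h3 : ∑ k ∈ O \ P, e k + ∑ k ∈ P, e k = ∑ k ∈ O, e k := Finset.sum_sdiff hP
    linarith
  have hE0 : p - 2 * (w : ℤ) ≤ ∑ k ∈ Oᶜ, e k := by
    rw [← hcardc]
    have : ∑ k ∈ Oᶜ, (1 : ℤ) ≤ ∑ k ∈ Oᶜ, e k :=
      Finset.sum_le_sum fun k hk => (heven k hk).2
    simpa using this
  have hEp : (n - 3 * p) + 7 ≤ p := by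
    have h1 : ∑ k, a k + 7 ≤ 4 * Fintype.card V := by omega
    have h2 : (∑ k, (a k : ℤ)) + 7 ≤ 4 * (Fintype.card V : ℤ) := by exact_mod_cast h1
    linarith
  have hpz : (8 : ℤ) ≤ p := by
    rw [hpdef]
    exact_mod_cast hp
  have hED0 : 0 ≤ ∑ k ∈ R ∩ (O \ P), e k + ∑ k ∈ P \ R, e k :=
    add_nonneg (Finset.sum_nonneg fun k _ => he0 k) (Finset.sum_nonneg fun k _ => he0 k)
  have hvpos : 0 ≤ p - 2 * (w : ℤ) := by
    rw [← hcardc]
    positivity
  have hsw : ((R ∩ P).card : ℤ) - ((R ∩ (O \ P)).card : ℤ) ≤ w := by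
    have h1 : (0 : ℤ) ≤ ((P \ R).card : ℤ) := by positivity
    have h2 : (0 : ℤ) ≤ ((R ∩ (O \ P)).card : ℤ) := by positivity
    linarith
  have hXVV0 : 0 ≤ ∑ j ∈ Oᶜ, ∑ k ∈ Oᶜ, X j k :=
    Finset.sum_nonneg fun j _ => Finset.sum_nonneg fun k _ => hX0 j k
  have hmain := near3_main p (n - 3 * p) w (((R ∩ P).card : ℤ) - ((R ∩ (O \ P)).card : ℤ))
    (p - 2 * w) (∑ k ∈ Oᶜ, e k) (∑ k ∈ R ∩ (O \ P), e k + ∑ k ∈ P \ R, e k)
    (∑ j ∈ O, ∑ k ∈ Oᶜ, X j k) (∑ j ∈ O, ∑ k ∈ O, X j k) (∑ j ∈ Oᶜ, ∑ k ∈ Oᶜ, X j k)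
    (∑ j ∈ P, ∑ k ∈ O \ P, X j k) (∑ j ∈ S, ∑ k ∈ Sᶜ, X j k) (∑ j ∈ R, ∑ k ∈ Rᶜ, X j k)
    (∑ k ∈ R, (a k : ℤ)) (n - ∑ k ∈ R, (a k : ℤ)) hpz rfl hvpos hE0 hED0 (by linarith) hEp hs hsw
    hXVV0
    (by rw [hXO]
        have : ∑ k ∈ O, e k = n - 3 * p - ∑ k ∈ Oᶜ, e k := by linarith
        rw [this]
        ring)
    hXV hcut hYS (by linarith) (by ring) (by linarith) (by linarith)
  have e1 : 2 * p + (n - 3 * p) - 2 = n - p - 2 := by ring
  rw [e1] at hmain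
  exact hmain

/-- The case of minimum part `3` in which the sum of the excesses is small. -/
theorem col_near3 {V : Type} [Fintype V] [DecidableEq V] (a : V → ℕ) (k0 : V) (hk0 : a k0 = 3)
    (hmin : ∀ k, 3 ≤ a k) (G : V → V → V → ℕ) (hG : Specials a G) (heven : Even (∑ k, a k))
    (hp : 8 ≤ Fintype.card V) (hD : ∑ k, a k % 2 ≤ ∑ k, a k * (a k - 3))
    (hE : ∑ k, a k + 6 < 4 * Fintype.card V) :
    Col a ((∑ k, a k) - 3 + 1) := by
  classical
  set O := oddParts a with hOdef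
  have hOsum : ∑ k, a k % 2 = O.card := by
    rw [Finset.card_eq_sum_ones, hOdef, oddParts, Finset.sum_filter]
    apply Finset.sum_congr rfl
    intro k _
    split_ifs with h <;> omega
  have hOeven : ∃ t, O.card = 2 * t := by
    have h1 : (∑ k, a k) % 2 = (∑ k, a k % 2) % 2 := Finset.sum_nat_mod _ _ _
    rw [hOsum] at h1
    obtain ⟨r, hr⟩ := heven
    exact ⟨O.card / 2, by omega⟩
  obtain ⟨w, hw⟩ := hOeven
  have hwp : 2 * w ≤ Fintype.card V := by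
    rw [← hw]
    exact Finset.card_le_univ _
  obtain ⟨P, hPO, hPc, hcut⟩ := exists_balanced_cut (fun j k => ∑ i, G i j k)
    (fun j k => Finset.sum_congr rfl fun i _ => by rw [hG.symm])
    (fun j => by simp [hG.diag]) O w hw
  have hcut1 : 2 * (2 * (w : ℤ) - 1) * (∑ j ∈ P, ∑ k ∈ O \ P, ∑ i, (G i j k : ℤ)) ≤
      w * ∑ j ∈ O, ∑ k ∈ O, ∑ i, (G i j k : ℤ) := by
    rcases Nat.eq_zero_or_pos w with hw0 | hw0
    · subst hw0
      have hP0 : P = ∅ := Finset.card_eq_zero.1 hPc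
      rw [hP0]
      simp
    · have h1 : 1 ≤ 2 * w := by omega
      zify [h1] at hcut
      push_cast at hcut
      exact hcut
  -- the other half
  set Q := O \ P with hQ
  have hQO : Q ⊆ O := Finset.sdiff_subset
  have hQc : Q.card = w := by
    have := Finset.card_sdiff_add_card_eq_card hPO
    rw [← hQ, hPc, hw] at this
    omega
  have hOQ : O \ Q = P := by
    ext k
    simp only [hQ, Finset.mem_sdiff]
    constructor
    · rintro ⟨h1, h2⟩
      by_contra h3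
      exact h2 ⟨h1, h3⟩
    · intro h
      exact ⟨hPO h, fun h2 => h2.2 h⟩
  have hcut2 : 2 * (2 * (w : ℤ) - 1) * (∑ j ∈ Q, ∑ k ∈ O \ Q, ∑ i, (G i j k : ℤ)) ≤
      w * ∑ j ∈ O, ∑ k ∈ O, ∑ i, (G i j k : ℤ) := by
    have h1 : ∑ j ∈ Q, ∑ k ∈ O \ Q, ∑ i, (G i j k : ℤ) =
        ∑ j ∈ P, ∑ k ∈ Q, ∑ i, (G i j k : ℤ) := by
      rw [hOQ, Finset.sum_comm]
      apply Finset.sum_congr rfl
      intro j _
      apply Finset.sum_congr rfl
      intro k _
      apply Finset.sum_congr rfl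
      intro i _
      rw [hG.symm]
    rw [h1]
    exact hcut1
  -- the signs
  set u : V → ℕ := fun k => if k ∈ P then (a k + 1) / 2 else a k / 2 with hu
  set v : V → ℕ := fun k => if k ∈ P then a k / 2 else (a k + 1) / 2 with hv
  have huv : ∀ k, u k + v k = a k := by
    intro k
    simp only [hu, hv]
    split_ifs <;> omega
  have hε : ∀ k, (u k : ℤ) - v k = (if k ∈ P then 1 else 0) - (if k ∈ Q then 1 else 0) := by
    intro k
    simp only [hu, hv]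
    by_cases hk : k ∈ P
    · have h2 : a k % 2 = 1 := (mem_oddParts a k).1 (hPO hk)
      have h3 : k ∉ Q := fun h => (Finset.mem_sdiff.1 h).2 hk
      rw [if_pos hk, if_pos hk, if_pos hk, if_neg h3]
      omega
    · rw [if_neg hk, if_neg hk, if_neg hk]
      by_cases hkO : k ∈ O
      · have h2 : a k % 2 = 1 := (mem_oddParts a k).1 hkO
        have h3 : k ∈ Q := Finset.mem_sdiff.2 ⟨hkO, hk⟩
        rw [if_pos h3]
        omega
      · have h2 : ¬ (a k % 2 = 1) := fun h => hkO ((mem_oddParts a k).2 h)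
        have h3 : k ∉ Q := fun h => hkO (hQO h)
        rw [if_neg h3]
        omega
  have hεR : ∀ R : Finset V, ∑ k ∈ R, ((u k : ℤ) - v k) =
      ((R ∩ P).card : ℤ) - ((R ∩ Q).card : ℤ) := by
    intro R
    rw [Finset.sum_congr rfl (fun k _ => hε k), Finset.sum_sub_distrib]
    congr 1 <;> simp
  have hεall : ∑ k, ((u k : ℤ) - v k) = 0 := by
    rw [hεR, Finset.univ_inter, Finset.univ_inter, hPc, hQc]
    ring
  -- abbreviations
  set p : ℤ := (Fintype.card V : ℤ) with hpdef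
  set n : ℤ := ∑ k, (a k : ℤ) with hn
  have hpz : (8 : ℤ) ≤ p := by
    rw [hpdef]
    exact_mod_cast hp
  have hwpz : 2 * (w : ℤ) ≤ p := by
    rw [hpdef]
    exact_mod_cast hwp
  have hEp : (n - 3 * p) + 7 ≤ p := by
    have h1 : ∑ k, a k + 7 ≤ 4 * Fintype.card V := by omega
    have h2 : (∑ k, (a k : ℤ)) + 7 ≤ 4 * (Fintype.card V : ℤ) := by exact_mod_cast h1
    linarith
  have he0 : ∀ k, (0 : ℤ) ≤ (a k : ℤ) - 3 := fun k => by
    have : (3 : ℤ) ≤ a k := by exact_mod_cast hmin k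
    linarith
  have hsumall : ∑ k, ((a k : ℤ) - 3) = n - 3 * p := by
    simp only [Finset.sum_sub_distrib, Finset.sum_const, Finset.card_univ, nsmul_eq_mul]
    rw [← hpdef, ← hn]
    ring
  have heE : ∀ k, (a k : ℤ) - 3 ≤ n - 3 * p := fun k => by
    rw [← hsumall]
    exact Finset.single_le_sum (f := fun k => (a k : ℤ) - 3) (fun k _ => he0 k) (Finset.mem_univ k)
  have hE0 : 0 ≤ n - 3 * p := by
    rw [← hsumall]
    exact Finset.sum_nonneg fun k _ => he0 k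
  have hδ : ∀ k, ((a k % 2 : ℕ) : ℤ) = 0 ∨ ((a k % 2 : ℕ) : ℤ) = 1 := by
    intro k
    have : a k % 2 = 0 ∨ a k % 2 = 1 := by omega
    rcases this with h | h <;> rw [h] <;> simp
  have hosum : ∑ k, ((a k % 2 : ℕ) : ℤ) = 2 * w := by
    have h1 : ∑ k, a k % 2 = 2 * w := by rw [hOsum, hw]
    exact_mod_cast h1
  have hoR : ∀ R : Finset V, ∑ k ∈ R, ((a k % 2 : ℕ) : ℤ) ≤ 2 * w := by
    intro R
    rw [← hosum]
    exact Finset.sum_le_sum_of_subset_of_nonneg (Finset.subset_univ _) (fun _ _ _ => by positivity)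
  have hBR : ∀ R : Finset V, ∑ k ∈ R, ((a k : ℤ) * (a k - 3)) ≤ ∑ k, ((a k : ℤ) * (a k - 3)) := by
    intro R
    exact Finset.sum_le_sum_of_subset_of_nonneg (Finset.subset_univ _)
      (fun k _ _ => mul_nonneg (by positivity) (he0 k))
  have hBR0 : ∀ R : Finset V, 0 ≤ ∑ k ∈ R, ((a k : ℤ) * (a k - 3)) := by
    intro R
    exact Finset.sum_nonneg (fun k _ => mul_nonneg (by positivity) (he0 k))
  have hDz : 0 ≤ ∑ k, ((a k : ℤ) * (a k - 3) - (a k % 2 : ℕ)) := by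
    rw [Finset.sum_sub_distrib]
    have h1 : ∑ k, ((a k % 2 : ℕ) : ℤ) ≤ ∑ k, (a k : ℤ) * (a k - 3) := by
      have h2 : ((∑ k, a k % 2 : ℕ) : ℤ) ≤ ((∑ k, a k * (a k - 3) : ℕ) : ℤ) := by exact_mod_cast hD
      rw [Nat.cast_sum, Nat.cast_sum] at h2
      refine h2.trans (le_of_eq ?_)
      apply Finset.sum_congr rfl
      intro k _
      rw [Nat.cast_mul, Nat.cast_sub (hmin k)]
      rfl
    linarith
  have hεabs : ∀ R : Finset V, |((R ∩ P).card : ℤ) - ((R ∩ Q).card : ℤ)| ≤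
      ∑ k ∈ R, ((a k % 2 : ℕ) : ℤ) := by
    intro R
    rw [← hεR]
    refine (Finset.abs_sum_le_sum_abs _ _).trans (Finset.sum_le_sum fun k _ => ?_)
    rw [abs_le]
    simp only [hu, hv]
    constructor <;> split_ifs <;> omega
  -- the key estimate for large sets
  have key : ∀ R : Finset V, 2 * ∑ k ∈ R, (a k : ℤ) ≤ n →
      3 * (n - ∑ k ∈ R, (a k : ℤ)) < n + 2 * p - 3 →
      |(n + 1 - (3 : ℕ) - p) * (((R ∩ P).card : ℤ) - ((R ∩ Q).card : ℤ))| +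
        ∑ j ∈ R, ∑ k ∈ Rᶜ, ∑ i, (G i j k : ℤ) + 2 * w ≤
        (∑ k ∈ R, (a k : ℤ)) * (n - ∑ k ∈ R, (a k : ℤ)) := by
    intro R hR hM
    have hγ0 : 0 ≤ n + 1 - (3 : ℕ) - p := by
      push_cast
      linarith
    rw [abs_mul, abs_of_nonneg hγ0]
    have e0 : n + 1 - ((3 : ℕ) : ℤ) - p = n - p - 2 := by
      push_cast
      ring
    rw [e0]
    set σ : ℤ := ((R ∩ P).card : ℤ) - ((R ∩ Q).card : ℤ) with hσ
    by_cases h1 : 3 * |σ| ≤ p
    · have h2 := hG.cross R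
      rw [Finset.sum_add_distrib, ← Finset.mul_sum] at h2
      have h3 := near3_two p (n - 3 * p) w |σ| (∑ k ∈ R, ((a k % 2 : ℕ) : ℤ))
        (∑ j ∈ R, ∑ k ∈ Rᶜ, ∑ i, (G i j k : ℤ)) (∑ k ∈ R, (a k : ℤ)) (n - ∑ k ∈ R, (a k : ℤ))
        hpz hwpz hE0 hEp (abs_nonneg _) h1 ((hoR R).trans hwpz) h2 (by ring) (by linarith)
        (by linarith)
      have e1 : 2 * p + (n - 3 * p) - 2 = n - p - 2 := by ring
      rw [e1] at h3
      exact h3
    · rw [not_le] at h1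
      rcases le_total 0 σ with h2 | h2
      · rw [abs_of_nonneg h2] at h1 ⊢
        exact near3_case3 a hmin G hG hp hE w hw P hPO hPc hcut1 R hR hM h1
      · rw [abs_of_nonpos h2] at h1 ⊢
        have h3 : -σ = ((R ∩ Q).card : ℤ) - ((R ∩ (O \ Q)).card : ℤ) := by
          rw [hOQ, hσ]
          ring
        rw [h3] at h1 ⊢
        exact near3_case3 a hmin G hG hp hE w hw Q hQO hQc hcut2 R hR hM h1
  have hγ : Fintype.card V + 3 + ∑ k, a k % 2 ≤ ∑ k, a k + 1 := by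
    have h1 : (Fintype.card V : ℤ) + 3 + 2 * w ≤ n + 1 := by
      rw [← hpdef]
      linarith
    have h2 : ∑ k, a k % 2 = 2 * w := by rw [hOsum, hw]
    rw [h2]
    have h3 : ((Fintype.card V + 3 + 2 * w : ℕ) : ℤ) ≤ ((∑ k, a k + 1 : ℕ) : ℤ) := by
      push_cast
      rw [← hn]
      exact h1
    exact_mod_cast h3
  refine col_small a 3 k0 hmin G hG u v huv hεall hγ ?_ ?_
  · intro R hR
    rw [hεR, Finset.sum_sub_distrib]
    by_cases hM : 3 * (n - ∑ k ∈ R, (a k : ℤ)) < n + 2 * p - 3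
    · have h1 := key R hR hM
      have h2 := hoR R
      have h3 := hBR0 R
      push_cast at h1 h2 h3 ⊢
      linarith
    · rw [not_lt] at hM
      have h1 := hG.cross R
      have h2 := hεabs R
      have hγ0 : 0 ≤ n + 1 - (3 : ℕ) - p := by
        push_cast
        linarith
      have h3 : |(n + 1 - (3 : ℕ) - p) * (((R ∩ P).card : ℤ) - ((R ∩ Q).card : ℤ))| ≤
          (n + 1 - (3 : ℕ) - p) * ∑ k ∈ R, ((a k % 2 : ℕ) : ℤ) := by
        rw [abs_mul, abs_of_nonneg hγ0]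
        exact mul_le_mul_of_nonneg_left h2 hγ0
      have h4 : ∑ k ∈ R, ((2 * p + (n - 3 * p) - 2) * ((a k % 2 : ℕ) : ℤ) +
          2 * ((a k % 2 : ℕ) : ℤ)) ≤
          ∑ k ∈ R, ((a k : ℤ) * (n - ∑ k ∈ R, (a k : ℤ) - p + 1) + (a k : ℤ) * (a k - 3)) := by
        refine Finset.sum_le_sum fun k _ => ?_
        refine near3_part1 p (n - 3 * p) _ _ _ _ (by ring) (he0 k) (by positivity) ?_ (by linarith)
          (by linarith)
        rcases hδ k with h | h <;> rw [h] <;> norm_num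
      rw [Finset.sum_add_distrib, Finset.sum_add_distrib, ← Finset.mul_sum, ← Finset.mul_sum,
        ← Finset.sum_mul] at h4
      rw [Finset.sum_add_distrib, ← Finset.mul_sum] at h1
      push_cast at h1 h3 h4 ⊢
      linarith
  · intro R hR
    rw [hεR, Finset.sum_sub_distrib]
    by_cases hM : 3 * (n - ∑ k ∈ R, (a k : ℤ)) < n + 2 * p - 3
    · have h1 := key R hR hM
      have h2 : 0 ≤ ∑ k ∈ R, ((a k % 2 : ℕ) : ℤ) := Finset.sum_nonneg fun _ _ => by positivity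
      have h3 := hBR R
      have h4 : ∑ k, ((a k : ℤ) * (a k - 3) - (a k % 2 : ℕ)) =
          ∑ k, ((a k : ℤ) * (a k - 3)) - 2 * w := by
        rw [Finset.sum_sub_distrib, hosum]
      push_cast at h1 h2 h3 h4 ⊢
      linarith
    · rw [not_lt] at hM
      have h1 := hG.cross R
      have h2 := hεabs R
      have hγ0 : 0 ≤ n + 1 - (3 : ℕ) - p := by
        push_cast
        linarith
      have h3 : |(n + 1 - (3 : ℕ) - p) * (((R ∩ P).card : ℤ) - ((R ∩ Q).card : ℤ))| ≤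
          (n + 1 - (3 : ℕ) - p) * ∑ k ∈ R, ((a k % 2 : ℕ) : ℤ) := by
        rw [abs_mul, abs_of_nonneg hγ0]
        exact mul_le_mul_of_nonneg_left h2 hγ0
      have h4 : ∑ k ∈ R, ((2 * p + (n - 3 * p) - 2) * ((a k % 2 : ℕ) : ℤ) +
          (a k : ℤ) * (a k - 3)) ≤
          ∑ k ∈ R, ((a k : ℤ) * (n - ∑ k ∈ R, (a k : ℤ) - p + 1)) := by
        refine Finset.sum_le_sum fun k _ => ?_
        exact near3_part2 p (n - 3 * p) _ _ _ _ (by ring) (he0 k) (heE k) hEp (hδ k)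
          (by linarith)
      rw [Finset.sum_add_distrib, ← Finset.mul_sum, ← Finset.sum_mul] at h4
      rw [Finset.sum_add_distrib, ← Finset.mul_sum] at h1
      push_cast at h1 h3 h4 hDz ⊢
      linarith

end TCM
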