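import Pool.Agent.Lib.MP_c70440_co.SpecThree
import Pool.Agent.Lib.MP_c70440_co.Near3

set_option autoImplicit false
set_option maxHeartbeats 4000000

namespace TCM

open Finset

/-- Per-part inequality for `m = 3`, odd parts; `b = 3 + e` with `e` even. -/
theorem perpart3_num (p n t : ℕ) (hp : 4 ≤ p) (hn2 : n % 2 = 0) (hn : 3 * p + 2 * t ≤ n)
    (hE : 4 * p ≤ n + 6) (hb : 3 ≤ 2 * t → (2 * t - 3) * (2 * t) + 1 ≤ p) :
    2 * ((n : ℤ) - 2 - p) + 2 * (3 + 2 * t) * (2 * t) ≤ (3 + 2 * t) * (n - 2 * p + 2) ∧
    2 * ((n : ℤ) - 2 - p) + 4 ≤ (3 + 2 * t) * (n - 2 * p + 2) + 2 * (3 + 2 * t) * (2 * t) := by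
  have h1 : (3 : ℤ) * p + 2 * t ≤ n := by exact_mod_cast hn
  have h2 : (4 : ℤ) * p ≤ n + 6 := by exact_mod_cast hE
  have h3 : (4 : ℤ) ≤ p := by exact_mod_cast hp
  rcases Nat.lt_or_ge t 3 with ht | ht
  · interval_cases t
    · constructor <;> push_cast <;> linarith
    · constructor <;> push_cast <;> linarith
    · have h4 : 5 ≤ p := by
        have := hb (by norm_num)
        omega
      have h5 : 12 * p + 38 ≤ 5 * n := by
        rcases Nat.lt_or_ge p 6 with h6 | h6
        · have h7 : p = 5 := by omega
          subst h7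
          omega
        · omega
      have h6 : (12 : ℤ) * p + 38 ≤ 5 * n := by exact_mod_cast h5
      constructor <;> push_cast <;> linarith
  · have h4 := hb (by omega)
    obtain ⟨s, hs⟩ : ∃ s, t = s + 3 := ⟨t - 3, by omega⟩
    subst hs
    have e1 : 2 * (s + 3) - 3 = 2 * s + 3 := by omega
    rw [e1] at h4
    have h5 : ((2 * (s : ℤ) + 3) * (2 * (s + 3)) + 1) ≤ p := by exact_mod_cast h4
    have h6 : (0 : ℤ) ≤ s := by positivity
    push_cast at h1 ⊢
    have h7 : 0 ≤ ((n : ℤ) - (3 * p + 2 * (s + 3))) * (2 * s + 7) :=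
      mul_nonneg (by linarith) (by linarith)
    have h8 : 0 ≤ ((p : ℤ) - ((2 * s + 3) * (2 * (s + 3)) + 1)) * (2 * s + 5) :=
      mul_nonneg (by linarith) (by linarith)
    have h9 : 0 ≤ (s : ℤ) * s := mul_nonneg h6 h6
    have h10 : 0 ≤ (s : ℤ) * s * s := mul_nonneg h9 h6
    constructor
    · linarith
    · linarith

theorem col_min_three {V : Type} [Fintype V] [DecidableEq V] (a : V → ℕ)
    (hp : 4 ≤ Fintype.card V) (ha : Adm 3 a) : Col a ((∑ k, a k) - 3 + 1) := by
  classical
  apply refine_induct 3 4 (by omega) _ _ V a hp rfl ha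
  intro V _ _ a hp ha hir
  have hb : ∀ j, Bnd 3 (Fintype.card V) (a j) := Irr.bnd ha hir
  obtain ⟨G, hG⟩ := specials_three a hp ha hir
  obtain ⟨k0, hk0⟩ := ha.ex
  obtain ⟨N, hN⟩ := ha.even
  have hdef : ((∑ k, a k % 2 : ℕ) : ℤ) ≤ ((∑ k, a k * (a k - 3) : ℕ) : ℤ) := by
    have h1 := ha.def'
    simp only [Fc] at h1
    rw [Finset.sum_sub_distrib] at h1
    have h2 : ((∑ k, a k * (a k - 3) : ℕ) : ℤ) = ∑ k, (a k : ℤ) * (a k - (3 : ℕ)) := by
      rw [Nat.cast_sum]
      apply Finset.sum_congr rfl
      intro k _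
      rw [Nat.cast_mul, Nat.cast_sub (ha.min k)]
    rw [h2]
    push_cast at h1 ⊢
    linarith
  have hn1 : ∀ j, 3 * Fintype.card V + (a j - 3) ≤ ∑ k, a k := by
    intro j
    have h1 := sum_ge_one a 3 ha.min j
    have h2 := ha.min j
    omega
  by_cases hE : 4 * Fintype.card V ≤ ∑ k, a k + 6
  · have hc0 : 2 * ((N : ℤ) + 1 - Fintype.card V) + 2 * Fintype.card V =
        ∑ k, (a k : ℤ) + 2 := by
      zify at hN
      rw [hN]
      ring
    refine col_perpart a 3 k0 ha.min G hG ha.even ?_ ha.def' ((N : ℤ) + 1 - Fintype.card V)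
      hc0 ?_ ?_
    · have h1 := sum_mod_le a
      have h2 := hn1 k0
      omega
    · intro k
      have hak := ha.min k
      have hakz : (3 : ℤ) ≤ a k := by exact_mod_cast hak
      rcases Nat.mod_two_eq_zero_or_one (a k) with h | h
      · rw [h]
        -- even part
        have h1 : 2 * (a k - 3) + 2 * Fintype.card V ≤ ∑ k, a k + 2 := by
          have h2 := hn1 k
          rcases Nat.lt_or_ge (a k) 6 with h3 | h3
          · omega
          · have h4 := (hb k).hi (by omega)
            obtain ⟨c, hc⟩ : ∃ c, a k = 6 + c := ⟨a k - 6, by omega⟩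
            have e1 : a k - 2 * 3 = c := by omega
            have e2 : a k - 3 = c + 3 := by omega
            rw [e1, e2] at h4
            rw [e2] at h2 ⊢
            rcases Nat.eq_zero_or_pos c with h5 | h5
            · subst h5; omega
            · have : 1 * (c + 3) ≤ c * (c + 3) := Nat.mul_le_mul_right _ h5
              omega
        have h2 : 2 * ((a k : ℤ) - 3) + 2 * Fintype.card V ≤ ∑ k, (a k : ℤ) + 2 := by
          zify [hak] at h1
          linarith
        have h3 : 0 ≤ (a k : ℤ) * (∑ k, (a k : ℤ) + 2 - 2 * Fintype.card V -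
            2 * ((a k : ℤ) - 3)) := mul_nonneg (by linarith) (by linarith)
        push_cast
        nlinarith
      · rw [h]
        obtain ⟨t, ht⟩ : ∃ t, a k = 3 + 2 * t := ⟨(a k - 3) / 2, by omega⟩
        have h1 := perpart3_num (Fintype.card V) (∑ k, a k) t hp (by omega)
          (by have := hn1 k; omega) hE (by
            intro h3
            have h4 := (hb k).hi (by omega)
            have e1 : a k - 2 * 3 = 2 * t - 3 := by omega
            have e2 : a k - 3 = 2 * t := by omega
            rw [e1, e2, h] at h4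
            exact h4)
        have h2 := h1.1
        push_cast at h2 ⊢
        have hz : (a k : ℤ) = 3 + 2 * t := by exact_mod_cast ht
        rw [← hz] at h2
        have hz2 : (2 : ℤ) * t = a k - 3 := by linarith
        rw [hz2] at h2
        nlinarith
    · intro k
      have hak := ha.min k
      have hakz : (3 : ℤ) ≤ a k := by exact_mod_cast hak
      rcases Nat.mod_two_eq_zero_or_one (a k) with h | h
      · rw [h]
        have h1 : 2 * Fintype.card V ≤ ∑ k, a k + 2 := by
          have h2 := hn1 k
          omega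
        have h2 : 2 * (Fintype.card V : ℤ) ≤ ∑ k, (a k : ℤ) + 2 := by
          exact_mod_cast h1
        have h3 : 0 ≤ (a k : ℤ) * (∑ k, (a k : ℤ) + 2 - 2 * Fintype.card V) :=
          mul_nonneg (by linarith) (by linarith)
        have h4 : 0 ≤ (a k : ℤ) * (a k - 3) := mul_nonneg (by linarith) (by linarith)
        push_cast
        nlinarith
      · rw [h]
        obtain ⟨t, ht⟩ : ∃ t, a k = 3 + 2 * t := ⟨(a k - 3) / 2, by omega⟩
        have h1 := perpart3_num (Fintype.card V) (∑ k, a k) t hp (by omega)
          (by have := hn1 k; omega) hE (by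
            intro h3
            have h4 := (hb k).hi (by omega)
            have e1 : a k - 2 * 3 = 2 * t - 3 := by omega
            have e2 : a k - 3 = 2 * t := by omega
            rw [e1, e2, h] at h4
            exact h4)
        have h2 := h1.2
        push_cast at h2 ⊢
        have hz : (a k : ℤ) = 3 + 2 * t := by exact_mod_cast ht
        rw [← hz] at h2
        have hz2 : (2 : ℤ) * t = a k - 3 := by linarith
        rw [hz2] at h2
        nlinarith
  · push Not at hE
    have h8 : 8 ≤ Fintype.card V := by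
      by_contra hne
      push Not at hne
      -- then all parts are of size three
      have hall : ∀ j, a j = 3 := by
        intro j
        have h1 := hn1 j
        have h2 := ha.min j
        omega
      have h1 : ∑ k, a k * (a k - 3) = 0 := Finset.sum_eq_zero (fun k _ => by rw [hall k]; rfl)
      have h2 : ∑ k, a k % 2 = Fintype.card V := by
        rw [Finset.sum_congr rfl (fun k _ => by rw [hall k])]
        simp
      have h3 : ∑ k, a k % 2 ≤ ∑ k, a k * (a k - 3) := by exact_mod_cast hdef
      omega
    exact col_near3 a k0 hk0 ha.min G hG ha.even h8 (by exact_mod_cast hdef) hE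

end TCM
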