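import Pool.Agent.Lib.MP_c70440_co.Koenig

set_option autoImplicit false

namespace TCM

open Finset

theorem exists_index {E R : Type} [Fintype E] [DecidableEq E] [DecidableEq R] (f : E → R) (b : R → ℕ)
    (hb : ∀ r, (Finset.univ.filter (fun e => f e = r)).card ≤ b r) :
    ∃ idx : E → ℕ, (∀ e, idx e < b (f e)) ∧ ∀ e e', f e = f e' → idx e = idx e' → e = e' := by
  classical
  let idx' : ∀ (r : R) (e : E) (_ : f e = r), ℕ := fun r e h =>
    (Fintype.equivFin {e' // f e' = r} ⟨e, h⟩).val
  have key : ∀ (r : R) (e : E) (h : f e = r), idx' r e h = idx' (f e) e rfl := by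
    intro r e h
    subst h
    rfl
  refine ⟨fun e => idx' (f e) e rfl, ?_, ?_⟩
  · intro e
    have h1 : (Fintype.equivFin {e' // f e' = f e} ⟨e, rfl⟩).val <
      Fintype.card {e' // f e' = f e} := Fin.is_lt _
    have h2 : Fintype.card {e' // f e' = f e} =
        (Finset.univ.filter (fun e' => f e' = f e)).card := by
      rw [Fintype.card_subtype]
    have := hb (f e)
    show (Fintype.equivFin {e' // f e' = f e} ⟨e, rfl⟩).val < _
    omega
  · intro e e' h h2
    dsimp only at h2
    rw [← key (f e') e h] at h2
    have h3 := Fin.ext h2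
    have h4 := (Fintype.equivFin {x // f x = f e'}).injective h3
    exact congrArg Subtype.val h4

/-- Decomposition of a matrix with bounded row and column sums. -/
theorem bd_decomp {R C : Type} [Fintype R] [Fintype C] [DecidableEq R] [DecidableEq C]
    (M : R → C → ℕ) (B : ℕ) (ρ : R → ℕ) (κ : C → ℕ)
    (hr : ∀ r, ∑ c, M r c ≤ B * ρ r) (hc : ∀ c, ∑ r, M r c ≤ B * κ c) :
    ∃ D : Fin B → R → C → ℕ, (∀ r c, ∑ t, D t r c = M r c) ∧
      (∀ t r, ∑ c, D t r c ≤ ρ r) ∧ (∀ t c, ∑ r, D t r c ≤ κ c) := by
  classical
  rcases Nat.eq_zero_or_pos B with hB | hB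
  · subst hB
    refine ⟨fun _ _ _ => 0, ?_, fun t => t.elim0, fun t => t.elim0⟩
    intro r c
    have h1 := hr r
    rw [zero_mul] at h1
    have h2 : M r c ≤ ∑ c, M r c := Finset.single_le_sum (fun _ _ => Nat.zero_le _) (mem_univ c)
    simp
    omega
  let E := Σ (rc : R × C), Fin (M rc.1 rc.2)
  have hcardE : ∀ r c, (Finset.univ.filter (fun e : E => e.1 = (r, c))).card = M r c := by
    intro r c
    have : (Finset.univ.filter (fun e : E => e.1 = (r, c))) =
        (Finset.univ : Finset (Fin (M r c))).map
          ⟨fun x => (⟨(r, c), x⟩ : E), fun x y h => by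
            simpa using h⟩ := by
      ext e
      simp only [Finset.mem_filter, Finset.mem_univ, true_and, Finset.mem_map,
        Function.Embedding.coeFn_mk]
      constructor
      · rintro he
        rcases e with ⟨rc, x⟩
        dsimp only at he
        subst he
        exact ⟨x, rfl⟩
      · rintro ⟨x, rfl⟩
        rfl
    rw [this, Finset.card_map, Finset.card_univ, Fintype.card_fin]
  have hrowE : ∀ r, (Finset.univ.filter (fun e : E => e.1.1 = r)).card = ∑ c, M r c := by
    intro r
    rw [← Finset.sum_congr rfl (fun c _ => hcardE r c)]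
    rw [← Finset.card_biUnion]
    · congr 1
      ext e
      simp only [Finset.mem_filter, Finset.mem_univ, true_and, Finset.mem_biUnion, Prod.ext_iff,
        exists_and_left]
      constructor
      · intro h; exact ⟨h, _, rfl⟩
      · rintro ⟨h, _⟩; exact h
    · intro c _ c' _ hcc
      rw [Function.onFun, Finset.disjoint_left]
      intro e he he'
      simp only [Finset.mem_filter, Finset.mem_univ, true_and] at he he'
      rw [he] at he'
      exact hcc (Prod.ext_iff.1 he').2
  have hcolE : ∀ c, (Finset.univ.filter (fun e : E => e.1.2 = c)).card = ∑ r, M r c := by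
    intro c
    rw [← Finset.sum_congr rfl (fun r _ => hcardE r c)]
    rw [← Finset.card_biUnion]
    · congr 1
      ext e
      simp only [Finset.mem_filter, Finset.mem_univ, true_and, Finset.mem_biUnion, Prod.ext_iff]
      constructor
      · intro h; exact ⟨_, rfl, h⟩
      · rintro ⟨_, _, h⟩; exact h
    · intro c _ c' _ hcc
      rw [Function.onFun, Finset.disjoint_left]
      intro e he he'
      simp only [Finset.mem_filter, Finset.mem_univ, true_and] at he he'
      rw [he] at he'
      exact hcc (Prod.ext_iff.1 he').1
  obtain ⟨iL, hL1, hL2⟩ := exists_index (fun e : E => e.1.1) (fun r => B * ρ r)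
    (fun r => by rw [hrowE]; exact hr r)
  obtain ⟨iR, hR1, hR2⟩ := exists_index (fun e : E => e.1.2) (fun c => B * κ c)
    (fun c => by rw [hcolE]; exact hc c)
  let l : E → (Σ r, Fin (ρ r)) := fun e =>
    ⟨e.1.1, ⟨iL e / B, Nat.div_lt_of_lt_mul (hL1 e)⟩⟩
  let r' : E → (Σ c, Fin (κ c)) := fun e =>
    ⟨e.1.2, ⟨iR e / B, Nat.div_lt_of_lt_mul (hR1 e)⟩⟩
  have hl : ∀ v, ((Finset.univ : Finset E).filter (fun e => l e = v)).card ≤ B := by
    rintro ⟨r, k⟩
    have : ((Finset.univ : Finset E).filter (fun e => l e = ⟨r, k⟩)).card ≤
        (Finset.Ico (k.val * B) (k.val * B + B)).card := by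
      apply Finset.card_le_card_of_injOn iL
      · intro e he
        simp only [Finset.coe_filter, Finset.mem_univ, true_and, Set.mem_ofPred_eq, l] at he
        rw [Finset.mem_coe, Finset.mem_Ico]
        have h2 : iL e / B = k.val := by
          rw [Sigma.ext_iff] at he
          obtain ⟨h3, h4⟩ := he
          dsimp only at h3 h4
          subst h3
          exact congrArg Fin.val (eq_of_heq h4)
        have h3 := Nat.div_add_mod (iL e) B
        have h4 := Nat.mod_lt (iL e) hB
        rw [h2] at h3
        constructor
        · rw [mul_comm]; omega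
        · rw [mul_comm]; omega
      · intro e he e' he' hee
        simp only [Finset.coe_filter, Finset.mem_univ, true_and, Set.mem_ofPred_eq, l] at he he'
        apply hL2 e e' _ hee
        rw [Sigma.ext_iff] at he he'
        exact he.1.trans he'.1.symm
    simpa using this
  have hr' : ∀ v, ((Finset.univ : Finset E).filter (fun e => r' e = v)).card ≤ B := by
    rintro ⟨r, k⟩
    have : ((Finset.univ : Finset E).filter (fun e => r' e = ⟨r, k⟩)).card ≤
        (Finset.Ico (k.val * B) (k.val * B + B)).card := by
      apply Finset.card_le_card_of_injOn iR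
      · intro e he
        simp only [Finset.coe_filter, Finset.mem_univ, true_and, Set.mem_ofPred_eq, r'] at he
        rw [Finset.mem_coe, Finset.mem_Ico]
        have h2 : iR e / B = k.val := by
          rw [Sigma.ext_iff] at he
          obtain ⟨h3, h4⟩ := he
          dsimp only at h3 h4
          subst h3
          exact congrArg Fin.val (eq_of_heq h4)
        have h3 := Nat.div_add_mod (iR e) B
        have h4 := Nat.mod_lt (iR e) hB
        rw [h2] at h3
        constructor
        · rw [mul_comm]; omega
        · rw [mul_comm]; omega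
      · intro e he e' he' hee
        simp only [Finset.coe_filter, Finset.mem_univ, true_and, Set.mem_ofPred_eq, r'] at he he'
        apply hR2 e e' _ hee
        rw [Sigma.ext_iff] at he he'
        exact he.1.trans he'.1.symm
    simpa using this
  obtain ⟨χ, hχ1, hχ2⟩ := koenig l r' B Finset.univ hl hr'
  refine ⟨fun t r c => (Finset.univ.filter (fun e : E => e.1 = (r, c) ∧ χ e = t.val)).card,
    ?_, ?_, ?_⟩
  · intro r c
    rw [← hcardE r c, ← Finset.card_biUnion]
    · congr 1
      ext e
      simp only [Finset.mem_filter, Finset.mem_univ, true_and, Finset.mem_biUnion]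
      constructor
      · rintro ⟨t, h, _⟩; exact h
      · intro h
        exact ⟨⟨χ e, hχ1 e (Finset.mem_univ e)⟩, h, rfl⟩
    · intro t _ t' _ htt
      rw [Function.onFun, Finset.disjoint_left]
      intro e he he'
      simp only [Finset.mem_filter, Finset.mem_univ, true_and] at he he'
      exact htt (Fin.ext (he.2.symm.trans he'.2))
  · intro t r
    dsimp only
    rw [← Finset.card_biUnion]
    · have : ((Finset.univ : Finset C).biUnion
          (fun c => Finset.univ.filter (fun e : E => e.1 = (r, c) ∧ χ e = t.val))).card ≤
          (Finset.range (ρ r)).card := by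
        apply Finset.card_le_card_of_injOn (fun e => iL e / B)
        · intro e he
          simp only [Finset.coe_biUnion, Set.mem_iUnion, Finset.coe_filter, Finset.mem_univ,
            true_and, Set.mem_ofPred_eq] at he
          obtain ⟨c, _, hc1, hc2⟩ := he
          rw [Finset.mem_coe, Finset.mem_range]
          have h1 := hL1 e
          have h3 : e.1.1 = r := by rw [hc1]
          rw [h3] at h1
          exact Nat.div_lt_of_lt_mul h1
        · intro e he e' he' hee
          simp only [Finset.coe_biUnion, Set.mem_iUnion, Finset.coe_filter, Finset.mem_univ,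
            true_and, Set.mem_ofPred_eq] at he he'
          obtain ⟨c, _, hc1, hc2⟩ := he
          obtain ⟨c', _, hc1', hc2'⟩ := he'
          by_contra hne
          apply hχ2 e (Finset.mem_univ _) e' (Finset.mem_univ _) hne
          · left
            simp only [l]
            have h3 : e.1.1 = e'.1.1 := by rw [hc1, hc1']
            rw [Sigma.ext_iff]
            refine ⟨h3, ?_⟩
            dsimp only
            rw [Fin.heq_ext_iff (by rw [h3])]
            exact hee
          · rw [hc2, hc2']
      simpa using this
    · intro c _ c' _ hcc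
      rw [Function.onFun, Finset.disjoint_left]
      intro e he he'
      simp only [Finset.mem_filter, Finset.mem_univ, true_and] at he he'
      rw [he.1] at he'
      exact hcc (Prod.ext_iff.1 he'.1).2
  · intro t c
    dsimp only
    rw [← Finset.card_biUnion]
    · have : ((Finset.univ : Finset R).biUnion
          (fun r => Finset.univ.filter (fun e : E => e.1 = (r, c) ∧ χ e = t.val))).card ≤
          (Finset.range (κ c)).card := by
        apply Finset.card_le_card_of_injOn (fun e => iR e / B)
        · intro e he
          simp only [Finset.coe_biUnion, Set.mem_iUnion, Finset.coe_filter, Finset.mem_univ,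
            true_and, Set.mem_ofPred_eq] at he
          obtain ⟨c, _, hc1, hc2⟩ := he
          rw [Finset.mem_coe, Finset.mem_range]
          have h1 := hR1 e
          rw [hc1] at h1
          exact Nat.div_lt_of_lt_mul h1
        · intro e he e' he' hee
          simp only [Finset.coe_biUnion, Set.mem_iUnion, Finset.coe_filter, Finset.mem_univ,
            true_and, Set.mem_ofPred_eq] at he he'
          obtain ⟨c, _, hc1, hc2⟩ := he
          obtain ⟨c', _, hc1', hc2'⟩ := he'
          by_contra hne
          apply hχ2 e (Finset.mem_univ _) e' (Finset.mem_univ _) hne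
          · right
            simp only [r']
            have h3 : e.1.2 = e'.1.2 := by rw [hc1, hc1']
            rw [Sigma.ext_iff]
            refine ⟨h3, ?_⟩
            dsimp only
            rw [Fin.heq_ext_iff (by rw [h3])]
            exact hee
          · rw [hc2, hc2']
      simpa using this
    · intro r _ r' _ hcc
      rw [Function.onFun, Finset.disjoint_left]
      intro e he he'
      simp only [Finset.mem_filter, Finset.mem_univ, true_and] at he he'
      rw [he.1] at he'
      exact hcc (Prod.ext_iff.1 he'.1).1

/-- Extracting one class. -/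
theorem bd_extract {R C : Type} [Fintype R] [Fintype C] [DecidableEq R] [DecidableEq C]
    (M : R → C → ℕ) (B : ℕ) (ρ : R → ℕ) (κ : C → ℕ)
    (hr : ∀ r, ∑ c, M r c ≤ (B + 1) * ρ r) (hc : ∀ c, ∑ r, M r c ≤ (B + 1) * κ c) :
    ∃ D : R → C → ℕ, (∀ r c, D r c ≤ M r c) ∧
      (∀ r, ∑ c, D r c ≤ ρ r) ∧ (∀ c, ∑ r, D r c ≤ κ c) ∧
      (∀ r, ∑ c, (M r c - D r c) ≤ B * ρ r) ∧ (∀ c, ∑ r, (M r c - D r c) ≤ B * κ c) := by
  classical
  obtain ⟨D, h1, h2, h3⟩ := bd_decomp M (B + 1) ρ κ hr hc
  have h4 : ∀ r c, M r c - D 0 r c = ∑ t : Fin B, D t.succ r c := by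
    intro r c
    rw [← h1 r c, Fin.sum_univ_succ]
    omega
  refine ⟨D 0, ?_, h2 0, h3 0, ?_, ?_⟩
  · intro r c
    rw [← h1 r c]
    exact Finset.single_le_sum (f := fun t => D t r c) (fun _ _ => Nat.zero_le _) (mem_univ 0)
  · intro r
    simp only [h4]
    rw [Finset.sum_comm]
    calc ∑ t : Fin B, ∑ c, D t.succ r c ≤ ∑ t : Fin B, ρ r :=
          Finset.sum_le_sum (fun t _ => h2 _ r)
      _ = B * ρ r := by simp
  · intro c
    simp only [h4]
    rw [Finset.sum_comm]
    calc ∑ t : Fin B, ∑ r, D t.succ r c ≤ ∑ t : Fin B, κ c :=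
          Finset.sum_le_sum (fun t _ => h3 _ c)
      _ = B * κ c := by simp

end TCM
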