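import Mathlib

set_option autoImplicit false

/-!
Dirac's condition gives a perfect matching (on a finite set `Z` with a symmetric irreflexive
relation), and a greedy family of edge-disjoint perfect matchings of complete multipartite graphs.
-/

namespace TCM

open Finset

/-- Partial matchings inside `Z`. -/
structure PM {U : Type} (Z : Finset U) (adj : U → U → Prop) (f : U → U) : Prop where
  inv : ∀ u, f (f u) = u
  mem : ∀ u, f u ≠ u → u ∈ Z
  adj : ∀ u, f u ≠ u → adj u (f u)

theorem PM.mem' {U : Type} {Z : Finset U} {adj : U → U → Prop} {f : U → U} (h : PM Z adj f)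
    {u : U} (hu : f u ≠ u) : f u ∈ Z := by
  apply h.mem
  rw [h.inv]
  exact fun e => hu e.symm

/-- Parity: the number of moved points of an involution is even. -/
theorem even_moved {U : Type} [DecidableEq U] (Z : Finset U) (adj : U → U → Prop)
    (f : U → U) (h : PM Z adj f) : Even (Z.filter (fun u => f u ≠ u)).card := by
  have : ∑ u ∈ Z.filter (fun u => f u ≠ u), (1 : ZMod 2) = 0 := by
    refine Finset.sum_involution (fun u _ => f u) ?_ ?_ ?_ ?_
    · intro u _; decide
    · intro u hu _
      exact (Finset.mem_filter.1 hu).2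
    · intro u hu
      have h2 := (Finset.mem_filter.1 hu).2
      refine Finset.mem_filter.2 ⟨h.mem' h2, ?_⟩
      rw [h.inv]
      exact fun e => h2 e.symm
    · intro u _
      exact h.inv u
  rw [Finset.sum_const, nsmul_eq_mul, mul_one] at this
  exact (ZMod.natCast_eq_zero_iff_even).1 this

/-- Dirac: strong form, the matching is a global involution. -/
theorem dirac_matching' {U : Type} [Fintype U] [DecidableEq U] (Z : Finset U) (adj : U → U → Prop)
    [DecidableRel adj]
    (hs : ∀ u v, adj u v → adj v u) (hi : ∀ u, ¬ adj u u) (t : ℕ) (hZ : Z.card = 2 * t)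
    (hdeg : ∀ z ∈ Z, t ≤ (Z.filter (adj z)).card) :
    ∃ f : U → U, PM Z adj f ∧ ∀ z ∈ Z, f z ≠ z := by
  classical
  -- a matching with the maximal number of moved points
  obtain ⟨f, hf, hmax⟩ : ∃ f : U → U, PM Z adj f ∧ ∀ g : U → U, PM Z adj g →
      (Z.filter (fun u => g u ≠ u)).card ≤ (Z.filter (fun u => f u ≠ u)).card := by
    have hne : (Finset.univ.filter (fun f : U → U => PM Z adj f)).Nonempty := by
      refine ⟨id, Finset.mem_filter.2 ⟨Finset.mem_univ _, ?_⟩⟩
      exact ⟨fun _ => rfl, fun u hu => absurd rfl hu, fun u hu => absurd rfl hu⟩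
    obtain ⟨f, hf, hm⟩ := Finset.exists_max_image _
      (fun g : U → U => (Z.filter (fun u => g u ≠ u)).card) hne
    exact ⟨f, (Finset.mem_filter.1 hf).2, fun g hg =>
      hm g (Finset.mem_filter.2 ⟨Finset.mem_univ _, hg⟩)⟩
  refine ⟨f, hf, ?_⟩
  by_contra hcon
  push Not at hcon
  obtain ⟨z, hz, hfz⟩ := hcon
  set M := Z.filter (fun u => f u ≠ u) with hM
  set F := Z.filter (fun u => ¬ (f u ≠ u)) with hF
  have hMF : M.card + F.card = Z.card := Finset.card_filter_add_card_filter_not _
  have hMe : Even M.card := even_moved Z adj f hf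
  have hzF : z ∈ F := Finset.mem_filter.2 ⟨hz, by simpa using hfz⟩
  have hFe : Even F.card := by
    have : Even (M.card + F.card) := by rw [hMF, hZ]; exact even_two_mul t
    exact (Nat.even_add.1 this).1 hMe
  have hF1 : 1 < F.card := by
    have : 0 < F.card := Finset.card_pos.2 ⟨z, hzF⟩
    rcases hFe with ⟨k, hk⟩
    omega
  obtain ⟨z', hz'F, hzz'⟩ := Finset.exists_mem_ne hF1 z
  have hz' : z' ∈ Z := (Finset.mem_filter.1 hz'F).1
  have hfz' : f z' = z' := by
    have := (Finset.mem_filter.1 hz'F).2
    simpa using this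
  -- neighbours of a fixed point are moved
  have key : ∀ x y, x ∈ Z → y ∈ Z → f x = x → f y = y → ¬ adj x y := by
    intro x y hx hy hfx hfy hxy
    have hne : x ≠ y := fun e => hi x (by rw [e] at hxy ⊢; exact hxy)
    have hg : PM Z adj (fun u => if u = x then y else if u = y then x else f u) := by
      have hfinv : ∀ u, f (f u) = u := hf.inv
      refine ⟨?_, ?_, ?_⟩
      · intro u
        by_cases h1 : u = x
        · subst h1; simp [hne.symm]
        · by_cases h2 : u = y
          · subst h2; simp [hne.symm]
          · have h3 : f u ≠ x := fun e => h1 (by rw [← hfinv u, e, hfx])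
            have h4 : f u ≠ y := fun e => h2 (by rw [← hfinv u, e, hfy])
            simp [h1, h2, h3, h4, hfinv]
      · intro u hu
        by_cases h1 : u = x
        · subst h1; exact hx
        · by_cases h2 : u = y
          · subst h2; exact hy
          · simp only [h1, h2, if_false] at hu
            exact hf.mem u hu
      · intro u hu
        by_cases h1 : u = x
        · subst h1; simpa using hxy
        · by_cases h2 : u = y
          · subst h2; simpa [hne.symm] using hs _ _ hxy
          · simp only [h1, h2, if_false] at hu ⊢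
            exact hf.adj u hu
    have h5 := hmax _ hg
    have h6 : M ⊂ Z.filter (fun u => (fun u => if u = x then y else if u = y then x else f u) u ≠ u) := by
      rw [Finset.ssubset_iff_of_subset]
      · refine ⟨x, Finset.mem_filter.2 ⟨hx, by simpa using hne.symm⟩, ?_⟩
        intro h7
        exact (Finset.mem_filter.1 h7).2 hfx
      · intro u hu
        obtain ⟨hu1, hu2⟩ := Finset.mem_filter.1 hu
        refine Finset.mem_filter.2 ⟨hu1, ?_⟩
        have h8 : u ≠ x := fun e => hu2 (by rw [e]; exact hfx)
        have h9 : u ≠ y := fun e => hu2 (by rw [e]; exact hfy)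
        simpa [h8, h9] using hu2
    exact absurd h5 (not_le.2 (Finset.card_lt_card h6))
  have hN : ∀ x, x ∈ Z → f x = x → Z.filter (adj x) = M.filter (adj x) := by
    intro x hx hfx
    ext w
    simp only [Finset.mem_filter, hM]
    constructor
    · rintro ⟨h1, h2⟩
      exact ⟨⟨h1, fun h3 => key x w hx h1 hfx h3 h2⟩, h2⟩
    · rintro ⟨⟨h1, _⟩, h2⟩
      exact ⟨h1, h2⟩
  -- counting
  have hcount : ∃ w ∈ M, adj z w ∧ adj z' (f w) := by
    by_contra hno
    push Not at hno
    have hdisj : Disjoint (M.filter (adj z)) (M.filter (fun w => adj z' (f w))) := by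
      rw [Finset.disjoint_left]
      intro w h1 h2
      exact hno w (Finset.mem_filter.1 h1).1 (Finset.mem_filter.1 h1).2 (Finset.mem_filter.1 h2).2
    have hcard : (M.filter (fun w => adj z' (f w))).card = (M.filter (adj z')).card := by
      refine Finset.card_bij (fun w _ => f w) ?_ ?_ ?_
      · intro w hw
        obtain ⟨h1, h2⟩ := Finset.mem_filter.1 hw
        obtain ⟨h3, h4⟩ := Finset.mem_filter.1 h1
        refine Finset.mem_filter.2 ⟨Finset.mem_filter.2 ⟨hf.mem' h4, ?_⟩, h2⟩
        rw [hf.inv]
        exact fun e => h4 e.symm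
      · intro w _ w' _ e
        have := congrArg f e
        rwa [hf.inv, hf.inv] at this
      · intro w hw
        obtain ⟨h1, h2⟩ := Finset.mem_filter.1 hw
        obtain ⟨h3, h4⟩ := Finset.mem_filter.1 h1
        refine ⟨f w, Finset.mem_filter.2 ⟨Finset.mem_filter.2 ⟨hf.mem' h4, ?_⟩, ?_⟩, hf.inv w⟩
        · rw [hf.inv]
          exact fun e => h4 e.symm
        · show adj z' (f (f w))
          rw [hf.inv]; exact h2
    have h1 : (M.filter (adj z)).card + (M.filter (fun w => adj z' (f w))).card ≤ M.card := by
      rw [← Finset.card_union_of_disjoint hdisj]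
      exact Finset.card_le_card (Finset.union_subset (Finset.filter_subset _ _)
        (Finset.filter_subset _ _))
    have h2 := hdeg z hz
    have h3 := hdeg z' hz'
    rw [hN z hz hfz] at h2
    rw [hN z' hz' hfz'] at h3
    rw [hcard] at h1
    omega
  obtain ⟨w, hwM, hzw, hz'w⟩ := hcount
  obtain ⟨hwZ, hwf⟩ := Finset.mem_filter.1 hwM
  -- the new matching
  have hfinv : ∀ u, f (f u) = u := hf.inv
  have e1 : w ≠ z := fun e => hwf (by rw [e]; exact hfz)
  have e2 : w ≠ z' := fun e => hwf (by rw [e]; exact hfz')
  have e3 : f w ≠ z := fun e => e1 (by rw [← hfinv w, e, hfz])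
  have e4 : f w ≠ z' := fun e => e2 (by rw [← hfinv w, e, hfz'])
  have e5 : f w ≠ w := hwf
  have e6 : z' ≠ z := hzz'
  let g : U → U := fun u => if u = z then w else if u = w then z else if u = z' then f w
    else if u = f w then z' else f u
  have gz : g z = w := by simp [g]
  have gw : g w = z := by simp [g, e1]
  have gz' : g z' = f w := by simp [g, e6, e2.symm]
  have gfw : g (f w) = z' := by simp [g, e3, e4, e5]
  have gu : ∀ u, u ≠ z → u ≠ w → u ≠ z' → u ≠ f w → g u = f u := by
    intro u h1 h2 h3 h4
    simp [g, h1, h2, h3, h4]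
  have hg : PM Z adj g := by
    refine ⟨?_, ?_, ?_⟩
    · intro u
      by_cases h1 : u = z
      · rw [h1, gz, gw]
      by_cases h2 : u = w
      · rw [h2, gw, gz]
      by_cases h3 : u = z'
      · rw [h3, gz', gfw]
      by_cases h4 : u = f w
      · rw [h4, gfw, gz']
      rw [gu u h1 h2 h3 h4]
      have h5 : f u ≠ z := fun e => h1 (by rw [← hfinv u, e, hfz])
      have h6 : f u ≠ w := fun e => h4 (by rw [← hfinv u, e])
      have h7 : f u ≠ z' := fun e => h3 (by rw [← hfinv u, e, hfz'])
      have h8 : f u ≠ f w := fun e => h2 (by rw [← hfinv u, e, hfinv])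
      rw [gu _ h5 h6 h7 h8, hfinv]
    · intro u hu
      by_cases h1 : u = z
      · rw [h1]; exact hz
      by_cases h2 : u = w
      · rw [h2]; exact hwZ
      by_cases h3 : u = z'
      · rw [h3]; exact hz'
      by_cases h4 : u = f w
      · rw [h4]; exact hf.mem' hwf
      rw [gu u h1 h2 h3 h4] at hu
      exact hf.mem u hu
    · intro u hu
      by_cases h1 : u = z
      · rw [h1, gz]; exact hzw
      by_cases h2 : u = w
      · rw [h2, gw]; exact hs _ _ hzw
      by_cases h3 : u = z'
      · rw [h3, gz']; exact hz'w
      by_cases h4 : u = f w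
      · rw [h4, gfw]; exact hs _ _ hz'w
      rw [gu u h1 h2 h3 h4] at hu ⊢
      exact hf.adj u hu
  have h5 := hmax _ hg
  have h6 : M ⊂ Z.filter (fun u => g u ≠ u) := by
    rw [Finset.ssubset_iff_of_subset]
    · refine ⟨z, Finset.mem_filter.2 ⟨hz, by rw [gz]; exact e1⟩, ?_⟩
      intro h7
      exact (Finset.mem_filter.1 h7).2 hfz
    · intro u hu
      obtain ⟨hu1, hu2⟩ := Finset.mem_filter.1 hu
      refine Finset.mem_filter.2 ⟨hu1, ?_⟩
      have h1 : u ≠ z := fun e => hu2 (by rw [e]; exact hfz)
      have h3 : u ≠ z' := fun e => hu2 (by rw [e]; exact hfz')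
      by_cases h2 : u = w
      · rw [h2, gw]; exact e1.symm
      by_cases h4 : u = f w
      · rw [h4, gfw]; exact e4.symm
      rw [gu u h1 h2 h3 h4]
      exact hu2
  exact absurd h5 (not_le.2 (Finset.card_lt_card h6))

theorem dirac_matching {U : Type} [Fintype U] [DecidableEq U] (Z : Finset U) (adj : U → U → Prop)
    [DecidableRel adj]
    (hs : ∀ u v, adj u v → adj v u) (hi : ∀ u, ¬ adj u u) (t : ℕ) (hZ : Z.card = 2 * t)
    (hdeg : ∀ z ∈ Z, t ≤ (Z.filter (adj z)).card) :
    ∃ f : U → U, ∀ z ∈ Z, f z ∈ Z ∧ adj z (f z) ∧ f (f z) = z := by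
  obtain ⟨f, hf, hm⟩ := dirac_matching' Z adj hs hi t hZ hdeg
  exact ⟨f, fun z hz => ⟨hf.mem' (hm z hz), hf.adj z (hm z hz), hf.inv z⟩⟩

section Specials

variable {V : Type} [Fintype V] [DecidableEq V] (a : V → ℕ)

/-- The vertices not coloured individually in the special class `i`. -/
def Zs (i : V) : Finset (Σ k, Fin (a k)) :=
  Finset.univ.filter (fun u => u.1 = i → 2 * (a i / 2) ≤ u.2.val)

theorem mem_Zs (i : V) (u : Σ k, Fin (a k)) :
    u ∈ Zs a i ↔ (u.1 = i → 2 * (a i / 2) ≤ u.2.val) := by
  simp [Zs]

theorem card_fiber (i : V) (k : V) :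
    ((Zs a i).filter (fun u => u.1 = k)).card = if k = i then a i % 2 else a k := by
  classical
  have hbij : ((Zs a i).filter (fun u => u.1 = k)).card =
      (Finset.univ.filter (fun x : Fin (a k) => k = i → 2 * (a i / 2) ≤ x.val)).card := by
    symm
    refine Finset.card_bij (fun x _ => (⟨k, x⟩ : Σ k, Fin (a k))) ?_ ?_ ?_
    · intro x hx
      have hx2 := (Finset.mem_filter.1 hx).2
      exact Finset.mem_filter.2 ⟨(mem_Zs a i _).2 hx2, rfl⟩
    · intro x _ y _ e
      simpa using e
    · rintro ⟨k', x⟩ hu
      obtain ⟨h1, h2⟩ := Finset.mem_filter.1 hu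
      have h2' : k' = k := h2
      subst h2'
      exact ⟨x, Finset.mem_filter.2 ⟨Finset.mem_univ _, (mem_Zs a i _).1 h1⟩, rfl⟩
  rw [hbij]
  by_cases hki : k = i
  · subst hki
    simp only [if_true, true_implies]
    have h1 : (Finset.univ.filter (fun x : Fin (a k) => 2 * (a k / 2) ≤ x.val)).card
        + (Finset.univ.filter (fun x : Fin (a k) => ¬ 2 * (a k / 2) ≤ x.val)).card = a k := by
      rw [Finset.card_filter_add_card_filter_not]
      simp
    have h2 : (Finset.univ.filter (fun x : Fin (a k) => ¬ 2 * (a k / 2) ≤ x.val)).card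
        = 2 * (a k / 2) := by
      have : (Finset.univ.filter (fun x : Fin (a k) => ¬ 2 * (a k / 2) ≤ x.val)).card
          = (Finset.range (2 * (a k / 2))).card := by
        refine Finset.card_bij (fun x _ => x.val) ?_ ?_ ?_
        · intro x hx
          have := (Finset.mem_filter.1 hx).2
          exact Finset.mem_range.2 (not_le.1 this)
        · intro x _ y _ e
          exact Fin.ext e
        · intro x hx
          have hx' := Finset.mem_range.1 hx
          refine ⟨⟨x, by omega⟩, Finset.mem_filter.2 ⟨Finset.mem_univ _, ?_⟩, rfl⟩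
          exact not_le.2 hx'
      rw [this, Finset.card_range]
    omega
  · simp [hki]

theorem card_Zs (i : V) : (Zs a i).card + 2 * (a i / 2) = ∑ k, a k := by
  classical
  have h1 : (Zs a i).card = ∑ k, ((Zs a i).filter (fun u => u.1 = k)).card :=
    Finset.card_eq_sum_card_fiberwise (fun _ _ => Finset.mem_coe.2 (Finset.mem_univ _))
  rw [h1]
  simp only [card_fiber]
  rw [← Finset.add_sum_erase _ _ (Finset.mem_univ i), ← Finset.add_sum_erase (a := i) _ a (Finset.mem_univ i)]
  have h2 : ∑ x ∈ Finset.univ.erase i, (if x = i then a i % 2 else a x)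
      = ∑ x ∈ Finset.univ.erase i, a x := by
    refine Finset.sum_congr rfl fun x hx => ?_
    rw [if_neg (Finset.ne_of_mem_erase hx)]
  rw [h2, if_pos rfl]
  omega

theorem greedy (heven : Even (∑ i, a i)) (ord : V → ℕ) (hord : Function.Injective ord)
    (hc : ∀ i k, k ≠ i → 2 * (a k + a i / 2 + (Finset.univ.filter (fun j => ord j < ord i)).card)
      ≤ ∑ i, a i)
    (hc' : ∀ i, 2 * (a i - a i / 2 + (Finset.univ.filter (fun j => ord j < ord i)).card)
      ≤ ∑ i, a i) (m : ℕ) :
    ∃ f : V → (Σ k, Fin (a k)) → (Σ k, Fin (a k)),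
      (∀ i, ord i < m → PM (Zs a i) (fun u v => u.1 ≠ v.1) (f i)) ∧
      (∀ i, ord i < m → ∀ z ∈ Zs a i, f i z ≠ z) ∧
      (∀ i j, ord i < m → ord j < m → i ≠ j → ∀ z, f i z = f j z → f i z = z) := by
  classical
  induction m with
  | zero =>
    exact ⟨fun _ => id, fun i hi => absurd hi (Nat.not_lt_zero _),
      fun i hi => absurd hi (Nat.not_lt_zero _), fun i j hi => absurd hi (Nat.not_lt_zero _)⟩
  | succ m ih =>
    obtain ⟨f, h1, h2, h3⟩ := ih
    by_cases hex : ∃ i, ord i = m
    · obtain ⟨i, him⟩ := hex
      set prev := Finset.univ.filter (fun j => ord j < m) with hprev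
      have hprevc : (Finset.univ.filter (fun j => ord j < ord i)).card = prev.card := by
        rw [him]
      obtain ⟨g, hg, hgm⟩ := dirac_matching' (Zs a i)
        (fun u v => u.1 ≠ v.1 ∧ ∀ j, ord j < m → f j u ≠ v)
        (by
          rintro u v ⟨hu1, hu2⟩
          refine ⟨hu1.symm, fun j hj e => hu2 j hj ?_⟩
          rw [← e, (h1 j hj).inv])
        (by
          rintro u ⟨hu, _⟩
          exact hu rfl)
        ((∑ k, a k) / 2 - a i / 2)
        (by
          have := card_Zs a i
          obtain ⟨c, hc⟩ := heven
          omega)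
        (by
          intro z hz
          -- non-neighbours
          have hsub : Zs a i ⊆ (Zs a i).filter
                (fun v => z.1 ≠ v.1 ∧ ∀ j, ord j < m → f j z ≠ v)
              ∪ ((Zs a i).filter (fun v => v.1 = z.1) ∪ prev.image (fun j => f j z)) := by
            intro v hv
            by_cases hv1 : v.1 = z.1
            · exact Finset.mem_union_right _ (Finset.mem_union_left _
                (Finset.mem_filter.2 ⟨hv, hv1⟩))
            by_cases hv2 : ∃ j, ord j < m ∧ f j z = v
            · obtain ⟨j, hj, e⟩ := hv2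
              exact Finset.mem_union_right _ (Finset.mem_union_right _
                (Finset.mem_image.2 ⟨j, Finset.mem_filter.2 ⟨Finset.mem_univ _, hj⟩, e⟩))
            · refine Finset.mem_union_left _ (Finset.mem_filter.2 ⟨hv, ?_, ?_⟩)
              · exact fun e => hv1 e.symm
              · exact fun j hj e => hv2 ⟨j, hj, e⟩
          have hle := Finset.card_le_card hsub
          have hle2 := hle.trans (Finset.card_union_le _ _)
          have hle3 := Finset.card_union_le ((Zs a i).filter (fun v => v.1 = z.1))
            (prev.image (fun j => f j z))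
          have hle4 : (prev.image (fun j => f j z)).card ≤ prev.card := Finset.card_image_le
          have hcz := card_Zs a i
          have hcf := card_fiber a i z.1
          obtain ⟨c, hcc⟩ := heven
          by_cases hzi : z.1 = i
          · rw [if_pos hzi] at hcf
            have := hc' i
            rw [hprevc] at this
            omega
          · rw [if_neg hzi] at hcf
            have := hc i z.1 hzi
            rw [hprevc] at this
            omega)
      refine ⟨Function.update f i g, ?_, ?_, ?_⟩
      · intro j hj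
        by_cases hji : j = i
        · subst hji
          rw [Function.update_self]
          exact ⟨hg.inv, hg.mem, fun u hu => (hg.adj u hu).1⟩
        · rw [Function.update_of_ne hji]
          apply h1
          have : ord j ≠ ord i := fun e => hji (hord e)
          omega
      · intro j hj
        by_cases hji : j = i
        · subst hji
          rw [Function.update_self]
          exact hgm
        · rw [Function.update_of_ne hji]
          apply h2
          have : ord j ≠ ord i := fun e => hji (hord e)
          omega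
      · intro j k hj hk hjk z hz
        by_cases hji : j = i
        · subst hji
          have hkj : k ≠ j := hjk.symm
          rw [Function.update_self, Function.update_of_ne hkj] at hz
          rw [Function.update_self]
          by_contra hne
          have : ord k ≠ ord j := fun e => hkj (hord e)
          exact (hg.adj z hne).2 k (by omega) hz.symm
        · by_cases hki : k = i
          · subst hki
            rw [Function.update_self, Function.update_of_ne hji] at hz
            rw [Function.update_of_ne hji, hz]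
            by_contra hne
            have : ord j ≠ ord k := fun e => hji (hord e)
            exact (hg.adj z hne).2 j (by omega) hz
          · rw [Function.update_of_ne hji, Function.update_of_ne hki] at hz
            rw [Function.update_of_ne hji]
            have : ord j ≠ ord i := fun e => hji (hord e)
            have : ord k ≠ ord i := fun e => hki (hord e)
            exact h3 j k (by omega) (by omega) hjk z hz
    · have hlt : ∀ i, ord i < m + 1 → ord i < m := by
        intro i hi
        rcases Nat.lt_succ_iff_lt_or_eq.1 hi with h | h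
        · exact h
        · exact absurd ⟨_, h⟩ hex
      exact ⟨f, fun i hi => h1 i (hlt i hi), fun i hi => h2 i (hlt i hi),
        fun i j hi hj => h3 i j (hlt i hi) (hlt j hj)⟩

end Specials

theorem specials_dirac {V : Type} [Fintype V] [DecidableEq V] (a : V → ℕ)
    (heven : Even (∑ i, a i)) (ord : V → ℕ) (hord : Function.Injective ord)
    (hc : ∀ i k, k ≠ i → 2 * (a k + a i / 2 + (Finset.univ.filter (fun j => ord j < ord i)).card)
      ≤ ∑ i, a i)
    (hc' : ∀ i, 2 * (a i - a i / 2 + (Finset.univ.filter (fun j => ord j < ord i)).card)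
      ≤ ∑ i, a i) :
    ∃ G : V → V → V → ℕ, (∀ i j k, G i j k = G i k j) ∧ (∀ i j, G i j j = 0) ∧
      (∀ i j, ∑ k, G i j k = if j = i then a i % 2 else a j) ∧
      (∀ j k, j ≠ k → ∑ i, G i j k ≤ a j * a k) := by
  classical
  obtain ⟨f, h1, h2, h3⟩ := greedy a heven ord hord hc hc' (Finset.univ.sup ord + 1)
  have hlt : ∀ i, ord i < Finset.univ.sup ord + 1 := fun i =>
    Nat.lt_succ_of_le (Finset.le_sup (Finset.mem_univ i))
  replace h1 := fun i => h1 i (hlt i)
  replace h2 := fun i => h2 i (hlt i)
  replace h3 := fun i j => h3 i j (hlt i) (hlt j)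
  refine ⟨fun i j k => ((Zs a i).filter (fun u => u.1 = j ∧ (f i u).1 = k)).card, ?_, ?_, ?_, ?_⟩
  · intro i j k
    refine Finset.card_bij (fun u _ => f i u) ?_ ?_ ?_
    · intro u hu
      obtain ⟨hu1, hu2, hu3⟩ := Finset.mem_filter.1 hu
      exact Finset.mem_filter.2 ⟨(h1 i).mem' (h2 i u hu1), hu3, by rw [(h1 i).inv]; exact hu2⟩
    · intro u _ v _ e
      have := congrArg (f i) e
      rwa [(h1 i).inv, (h1 i).inv] at this
    · intro u hu
      obtain ⟨hu1, hu2, hu3⟩ := Finset.mem_filter.1 hu
      exact ⟨f i u, Finset.mem_filter.2 ⟨(h1 i).mem' (h2 i u hu1), hu3,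
        by rw [(h1 i).inv]; exact hu2⟩, (h1 i).inv u⟩
  · intro i j
    rw [Finset.card_eq_zero, Finset.filter_eq_empty_iff]
    rintro u hu ⟨hu1, hu2⟩
    exact (h1 i).adj u (h2 i u hu) (hu1.trans hu2.symm)
  · intro i j
    rw [show (if j = i then a i % 2 else a j) = ((Zs a i).filter (fun u => u.1 = j)).card from
      (card_fiber a i j).symm]
    rw [Finset.card_eq_sum_card_fiberwise (s := (Zs a i).filter (fun u => u.1 = j))
      (t := Finset.univ) (f := fun u => (f i u).1)
      (fun _ _ => Finset.mem_coe.2 (Finset.mem_univ _))]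
    refine Finset.sum_congr rfl fun k _ => ?_
    rw [Finset.filter_filter]
  · intro j k hjk
    have hinj : ∑ i, ((Zs a i).filter (fun u => u.1 = j ∧ (f i u).1 = k)).card
        ≤ ((Finset.univ.filter (fun u : Σ k, Fin (a k) => u.1 = j)) ×ˢ
          (Finset.univ.filter (fun u : Σ k, Fin (a k) => u.1 = k))).card := by
      rw [← Finset.card_sigma]
      refine Finset.card_le_card_of_injOn (fun p => (p.2, f p.1 p.2)) ?_ ?_
      · rintro ⟨i, u⟩ hp
        have hp' := Finset.mem_sigma.1 (Finset.mem_coe.1 hp)
        obtain ⟨hu1, hu2, hu3⟩ := Finset.mem_filter.1 hp'.2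
        exact Finset.mem_coe.2 (Finset.mem_product.2
          ⟨Finset.mem_filter.2 ⟨Finset.mem_univ _, hu2⟩,
           Finset.mem_filter.2 ⟨Finset.mem_univ _, hu3⟩⟩)
      · rintro ⟨i, u⟩ hp ⟨i', u'⟩ hp' e
        have hq := Finset.mem_sigma.1 (Finset.mem_coe.1 hp)
        have hq' := Finset.mem_sigma.1 (Finset.mem_coe.1 hp')
        obtain ⟨hu1, hu2, hu3⟩ := Finset.mem_filter.1 hq.2
        obtain ⟨e1, e2⟩ := Prod.mk.inj e
        simp only at e1 e2
        subst e1
        by_cases hii : i = i'
        · subst hii; rfl
        · exact absurd (h3 i i' hii u e2) (h2 i u hu1)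
    refine hinj.trans (le_of_eq ?_)
    rw [Finset.card_product]
    have hfib : ∀ k : V, (Finset.univ.filter (fun u : Σ k, Fin (a k) => u.1 = k)).card = a k := by
      intro k
      have : (Finset.univ.filter (fun u : Σ k, Fin (a k) => u.1 = k)).card
          = (Finset.univ : Finset (Fin (a k))).card := by
        symm
        refine Finset.card_bij (fun x _ => (⟨k, x⟩ : Σ k, Fin (a k))) ?_ ?_ ?_
        · intro x _
          exact Finset.mem_filter.2 ⟨Finset.mem_univ _, rfl⟩
        · intro x _ y _ e
          simpa using e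
        · rintro ⟨k', x⟩ hu
          have h2' : k' = k := (Finset.mem_filter.1 hu).2
          subst h2'
          exact ⟨x, Finset.mem_univ _, rfl⟩
      rw [this, Finset.card_univ, Fintype.card_fin]
    rw [hfib, hfib]

end TCM
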