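import Pool.Agent.Lib.MP_c70440_co.AllSpecial

set_option autoImplicit false

/-!
Special classes for the eight exceptional size lists, found by computer search.
-/

namespace TCM

/-- Certificate 1. -/
def excG1 : Fin 5 → Fin 5 → Fin 5 → ℕ :=
  ![![![0, 0, 0, 0, 0],
      ![0, 0, 1, 1, 1],
      ![0, 1, 0, 1, 1],
      ![0, 1, 1, 0, 1],
      ![0, 1, 1, 1, 0]],
    ![![0, 0, 1, 2, 1],
      ![0, 0, 1, 0, 0],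
      ![1, 1, 0, 0, 1],
      ![2, 0, 0, 0, 1],
      ![1, 0, 1, 1, 0]],
    ![![0, 2, 0, 1, 1],
      ![2, 0, 0, 0, 1],
      ![0, 0, 0, 1, 0],
      ![1, 0, 1, 0, 1],
      ![1, 1, 0, 1, 0]],
    ![![0, 2, 1, 0, 1],
      ![2, 0, 0, 0, 1],
      ![1, 0, 0, 1, 1],
      ![0, 0, 1, 0, 0],
      ![1, 1, 1, 0, 0]],
    ![![0, 1, 1, 2, 0],
      ![1, 0, 1, 0, 1],
      ![1, 1, 0, 1, 0],
      ![2, 0, 1, 0, 0],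
      ![0, 1, 0, 0, 0]]]

theorem specials_exc1 : ∃ G, Specials (![4, 3, 3, 3, 3] : Fin 5 → ℕ) G := by
  refine ⟨excG1, ?_, ?_, ?_, ?_⟩
  · decide +kernel
  · decide +kernel
  · decide +kernel
  · decide +kernel

/-- Certificate 2. -/
def excG2 : Fin 6 → Fin 6 → Fin 6 → ℕ :=
  ![![![0, 0, 1, 0, 0, 0],
      ![0, 0, 0, 1, 1, 1],
      ![1, 0, 0, 1, 1, 0],
      ![0, 1, 1, 0, 0, 1],
      ![0, 1, 1, 0, 0, 1],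
      ![0, 1, 0, 1, 1, 0]],
    ![![0, 0, 1, 2, 1, 1],
      ![0, 0, 0, 0, 0, 1],
      ![1, 0, 0, 1, 1, 0],
      ![2, 0, 1, 0, 0, 0],
      ![1, 0, 1, 0, 0, 1],
      ![1, 1, 0, 0, 1, 0]],
    ![![0, 1, 0, 1, 1, 2],
      ![1, 0, 1, 0, 1, 0],
      ![0, 1, 0, 0, 0, 0],
      ![1, 0, 0, 0, 1, 1],
      ![1, 1, 0, 1, 0, 0],
      ![2, 0, 0, 1, 0, 0]],
    ![![0, 1, 2, 0, 1, 1],
      ![1, 0, 0, 0, 1, 1],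
      ![2, 0, 0, 0, 0, 1],
      ![0, 0, 0, 0, 1, 0],
      ![1, 1, 0, 1, 0, 0],
      ![1, 1, 1, 0, 0, 0]],
    ![![0, 2, 0, 2, 0, 1],
      ![2, 0, 1, 0, 0, 0],
      ![0, 1, 0, 1, 0, 1],
      ![2, 0, 1, 0, 0, 0],
      ![0, 0, 0, 0, 0, 1],
      ![1, 0, 1, 0, 1, 0]],
    ![![0, 2, 1, 0, 2, 0],
      ![2, 0, 0, 1, 0, 0],
      ![1, 0, 0, 1, 0, 1],
      ![0, 1, 1, 0, 1, 0],
      ![2, 0, 0, 1, 0, 0],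
      ![0, 0, 1, 0, 0, 0]]]

theorem specials_exc2 : ∃ G, Specials (![5, 3, 3, 3, 3, 3] : Fin 6 → ℕ) G := by
  refine ⟨excG2, ?_, ?_, ?_, ?_⟩
  · decide +kernel
  · decide +kernel
  · decide +kernel
  · decide +kernel

/-- Certificate 3. -/
def excG3 : Fin 5 → Fin 5 → Fin 5 → ℕ :=
  ![![![0, 0, 0, 0, 1],
      ![0, 0, 1, 1, 2],
      ![0, 1, 0, 2, 0],
      ![0, 1, 2, 0, 0],
      ![1, 2, 0, 0, 0]],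
    ![![0, 0, 2, 2, 1],
      ![0, 0, 0, 0, 0],
      ![2, 0, 0, 0, 1],
      ![2, 0, 0, 0, 1],
      ![1, 0, 1, 1, 0]],
    ![![0, 3, 1, 0, 1],
      ![3, 0, 0, 1, 0],
      ![1, 0, 0, 0, 0],
      ![0, 1, 0, 0, 2],
      ![1, 0, 0, 2, 0]],
    ![![0, 2, 2, 1, 0],
      ![2, 0, 0, 0, 2],
      ![2, 0, 0, 0, 1],
      ![1, 0, 0, 0, 0],
      ![0, 2, 1, 0, 0]],
    ![![0, 2, 0, 2, 1],
      ![2, 0, 2, 0, 0],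
      ![0, 2, 0, 1, 0],
      ![2, 0, 1, 0, 0],
      ![1, 0, 0, 0, 0]]]

theorem specials_exc3 : ∃ G, Specials (![5, 4, 3, 3, 3] : Fin 5 → ℕ) G := by
  refine ⟨excG3, ?_, ?_, ?_, ?_⟩
  · decide +kernel
  · decide +kernel
  · decide +kernel
  · decide +kernel

/-- Certificate 4. -/
def excG4 : Fin 5 → Fin 5 → Fin 5 → ℕ :=
  ![![![0, 0, 0, 0, 0],
      ![0, 0, 1, 1, 1],
      ![0, 1, 0, 1, 1],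
      ![0, 1, 1, 0, 1],
      ![0, 1, 1, 1, 0]],
    ![![0, 0, 2, 2, 2],
      ![0, 0, 0, 1, 0],
      ![2, 0, 0, 0, 1],
      ![2, 1, 0, 0, 0],
      ![2, 0, 1, 0, 0]],
    ![![0, 3, 0, 2, 1],
      ![3, 0, 0, 0, 0],
      ![0, 0, 0, 0, 1],
      ![2, 0, 0, 0, 1],
      ![1, 0, 1, 1, 0]],
    ![![0, 1, 3, 0, 2],
      ![1, 0, 0, 1, 1],
      ![3, 0, 0, 0, 0],
      ![0, 1, 0, 0, 0],
      ![2, 1, 0, 0, 0]],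
    ![![0, 2, 1, 2, 1],
      ![2, 0, 1, 0, 0],
      ![1, 1, 0, 1, 0],
      ![2, 0, 1, 0, 0],
      ![1, 0, 0, 0, 0]]]

theorem specials_exc4 : ∃ G, Specials (![6, 3, 3, 3, 3] : Fin 5 → ℕ) G := by
  refine ⟨excG4, ?_, ?_, ?_, ?_⟩
  · decide +kernel
  · decide +kernel
  · decide +kernel
  · decide +kernel

/-- Certificate 5. -/
def excG5 : Fin 7 → Fin 7 → Fin 7 → ℕ :=
  ![![![0, 0, 0, 0, 0, 0, 0],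
      ![0, 0, 1, 0, 1, 1, 0],
      ![0, 1, 0, 1, 0, 0, 1],
      ![0, 0, 1, 0, 0, 1, 1],
      ![0, 1, 0, 0, 0, 1, 1],
      ![0, 1, 0, 1, 1, 0, 0],
      ![0, 0, 1, 1, 1, 0, 0]],
    ![![0, 0, 1, 1, 1, 2, 1],
      ![0, 0, 0, 1, 0, 0, 0],
      ![1, 0, 0, 0, 1, 0, 1],
      ![1, 1, 0, 0, 0, 0, 1],
      ![1, 0, 1, 0, 0, 1, 0],
      ![2, 0, 0, 0, 1, 0, 0],
      ![1, 0, 1, 1, 0, 0, 0]],
    ![![0, 2, 0, 1, 1, 1, 1],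
      ![2, 0, 0, 1, 0, 0, 0],
      ![0, 0, 0, 0, 0, 1, 0],
      ![1, 1, 0, 0, 1, 0, 0],
      ![1, 0, 0, 1, 0, 0, 1],
      ![1, 0, 1, 0, 0, 0, 1],
      ![1, 0, 0, 0, 1, 1, 0]],
    ![![0, 1, 1, 1, 2, 0, 1],
      ![1, 0, 0, 0, 0, 1, 1],
      ![1, 0, 0, 0, 1, 1, 0],
      ![1, 0, 0, 0, 0, 0, 0],
      ![2, 0, 1, 0, 0, 0, 0],
      ![0, 1, 1, 0, 0, 0, 1],
      ![1, 1, 0, 0, 0, 1, 0]],
    ![![0, 0, 1, 2, 1, 1, 1],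
      ![0, 0, 2, 0, 0, 1, 0],
      ![1, 2, 0, 0, 0, 0, 0],
      ![2, 0, 0, 0, 0, 0, 1],
      ![1, 0, 0, 0, 0, 0, 0],
      ![1, 1, 0, 0, 0, 0, 1],
      ![1, 0, 0, 1, 0, 1, 0]],
    ![![0, 1, 2, 1, 1, 1, 0],
      ![1, 0, 0, 0, 0, 0, 2],
      ![2, 0, 0, 0, 0, 0, 1],
      ![1, 0, 0, 0, 2, 0, 0],
      ![1, 0, 0, 2, 0, 0, 0],
      ![1, 0, 0, 0, 0, 0, 0],
      ![0, 2, 1, 0, 0, 0, 0]],
    ![![0, 2, 1, 0, 1, 1, 1],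
      ![2, 0, 0, 0, 1, 0, 0],
      ![1, 0, 0, 2, 0, 0, 0],
      ![0, 0, 2, 0, 0, 1, 0],
      ![1, 1, 0, 0, 0, 1, 0],
      ![1, 0, 0, 1, 1, 0, 0],
      ![1, 0, 0, 0, 0, 0, 0]]]

theorem specials_exc5 : ∃ G, Specials (![6, 3, 3, 3, 3, 3, 3] : Fin 7 → ℕ) G := by
  refine ⟨excG5, ?_, ?_, ?_, ?_⟩
  · decide +kernel
  · decide +kernel
  · decide +kernel
  · decide +kernel

/-- Certificate 6. -/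
def excG6 : Fin 6 → Fin 6 → Fin 6 → ℕ :=
  ![![![0, 0, 0, 0, 0, 0],
      ![0, 0, 1, 1, 1, 1],
      ![0, 1, 0, 1, 0, 1],
      ![0, 1, 1, 0, 1, 0],
      ![0, 1, 0, 1, 0, 1],
      ![0, 1, 1, 0, 1, 0]],
    ![![0, 0, 1, 2, 2, 1],
      ![0, 0, 0, 0, 0, 0],
      ![1, 0, 0, 0, 1, 1],
      ![2, 0, 0, 0, 0, 1],
      ![2, 0, 1, 0, 0, 0],
      ![1, 0, 1, 1, 0, 0]],
    ![![0, 2, 0, 2, 1, 1],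
      ![2, 0, 1, 0, 0, 1],
      ![0, 1, 0, 0, 0, 0],
      ![2, 0, 0, 0, 1, 0],
      ![1, 0, 0, 1, 0, 1],
      ![1, 1, 0, 0, 1, 0]],
    ![![0, 3, 1, 0, 1, 1],
      ![3, 0, 0, 0, 1, 0],
      ![1, 0, 0, 0, 1, 1],
      ![0, 0, 0, 0, 0, 1],
      ![1, 1, 1, 0, 0, 0],
      ![1, 0, 1, 1, 0, 0]],
    ![![0, 1, 3, 2, 0, 0],
      ![1, 0, 0, 0, 1, 2],
      ![3, 0, 0, 0, 0, 0],
      ![2, 0, 0, 0, 0, 1],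
      ![0, 1, 0, 0, 0, 0],
      ![0, 2, 0, 1, 0, 0]],
    ![![0, 2, 1, 1, 2, 0],
      ![2, 0, 1, 1, 0, 0],
      ![1, 1, 0, 0, 1, 0],
      ![1, 1, 0, 0, 0, 1],
      ![2, 0, 1, 0, 0, 0],
      ![0, 0, 0, 1, 0, 0]]]

theorem specials_exc6 : ∃ G, Specials (![6, 4, 3, 3, 3, 3] : Fin 6 → ℕ) G := by
  refine ⟨excG6, ?_, ?_, ?_, ?_⟩
  · decide +kernel
  · decide +kernel
  · decide +kernel
  · decide +kernel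

/-- Certificate 7. -/
def excG7 : Fin 6 → Fin 6 → Fin 6 → ℕ :=
  ![![![0, 0, 1, 0, 0, 0],
      ![0, 0, 0, 1, 1, 1],
      ![1, 0, 0, 1, 1, 0],
      ![0, 1, 1, 0, 0, 1],
      ![0, 1, 1, 0, 0, 1],
      ![0, 1, 0, 1, 1, 0]],
    ![![0, 0, 2, 1, 2, 2],
      ![0, 0, 0, 1, 0, 0],
      ![2, 0, 0, 0, 0, 1],
      ![1, 1, 0, 0, 1, 0],
      ![2, 0, 0, 1, 0, 0],
      ![2, 0, 1, 0, 0, 0]],
    ![![0, 1, 0, 1, 2, 3],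
      ![1, 0, 1, 1, 0, 0],
      ![0, 1, 0, 0, 0, 0],
      ![1, 1, 0, 0, 1, 0],
      ![2, 0, 0, 1, 0, 0],
      ![3, 0, 0, 0, 0, 0]],
    ![![0, 2, 2, 0, 1, 2],
      ![2, 0, 0, 0, 1, 0],
      ![2, 0, 0, 1, 0, 0],
      ![0, 0, 1, 0, 0, 0],
      ![1, 1, 0, 0, 0, 1],
      ![2, 0, 0, 0, 1, 0]],
    ![![0, 2, 1, 3, 0, 1],
      ![2, 0, 0, 0, 0, 1],
      ![1, 0, 0, 0, 1, 1],
      ![3, 0, 0, 0, 0, 0],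
      ![0, 0, 1, 0, 0, 0],
      ![1, 1, 1, 0, 0, 0]],
    ![![0, 2, 2, 1, 2, 0],
      ![2, 0, 0, 1, 0, 0],
      ![2, 0, 0, 0, 1, 0],
      ![1, 1, 0, 0, 0, 1],
      ![2, 0, 1, 0, 0, 0],
      ![0, 0, 0, 1, 0, 0]]]

theorem specials_exc7 : ∃ G, Specials (![7, 3, 3, 3, 3, 3] : Fin 6 → ℕ) G := by
  refine ⟨excG7, ?_, ?_, ?_, ?_⟩
  · decide +kernel
  · decide +kernel
  · decide +kernel
  · decide +kernel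

/-- Certificate 8. -/
def excG8 : Fin 8 → Fin 8 → Fin 8 → ℕ :=
  ![![![0, 0, 1, 0, 0, 0, 0, 0],
      ![0, 0, 0, 1, 0, 0, 0, 2],
      ![1, 0, 0, 0, 1, 0, 1, 0],
      ![0, 1, 0, 0, 0, 1, 1, 0],
      ![0, 0, 1, 0, 0, 1, 0, 1],
      ![0, 0, 0, 1, 1, 0, 1, 0],
      ![0, 0, 1, 1, 0, 1, 0, 0],
      ![0, 2, 0, 0, 1, 0, 0, 0]],
    ![![0, 0, 2, 1, 1, 1, 1, 1],
      ![0, 0, 0, 0, 0, 0, 1, 0],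
      ![2, 0, 0, 1, 0, 0, 0, 0],
      ![1, 0, 1, 0, 1, 0, 0, 0],
      ![1, 0, 0, 1, 0, 0, 0, 1],
      ![1, 0, 0, 0, 0, 0, 1, 1],
      ![1, 1, 0, 0, 0, 1, 0, 0],
      ![1, 0, 0, 0, 1, 1, 0, 0]],
    ![![0, 1, 0, 2, 1, 1, 1, 1],
      ![1, 0, 1, 0, 0, 1, 0, 0],
      ![0, 1, 0, 0, 0, 0, 0, 0],
      ![2, 0, 0, 0, 1, 0, 0, 0],
      ![1, 0, 0, 1, 0, 0, 1, 0],
      ![1, 1, 0, 0, 0, 0, 0, 1],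
      ![1, 0, 0, 0, 1, 0, 0, 1],
      ![1, 0, 0, 0, 0, 1, 1, 0]],
    ![![0, 1, 0, 0, 3, 1, 1, 1],
      ![1, 0, 0, 0, 0, 1, 1, 0],
      ![0, 0, 0, 1, 0, 1, 0, 1],
      ![0, 0, 1, 0, 0, 0, 0, 0],
      ![3, 0, 0, 0, 0, 0, 0, 0],
      ![1, 1, 1, 0, 0, 0, 0, 0],
      ![1, 1, 0, 0, 0, 0, 0, 1],
      ![1, 0, 1, 0, 0, 0, 1, 0]],
    ![![0, 0, 2, 1, 0, 1, 1, 2],
      ![0, 0, 0, 1, 1, 1, 0, 0],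
      ![2, 0, 0, 0, 0, 1, 0, 0],
      ![1, 1, 0, 0, 0, 0, 1, 0],
      ![0, 1, 0, 0, 0, 0, 0, 0],
      ![1, 1, 1, 0, 0, 0, 0, 0],
      ![1, 0, 0, 1, 0, 0, 0, 1],
      ![2, 0, 0, 0, 0, 0, 1, 0]],
    ![![0, 3, 0, 1, 1, 0, 1, 1],
      ![3, 0, 0, 0, 0, 0, 0, 0],
      ![0, 0, 0, 1, 0, 0, 1, 1],
      ![1, 0, 1, 0, 0, 1, 0, 0],
      ![1, 0, 0, 0, 0, 0, 1, 1],
      ![0, 0, 0, 1, 0, 0, 0, 0],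
      ![1, 0, 1, 0, 1, 0, 0, 0],
      ![1, 0, 1, 0, 1, 0, 0, 0]],
    ![![0, 1, 1, 1, 1, 2, 1, 0],
      ![1, 0, 1, 0, 1, 0, 0, 0],
      ![1, 1, 0, 0, 0, 0, 0, 1],
      ![1, 0, 0, 0, 0, 1, 0, 1],
      ![1, 1, 0, 0, 0, 0, 0, 1],
      ![2, 0, 0, 1, 0, 0, 0, 0],
      ![1, 0, 0, 0, 0, 0, 0, 0],
      ![0, 0, 1, 1, 1, 0, 0, 0]],
    ![![0, 1, 2, 1, 1, 1, 1, 0],
      ![1, 0, 1, 1, 0, 0, 0, 0],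
      ![2, 1, 0, 0, 0, 0, 0, 0],
      ![1, 1, 0, 0, 0, 0, 0, 1],
      ![1, 0, 0, 0, 0, 1, 1, 0],
      ![1, 0, 0, 0, 1, 0, 1, 0],
      ![1, 0, 0, 0, 1, 1, 0, 0],
      ![0, 0, 0, 1, 0, 0, 0, 0]]]

theorem specials_exc8 : ∃ G, Specials (![7, 3, 3, 3, 3, 3, 3, 3] : Fin 8 → ℕ) G := by
  refine ⟨excG8, ?_, ?_, ?_, ?_⟩
  · decide +kernel
  · decide +kernel
  · decide +kernel
  · decide +kernel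

end TCM
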