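import Pool.Agent.Lib.MP_c70440_co.AllSpecial
import Pool.Agent.Lib.MP_c70440_co.Small
import Pool.Agent.Lib.MP_c70440_co.Dirac

set_option autoImplicit false
set_option maxHeartbeats 4000000

namespace TCM

open Finset

/-- Specials from arbitrary realisations (few parts). -/
theorem specials_any {V : Type} [Fintype V] [DecidableEq V] (a : V → ℕ)
    (heven : Even (∑ k, a k)) (hpos : ∀ k, 1 ≤ a k) (hp : 2 ≤ Fintype.card V)
    (hreal : ∀ i k, k ≠ i → 2 * a k + 2 * (a i / 2) ≤ ∑ k, a k)
    (hX : ∀ j k, j ≠ k → (Fintype.card V - 2) * a j + a j % 2 + a k % 2 ≤ a j * a k ∨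
      (Fintype.card V - 2) * a k + a j % 2 + a k % 2 ≤ a j * a k) :
    ∃ G : V → V → V → ℕ, Specials a G := by
  classical
  let f : V → V → ℕ := fun i k => if k = i then a i % 2 else a k
  have hfsum : ∀ i, ∑ k, f i k + 2 * (a i / 2) = ∑ k, a k := by
    intro i
    simp only [f]
    rw [← Finset.add_sum_erase _ _ (Finset.mem_univ i),
      ← Finset.add_sum_erase _ a (Finset.mem_univ i), if_pos rfl]
    have h1 : ∑ k ∈ Finset.univ.erase i, (if k = i then a i % 2 else a k) =
        ∑ k ∈ Finset.univ.erase i, a k := by
      apply Finset.sum_congr rfl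
      intro k hk
      rw [Finset.mem_erase] at hk
      rw [if_neg hk.1]
    rw [h1]
    omega
  have hex : ∀ i, ∃ G : V → V → ℕ, (∀ j k, G j k = G k j) ∧ (∀ j, G j j = 0) ∧
      ∀ j, ∑ k, G j k = f i j := by
    intro i
    apply exists_multigraph
    · have h1 := hfsum i
      obtain ⟨t, ht⟩ := heven
      exact ⟨t - a i / 2, by omega⟩
    · intro k
      have h1 := hfsum i
      by_cases hk : k = i
      · subst hk
        have h2 : ∃ k', k' ≠ k := by
          by_contra hne
          push Not at hne
          have : Fintype.card V ≤ 1 := Fintype.card_le_one_iff.2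
            (fun x y => (hne x).trans (hne y).symm)
          omega
        obtain ⟨k', hk'⟩ := h2
        have h3 : f k k + f k k' ≤ ∑ j, f k j := by
          rw [← Finset.sum_pair (Ne.symm hk')]
          exact Finset.sum_le_sum_of_subset (Finset.subset_univ _)
        have h4 : f k k = a k % 2 := by simp only [f, if_true]
        have h5 : f k k' = a k' := by simp only [f, if_neg hk']
        have h6 := hpos k'
        omega
      · have h2 := hreal i k hk
        have h3 : f i k = a k := by simp only [f, if_neg hk]
        omega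
  choose G hG1 hG2 hG3 using hex
  have hle1 : ∀ i j k, G i j k ≤ f i j := by
    intro i j k
    rw [← hG3 i j]
    exact Finset.single_le_sum (f := fun k => G i j k) (fun _ _ => Nat.zero_le _)
      (Finset.mem_univ k)
  have hle2 : ∀ i j k, G i j k ≤ f i k := by
    intro i j k
    rw [hG1]
    exact hle1 i k j
  refine ⟨G, ⟨hG1, hG2, ?_, ?_⟩⟩
  · intro i j
    rw [hG3]
  · intro j k hjk
    have hsplit : ∑ i, G i j k = G j j k + (G k j k +
        ∑ i ∈ (Finset.univ.erase j).erase k, G i j k) := by
      rw [Finset.add_sum_erase _ (fun i => G i j k) (by simp [Ne.symm hjk]),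
        Finset.add_sum_erase _ (fun i => G i j k) (Finset.mem_univ j)]
    have hcard : ((Finset.univ.erase j).erase k).card = Fintype.card V - 2 := by
      rw [Finset.card_erase_of_mem (by simp [Ne.symm hjk]),
        Finset.card_erase_of_mem (Finset.mem_univ j), Finset.card_univ]
      omega
    have hj : G j j k ≤ a j % 2 := by
      have := hle1 j j k
      simpa [f] using this
    have hk : G k j k ≤ a k % 2 := by
      have := hle2 k j k
      simpa [f] using this
    have hr1 : ∑ i ∈ (Finset.univ.erase j).erase k, G i j k ≤ (Fintype.card V - 2) * a j := by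
      rw [← hcard, ← smul_eq_mul]
      apply Finset.sum_le_card_nsmul
      intro i hi
      simp only [Finset.mem_erase, Finset.mem_univ, and_true] at hi
      have := hle1 i j k
      simpa [f, Ne.symm hi.2] using this
    have hr2 : ∑ i ∈ (Finset.univ.erase j).erase k, G i j k ≤ (Fintype.card V - 2) * a k := by
      rw [← hcard, ← smul_eq_mul]
      apply Finset.sum_le_card_nsmul
      intro i hi
      simp only [Finset.mem_erase, Finset.mem_univ, and_true] at hi
      have := hle2 i j k
      simpa [f, Ne.symm hi.1] using this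
    rcases hX j k hjk with h | h <;> omega

theorem specials_dirac' {V : Type} [Fintype V] [DecidableEq V] (a : V → ℕ)
    (heven : Even (∑ i, a i)) (ord : V → ℕ) (hord : Function.Injective ord)
    (hc : ∀ i k, k ≠ i → 2 * (a k + a i / 2 +
      (Finset.univ.filter (fun j => ord j < ord i)).card) ≤ ∑ i, a i)
    (hc' : ∀ i, 2 * (a i - a i / 2 +
      (Finset.univ.filter (fun j => ord j < ord i)).card) ≤ ∑ i, a i) :
    ∃ G : V → V → V → ℕ, Specials a G := by
  obtain ⟨G, h1, h2, h3, h4⟩ := specials_dirac a heven ord hord hc hc'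
  exact ⟨G, ⟨h1, h2, h3, h4⟩⟩

end TCM
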