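import Pool.Agent.Lib.MP_c70440_co.Irr
import Pool.Agent.Lib.MP_c70440_co.Spec

set_option autoImplicit false
set_option maxHeartbeats 4000000

namespace TCM

open Finset

/-- Size bounds that follow from irreducibility. -/
structure Bnd (m p : ℕ) (b : ℕ) : Prop where
  lo : m ≤ b
  hi : 2 * m ≤ b → (b - 2 * m) * (b - m) + b % 2 ≤ p

theorem Irr.bnd {V : Type} [Fintype V] [DecidableEq V] {m : ℕ} {a : V → ℕ}
    (ha : Adm m a) (hir : Irr m a) (j : V) : Bnd m (Fintype.card V) (a j) := by
  refine ⟨ha.min j, fun hj => ?_⟩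
  rcases Nat.mod_two_eq_zero_or_one m with hm | hm
  · have := irr_even hm ha hir j
    omega
  · exact irr_odd hm ha hir j hj

theorem sum_ge_two {V : Type} [Fintype V] [DecidableEq V] (a : V → ℕ) (m : ℕ)
    (hmin : ∀ k, m ≤ a k) (i k : V) (hik : k ≠ i) :
    a i + a k + (Fintype.card V - 2) * m ≤ ∑ k, a k := by
  rw [← Finset.add_sum_erase _ _ (Finset.mem_univ i),
    ← Finset.add_sum_erase (Finset.univ.erase i) a (show k ∈ _ by simp [hik])]
  have hcard : ((Finset.univ.erase i).erase k).card = Fintype.card V - 2 := by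
    rw [Finset.card_erase_of_mem (by simp [hik]),
      Finset.card_erase_of_mem (Finset.mem_univ i), Finset.card_univ]
    omega
  have h1 : ((Finset.univ.erase i).erase k).card • m ≤ ∑ x ∈ (Finset.univ.erase i).erase k, a x :=
    Finset.card_nsmul_le_sum _ _ _ (fun x _ => hmin x)
  rw [hcard, smul_eq_mul] at h1
  omega

theorem sum_ge_one {V : Type} [Fintype V] [DecidableEq V] (a : V → ℕ) (m : ℕ)
    (hmin : ∀ k, m ≤ a k) (i : V) :
    a i + (Fintype.card V - 1) * m ≤ ∑ k, a k := by
  rw [← Finset.add_sum_erase _ _ (Finset.mem_univ i)]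
  have hcard : (Finset.univ.erase i).card = Fintype.card V - 1 := by
    rw [Finset.card_erase_of_mem (Finset.mem_univ i), Finset.card_univ]
  have h1 : (Finset.univ.erase i).card • m ≤ ∑ x ∈ Finset.univ.erase i, a x :=
    Finset.card_nsmul_le_sum _ _ _ (fun x _ => hmin x)
  rw [hcard, smul_eq_mul] at h1
  omega

/-- Existence of specials, `m ≥ 4`. -/
theorem specials_ge4 {V : Type} [Fintype V] [DecidableEq V] (m : ℕ) (hm : 4 ≤ m) (a : V → ℕ)
    (hp : 4 ≤ Fintype.card V) (heven : Even (∑ k, a k))
    (hb : ∀ j, Bnd m (Fintype.card V) (a j)) (hb0 : m % 2 = 0 → ∀ j, a j < 2 * m) :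
    ∃ G : V → V → V → ℕ, Specials a G := by
  obtain ⟨p, hpp⟩ : ∃ p, Fintype.card V = p + 2 := ⟨Fintype.card V - 2, by omega⟩
  have hmin : ∀ k, m ≤ a k := fun k => (hb k).lo
  by_cases hcase : Fintype.card V ≤ m + 1 ∨ (m % 2 = 0 ∧ Fintype.card V ≤ m + 2)
  · -- few parts
    have hsmall : ∀ k, a k ≤ 2 * m := by
      intro k
      by_contra hk
      push Not at hk
      have h1 := (hb k).hi (by omega)
      obtain ⟨c, hc⟩ : ∃ c, a k = 2 * m + 1 + c := ⟨a k - (2 * m + 1), by omega⟩
      rcases hcase with h2 | ⟨h2, h3⟩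
      · have e1 : a k - 2 * m = c + 1 := by omega
        have e2 : a k - m = m + 1 + c := by omega
        rw [e1, e2] at h1
        have h5 : m + 1 + c ≤ (c + 1) * (m + 1 + c) := by nlinarith
        rcases Nat.eq_zero_or_pos c with h4 | h4
        · subst h4
          omega
        · omega
      · have := hb0 h2 k
        omega
    apply specials_any a heven (fun k => by have := hmin k; omega) (by omega)
    · intro i k hik
      have h1 := sum_ge_two a m hmin i k hik
      have h2 := hsmall k
      have h3 : 2 * m ≤ (Fintype.card V - 2) * m := Nat.mul_le_mul_right m (by omega)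
      omega
    · intro j k hjk
      have hj := hmin j
      have hk := hmin k
      have hpm : Fintype.card V - 2 = p := by omega
      rw [hpm]
      -- by symmetry use the smaller one
      have key : ∀ x y : ℕ, m ≤ x → x ≤ y → p * x + x % 2 + y % 2 ≤ x * y := by
        intro x y hx hxy
        by_cases hpm1 : p + 1 ≤ m
        · have h1 : (p + 1) * x ≤ y * x := Nat.mul_le_mul_right x (by omega)
          have h2 : (p + 1) * x = p * x + x := by ring
          have h3 : y * x = x * y := by ring
          omega
        · have h0 : m % 2 = 0 ∧ p = m := by omega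
          obtain ⟨h00, h01⟩ := h0
          subst h01
          rcases Nat.lt_or_ge p y with h | h
          · have h1 : (p + 1) * x ≤ y * x := Nat.mul_le_mul_right x (by omega)
            have h2 : (p + 1) * x = p * x + x := by ring
            have h3 : y * x = x * y := by ring
            omega
          · have h1 : x = p := by omega
            have h2 : y = p := by omega
            subst h1
            subst h2
            omega
      rcases le_total (a j) (a k) with h | h
      · left
        exact key (a j) (a k) hj h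
      · right
        have := key (a k) (a j) hk h
        rw [mul_comm (a j) (a k)]
        omega
  · -- many parts: Dirac
    push Not at hcase
    obtain ⟨hc1, hc2⟩ := hcase
    have hbig : ∀ k, a k + 2 * p + 2 ≤ p * m := by
      intro k
      have hk := hmin k
      obtain ⟨s, hs⟩ : ∃ s, p = m + s := ⟨p - m, by omega⟩
      obtain ⟨m', hm'⟩ : ∃ m', m = m' + 4 := ⟨m - 4, by omega⟩
      by_cases hk2 : a k ≤ 2 * m
      · rcases Nat.eq_zero_or_pos m' with h | h
        · have h3 : 7 ≤ Fintype.card V := by
            have := hc2 (by omega)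
            omega
          subst h
          subst hs
          subst hm'
          nlinarith
        · subst hs
          subst hm'
          nlinarith
      · push Not at hk2
        have h1 := (hb k).hi (by omega)
        have hmodd : m % 2 = 1 := by
          by_contra hne
          have := hb0 (by omega) k
          omega
        obtain ⟨c, hc⟩ : ∃ c, a k = 2 * m + 1 + c := ⟨a k - (2 * m + 1), by omega⟩
        have e1 : a k - 2 * m = c + 1 := by omega
        have e2 : a k - m = m + 1 + c := by omega
        rw [e1, e2, hpp] at h1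
        have h5 : 5 ≤ m := by omega
        have h6 : (c + 1) * (m + 1 + c) ≤ p + 2 := by omega
        have h7 : c * m + m + 2 * c + 1 + c * c ≤ p + 2 := by nlinarith
        have h8 : 5 * c + m ≤ p + 1 := by nlinarith
        have h9 : p * 5 ≤ p * m := Nat.mul_le_mul_left p h5
        have h10 : m ≤ p := by omega
        rw [hc]
        rcases Nat.eq_zero_or_pos c with h | h
        · subst h
          linarith
        · linarith
    let ord : V → ℕ := fun k => (Fintype.equivFin V k).val
    have hord : Function.Injective ord := fun x y h => (Fintype.equivFin V).injective (Fin.ext h)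
    have hcount : ∀ i, (Finset.univ.filter (fun j => ord j < ord i)).card ≤ p + 1 := by
      intro i
      have h1 : Finset.univ.filter (fun j => ord j < ord i) ⊆ Finset.univ.erase i := by
        intro j hj
        simp only [Finset.mem_filter, Finset.mem_univ, true_and] at hj
        simp only [Finset.mem_erase, Finset.mem_univ, and_true]
        rintro rfl
        exact lt_irrefl _ hj
      have h2 := Finset.card_le_card h1
      rw [Finset.card_erase_of_mem (Finset.mem_univ i), Finset.card_univ] at h2
      omega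
    apply specials_dirac' a heven ord hord
    · intro i k hik
      have h1 := sum_ge_two a m hmin i k hik
      have h2 := hbig k
      have h3 := hcount i
      rw [hpp, Nat.add_sub_cancel] at h1
      omega
    · intro i
      have h1 := sum_ge_one a m hmin i
      have h3 := hcount i
      rw [hpp] at h1
      have h4 : p + 2 - 1 = p + 1 := by omega
      rw [h4] at h1
      have h5 : (p + 1) * 4 ≤ (p + 1) * m := Nat.mul_le_mul_left _ hm
      omega


/-- Per-part inequality, `m ≥ 4`, integer form. Here `e = b - m`. -/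
theorem perpart_num (m p n e : ℤ) (hm : 4 ≤ m) (hp : 4 ≤ p) (he : 0 ≤ e) (hn : m * p + e ≤ n)
    (hb : e ≤ m ∨ (1 ≤ e - m ∧ (e - m) * e ≤ p)) :
    2 * e ≤ n - 2 * p + 2 ∧
    2 * (n + 1 - m - p) + 2 * (m + e) * e ≤ (m + e) * (n - 2 * p + 2) ∧
    2 * (n + 1 - m - p) + 4 ≤ (m + e) * (n - 2 * p + 2) + 2 * (m + e) * e := by
  have h1 : e ≤ (m - 2) * p + 2 := by
    rcases hb with h | ⟨h1, h2⟩
    · nlinarith
    · have : e ≤ p := by nlinarith
      nlinarith
  have hmp : 0 ≤ (m - 4) * (p - 4) := mul_nonneg (by linarith) (by linarith)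
  -- monotone in n
  have h2 : 0 ≤ (n - (m * p + e)) * (m + e - 2) := mul_nonneg (by linarith) (by linarith)
  have key2 : 2 * (m * p + e + 1 - m - p) + 2 * (m + e) * e ≤
      (m + e) * (m * p + e - 2 * p + 2) := by
    rcases hb with h | ⟨h3, h4⟩
    · -- concave in e on [0, m]
      have a1 : 0 ≤ e * (m - e) := mul_nonneg he (by linarith)
      have a2 : 0 ≤ (m - 4) * (p - 4) * e := mul_nonneg hmp he
      have a3 : 0 ≤ (m - 4) * (p - 4) * m := mul_nonneg hmp (by linarith)
      have a4 : 0 ≤ (m - 4) * e := mul_nonneg (by linarith) he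
      have a5 : 0 ≤ (p - 4) * e := mul_nonneg (by linarith) he
      have a6 : 0 ≤ (p - 4) * m := mul_nonneg (by linarith) (by linarith)
      nlinarith
    · obtain ⟨c, hc⟩ : ∃ c, e = m + c := ⟨e - m, by ring⟩
      subst hc
      have hc1 : 1 ≤ c := by linarith
      have h5 : c * (m + c) ≤ p := by
        have : m + c - m = c := by ring
        rw [this] at h4
        exact h4
      have h6 : m + c ≤ p := by nlinarith
      have a1 : 0 ≤ (p - (m + c)) * (2 * m * m - 6 * m + 2 + c * (m - 2)) := by
        apply mul_nonneg (by linarith)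
        have : 0 ≤ c * (m - 2) := mul_nonneg (by linarith) (by linarith)
        nlinarith
      have a2 : 0 ≤ (m - 4) * c := mul_nonneg (by linarith) (by linarith)
      have a3 : 0 ≤ (m - 4) * c * c := mul_nonneg a2 (by linarith)
      have a4 : 0 ≤ (m - 4) * (m - 4) * c := mul_nonneg (mul_nonneg (by linarith) (by linarith)) (by linarith)
      have a5 : 0 ≤ (m - 4) * (m - 4) * m := mul_nonneg (mul_nonneg (by linarith) (by linarith)) (by linarith)
      nlinarith
  refine ⟨by nlinarith, by nlinarith, ?_⟩
  by_cases he0 : e = 0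
  · subst he0
    nlinarith
  · have he1 : 1 ≤ e := by
      have : 0 < e := lt_of_le_of_ne he (Ne.symm he0)
      linarith
    nlinarith

theorem bnd_num {m p b : ℕ} (h : Bnd m p b) :
    ((b : ℤ) - m ≤ m) ∨ (1 ≤ ((b : ℤ) - m) - m ∧ ((b : ℤ) - m - m) * ((b : ℤ) - m) ≤ p) := by
  by_cases h1 : b ≤ 2 * m
  · left
    have : (b : ℤ) ≤ 2 * m := by exact_mod_cast h1
    linarith
  · right
    push Not at h1
    have h2 := h.hi (by omega)
    obtain ⟨c, hc⟩ : ∃ c, b = 2 * m + 1 + c := ⟨b - (2 * m + 1), by omega⟩
    subst hc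
    have e1 : 2 * m + 1 + c - 2 * m = c + 1 := by omega
    have e2 : 2 * m + 1 + c - m = m + 1 + c := by omega
    rw [e1, e2] at h2
    have h3 : (c + 1) * (m + 1 + c) ≤ p := by omega
    zify at h3
    push_cast
    constructor
    · linarith [Int.natCast_nonneg c]
    · linarith

theorem sum_mod_le {V : Type} [Fintype V] (a : V → ℕ) : ∑ k, a k % 2 ≤ Fintype.card V := by
  have : ∑ k, a k % 2 ≤ ∑ k : V, 1 := Finset.sum_le_sum (fun k _ => by omega)
  simpa using this

theorem col_ge4 (m : ℕ) (hm : 4 ≤ m) {V : Type} [Fintype V] [DecidableEq V] (a : V → ℕ)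
    (hp : 4 ≤ Fintype.card V) (ha : Adm m a) : Col a ((∑ k, a k) - m + 1) := by
  classical
  apply refine_induct m 4 (by omega) _ _ V a hp rfl ha
  intro V _ _ a hp ha hir
  have hb : ∀ j, Bnd m (Fintype.card V) (a j) := Irr.bnd ha hir
  obtain ⟨G, hG⟩ := specials_ge4 m hm a hp ha.even hb (fun h j => irr_even h ha hir j)
  obtain ⟨k0, hk0⟩ := ha.ex
  obtain ⟨N, hN⟩ := ha.even
  have hn : ∀ j, (m : ℤ) * Fintype.card V + ((a j : ℤ) - m) ≤ ∑ k, (a k : ℤ) := by
    intro j
    have h1 := sum_ge_one a m ha.min j
    have h2 : 1 ≤ Fintype.card V := by omega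
    zify [h2] at h1
    linarith
  have hc0 : 2 * ((N : ℤ) + 1 - Fintype.card V) + 2 * Fintype.card V = ∑ k, (a k : ℤ) + 2 := by
    zify at hN
    rw [hN]
    ring
  have hnum : ∀ j, _ := fun j => perpart_num (m : ℤ) (Fintype.card V) (∑ k, (a k : ℤ))
    ((a j : ℤ) - m) (by exact_mod_cast hm) (by exact_mod_cast hp)
    (by have := ha.min j; zify at this; linarith) (hn j) (bnd_num (hb j))
  have hm' : (4 : ℤ) ≤ m := by exact_mod_cast hm
  have hδ : ∀ k, ((a k % 2 : ℕ) : ℤ) = 0 ∨ ((a k % 2 : ℕ) : ℤ) = 1 := by
    intro k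
    rcases Nat.mod_two_eq_zero_or_one (a k) with h | h
    · left; rw [h]; rfl
    · right; rw [h]; rfl
  refine col_perpart a m k0 ha.min G hG ha.even ?_ ha.def' ((N : ℤ) + 1 - Fintype.card V) hc0 ?_ ?_
  · have h1 := sum_mod_le a
    have h2 := hn k0
    rw [hk0] at h2
    have h3 : (4 : ℤ) ≤ Fintype.card V := by exact_mod_cast hp
    have h4 : (m : ℤ) * Fintype.card V ≤ ((∑ k, a k : ℕ) : ℤ) := by
      push_cast
      linarith
    zify at h1 ⊢
    push_cast at h4
    nlinarith
  · intro k
    obtain ⟨n1, n2, n3⟩ := hnum k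
    have hak : (m : ℤ) ≤ a k := by exact_mod_cast ha.min k
    rcases hδ k with h | h
    · rw [h]
      have : 0 ≤ (a k : ℤ) * (∑ k, (a k : ℤ) - 2 * Fintype.card V + 2 - 2 * ((a k : ℤ) - m)) :=
        mul_nonneg (by linarith) (by linarith)
      nlinarith
    · rw [h]
      have e1 : (m : ℤ) + (a k - m) = a k := by ring
      rw [e1] at n2
      nlinarith
  · intro k
    obtain ⟨n1, n2, n3⟩ := hnum k
    have hak : (m : ℤ) ≤ a k := by exact_mod_cast ha.min k
    have hkm : 0 ≤ (a k : ℤ) * (a k - m) := mul_nonneg (by linarith) (by linarith)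
    rcases hδ k with h | h
    · rw [h]
      have : 0 ≤ (a k : ℤ) * (∑ k, (a k : ℤ) - 2 * Fintype.card V + 2 - 2 * ((a k : ℤ) - m)) :=
        mul_nonneg (by linarith) (by linarith)
      nlinarith
    · rw [h]
      have e1 : (m : ℤ) + (a k - m) = a k := by ring
      rw [e1] at n3
      nlinarith

end TCM
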