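import Pool.Agent.Lib.MP_c70440_co.Refine

set_option autoImplicit false
set_option maxHeartbeats 4000000

namespace TCM

open Finset

theorem Fc_ge (m b : ℕ) (h : m ≤ b) : -1 ≤ Fc m b := by
  simp only [Fc]
  have h1 : (0 : ℤ) ≤ (b : ℤ) * (b - m) :=
    mul_nonneg (by positivity) (by have : (m : ℤ) ≤ b := by exact_mod_cast h
                                   linarith)
  have h2 : ((b % 2 : ℕ) : ℤ) ≤ 1 := by
    have : b % 2 ≤ 1 := by omega
    exact_mod_cast this
  linarith

theorem Fc_ge_even (m b : ℕ) (hm : m % 2 = 0) (h : m ≤ b) : 0 ≤ Fc m b := by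
  simp only [Fc]
  rcases Nat.mod_two_eq_zero_or_one b with hb | hb
  · rw [hb]
    have h1 : (0 : ℤ) ≤ (b : ℤ) * (b - m) :=
      mul_nonneg (by positivity) (by have : (m : ℤ) ≤ b := by exact_mod_cast h
                                     linarith)
    push_cast
    linarith
  · rw [hb]
    have h1 : (m : ℤ) + 1 ≤ b := by
      have : m + 1 ≤ b := by omega
      exact_mod_cast this
    have h2 : (1 : ℤ) ≤ b := by
      have : 1 ≤ b := by omega
      exact_mod_cast this
    push_cast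
    nlinarith

/-- Irreducibility hypothesis. -/
def Irr {V : Type} [Fintype V] (m : ℕ) (a : V → ℕ) : Prop :=
  ∀ j, 2 * m ≤ a j → ∑ k, Fc m (a k) + Fc m m + Fc m (a j - m) < Fc m (a j)

theorem irr_even {V : Type} [Fintype V] [DecidableEq V] {m : ℕ} {a : V → ℕ} (hm : m % 2 = 0)
    (ha : Adm m a) (hir : Irr m a) (j : V) : a j < 2 * m := by
  by_contra hj
  push Not at hj
  have h1 := hir j hj
  have h2 : Fc m (a j) ≤ ∑ k, Fc m (a k) :=
    Finset.single_le_sum (f := fun k => Fc m (a k))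
      (fun k _ => Fc_ge_even m (a k) hm (ha.min k)) (Finset.mem_univ j)
  have h3 : 0 ≤ Fc m m := Fc_ge_even m m hm (le_refl m)
  have h4 : 0 ≤ Fc m (a j - m) := Fc_ge_even m (a j - m) hm (by omega)
  linarith

theorem irr_odd {V : Type} [Fintype V] [DecidableEq V] {m : ℕ} {a : V → ℕ} (hm : m % 2 = 1)
    (ha : Adm m a) (hir : Irr m a) (j : V) (hj : 2 * m ≤ a j) :
    (a j - 2 * m) * (a j - m) + a j % 2 ≤ Fintype.card V := by
  have h1 := hir j hj
  have h2 : Fc m (a j) - (Fintype.card V - 1) ≤ ∑ k, Fc m (a k) := by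
    rw [← Finset.add_sum_erase _ _ (Finset.mem_univ j)]
    have h3 : ∑ k ∈ Finset.univ.erase j, (-1 : ℤ) ≤ ∑ k ∈ Finset.univ.erase j, Fc m (a k) :=
      Finset.sum_le_sum (fun k _ => Fc_ge m (a k) (ha.min k))
    have hp : 0 < Fintype.card V := Fintype.card_pos_iff.2 ⟨j⟩
    rw [Finset.sum_const, Finset.card_erase_of_mem (Finset.mem_univ j), Finset.card_univ,
      nsmul_eq_mul, Nat.cast_sub (by omega)] at h3
    push_cast at h3
    linarith
  obtain ⟨c, hc⟩ : ∃ c, a j = 2 * m + c := ⟨a j - 2 * m, by omega⟩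
  have e1 : a j - 2 * m = c := by omega
  have e2 : a j - m = m + c := by omega
  rw [e2] at h1
  rw [e1, e2]
  zify
  simp only [Fc] at h1 h2
  rw [hc] at h1 h2 ⊢
  rcases Nat.mod_two_eq_zero_or_one c with h | h
  · have e3 : (2 * m + c) % 2 = 0 := by omega
    have e4 : (m + c) % 2 = 1 := by omega
    rw [e3] at h1 h2
    rw [hm, e4] at h1
    have e5 : ((2 * (m : ℤ) + c) % 2) = 0 := by omega
    push_cast at h1 h2 ⊢
    rw [e5]
    nlinarith
  · have e3 : (2 * m + c) % 2 = 1 := by omega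
    have e4 : (m + c) % 2 = 0 := by omega
    rw [e3] at h1 h2
    rw [hm, e4] at h1
    have e5 : ((2 * (m : ℤ) + c) % 2) = 1 := by omega
    push_cast at h1 h2 ⊢
    rw [e5]
    nlinarith

end TCM
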