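import Mathlib

set_option autoImplicit false

/-!
Equitable decomposition of bipartite multigraphs (matrices of natural numbers).
-/

namespace TCM

open Finset

/-- A square matrix of natural numbers with all row and column sums equal to `b + 1` has a
permutation in its support. -/
theorem exists_perm_of_regular {X Y : Type} [Fintype X] [Fintype Y] [DecidableEq X] [DecidableEq Y]
    (M : X → Y → ℕ) (b : ℕ)
    (hr : ∀ x, ∑ y, M x y = b + 1) (hc : ∀ y, ∑ x, M x y = b + 1) :
    ∃ f : X → Y, Function.Bijective f ∧ ∀ x, 0 < M x (f x) := by
  classical
  let t : X → Finset Y := fun x => Finset.univ.filter (fun y => 0 < M x y)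
  have hall : ∀ s : Finset X, s.card ≤ (s.biUnion t).card := by
    intro s
    have h1 : ∑ x ∈ s, ∑ y, M x y = s.card * (b + 1) := by
      rw [Finset.sum_congr rfl (fun x _ => hr x)]
      simp
    have h2 : ∑ x ∈ s, ∑ y, M x y = ∑ x ∈ s, ∑ y ∈ s.biUnion t, M x y := by
      apply Finset.sum_congr rfl
      intro x hx
      symm
      apply Finset.sum_subset (Finset.subset_univ _)
      intro y _ hy
      by_contra hne
      apply hy
      rw [Finset.mem_biUnion]
      exact ⟨x, hx, by simp [t]; omega⟩
    have h3 : ∑ x ∈ s, ∑ y ∈ s.biUnion t, M x y ≤ (s.biUnion t).card * (b + 1) := by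
      rw [Finset.sum_comm]
      calc ∑ y ∈ s.biUnion t, ∑ x ∈ s, M x y ≤ ∑ y ∈ s.biUnion t, (b + 1) := by
            apply Finset.sum_le_sum
            intro y _
            rw [← hc y]
            exact Finset.sum_le_sum_of_subset (Finset.subset_univ _)
        _ = (s.biUnion t).card * (b + 1) := by simp
    have h4 : s.card * (b + 1) ≤ (s.biUnion t).card * (b + 1) := by omega
    exact Nat.le_of_mul_le_mul_right h4 (Nat.succ_pos b)
  obtain ⟨f, hf, hft⟩ := (Finset.all_card_le_biUnion_card_iff_exists_injective t).1 hall
  have hcard : Fintype.card X = Fintype.card Y := by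
    have e1 : ∑ x, ∑ y, M x y = Fintype.card X * (b + 1) := by
      rw [Finset.sum_congr rfl (fun x _ => hr x)]; simp
    have e2 : ∑ x, ∑ y, M x y = Fintype.card Y * (b + 1) := by
      rw [Finset.sum_comm, Finset.sum_congr rfl (fun y _ => hc y)]; simp
    exact Nat.eq_of_mul_eq_mul_right (Nat.succ_pos b) (e1.symm.trans e2)
  refine ⟨f, (Fintype.bijective_iff_injective_and_card f).2 ⟨hf, hcard⟩, fun x => ?_⟩
  have := hft x
  simpa [t] using this

/-- König's theorem in edge form. -/
theorem koenig {E L R : Type} [Fintype E] [Fintype L] [Fintype R]
    [DecidableEq E] [DecidableEq L] [DecidableEq R] (l : E → L) (r : E → R) :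
    ∀ (b : ℕ) (s : Finset E), (∀ v, (s.filter (fun e => l e = v)).card ≤ b) →
      (∀ v, (s.filter (fun e => r e = v)).card ≤ b) →
      ∃ χ : E → ℕ, (∀ e ∈ s, χ e < b) ∧
        ∀ e ∈ s, ∀ e' ∈ s, e ≠ e' → (l e = l e' ∨ r e = r e') → χ e ≠ χ e' := by
  classical
  intro b
  induction b with
  | zero =>
    intro s hl hr
    have hs : s = ∅ := by
      by_contra hne
      obtain ⟨e, he⟩ := Finset.nonempty_iff_ne_empty.2 hne
      have := hl (l e)
      have h2 : e ∈ s.filter (fun e' => l e' = l e) := by simp [he]
      have := Finset.card_pos.2 ⟨e, h2⟩
      omega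
    subst hs
    exact ⟨fun _ => 0, by simp, by simp⟩
  | succ b ih =>
    intro s hl hr
    rcases isEmpty_or_nonempty E with hE | hE
    · exact ⟨fun _ => 0, fun e => (hE.false e).elim, fun e => (hE.false e).elim⟩
    -- regularised matrix
    let m : L → R → ℕ := fun v w => (s.filter (fun e => l e = v ∧ r e = w)).card
    have hrow : ∀ v, ∑ w, m v w = (s.filter (fun e => l e = v)).card := by
      intro v
      have : s.filter (fun e => l e = v) =
          (Finset.univ : Finset R).biUnion (fun w => s.filter (fun e => l e = v ∧ r e = w)) := by
        ext e
        simp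
      rw [this, Finset.card_biUnion]
      intro w _ w' _ hww
      rw [Function.onFun, Finset.disjoint_left]
      intro e he he'
      simp only [Finset.mem_filter] at he he'
      exact hww (he.2.2.symm.trans he'.2.2)
    have hcol : ∀ w, ∑ v, m v w = (s.filter (fun e => r e = w)).card := by
      intro w
      have : s.filter (fun e => r e = w) =
          (Finset.univ : Finset L).biUnion (fun v => s.filter (fun e => l e = v ∧ r e = w)) := by
        ext e
        simp
      rw [this, Finset.card_biUnion]
      intro w _ w' _ hww
      rw [Function.onFun, Finset.disjoint_left]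
      intro e he he'
      simp only [Finset.mem_filter] at he he'
      exact hww (he.2.1.symm.trans he'.2.1)
    let M : (L ⊕ R) → (R ⊕ L) → ℕ := fun x y =>
      match x, y with
      | Sum.inl v, Sum.inl w => m v w
      | Sum.inl v, Sum.inr v' => if v = v' then (b + 1) - ∑ w, m v w else 0
      | Sum.inr w, Sum.inl w' => if w = w' then (b + 1) - ∑ v, m v w else 0
      | Sum.inr w, Sum.inr v => m v w
    have hMr : ∀ x, ∑ y, M x y = b + 1 := by
      rintro (v | w)
      · rw [Fintype.sum_sum_type]
        simp only [M]
        rw [Finset.sum_ite_eq]
        simp only [Finset.mem_univ, if_true]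
        have := hl v
        rw [← hrow] at this
        omega
      · rw [Fintype.sum_sum_type]
        simp only [M]
        rw [Finset.sum_ite_eq]
        simp only [Finset.mem_univ, if_true]
        have := hr w
        rw [← hcol] at this
        omega
    have hMc : ∀ y, ∑ x, M x y = b + 1 := by
      rintro (w | v)
      · rw [Fintype.sum_sum_type]
        simp only [M]
        rw [Finset.sum_ite_eq']
        simp only [Finset.mem_univ, if_true]
        have := hr w
        rw [← hcol] at this
        omega
      · rw [Fintype.sum_sum_type]
        simp only [M]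
        rw [Finset.sum_ite_eq']
        simp only [Finset.mem_univ, if_true]
        have := hl v
        rw [← hrow] at this
        omega
    obtain ⟨f, hf, hfM⟩ := exists_perm_of_regular M b hMr hMc
    -- choose edges
    have hex : ∀ v w, f (Sum.inl v) = Sum.inl w → ∃ e, e ∈ s ∧ l e = v ∧ r e = w := by
      intro v w hvw
      have := hfM (Sum.inl v)
      rw [hvw] at this
      have h2 : 0 < m v w := this
      obtain ⟨e, he⟩ := Finset.card_pos.1 h2
      simp only [Finset.mem_filter] at he
      exact ⟨e, he.1, he.2.1, he.2.2⟩
    choose! g hg using hex
    let F : Finset E := s.filter (fun e => f (Sum.inl (l e)) = Sum.inl (r e) ∧ g (l e) (r e) = e)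
    have hFl : ∀ e ∈ F, ∀ e' ∈ F, l e = l e' → e = e' := by
      intro e he e' he' hll
      simp only [F, Finset.mem_filter] at he he'
      have h1 : (Sum.inl (r e) : R ⊕ L) = Sum.inl (r e') := by
        rw [← he.2.1, ← he'.2.1, hll]
      have h2 : r e = r e' := Sum.inl_injective h1
      rw [← he.2.2, ← he'.2.2, hll, h2]
    have hFr : ∀ e ∈ F, ∀ e' ∈ F, r e = r e' → e = e' := by
      intro e he e' he' hrr
      have he2 := he
      have he2' := he'
      simp only [F, Finset.mem_filter] at he he'
      have h1 : f (Sum.inl (l e)) = f (Sum.inl (l e')) := by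
        rw [he.2.1, he'.2.1, hrr]
      have h2 : l e = l e' := Sum.inl_injective (hf.1 h1)
      exact hFl e he2 e' he2' h2
    have hl' : ∀ v, ((s \ F).filter (fun e => l e = v)).card ≤ b := by
      intro v
      have hlv := hl v
      by_cases hfull : (s.filter (fun e => l e = v)).card = b + 1
      · -- v is covered
        have : ∃ w, f (Sum.inl v) = Sum.inl w := by
          rcases hfv : f (Sum.inl v) with w | v'
          · exact ⟨w, rfl⟩
          · exfalso
            have h3 := hfM (Sum.inl v)
            rw [hfv] at h3
            simp only [M] at h3
            rw [hrow, hfull] at h3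
            split_ifs at h3 <;> omega
        obtain ⟨w, hw⟩ := this
        obtain ⟨h1, h2, h3⟩ := hg v w hw
        have hmem : g v w ∈ s.filter (fun e => l e = v) := by simp [h1, h2]
        have hsub : (s \ F).filter (fun e => l e = v) ⊆
            (s.filter (fun e => l e = v)).erase (g v w) := by
          intro e he
          simp only [Finset.mem_filter, Finset.mem_sdiff] at he
          simp only [Finset.mem_erase, Finset.mem_filter]
          refine ⟨?_, he.1.1, he.2⟩
          intro hee
          apply he.1.2
          simp only [F, Finset.mem_filter]
          refine ⟨he.1.1, ?_, ?_⟩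
          · rw [hee, h2, h3, hw]
          · rw [hee, h2, h3]
        have := Finset.card_le_card hsub
        rw [Finset.card_erase_of_mem hmem] at this
        omega
      · have : ((s \ F).filter (fun e => l e = v)).card ≤ (s.filter (fun e => l e = v)).card :=
          Finset.card_le_card (Finset.filter_subset_filter _ Finset.sdiff_subset)
        omega
    have hr' : ∀ v, ((s \ F).filter (fun e => r e = v)).card ≤ b := by
      intro w
      have hlv := hr w
      by_cases hfull : (s.filter (fun e => r e = w)).card = b + 1
      · have : ∃ v, f (Sum.inl v) = Sum.inl w := by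
          obtain ⟨x, hx⟩ := hf.2 (Sum.inl w)
          rcases x with v | w'
          · exact ⟨v, hx⟩
          · exfalso
            have h3 := hfM (Sum.inr w')
            rw [hx] at h3
            simp only [M] at h3
            split_ifs at h3 with h4
            · subst h4
              rw [hcol, hfull] at h3
              omega
            · omega
        obtain ⟨v, hw⟩ := this
        obtain ⟨h1, h2, h3⟩ := hg v w hw
        have hmem : g v w ∈ s.filter (fun e => r e = w) := by simp [h1, h3]
        have hsub : (s \ F).filter (fun e => r e = w) ⊆
            (s.filter (fun e => r e = w)).erase (g v w) := by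
          intro e he
          simp only [Finset.mem_filter, Finset.mem_sdiff] at he
          simp only [Finset.mem_erase, Finset.mem_filter]
          refine ⟨?_, he.1.1, he.2⟩
          intro hee
          apply he.1.2
          simp only [F, Finset.mem_filter]
          refine ⟨he.1.1, ?_, ?_⟩
          · rw [hee, h2, h3, hw]
          · rw [hee, h2, h3]
        have := Finset.card_le_card hsub
        rw [Finset.card_erase_of_mem hmem] at this
        omega
      · have : ((s \ F).filter (fun e => r e = w)).card ≤ (s.filter (fun e => r e = w)).card :=
          Finset.card_le_card (Finset.filter_subset_filter _ Finset.sdiff_subset)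
        omega
    obtain ⟨χ, hχ1, hχ2⟩ := ih (s \ F) hl' hr'
    refine ⟨fun e => if e ∈ F then b else χ e, ?_, ?_⟩
    · intro e he
      dsimp only
      split_ifs with h1
      · omega
      · have := hχ1 e (by simp [he, h1])
        omega
    · intro e he e' he' hne hor
      dsimp only
      split_ifs with h1 h2 h2
      · exfalso
        rcases hor with h | h
        · exact hne (hFl e h1 e' h2 h)
        · exact hne (hFr e h1 e' h2 h)
      · have := hχ1 e' (by simp [he', h2])
        omega
      · have := hχ1 e (by simp [he, h1])
        omega
      · exact hχ2 e (by simp [he, h1]) e' (by simp [he', h2]) hne hor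

end TCM
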