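import Pool.Agent.Lib.MP_c70440_co.Basic

set_option autoImplicit false

/-!
Lower bounds: the complete multipartite graphs in the exceptional classes of the
Hoffman-Rodger conjecture have no total colouring with maximum degree plus one colours.
-/

namespace TCM

section

variable {U V C : Type} {π : U → V}

/-- `v` sees the colour `c`. -/
def Sees (h : TCol π C) (v : U) (c : C) : Prop :=
  h.cv v = c ∨ ∃ w, π v ≠ π w ∧ h.ce v w = c

theorem card_seen [Fintype U] [DecidableEq U] [DecidableEq V] [Fintype C] [DecidableEq C]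
    (h : TCol π C) (v : U) [DecidablePred (Sees h v)] :
    (Finset.univ.filter (fun w : U => π v ≠ π w)).card + 1 ≤
      (Finset.univ.filter (fun c : C => Sees h v c)).card := by
  classical
  have h1 : ((Finset.univ.filter (fun w : U => π v ≠ π w)).image (fun w => h.ce v w)).card
      = (Finset.univ.filter (fun w : U => π v ≠ π w)).card := by
    apply Finset.card_image_of_injOn
    intro x hx y hy hxy
    simp only [Finset.coe_filter, Finset.mem_univ, true_and, Set.mem_setOf_eq] at hx hy
    by_contra hne
    exact h.ee v x y hx hy hne hxy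
  have h2 : h.cv v ∉ (Finset.univ.filter (fun w : U => π v ≠ π w)).image
      (fun w => h.ce v w) := by
    intro hmem
    simp only [Finset.mem_image, Finset.mem_filter, Finset.mem_univ, true_and] at hmem
    obtain ⟨w, hw, he⟩ := hmem
    exact h.ve v w hw he.symm
  rw [← h1, ← Finset.card_insert_of_notMem h2]
  apply Finset.card_le_card
  intro c hc
  simp only [Finset.mem_insert, Finset.mem_image, Finset.mem_filter, Finset.mem_univ,
    true_and] at hc ⊢
  rcases hc with hc | ⟨w, hw, hc⟩
  · exact Or.inl hc.symm
  · exact Or.inr ⟨w, hw, hc⟩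

/-- The set of vertices covered by edges of colour `c` is even. -/
theorem even_covered [Fintype U] [DecidableEq U]
    (h : TCol π C) (c : C) [DecidablePred (fun v : U => ∃ w, π v ≠ π w ∧ h.ce v w = c)] :
    Even (Finset.univ.filter (fun v : U => ∃ w, π v ≠ π w ∧ h.ce v w = c)).card := by
  classical
  rw [← ZMod.natCast_eq_zero_iff_even]
  have key : (∑ _x ∈ Finset.univ.filter (fun v : U => ∃ w, π v ≠ π w ∧ h.ce v w = c),
      (1 : ZMod 2)) = 0 := by
    refine Finset.sum_involution
      (fun v hv => Classical.choose (Finset.mem_filter.1 hv).2) ?_ ?_ ?_ ?_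
    · intro a ha
      decide
    · intro a ha _
      have := (Classical.choose_spec (Finset.mem_filter.1 ha).2).1
      intro he
      rw [he] at this
      exact this rfl
    · intro a ha
      have hs := Classical.choose_spec (Finset.mem_filter.1 ha).2
      simp only [Finset.mem_filter, Finset.mem_univ, true_and]
      exact ⟨a, hs.1.symm, (h.symm _ _ hs.1).symm.trans hs.2⟩
    · intro a ha
      have hs := Classical.choose_spec (Finset.mem_filter.1 ha).2
      set w := Classical.choose (Finset.mem_filter.1 ha).2 with hw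
      have hmem : w ∈ Finset.univ.filter (fun v : U => ∃ w, π v ≠ π w ∧ h.ce v w = c) := by
        simp only [Finset.mem_filter, Finset.mem_univ, true_and]
        exact ⟨a, hs.1.symm, (h.symm _ _ hs.1).symm.trans hs.2⟩
      have hs2 := Classical.choose_spec (Finset.mem_filter.1 hmem).2
      by_contra hne
      refine h.ee w _ a hs2.1 hs.1.symm hne ?_
      rw [hs2.2, ← h.symm _ _ hs.1, hs.2]
  simpa using key

end

theorem card_nbrs {p : ℕ} (a : Fin p → ℕ) (v : Σ i, Fin (a i)) :
    (Finset.univ.filter (fun w : (Σ i, Fin (a i)) => v.1 ≠ w.1)).card + a v.1 = ∑ i, a i := by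
  classical
  have h1 : Fintype.card (Σ i, Fin (a i)) = ∑ i, a i := by simp
  have h2 : (Finset.univ.filter (fun w : (Σ i, Fin (a i)) => ¬ v.1 ≠ w.1)).card = a v.1 := by
    have : (Finset.univ.filter (fun w : (Σ i, Fin (a i)) => ¬ v.1 ≠ w.1)) =
        Finset.univ.map ⟨fun x : Fin (a v.1) => (⟨v.1, x⟩ : Σ i, Fin (a i)), by
          intro x y hxy
          simpa using hxy⟩ := by
      ext ⟨i, x⟩
      simp only [ne_eq, not_not, Finset.mem_filter, Finset.mem_univ, true_and,
        Finset.mem_map, Function.Embedding.coeFn_mk]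
      constructor
      · rintro rfl
        exact ⟨x, rfl⟩
      · rintro ⟨y, hy⟩
        exact congrArg Sigma.fst hy
    rw [this]
    simp
  have h3 := Finset.card_filter_add_card_filter_not (s := (Finset.univ : Finset (Σ i, Fin (a i))))
    (fun w => v.1 ≠ w.1)
  rw [h2] at h3
  rw [h3, ← h1]
  rfl

theorem lower_even {p : ℕ} (a : Fin p → ℕ) (hpos : ∀ i, 0 < a i) (m : ℕ)
    (hm : ∃ i, a i = m) (hmin : ∀ i, m ≤ a i)
    (heven : Even (∑ i, a i))
    (hdef : ∑ i, a i * (a i - m) < (Finset.univ.filter (fun i => Odd (a i))).card) :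
    ¬ Col a ((∑ i, a i) - m + 1) := by
  classical
  rintro ⟨h⟩
  set n := ∑ i, a i with hn
  obtain ⟨i₀, hi₀⟩ := hm
  have hmn : m ≤ n := by
    rw [← hi₀, hn]
    exact Finset.single_le_sum (f := a) (fun _ _ => Nat.zero_le _) (Finset.mem_univ i₀)
  -- number of missing colours at a vertex
  have hmiss : ∀ v : (Σ i, Fin (a i)),
      (Finset.univ.filter (fun c : Fin (n - m + 1) => ¬ Sees h v c)).card ≤ a v.1 - m := by
    intro v
    have h1 := card_seen h v
    have h2 := card_nbrs a v
    have h3 := Finset.card_filter_add_card_filter_not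
      (s := (Finset.univ : Finset (Fin (n - m + 1)))) (fun c => Sees h v c)
    rw [Finset.card_univ, Fintype.card_fin] at h3
    have h4 := hmin v.1
    omega
  set M : Finset ((Σ i, Fin (a i)) × Fin (n - m + 1)) :=
    Finset.univ.filter (fun vc => ¬ Sees h vc.1 vc.2) with hM
  have hMcard : M.card ≤ ∑ i, a i * (a i - m) := by
    have h1 : M.card = ∑ v : (Σ i, Fin (a i)),
        (Finset.univ.filter (fun c : Fin (n - m + 1) => ¬ Sees h v c)).card := by
      rw [hM, Finset.card_filter, Fintype.sum_prod_type]
      apply Finset.sum_congr rfl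
      intro v _
      rw [Finset.card_filter]
    rw [h1]
    calc ∑ v : (Σ i, Fin (a i)),
          (Finset.univ.filter (fun c : Fin (n - m + 1) => ¬ Sees h v c)).card
        ≤ ∑ v : (Σ i, Fin (a i)), (a v.1 - m) := Finset.sum_le_sum (fun v _ => hmiss v)
      _ = ∑ i, a i * (a i - m) := by
        rw [Fintype.sum_sigma]
        apply Finset.sum_congr rfl
        intro i _
        simp
  -- each odd part gives a missing pair
  have hodd : ∀ k : Fin p, Odd (a k) → ∃ vc : (Σ i, Fin (a i)) × Fin (n - m + 1),
      vc ∈ M ∧ ∃ u : (Σ i, Fin (a i)), u.1 = k ∧ h.cv u = vc.2 := by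
    intro k hk
    -- a colour used an odd number of times on part k
    have h1 : ∃ c : Fin (n - m + 1),
        Odd (Finset.univ.filter (fun u : (Σ i, Fin (a i)) => u.1 = k ∧ h.cv u = c)).card := by
      by_contra hcon
      push Not at hcon
      have h2 : ∑ c : Fin (n - m + 1),
          (Finset.univ.filter (fun u : (Σ i, Fin (a i)) => u.1 = k ∧ h.cv u = c)).card
          = (Finset.univ.filter (fun u : (Σ i, Fin (a i)) => u.1 = k)).card := by
        rw [Finset.card_eq_sum_card_fiberwise
          (s := Finset.univ.filter (fun u : (Σ i, Fin (a i)) => u.1 = k))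
          (t := Finset.univ) (f := fun u => h.cv u) (fun _ _ => Finset.mem_univ _)]
        apply Finset.sum_congr rfl
        intro c _
        rw [Finset.filter_filter]
      have h3 : (Finset.univ.filter (fun u : (Σ i, Fin (a i)) => u.1 = k)).card = a k := by
        have h4 := card_nbrs a ⟨k, ⟨0, hpos k⟩⟩
        have h5 := Finset.card_filter_add_card_filter_not
          (s := (Finset.univ : Finset (Σ i, Fin (a i)))) (fun w => k ≠ w.1)
        have h6 : Fintype.card (Σ i, Fin (a i)) = ∑ i, a i := by simp
        rw [Finset.card_univ, h6] at h5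
        have h7 : (Finset.univ.filter (fun w : (Σ i, Fin (a i)) => ¬ k ≠ w.1))
            = (Finset.univ.filter (fun u : (Σ i, Fin (a i)) => u.1 = k)) := by
          ext u
          simp [eq_comm]
        rw [h7] at h5
        dsimp only at h4
        omega
      have h4 : Even (∑ c : Fin (n - m + 1),
          (Finset.univ.filter (fun u : (Σ i, Fin (a i)) => u.1 = k ∧ h.cv u = c)).card) := by
        apply Finset.even_sum
        intro c _
        rw [← Nat.not_odd_iff_even]
        exact hcon c
      rw [h2, h3] at h4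
      exact (Nat.not_odd_iff_even.2 h4) hk
    obtain ⟨c, hc⟩ := h1
    have hne : (Finset.univ.filter
        (fun u : (Σ i, Fin (a i)) => u.1 = k ∧ h.cv u = c)).Nonempty := by
      rw [← Finset.card_pos]
      exact hc.pos
    obtain ⟨u, hu⟩ := hne
    simp only [Finset.mem_filter, Finset.mem_univ, true_and] at hu
    -- all vertices coloured c are in part k
    have hall : (Finset.univ.filter (fun w : (Σ i, Fin (a i)) => h.cv w = c)) =
        (Finset.univ.filter (fun u : (Σ i, Fin (a i)) => u.1 = k ∧ h.cv u = c)) := by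
      ext w
      simp only [Finset.mem_filter, Finset.mem_univ, true_and]
      refine ⟨fun hw => ⟨?_, hw⟩, fun hw => hw.2⟩
      by_contra hwk
      exact h.vv w u (by rw [hu.1]; exact hwk) (by rw [hw, hu.2])
    have hev := even_covered h c
    have hdisj : Disjoint (Finset.univ.filter (fun w : (Σ i, Fin (a i)) => h.cv w = c))
        (Finset.univ.filter
          (fun v : (Σ i, Fin (a i)) => ∃ w, v.1 ≠ w.1 ∧ h.ce v w = c)) := by
      rw [Finset.disjoint_left]
      intro v hv hv2
      simp only [Finset.mem_filter, Finset.mem_univ, true_and] at hv hv2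
      obtain ⟨w, hw, he⟩ := hv2
      exact h.ve v w hw (by rw [hv, he])
    have hsees : (Finset.univ.filter (fun v : (Σ i, Fin (a i)) => Sees h v c)) =
        (Finset.univ.filter (fun w : (Σ i, Fin (a i)) => h.cv w = c)) ∪
        (Finset.univ.filter
          (fun v : (Σ i, Fin (a i)) => ∃ w, v.1 ≠ w.1 ∧ h.ce v w = c)) := by
      ext v
      simp only [Finset.mem_filter, Finset.mem_univ, true_and, Finset.mem_union]
      rfl
    have hcard : Odd (Finset.univ.filter (fun v : (Σ i, Fin (a i)) => Sees h v c)).card := by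
      rw [hsees, Finset.card_union_of_disjoint hdisj, hall]
      exact hc.add_even hev
    have hex : ∃ v : (Σ i, Fin (a i)), ¬ Sees h v c := by
      by_contra hcon
      push Not at hcon
      have h1 : (Finset.univ.filter (fun v : (Σ i, Fin (a i)) => Sees h v c)) =
          Finset.univ := by
        rw [Finset.filter_eq_self]
        intro v _
        exact hcon v
      rw [h1, Finset.card_univ] at hcard
      have h6 : Fintype.card (Σ i, Fin (a i)) = n := by simp [hn]
      rw [h6] at hcard
      exact (Nat.not_odd_iff_even.2 heven) hcard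
    obtain ⟨v, hv⟩ := hex
    refine ⟨(v, c), ?_, u, hu.1, hu.2⟩
    rw [hM]
    simp only [Finset.mem_filter, Finset.mem_univ, true_and]
    exact hv
  haveI : Nonempty ((Σ i, Fin (a i)) × Fin (n - m + 1)) :=
    ⟨(⟨i₀, ⟨0, hpos i₀⟩⟩, ⟨0, Nat.succ_pos _⟩)⟩
  choose! F hF using hodd
  have hle : (Finset.univ.filter (fun i => Odd (a i))).card ≤ M.card := by
    refine Finset.card_le_card_of_injOn F ?_ ?_
    · intro k hk
      simp only [Finset.coe_filter, Finset.mem_univ, true_and, Set.mem_setOf_eq] at hk
      exact (hF k hk).1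
    · intro k hk k' hk' heq
      simp only [Finset.coe_filter, Finset.mem_univ, true_and, Set.mem_setOf_eq] at hk hk'
      obtain ⟨_, u, hu1, hu2⟩ := hF k hk
      obtain ⟨_, u', hu1', hu2'⟩ := hF k' hk'
      by_contra hne
      refine h.vv u u' (by rw [hu1, hu1']; exact hne) ?_
      rw [hu2, hu2', heq]
  omega

theorem lower_two (a : Fin 2 → ℕ) (m : ℕ) (hpos : 0 < m) (hm : ∀ i, a i = m) :
    ¬ Col a (m + 1) := by
  classical
  rintro ⟨h⟩
  have hsum : ∑ i, a i = m + m := by simp [hm]; omega
  have hsee : ∀ (v : Σ i, Fin (a i)) (c : Fin (m + 1)), Sees h v c := by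
    intro v
    have h1 := card_seen h v
    have h2 := card_nbrs a v
    rw [hsum, hm] at h2
    have h3 : Finset.univ.filter (fun c : Fin (m + 1) => Sees h v c) = Finset.univ := by
      apply Finset.eq_univ_of_card
      rw [Fintype.card_fin]
      have h4 := Finset.card_le_univ (Finset.univ.filter (fun c : Fin (m + 1) => Sees h v c))
      rw [Fintype.card_fin] at h4
      omega
    intro c
    have := Finset.mem_univ c
    rw [← h3] at this
    exact (Finset.mem_filter.1 this).2
  let u₀ : Σ i, Fin (a i) := ⟨0, ⟨0, by rw [hm]; exact hpos⟩⟩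
  have hmatch : ∀ x : Fin (a 1), ∃ y : Fin (a 0),
      h.ce ⟨0, y⟩ ⟨1, x⟩ = h.cv u₀ ∧ y ≠ ⟨0, by rw [hm]; exact hpos⟩ := by
    intro x
    rcases hsee ⟨1, x⟩ (h.cv u₀) with hc | ⟨w, hw, hc⟩
    · exfalso
      exact h.vv ⟨1, x⟩ u₀ (by simp [u₀]) hc
    · obtain ⟨j, y⟩ := w
      have hj : j = 0 := by
        have : (1 : Fin 2) ≠ j := hw
        omega
      subst hj
      refine ⟨y, ?_, ?_⟩
      · rw [← h.symm ⟨1, x⟩ ⟨0, y⟩ hw]
        exact hc
      · rintro rfl
        refine h.ve u₀ ⟨1, x⟩ (by simp [u₀]) ?_
        rw [← hc, h.symm ⟨1, x⟩ _ hw]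
  choose g hg1 hg2 using hmatch
  have hinj : Function.Injective g := by
    intro x x' hxx
    by_contra hne
    refine h.ee ⟨0, g x⟩ ⟨1, x⟩ ⟨1, x'⟩ (by simp) (by simp) ?_ ?_
    · intro he
      apply hne
      simpa using he
    · rw [hg1]
      rw [hxx, hg1]
  have hle : (Finset.univ.image g).card ≤ (Finset.univ.erase
      (⟨0, by rw [hm]; exact hpos⟩ : Fin (a 0))).card := by
    apply Finset.card_le_card
    intro y hy
    rw [Finset.mem_image] at hy
    obtain ⟨x, _, rfl⟩ := hy
    rw [Finset.mem_erase]
    exact ⟨hg2 x, Finset.mem_univ _⟩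
  rw [Finset.card_image_of_injective _ hinj, Finset.card_erase_of_mem (Finset.mem_univ _),
    Finset.card_univ, Finset.card_univ, Fintype.card_fin, Fintype.card_fin, hm, hm] at hle
  omega

end TCM
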