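import Pool.Agent.Lib.MP_c70440_co.Basic

set_option autoImplicit false

/-!
Explicit total colourings of complete multipartite graphs of even order all of whose parts have
size two or three (at least one part of size two), from the standard one-factorisation of the
complete graph.
-/

namespace TCM

/-- Reduction modulo `M` of numbers below `2 M`. -/
def red (M t : ℕ) : ℕ := if t < M then t else if t < 2 * M then t - M else 0

/-- Colour of the pair `x, y` in the standard one-factorisation of the complete graph on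
`0, ..., M`, where `M` is odd and plays the role of the point at infinity. -/
def pc (M x y : ℕ) : ℕ := red M (if x = M then 2 * y else if y = M then 2 * x else x + y)

theorem red_lt {M : ℕ} (hM : 0 < M) (t : ℕ) : red M t < M := by
  unfold red
  split_ifs <;> omega

theorem pc_symm (M x y : ℕ) : pc M x y = pc M y x := by
  unfold pc
  congr 1
  split_ifs <;> omega

theorem pc_ne {M x y z : ℕ} (hM : Odd M) (hx : x ≤ M) (hy : y ≤ M) (hz : z ≤ M)
    (hxy : x ≠ y) (hxz : x ≠ z) (hyz : y ≠ z) : pc M x y ≠ pc M x z := by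
  obtain ⟨k, rfl⟩ := hM
  unfold pc red
  split_ifs <;> omega

theorem pc_lt {M : ℕ} (hM : 0 < M) (x y : ℕ) : pc M x y < M := red_lt hM _

theorem hasTC_of_pos {U V : Type} {π : U → V} {M : ℕ} (hM : Odd M) (pos pp : U → ℕ)
    (h1 : ∀ u, pos u ≤ M) (h2 : Function.Injective pos) (h3 : ∀ u, pp u ≤ M)
    (h4 : ∀ u, pp u ≠ pos u) (h5 : ∀ u v, π u ≠ π v → pp u ≠ pos v)
    (h6 : ∀ u v, π u ≠ π v → pc M (pos u) (pp u) ≠ pc M (pos v) (pp v)) :
    HasTC π (Fin M) := by
  have hM0 : 0 < M := hM.pos
  have hne : ∀ u v, π u ≠ π v → pos u ≠ pos v := fun u v huv e => huv (by rw [h2 e])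
  refine ⟨⟨fun u => ⟨pc M (pos u) (pp u), pc_lt hM0 _ _⟩,
    fun u v => ⟨pc M (pos u) (pos v), pc_lt hM0 _ _⟩, ?_, ?_, ?_, ?_⟩⟩
  · intro u v _
    exact Fin.ext (pc_symm _ _ _)
  · intro u v huv e
    exact h6 u v huv (congrArg Fin.val e)
  · intro u v huv e
    exact pc_ne hM (h1 u) (h3 u) (h1 v) (h4 u).symm (hne u v huv) (h5 u v huv)
      (congrArg Fin.val e)
  · intro u v w huv huw hvw e
    exact pc_ne hM (h1 u) (h1 v) (h1 w) (hne u v huv) (hne u w huw) (fun e => hvw (h2 e))
      (congrArg Fin.val e)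

/-- Parts laid out as consecutive intervals. -/
theorem interval_col {V : Type} (a o : V → ℕ) (M B : ℕ) (l : V)
    (h23 : ∀ i, a i = 2 ∨ a i = 3)
    (hdisj : ∀ i j, i ≠ j → o i + a i ≤ o j ∨ o j + a j ≤ o i)
    (hl : o l + a l = M + 1)
    (hlast : ∀ i, i ≠ l → o i + a i ≤ o l)
    (hB : ∀ i, i ≠ l → o i + a i ≤ B ∨ B ≤ o i) (hBl : B ≤ o l)
    (hMB : (M = 2 * B + 1 ∧ a l = 2) ∨ (M = 2 * B + 3 ∧ a l = 3)) (hB0 : 0 < B) :
    Col a M := by
  classical
  have hM : Odd M := by
    rcases hMB with h | h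
    · exact ⟨B, h.1⟩
    · exact ⟨B + 1, by omega⟩
  let pos : (Σ i, Fin (a i)) → ℕ := fun u => o u.1 + u.2.val
  let pp : (Σ i, Fin (a i)) → ℕ := fun u =>
    if u.2.val = 0 then o u.1 + 1 else if u.2.val = 1 then o u.1 else
      if u.1 = l then o u.1 else o u.1 + 1
  -- the pair index of the colour of a vertex
  have key : ∀ u : (Σ i, Fin (a i)), ∃ z, pc M (pos u) (pp u) = red M (2 * z + 1) ∧
      z + 2 ≤ M + 1 ∧ ((o u.1 ≤ z ∧ z + 2 ≤ o u.1 + a u.1 ∧ z + 2 ≤ M) ∨ (u.1 = l ∧ z + 1 = B)) := by
    rintro ⟨i, x⟩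
    have hx := x.2
    by_cases hi : i = l
    · subst hi
      rcases hMB with ⟨hMB, hai⟩ | ⟨hMB, hai⟩
      · refine ⟨B - 1, ?_, by omega, Or.inr ⟨rfl, by omega⟩⟩
        have hx' : x.val = 0 ∨ x.val = 1 := by omega
        rcases hx' with hx' | hx'
        · have e1 : pos ⟨i, x⟩ = o i := by simp [pos, hx']
          have e2 : pp ⟨i, x⟩ = o i + 1 := by simp [pp, hx']
          rw [e1, e2]
          unfold pc red
          split_ifs <;> omega
        · have e1 : pos ⟨i, x⟩ = o i + 1 := by simp [pos, hx']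
          have e2 : pp ⟨i, x⟩ = o i := by simp [pp, hx']
          rw [e1, e2]
          unfold pc red
          split_ifs <;> omega
      · have hx' : x.val = 0 ∨ x.val = 1 ∨ x.val = 2 := by omega
        rcases hx' with hx' | hx' | hx'
        · have e1 : pos ⟨i, x⟩ = o i := by simp [pos, hx']
          have e2 : pp ⟨i, x⟩ = o i + 1 := by simp [pp, hx']
          refine ⟨o i, ?_, by omega, Or.inl ⟨le_rfl, by dsimp only; omega, by omega⟩⟩
          rw [e1, e2]
          unfold pc red
          split_ifs <;> omega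
        · have e1 : pos ⟨i, x⟩ = o i + 1 := by simp [pos, hx']
          have e2 : pp ⟨i, x⟩ = o i := by simp [pp, hx']
          refine ⟨o i, ?_, by omega, Or.inl ⟨le_rfl, by dsimp only; omega, by omega⟩⟩
          rw [e1, e2]
          unfold pc red
          split_ifs <;> omega
        · have e1 : pos ⟨i, x⟩ = o i + 2 := by simp [pos, hx']
          have e2 : pp ⟨i, x⟩ = o i := by simp [pp, hx']
          refine ⟨B - 1, ?_, by omega, Or.inr ⟨rfl, by omega⟩⟩
          rw [e1, e2]
          unfold pc red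
          split_ifs <;> omega
    · have h1 := hlast i hi
      have h2 := h23 i
      have h3 := h23 l
      have hx' : x.val = 0 ∨ x.val = 1 ∨ (x.val = 2 ∧ a i = 3) := by omega
      rcases hx' with hx' | hx' | ⟨hx', hai⟩
      · have e1 : pos ⟨i, x⟩ = o i := by simp [pos, hx']
        have e2 : pp ⟨i, x⟩ = o i + 1 := by simp [pp, hx']
        refine ⟨o i, ?_, by omega, Or.inl ⟨le_rfl, by dsimp only; omega, by omega⟩⟩
        rw [e1, e2]
        unfold pc
        congr 1
        split_ifs <;> omega
      · have e1 : pos ⟨i, x⟩ = o i + 1 := by simp [pos, hx']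
        have e2 : pp ⟨i, x⟩ = o i := by simp [pp, hx']
        refine ⟨o i, ?_, by omega, Or.inl ⟨le_rfl, by dsimp only; omega, by omega⟩⟩
        rw [e1, e2]
        unfold pc
        congr 1
        split_ifs <;> omega
      · have e1 : pos ⟨i, x⟩ = o i + 2 := by simp [pos, hx']
        have e2 : pp ⟨i, x⟩ = o i + 1 := by simp [pp, hx', hi]
        refine ⟨o i + 1, ?_, by omega, Or.inl ⟨by dsimp only; omega, by dsimp only; omega, by omega⟩⟩
        rw [e1, e2]
        unfold pc
        congr 1
        split_ifs <;> omega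
  have hle : ∀ i, o i + a i ≤ M + 1 := by
    intro i
    by_cases hi : i = l
    · rw [hi]; exact hl.le
    · have := hlast i hi
      omega
  have hdis : ∀ u v : (Σ i, Fin (a i)), u.1 ≠ v.1 → ∀ y, o u.1 ≤ y → y < o u.1 + a u.1 →
      y ≠ pos v := by
    rintro ⟨i, x⟩ ⟨j, y⟩ hij z hz1 hz2
    dsimp only at hij hz1 hz2 ⊢
    simp only [pos]
    have := hdisj i j hij
    have hy := y.2
    omega
  have hpp : ∀ u : (Σ i, Fin (a i)), o u.1 ≤ pp u ∧ pp u < o u.1 + a u.1 := by
    rintro ⟨i, x⟩
    have h2 := h23 i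
    have hx := x.2
    simp only [pp]
    split_ifs <;> omega
  refine hasTC_of_pos hM pos pp ?_ ?_ ?_ ?_ ?_ ?_
  · rintro ⟨i, x⟩
    have h2 := hle i
    have hx := x.2
    simp only [pos]
    omega
  · rintro ⟨i, x⟩ ⟨j, y⟩ hxy
    by_cases hij : i = j
    · subst hij
      simp only [pos] at hxy
      have : x = y := Fin.ext (by omega)
      rw [this]
    · exfalso
      have hx := x.2
      exact hdis ⟨i, x⟩ ⟨j, y⟩ hij (pos ⟨i, x⟩) (by simp [pos]) (by simp [pos]) hxy
  · intro u
    have h2 := hle u.1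
    have h3 := hpp u
    omega
  · rintro ⟨i, x⟩
    simp only [pos, pp]
    split_ifs <;> omega
  · intro u v huv
    exact hdis u v huv _ (hpp u).1 (hpp u).2
  · intro u v huv
    obtain ⟨z, hz1, hz2, hz3⟩ := key u
    obtain ⟨w, hw1, hw2, hw3⟩ := key v
    rw [hz1, hw1]
    have hzw : z ≠ w := by
      intro hzw
      subst hzw
      rcases hz3 with hz3 | hz3 <;> rcases hw3 with hw3 | hw3
      · have := hdisj u.1 v.1 huv
        omega
      · have h1 : u.1 ≠ l := by rw [← hw3.1]; exact huv
        have := hB u.1 h1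
        omega
      · have h1 : v.1 ≠ l := by rw [← hz3.1]; exact huv.symm
        have := hB v.1 h1
        omega
      · exact huv (by rw [hz3.1, hw3.1])
    obtain ⟨k, hk⟩ := hM
    have hz4 : z + 2 ≤ M := by
      rcases hz3 with h | h <;> omega
    have hw4 : w + 2 ≤ M := by
      rcases hw3 with h | h <;> omega
    unfold red
    split_ifs <;> omega

/-- All parts of size two, given by an explicit perfect matching. -/
theorem matching_col {q M : ℕ} (hM : M + 1 = 2 * q) (P Q : Fin q → ℕ)
    (hP : ∀ i, P i ≤ M) (hQ : ∀ i, Q i ≤ M) (hPQ : ∀ i j, P i ≠ Q j)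
    (hPP : ∀ i j, i ≠ j → P i ≠ P j) (hQQ : ∀ i j, i ≠ j → Q i ≠ Q j)
    (hc : ∀ i j, i ≠ j → pc M (P i) (Q i) ≠ pc M (P j) (Q j)) :
    Col (fun _ : Fin q => 2) M := by
  have hodd : Odd M := ⟨q - 1, by omega⟩
  refine hasTC_of_pos hodd (fun u => if u.2 = 0 then P u.1 else Q u.1)
    (fun u => if u.2 = 0 then Q u.1 else P u.1) ?_ ?_ ?_ ?_ ?_ ?_
  · rintro ⟨i, x⟩
    dsimp only
    split_ifs
    · exact hP i
    · exact hQ i
  · rintro ⟨i, x⟩ ⟨j, y⟩ hxy
    dsimp only at hxy
    by_cases hij : i = j
    · subst hij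
      have h : x = y := by
        by_contra hne
        split_ifs at hxy with h1 h2 h2
        · exact hne (by rw [h1, h2])
        · exact hPQ _ _ hxy
        · exact hPQ _ _ hxy.symm
        · have hx : x.val < 2 := x.2
          have hy : y.val < 2 := y.2
          have hx0 : x.val ≠ 0 := fun e => h1 (Fin.ext e)
          have hy0 : y.val ≠ 0 := fun e => h2 (Fin.ext e)
          exact hne (Fin.ext (by omega))
      rw [h]
    · exfalso
      split_ifs at hxy
      · exact hPP i j hij hxy
      · exact hPQ _ _ hxy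
      · exact hPQ _ _ hxy.symm
      · exact hQQ i j hij hxy
  · rintro ⟨i, x⟩
    dsimp only
    split_ifs
    · exact hQ i
    · exact hP i
  · rintro ⟨i, x⟩
    dsimp only
    split_ifs
    · exact (hPQ i i).symm
    · exact hPQ i i
  · rintro ⟨i, x⟩ ⟨j, y⟩ hij
    dsimp only at hij ⊢
    split_ifs
    · exact (hPQ _ _).symm
    · exact hQQ i j hij
    · exact hPP i j hij
    · exact hPQ _ _
  · rintro ⟨i, x⟩ ⟨j, y⟩ hij
    dsimp only at hij ⊢
    split_ifs
    · exact hc i j hij
    · rw [pc_symm M (Q j) (P j)]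
      exact hc i j hij
    · rw [pc_symm M (Q i) (P i)]
      exact hc i j hij
    · rw [pc_symm M (Q i) (P i), pc_symm M (Q j) (P j)]
      exact hc i j hij

theorem all_two_four : Col (fun _ : Fin 4 => 2) 7 := by
  refine matching_col (by norm_num) (![0, 1, 2, 4]) (![7, 3, 6, 5]) ?_ ?_ ?_ ?_ ?_ ?_ <;> decide

/-- The matching used when all parts have size two. -/
theorem all_two_data (r : ℕ) (hr : 3 ≤ r) (i : ℕ) (hi : i < 2 * r) :
    ∃ P Q C : ℕ, pc (4 * r - 1) P Q = C ∧
      ((i = 0 ∧ P = 0 ∧ Q = 4 * r - 1 ∧ C = 0) ∨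
      (0 < i ∧ i + 2 ≤ r ∧ P = 2 * i - 1 ∧ Q = 2 * i ∧ C = 4 * i - 1) ∨
      (i + 1 = r ∧ P = 2 * r - 3 ∧ Q = 2 * r - 1 ∧ C = 4 * r - 4) ∨
      (i = r ∧ P = 2 * r - 2 ∧ Q = 2 * r ∧ C = 4 * r - 2) ∨
      (r < i ∧ i + 3 ≤ 2 * r ∧ P = 2 * i - 1 ∧ Q = 2 * i ∧ C = 4 * i - 4 * r) ∨
      (i + 2 = 2 * r ∧ P = 4 * r - 5 ∧ Q = 4 * r - 3 ∧ C = 4 * r - 7) ∨
      (i + 1 = 2 * r ∧ P = 4 * r - 4 ∧ Q = 4 * r - 2 ∧ C = 4 * r - 5)) := by
  by_cases h0 : i = 0
  · refine ⟨0, 4 * r - 1, 0, ?_,
      Or.inl ⟨by omega, by omega, by omega, by omega⟩⟩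
    unfold pc red
    split_ifs <;> omega
  by_cases h1 : i + 2 ≤ r
  · refine ⟨2 * i - 1, 2 * i, 4 * i - 1, ?_,
      Or.inr (Or.inl ⟨by omega, by omega, by omega, by omega, by omega⟩)⟩
    unfold pc red
    split_ifs <;> omega
  by_cases h2 : i + 1 = r
  · refine ⟨2 * r - 3, 2 * r - 1, 4 * r - 4, ?_,
      Or.inr (Or.inr (Or.inl ⟨by omega, by omega, by omega, by omega⟩))⟩
    unfold pc red
    split_ifs <;> omega
  by_cases h3 : i = r
  · refine ⟨2 * r - 2, 2 * r, 4 * r - 2, ?_,
      Or.inr (Or.inr (Or.inr (Or.inl ⟨by omega, by omega, by omega, by omega⟩)))⟩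
    unfold pc red
    split_ifs <;> omega
  by_cases h4 : i + 3 ≤ 2 * r
  · refine ⟨2 * i - 1, 2 * i, 4 * i - 4 * r, ?_,
      Or.inr (Or.inr (Or.inr (Or.inr (Or.inl ⟨by omega, by omega, by omega, by omega, by omega⟩))))⟩
    unfold pc red
    split_ifs <;> omega
  by_cases h5 : i + 2 = 2 * r
  · refine ⟨4 * r - 5, 4 * r - 3, 4 * r - 7, ?_,
      Or.inr (Or.inr (Or.inr (Or.inr (Or.inr (Or.inl ⟨by omega, by omega, by omega, by omega⟩)))))⟩
    unfold pc red
    split_ifs <;> omega
  · refine ⟨4 * r - 4, 4 * r - 2, 4 * r - 5, ?_,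
      Or.inr (Or.inr (Or.inr (Or.inr (Or.inr (Or.inr ⟨by omega, by omega, by omega, by omega⟩)))))⟩
    unfold pc red
    split_ifs <;> omega

theorem all_two (r : ℕ) (hr : 3 ≤ r) : Col (fun _ : Fin (2 * r) => 2) (4 * r - 1) := by
  choose P Q C hC h using fun i : Fin (2 * r) => all_two_data r hr i.val i.2
  refine matching_col (by omega) P Q ?_ ?_ ?_ ?_ ?_ ?_
  · intro i
    have := h i
    omega
  · intro i
    have := h i
    omega
  · intro i j
    have h1 := h i
    have h2 := h j
    rcases h1 with h1 | h1 | h1 | h1 | h1 | h1 | h1 <;>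
      rcases h2 with h2 | h2 | h2 | h2 | h2 | h2 | h2 <;> omega
  · intro i j hij
    have hij' : i.val ≠ j.val := fun e => hij (Fin.ext e)
    have h1 := h i
    have h2 := h j
    rcases h1 with h1 | h1 | h1 | h1 | h1 | h1 | h1 <;>
      rcases h2 with h2 | h2 | h2 | h2 | h2 | h2 | h2 <;> omega
  · intro i j hij
    have hij' : i.val ≠ j.val := fun e => hij (Fin.ext e)
    have h1 := h i
    have h2 := h j
    rcases h1 with h1 | h1 | h1 | h1 | h1 | h1 | h1 <;>
      rcases h2 with h2 | h2 | h2 | h2 | h2 | h2 | h2 <;> omega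
  · intro i j hij
    have hij' : i.val ≠ j.val := fun e => hij (Fin.ext e)
    rw [hC i, hC j]
    have h1 := h i
    have h2 := h j
    rcases h1 with h1 | h1 | h1 | h1 | h1 | h1 | h1 <;>
      rcases h2 with h2 | h2 | h2 | h2 | h2 | h2 | h2 <;> omega

/-- Parts of sizes three and two in a canonical arrangement. -/
theorem two_three_aux (s q : ℕ) (hq : 0 < q) (hs : Even s) (h3 : 3 ≤ s + q) :
    Col (Sum.elim (fun _ : Fin s => 3) (fun _ : Fin q => 2)) (3 * s + 2 * q - 1) := by
  obtain ⟨h, hh⟩ := hs
  rcases Nat.even_or_odd q with ⟨k, hk⟩ | ⟨k, hk⟩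
  · by_cases hs0 : s = 0
    · -- all parts have size two
      subst hs0
      have e : Fin 0 ⊕ Fin q ≃ Fin q := Equiv.emptySum (Fin 0) (Fin q)
      have hcol : Col (fun _ : Fin q => 2) (2 * q - 1) := by
        by_cases hq4 : q = 4
        · subst hq4
          exact all_two_four
        · have := all_two k (by omega)
          have e1 : q = 2 * k := by omega
          subst e1
          have e2 : 2 * (2 * k) - 1 = 4 * k - 1 := by omega
          rw [e2]
          exact this
      have hcol2 : Col (Sum.elim (fun _ : Fin 0 => 3) (fun _ : Fin q => 2)) (2 * q - 1) := by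
        refine hcol.of_equiv (Equiv.emptySum (Fin 0) (Fin q)) ?_
        rintro (i | i)
        · exact i.elim0
        · rfl
      have e3 : 3 * 0 + 2 * q - 1 = 2 * q - 1 := by omega
      rw [e3]
      exact hcol2
    · -- q even, s positive
      refine interval_col _ (Sum.elim
        (fun i => if i.val < h then 3 * i.val else if i.val < 2 * h - 1 then
          3 * h + 2 * (k - 1) + 3 * (i.val - h) else 2 * (3 * h + 2 * (k - 1)) + 1)
        (fun j => if j.val < k - 1 then 3 * h + 2 * j.val else
          3 * h + 2 * (k - 1) + 3 * (h - 1) + 2 * (j.val - (k - 1))))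
        _ (3 * h + 2 * (k - 1)) (Sum.inl ⟨s - 1, by omega⟩) ?_ ?_ ?_ ?_ ?_ ?_ ?_ ?_
      · rintro (i | i) <;> simp
      · rintro (i | i) (j | j) hij
        · have hij' : i.val ≠ j.val := fun e => hij (by rw [Fin.ext e])
          have := i.2
          have := j.2
          simp only [Sum.elim_inl]
          split_ifs <;> omega
        · have := i.2
          have := j.2
          simp only [Sum.elim_inl, Sum.elim_inr]
          split_ifs <;> omega
        · have := i.2
          have := j.2
          simp only [Sum.elim_inl, Sum.elim_inr]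
          split_ifs <;> omega
        · have hij' : i.val ≠ j.val := fun e => hij (by rw [Fin.ext e])
          have := i.2
          have := j.2
          simp only [Sum.elim_inr]
          split_ifs <;> omega
      · simp only [Sum.elim_inl]
        split_ifs <;> omega
      · rintro (i | i) hi
        · have hij' : i.val ≠ s - 1 := fun e => hi (by congr 1; exact Fin.ext e)
          have := i.2
          simp only [Sum.elim_inl]
          split_ifs <;> omega
        · have := i.2
          simp only [Sum.elim_inl, Sum.elim_inr]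
          split_ifs <;> omega
      · rintro (i | i) hi
        · have hij' : i.val ≠ s - 1 := fun e => hi (by congr 1; exact Fin.ext e)
          have := i.2
          simp only [Sum.elim_inl]
          split_ifs <;> omega
        · have := i.2
          simp only [Sum.elim_inr]
          split_ifs <;> omega
      · simp only [Sum.elim_inl]
        split_ifs <;> omega
      · right
        simp only [Sum.elim_inl, and_true]
        omega
      · omega
  · -- q odd
    refine interval_col _ (Sum.elim
      (fun i => if i.val < h then 3 * i.val else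
        3 * h + 2 * k + 3 * (i.val - h))
      (fun j => if j.val < k then 3 * h + 2 * j.val else if j.val < 2 * k then
        3 * h + 2 * k + 3 * h + 2 * (j.val - k) else 2 * (3 * h + 2 * k)))
      _ (3 * h + 2 * k) (Sum.inr ⟨q - 1, by omega⟩) ?_ ?_ ?_ ?_ ?_ ?_ ?_ ?_
    · rintro (i | i) <;> simp
    · rintro (i | i) (j | j) hij
      · have hij' : i.val ≠ j.val := fun e => hij (by rw [Fin.ext e])
        have := i.2
        have := j.2
        simp only [Sum.elim_inl]
        split_ifs <;> omega
      · have := i.2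
        have := j.2
        simp only [Sum.elim_inl, Sum.elim_inr]
        split_ifs <;> omega
      · have := i.2
        have := j.2
        simp only [Sum.elim_inl, Sum.elim_inr]
        split_ifs <;> omega
      · have hij' : i.val ≠ j.val := fun e => hij (by rw [Fin.ext e])
        have := i.2
        have := j.2
        simp only [Sum.elim_inr]
        split_ifs <;> omega
    · simp only [Sum.elim_inr]
      split_ifs <;> omega
    · rintro (i | i) hi
      · have := i.2
        simp only [Sum.elim_inl, Sum.elim_inr]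
        split_ifs <;> omega
      · have hij' : i.val ≠ q - 1 := fun e => hi (by congr 1; exact Fin.ext e)
        have := i.2
        simp only [Sum.elim_inr]
        split_ifs <;> omega
    · rintro (i | i) hi
      · have := i.2
        simp only [Sum.elim_inl]
        split_ifs <;> omega
      · have hij' : i.val ≠ q - 1 := fun e => hi (by congr 1; exact Fin.ext e)
        have := i.2
        simp only [Sum.elim_inr]
        split_ifs <;> omega
    · simp only [Sum.elim_inr]
      split_ifs <;> omega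
    · left
      simp only [Sum.elim_inr, and_true]
      omega
    · omega

theorem two_three {V : Type} [Fintype V] [DecidableEq V] (a : V → ℕ)
    (h23 : ∀ i, a i = 2 ∨ a i = 3) (h2 : ∃ i, a i = 2)
    (hV : 3 ≤ Fintype.card V) (heven : Even (∑ i, a i)) : Col a ((∑ i, a i) - 1) := by
  classical
  set s := Fintype.card {i // a i = 3} with hs
  set q := Fintype.card {i // ¬ a i = 3} with hq
  have hsum : ∑ i, a i = 3 * s + 2 * q := by
    rw [← Fintype.sum_subtype_add_sum_subtype (fun i => a i = 3) a]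
    have e1 : ∑ i : {i // a i = 3}, a i = 3 * s := by
      rw [Finset.sum_congr rfl (fun i _ => i.2)]
      simp [hs, mul_comm]
    have e2 : ∑ i : {i // ¬ a i = 3}, a i = 2 * q := by
      rw [Finset.sum_congr rfl (fun i _ => (h23 i.1).resolve_right i.2)]
      simp [hq, mul_comm]
    rw [e1, e2]
  have hcard : s + q = Fintype.card V := by
    rw [hs, hq, Fintype.card_subtype_compl]
    have : Fintype.card {i // a i = 3} ≤ Fintype.card V := Fintype.card_subtype_le _
    omega
  have hq0 : 0 < q := by
    obtain ⟨i, hi⟩ := h2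
    rw [hq, Fintype.card_pos_iff]
    exact ⟨⟨i, by omega⟩⟩
  have hs2 : Even s := by
    rw [hsum] at heven
    obtain ⟨t, ht⟩ := heven
    refine ⟨t - q - s, by omega⟩
  have main := two_three_aux s q hq0 hs2 (by omega)
  rw [hsum]
  refine main.of_equiv ((Equiv.sumCompl (fun i => a i = 3)).symm.trans
    (Equiv.sumCongr (Fintype.equivFin _) (Fintype.equivFin _))) ?_
  intro i
  by_cases hi : a i = 3
  · rw [Equiv.trans_apply, Equiv.sumCompl_symm_apply_of_pos (p := fun i => a i = 3) hi]
    simp [hi]
  · rw [Equiv.trans_apply, Equiv.sumCompl_symm_apply_of_neg (p := fun i => a i = 3) hi]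
    have := (h23 i).resolve_right hi
    simp [this]

end TCM
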