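import Pool.Agent.Lib.MP_c70440_co.Irr
import Pool.Agent.Lib.MP_c70440_co.TwoThree

set_option autoImplicit false
set_option maxHeartbeats 4000000

namespace TCM

open Finset

theorem col_min_two {V : Type} [Fintype V] [DecidableEq V] (a : V → ℕ)
    (hp : 3 ≤ Fintype.card V) (ha : Adm 2 a) : Col a ((∑ k, a k) - 2 + 1) := by
  classical
  apply refine_induct 2 3 (by omega) _ _ V a hp rfl ha
  intro V _ _ a hp ha hir
  have h4 : ∀ j, a j < 4 := fun j => irr_even (m := 2) rfl ha hir j
  have h23 : ∀ j, a j = 2 ∨ a j = 3 := by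
    intro j
    have := h4 j
    have := ha.min j
    omega
  have h := two_three a h23 ha.ex hp ha.even
  obtain ⟨k0, hk0⟩ := ha.ex
  have h2 : 2 ≤ ∑ k, a k := by
    rw [← hk0]
    exact Finset.single_le_sum (f := a) (fun _ _ => Nat.zero_le _) (Finset.mem_univ k0)
  have e : (∑ k, a k) - 2 + 1 = (∑ k, a k) - 1 := by omega
  rw [e]
  exact h

/-- Odd order, arbitrary parts: `n` colours suffice. -/
theorem col_odd_n {V : Type} [Fintype V] [DecidableEq V] (a : V → ℕ) (hodd : Odd (∑ k, a k)) :
    Col a (∑ k, a k) := by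
  classical
  obtain ⟨t, ht⟩ := hodd
  haveI : NeZero (∑ k, a k) := ⟨by omega⟩
  have hcard : Fintype.card (Σ k, Fin (a k)) = Fintype.card (ZMod (∑ k, a k)) := by
    rw [ZMod.card, Fintype.card_sigma]
    simp
  let e : (Σ k, Fin (a k)) ≃ ZMod (∑ k, a k) := Fintype.equivOfCardEq hcard
  have h2 : ((t : ZMod (∑ k, a k)) + 1) * 2 = 1 := by
    have h3 : (((∑ k, a k : ℕ)) : ZMod (∑ k, a k)) = 0 := ZMod.natCast_self _
    have h4 : ((2 * t + 1 : ℕ) : ZMod (∑ k, a k)) = 0 := by rw [← ht]; exact h3
    push_cast at h4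
    linear_combination h4
  have hinj : ∀ x y : ZMod (∑ k, a k), 2 * x = 2 * y → x = y := by
    intro x y h
    have : ((t : ZMod (∑ k, a k)) + 1) * 2 * x = ((t : ZMod (∑ k, a k)) + 1) * 2 * y := by
      rw [mul_assoc, mul_assoc, h]
    rwa [h2, one_mul, one_mul] at this
  have hTC : HasTC (fun u : (Σ i, Fin (a i)) => u.1) (ZMod (∑ k, a k)) := by
    refine ⟨⟨fun u => 2 * e u, fun u v => e u + e v, ?_, ?_, ?_, ?_⟩⟩
    · intro u v _
      exact add_comm _ _
    · intro u v huv h
      apply huv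
      rw [e.injective (hinj _ _ h)]
    · intro u v huv h
      apply huv
      have h' : e u = e v := by linear_combination h
      rw [e.injective h']
    · intro u v w _ _ hvw h
      exact hvw (e.injective (add_left_cancel h))
  exact hTC.to_fin (by rw [ZMod.card])

end TCM
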