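import Pool.Agent.Lib.MP_c70440_co.Classes

set_option autoImplicit false
set_option maxHeartbeats 4000000

namespace TCM

open Finset

/-- Flow criterion for the cut conditions. -/
theorem flow_cut {V : Type} [Fintype V] [DecidableEq V] (n : ℤ) (hn : 0 < n) (Z c : V → V → ℤ)
    (g : V → ℤ) (hanti : ∀ j k, Z j k = - Z k j) (hsum : ∀ j, ∑ k, Z j k = n * g j)
    (hb1 : ∀ j k, j ≠ k → Z j k ≤ n * c j k) (hb2 : ∀ j k, j ≠ k → - Z j k ≤ n * c j k)
    (S : Finset V) :
    ∑ j ∈ S, g j ≤ ∑ j ∈ S, ∑ k ∈ Sᶜ, c j k ∧ - ∑ j ∈ S, g j ≤ ∑ j ∈ S, ∑ k ∈ Sᶜ, c j k := by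
  have h1 : n * ∑ j ∈ S, g j = ∑ j ∈ S, ∑ k ∈ Sᶜ, Z j k := by
    rw [Finset.mul_sum]
    rw [Finset.sum_congr rfl (fun j _ => (hsum j).symm)]
    have h2 : ∑ j ∈ S, ∑ k, Z j k = ∑ j ∈ S, ∑ k ∈ S, Z j k + ∑ j ∈ S, ∑ k ∈ Sᶜ, Z j k := by
      rw [← Finset.sum_add_distrib]
      exact Finset.sum_congr rfl (fun j _ => (Finset.sum_add_sum_compl S _).symm)
    have h3 : ∑ j ∈ S, ∑ k ∈ S, Z j k = - ∑ j ∈ S, ∑ k ∈ S, Z j k := by
      conv_lhs => rw [Finset.sum_comm]
      rw [← Finset.sum_neg_distrib]
      apply Finset.sum_congr rfl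
      intro j _
      rw [← Finset.sum_neg_distrib]
      exact Finset.sum_congr rfl (fun k _ => hanti k j)
    have h4 : ∑ j ∈ S, ∑ k ∈ S, Z j k = 0 := by linarith
    rw [h2, h4, zero_add]
  have h5 : ∑ j ∈ S, ∑ k ∈ Sᶜ, Z j k ≤ n * ∑ j ∈ S, ∑ k ∈ Sᶜ, c j k := by
    rw [Finset.mul_sum]
    apply Finset.sum_le_sum
    intro j hj
    rw [Finset.mul_sum]
    apply Finset.sum_le_sum
    intro k hk
    apply hb1
    rintro rfl
    rw [Finset.mem_compl] at hk
    exact hk hj
  have h6 : - ∑ j ∈ S, ∑ k ∈ Sᶜ, Z j k ≤ n * ∑ j ∈ S, ∑ k ∈ Sᶜ, c j k := by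
    rw [Finset.mul_sum, ← Finset.sum_neg_distrib]
    apply Finset.sum_le_sum
    intro j hj
    rw [Finset.mul_sum, ← Finset.sum_neg_distrib]
    apply Finset.sum_le_sum
    intro k hk
    apply hb2
    rintro rfl
    rw [Finset.mem_compl] at hk
    exact hk hj
  constructor
  · have : n * ∑ j ∈ S, g j ≤ n * ∑ j ∈ S, ∑ k ∈ Sᶜ, c j k := by linarith
    exact le_of_mul_le_mul_left this hn
  · have : n * (- ∑ j ∈ S, g j) ≤ n * ∑ j ∈ S, ∑ k ∈ Sᶜ, c j k := by linarith
    exact le_of_mul_le_mul_left this hn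

/-- A finite set of even size has a fixed-point-free involution. -/
theorem exists_pairing {V : Type} [DecidableEq V] : ∀ (t : ℕ) (B : Finset V), B.card = 2 * t →
    ∃ f : V → V, ∀ x ∈ B, f x ∈ B ∧ f x ≠ x ∧ f (f x) = x := by
  intro t
  induction t with
  | zero =>
    intro B hB
    have : B = ∅ := by simpa using hB
    subst this
    exact ⟨id, by simp⟩
  | succ t ih =>
    intro B hB
    obtain ⟨x, y, hx, hy, hxy⟩ : ∃ x y, x ∈ B ∧ y ∈ B ∧ x ≠ y := by
      have : 1 < B.card := by omega
      obtain ⟨x, hx, y, hy, hxy⟩ := Finset.one_lt_card.1 this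
      exact ⟨x, y, hx, hy, hxy⟩
    have hcard : ((B.erase x).erase y).card = 2 * t := by
      rw [Finset.card_erase_of_mem, Finset.card_erase_of_mem hx]
      · omega
      · simp [hy, Ne.symm hxy]
    obtain ⟨f, hf⟩ := ih _ hcard
    refine ⟨fun z => if z = x then y else if z = y then x else f z, ?_⟩
    intro z hz
    dsimp only
    by_cases h1 : z = x
    · subst h1
      simp only [if_true, if_neg (Ne.symm hxy)]
      exact ⟨hy, Ne.symm hxy, trivial⟩
    · by_cases h2 : z = y
      · subst h2
        simp only [if_true, if_neg h1]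
        exact ⟨hx, hxy, trivial⟩
      · have hz' : z ∈ (B.erase x).erase y := by simp [h1, h2, hz]
        obtain ⟨h3, h4, h5⟩ := hf z hz'
        have h6 : f z ≠ x := by
          intro e; rw [e] at h3; simp at h3
        have h7 : f z ≠ y := by
          intro e; rw [e] at h3; simp at h3
        simp only [if_neg h1, if_neg h2, if_neg h6, if_neg h7]
        refine ⟨?_, h4, h5⟩
        simp only [Finset.mem_erase] at h3
        exact h3.2.2

/-- Balanced signs: sizes of the two halves `u + w = a`. -/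
theorem exists_signs {V : Type} [Fintype V] [DecidableEq V] (a : V → ℕ) (hodd : Odd (∑ k, a k)) :
    ∃ u w : V → ℕ, (∀ k, u k + w k = a k) ∧ (∀ k, ((u k : ℤ) - w k) ≤ (a k % 2 : ℕ)) ∧
      (∀ k, -((u k : ℤ) - w k) ≤ (a k % 2 : ℕ)) ∧ ∑ k, ((u k : ℤ) - w k) = -1 := by
  classical
  let O := Finset.univ.filter (fun k => a k % 2 = 1)
  have hsum : ∑ k, a k % 2 = O.card := by
    rw [Finset.card_eq_sum_ones, Finset.sum_filter]
    apply Finset.sum_congr rfl
    intro k _
    split_ifs with h <;> omega
  have hO : ∃ t, O.card = 2 * t + 1 := by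
    have h1 : (∑ k, a k) % 2 = (∑ k, a k % 2) % 2 := Finset.sum_nat_mod _ _ _
    rw [hsum] at h1
    obtain ⟨r, hr⟩ := hodd
    exact ⟨O.card / 2, by omega⟩
  obtain ⟨t, ht⟩ := hO
  obtain ⟨P, hPO, hP⟩ := Finset.exists_subset_card_eq (s := O) (n := t) (by omega)
  refine ⟨fun k => if k ∈ P then (a k + 1) / 2 else a k / 2,
    fun k => if k ∈ P then a k / 2 else (a k + 1) / 2, ?_, ?_, ?_, ?_⟩
  · intro k
    dsimp only
    split_ifs <;> omega
  · intro k
    dsimp only
    split_ifs <;> omega
  · intro k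
    dsimp only
    split_ifs <;> omega
  · have h1 : ∀ k, (((if k ∈ P then (a k + 1) / 2 else a k / 2 : ℕ) : ℤ) -
        ((if k ∈ P then a k / 2 else (a k + 1) / 2 : ℕ) : ℤ)) =
        (if k ∈ P then (2 : ℤ) else 0) - (if k ∈ O then 1 else 0) := by
      intro k
      by_cases hk : k ∈ P
      · have hkO := hPO hk
        have h2 : a k % 2 = 1 := by simpa [O] using hkO
        rw [if_pos hk, if_pos hk, if_pos hk, if_pos hkO]
        omega
      · rw [if_neg hk, if_neg hk, if_neg hk]
        by_cases hkO : k ∈ O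
        · have h2 : a k % 2 = 1 := by simpa [O] using hkO
          rw [if_pos hkO]
          omega
        · have h2 : ¬ (a k % 2 = 1) := by simpa [O] using hkO
          rw [if_neg hkO]
          omega
    rw [Finset.sum_congr rfl (fun k _ => h1 k), Finset.sum_sub_distrib]
    simp only [Finset.sum_ite_mem, Finset.univ_inter, Finset.sum_const, hP, ht]
    push_cast
    ring

theorem col_odd {V : Type} [Fintype V] [DecidableEq V] (a : V → ℕ) (m : ℕ) (k1 : V)
    (hk1 : a k1 = m) (hmin : ∀ k, m ≤ a k) (hm : 2 ≤ m) (hodd : Odd (∑ k, a k)) :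
    Col a ((∑ k, a k) - m + 1) := by
  classical
  let n := ∑ k, a k
  have hnm : m ≤ n := by
    have := Finset.single_le_sum (f := a) (fun _ _ => Nat.zero_le _) (Finset.mem_univ k1)
    simp only [n]; omega
  -- the set of parts to be covered in the special class
  let B := Finset.univ.filter (fun k => k ≠ k1 ∧ a k = m)
  obtain ⟨B', hB1, hB2, hB3⟩ : ∃ B' : Finset V, B ⊆ B' ∧ k1 ∉ B' ∧ (∃ t, B'.card = 2 * t) ∧
      (∀ j ∈ B', ∀ k ∈ B', j ≠ k → a j = m ∨ a k = m) := by
    rcases Nat.even_or_odd' B.card with ⟨t, ht | ht⟩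
    · refine ⟨B, Finset.Subset.refl _, by simp [B], ⟨t, ht⟩, ?_⟩
      intro j hj _ _ _
      left
      have : j ≠ k1 ∧ a j = m := by simpa [B] using hj
      exact this.2
    · -- there is a bigger part
      obtain ⟨t1, ht1⟩ : ∃ t1, a t1 ≠ m := by
        by_contra hne
        push Not at hne
        have hB : B = Finset.univ.erase k1 := by
          ext k
          simp [B, hne k]
        rw [hB, Finset.card_erase_of_mem (Finset.mem_univ _), Finset.card_univ] at ht
        have h1 : n = Fintype.card V * m := by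
          simp only [n]
          rw [Finset.sum_congr rfl (fun k _ => hne k)]
          simp
        have h2 : Fintype.card V = 2 * (t + 1) := by
          have : 0 < Fintype.card V := Fintype.card_pos_iff.2 ⟨k1⟩
          omega
        obtain ⟨r, hr⟩ := hodd
        have h3 : n = 2 * ((t + 1) * m) := by rw [h1, h2]; ring
        simp only [n] at h3
        omega
      refine ⟨insert t1 B, Finset.subset_insert _ _, ?_, ⟨t + 1, ?_⟩, ?_⟩
      · rw [Finset.mem_insert]
        rintro (h | h)
        · exact ht1 (h ▸ hk1)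
        · simp [B] at h
      · rw [Finset.card_insert_of_notMem (by simp [B, ht1]), ht]
        ring
      · intro j hj k hk hjk
        rw [Finset.mem_insert] at hj hk
        rcases hj with hj | hj
        · rcases hk with hk | hk
          · exact absurd (hj.trans hk.symm) hjk
          · right
            have : k ≠ k1 ∧ a k = m := by simpa [B] using hk
            exact this.2
        · left
          have : j ≠ k1 ∧ a j = m := by simpa [B] using hj
          exact this.2
  obtain ⟨⟨t, ht⟩, hB4⟩ := hB3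
  obtain ⟨f, hf⟩ := exists_pairing t B' ht
  let G : Unit → V → V → ℕ := fun _ j k => if j ∈ B' ∧ f j = k then m else 0
  have hGdeg : ∀ i k, ∑ j, G i k j = if k ∈ B' then m else 0 := by
    intro i k
    simp only [G]
    by_cases hk : k ∈ B'
    · rw [if_pos hk]
      simp [hk]
    · rw [if_neg hk]
      simp [hk]
  let γ := n - m
  let d : V → ℕ := fun k => if k = k1 then 0 else a k
  have hσ : ∀ k, a k * (n - a k) + d k ≤ γ * a k + ∑ i, ∑ j, G i k j := by
    intro k
    simp only [hGdeg]
    have hak : a k ≤ n := Finset.single_le_sum (f := a) (fun _ _ => Nat.zero_le _)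
      (Finset.mem_univ k)
    simp only [γ, d, Finset.univ_unique, Finset.sum_const, Finset.card_singleton, one_smul]
    by_cases h1 : k = k1
    · subst h1
      rw [if_pos rfl, hk1, mul_comm]
      omega
    · rw [if_neg h1]
      rcases Nat.lt_or_ge m (a k) with h2 | h2
      · have h3 : a k * (n - a k) + a k ≤ (n - m) * a k := by
          have h4 : n - a k + 1 ≤ n - m := by omega
          calc a k * (n - a k) + a k = (n - a k + 1) * a k := by ring
            _ ≤ (n - m) * a k := Nat.mul_le_mul_right _ h4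
        omega
      · have h3 : a k = m := le_antisymm h2 (hmin k)
        have h4 : k ∈ B' := hB1 (by simp [B, h1, h3])
        rw [if_pos h4, h3, mul_comm]
  obtain ⟨u, w, huw, hε1, hε2, hε3⟩ := exists_signs a hodd
  have hGjk : ∀ i j k, G i j k = m ∨ G i j k = 0 := by
    intro i j k
    simp only [G]
    split_ifs
    · left; rfl
    · right; rfl
  have hpos : ∀ k, 2 ≤ a k := fun k => le_trans hm (hmin k)
  -- pair inequality
  have hpair : ∀ j k, j ≠ k → j ≠ k1 → k ≠ k1 →
      ((a j % 2 : ℕ) : ℤ) * a k + ((a k % 2 : ℕ) : ℤ) * a j ≤ (a j : ℤ) * a k - G () j k := by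
    intro j k hjk hj hk
    have hj2 := hpos j
    have hk2 := hpos k
    have hmod1 : a j % 2 ≤ 1 := by omega
    have hmod2 : a k % 2 ≤ 1 := by omega
    by_cases hG : j ∈ B' ∧ f j = k
    · have hG' : G () j k = m := by simp only [G, if_pos hG]
      rw [hG']
      have hkB : k ∈ B' := by rw [← hG.2]; exact (hf j hG.1).1
      have hjm := hmin j
      have hkm := hmin k
      -- one of them is tight
      have key : ∀ x y : ℕ, x = m → m ≤ y →
          ((x % 2 : ℕ) : ℤ) * y + ((y % 2 : ℕ) : ℤ) * x ≤ (x : ℤ) * y - m := by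
        intro x y hx hy
        subst hx
        have hy' : (x : ℤ) ≤ y := by exact_mod_cast hy
        have hx2 : (2 : ℤ) ≤ x := by exact_mod_cast hm
        rcases Nat.mod_two_eq_zero_or_one x with hx0 | hx0
        · rw [hx0]
          have hy2 : ((y % 2 : ℕ) : ℤ) ≤ 1 := by exact_mod_cast (by omega)
          have hy3 : (0 : ℤ) ≤ ((y % 2 : ℕ) : ℤ) := by positivity
          push_cast
          by_cases hxy : x = y
          · subst hxy
            have hx0' : ((x : ℤ) % 2) = 0 := by omega
            push_cast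
            rw [hx0']
            nlinarith
          · have h7 : (x : ℤ) + 1 ≤ y := by
              have : x < y := lt_of_le_of_ne hy hxy
              exact_mod_cast this
            push_cast at hy2 hy3
            nlinarith
        · rw [hx0]
          have hx3 : (3 : ℤ) ≤ x := by
            have : 3 ≤ x := by omega
            exact_mod_cast this
          have hy2 : ((y % 2 : ℕ) : ℤ) ≤ 1 := by exact_mod_cast (by omega)
          have hy3 : (0 : ℤ) ≤ ((y % 2 : ℕ) : ℤ) := by positivity
          push_cast at hy2 hy3 ⊢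
          nlinarith
      rcases hB4 j hG.1 k hkB hjk with h | h
      · exact key (a j) (a k) h hkm
      · have := key (a k) (a j) h hjm
        linarith [mul_comm (a j : ℤ) (a k : ℤ)]
    · have hG' : G () j k = 0 := by simp only [G, if_neg hG]
      rw [hG']
      have h1 : (2 : ℤ) ≤ a j := by exact_mod_cast hj2
      have h2 : (2 : ℤ) ≤ a k := by exact_mod_cast hk2
      have h3 : ((a j % 2 : ℕ) : ℤ) ≤ 1 := by exact_mod_cast hmod1
      have h4 : ((a k % 2 : ℕ) : ℤ) ≤ 1 := by exact_mod_cast hmod2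
      have h5 : ((a j % 2 : ℕ) : ℤ) * a k ≤ 1 * a k := mul_le_mul_of_nonneg_right h3 (by linarith)
      have h6 : ((a k % 2 : ℕ) : ℤ) * a j ≤ 1 * a j := mul_le_mul_of_nonneg_right h4 (by linarith)
      push_cast at h5 h6 ⊢
      nlinarith
  have hn0 : (0 : ℤ) < n := by
    have : 0 < n := by omega
    exact_mod_cast this
  have hγ : (γ : ℤ) = n - m := by
    simp only [γ]
    push_cast [hnm]
    ring
  have hγ0 : (0 : ℤ) ≤ γ := by positivity
  have hn' : ∑ k, (a k : ℤ) = n := by simp only [n]; push_cast; rfl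
  -- the flow
  let Z : V → V → ℤ := fun j k => γ * (((u j : ℤ) - w j) * a k - ((u k : ℤ) - w k) * a j) +
    a j * a k * ((if j = k1 then 0 else 1) - (if k = k1 then 0 else 1))
  have hZ : ∀ j k, j ≠ k → Z j k ≤ (n : ℤ) * ((a j : ℤ) * a k - ∑ i, (G i j k : ℤ)) ∧
      - Z j k ≤ (n : ℤ) * ((a j : ℤ) * a k - ∑ i, (G i j k : ℤ)) := by
    intro j k hjk
    simp only [Finset.univ_unique, Finset.sum_singleton, PUnit.default_eq_unit, Z]
    have haj : (2 : ℤ) ≤ a j := by exact_mod_cast hpos j
    have hak : (2 : ℤ) ≤ a k := by exact_mod_cast hpos k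
    have e1 := mul_le_mul_of_nonneg_right (hε1 j) (by linarith : (0 : ℤ) ≤ a k)
    have e2 := mul_le_mul_of_nonneg_right (hε2 j) (by linarith : (0 : ℤ) ≤ a k)
    have e3 := mul_le_mul_of_nonneg_right (hε1 k) (by linarith : (0 : ℤ) ≤ a j)
    have e4 := mul_le_mul_of_nonneg_right (hε2 k) (by linarith : (0 : ℤ) ≤ a j)
    have f1 : ((u j : ℤ) - w j) * a k - ((u k : ℤ) - w k) * a j ≤
        ((a j % 2 : ℕ) : ℤ) * a k + ((a k % 2 : ℕ) : ℤ) * a j := by linarith
    have f2 : -(((u j : ℤ) - w j) * a k - ((u k : ℤ) - w k) * a j) ≤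
        ((a j % 2 : ℕ) : ℤ) * a k + ((a k % 2 : ℕ) : ℤ) * a j := by linarith
    have g1 := mul_le_mul_of_nonneg_left f1 hγ0
    have g2 := mul_le_mul_of_nonneg_left f2 hγ0
    have hm0 : (2 : ℤ) ≤ m := by exact_mod_cast hm
    have hδj : ((a j % 2 : ℕ) : ℤ) ≤ 1 := by exact_mod_cast (by omega)
    have hδk : ((a k % 2 : ℕ) : ℤ) ≤ 1 := by exact_mod_cast (by omega)
    have e5 := mul_le_mul_of_nonneg_right hδj (by linarith : (0 : ℤ) ≤ a k)
    have e6 := mul_le_mul_of_nonneg_right hδk (by linarith : (0 : ℤ) ≤ a j)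
    have e7 : (a k : ℤ) + a j ≤ a j * a k := by nlinarith
    have e8 : ((a j % 2 : ℕ) : ℤ) * a k + ((a k % 2 : ℕ) : ℤ) * a j ≤ a j * a k := by linarith
    have e9 := mul_le_mul_of_nonneg_left e8 hγ0
    have e10 : (0 : ℤ) ≤ a j * a k := by positivity
    have e11 : ((n : ℤ) - m) * (a j * a k) + a j * a k ≤ n * (a j * a k) := by nlinarith
    have e12 : (γ : ℤ) * (a j * a k) = (n - m) * (a j * a k) := by rw [hγ]
    by_cases hj : j = k1 <;> by_cases hk : k = k1
    · exact absurd (hj.trans hk.symm) hjk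
    · have hG' : G () j k = 0 := by
        simp only [G]
        rw [if_neg]
        rintro ⟨h1, _⟩
        exact hB2 (hj ▸ h1)
      rw [hG', if_pos hj, if_neg hk]
      push_cast
      constructor <;> linarith
    · have hG' : G () j k = 0 := by
        simp only [G]
        rw [if_neg]
        rintro ⟨h1, h2⟩
        apply hB2
        rw [← hk, ← h2]
        exact (hf j h1).1
      rw [hG', if_neg hj, if_pos hk]
      push_cast
      constructor <;> linarith
    · rw [if_neg hj, if_neg hk]
      have h3 := hpair j k hjk hj hk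
      have h4 := mul_le_mul_of_nonneg_left h3 hγ0
      have h5 : (0 : ℤ) ≤ (a j : ℤ) * a k - G () j k := by
        have : (0 : ℤ) ≤ ((a j % 2 : ℕ) : ℤ) * a k + ((a k % 2 : ℕ) : ℤ) * a j := by positivity
        linarith
      have h6 : (γ : ℤ) * ((a j : ℤ) * a k - G () j k) ≤ n * ((a j : ℤ) * a k - G () j k) := by
        apply mul_le_mul_of_nonneg_right _ h5
        rw [hγ]; linarith
      rw [sub_self, mul_zero, add_zero]
      constructor <;> linarith
  have hflow := flow_cut (n : ℤ) hn0 Z (fun j k => (a j : ℤ) * a k - ∑ i, (G i j k : ℤ))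
    (fun j => γ * ((u j : ℤ) - w j) + d j)
    (by intro j k; simp only [Z]; ring)
    (by
      intro j
      simp only [Z]
      rw [Finset.sum_add_distrib, ← Finset.mul_sum, Finset.sum_sub_distrib, ← Finset.mul_sum,
        ← Finset.sum_mul, hε3, hn']
      have h1 : ∑ k, (a j : ℤ) * a k * ((if j = k1 then 0 else 1) - (if k = k1 then 0 else 1)) =
          a j * ((if j = k1 then 0 else 1) * n - (n - m)) := by
        have h2 : ∀ k, (a j : ℤ) * a k * ((if j = k1 then 0 else 1) - (if k = k1 then 0 else 1)) =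
            a j * ((if j = k1 then 0 else 1) * a k - (a k - (if k = k1 then (m : ℤ) else 0))) := by
          intro k
          by_cases hk : k = k1
          · rw [if_pos hk, if_pos hk, hk, hk1]; ring
          · rw [if_neg hk, if_neg hk]; ring
        rw [Finset.sum_congr rfl (fun k _ => h2 k), ← Finset.mul_sum, Finset.sum_sub_distrib,
          Finset.sum_sub_distrib, ← Finset.mul_sum, hn', Finset.sum_ite_eq']
        simp
      rw [h1, hγ]
      by_cases hj : j = k1
      · simp only [d, if_pos hj]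
        push_cast
        ring
      · simp only [d, if_neg hj]
        push_cast
        ring)
    (fun j k hjk => (hZ j k hjk).1)
    (fun j k hjk => (hZ j k hjk).2)
  have hcard : Fintype.card Unit + γ = (∑ k, a k) - m + 1 := by
    simp only [γ, n, Fintype.card_unit]
    omega
  rw [← hcard]
  refine framework a (fun _ : Unit => k1) (fun _ => m) G γ d
    (fun k => γ * a k + ∑ i, ∑ j, G i k j - (a k * (n - a k) + d k)) u w
    ?_ ?_ ?_ ?_ ?_ ?_ huw ?_ ?_ ?_
  · intro i j k
    simp only [G]
    by_cases h1 : j ∈ B' ∧ f j = k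
    · have h2 : k ∈ B' ∧ f k = j := by
        obtain ⟨h3, h4⟩ := h1
        subst h4
        exact ⟨(hf j h3).1, (hf j h3).2.2⟩
      rw [if_pos h1, if_pos h2]
    · have h2 : ¬ (k ∈ B' ∧ f k = j) := by
        rintro ⟨h3, h4⟩
        apply h1
        subst h4
        exact ⟨(hf k h3).1, (hf k h3).2.2⟩
      rw [if_neg h1, if_neg h2]
  · intro i j
    simp only [G]
    rw [if_neg]
    rintro ⟨h1, h2⟩
    exact (hf j h1).2.1 h2
  · intro i k
    rw [hGdeg i k]
    by_cases h1 : k = k1
    · rw [if_pos h1, if_neg (h1 ▸ hB2), h1, hk1, zero_add]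
    · rw [if_neg h1, add_zero]
      split_ifs
      · exact hmin k
      · exact Nat.zero_le _
  · intro j k hjk
    simp only [Finset.univ_unique, Finset.sum_singleton]
    have h1 := hpos j
    have h2 := hmin k
    rcases hGjk default j k with h | h
    · rw [h]
      nlinarith
    · rw [h]; exact Nat.zero_le _
  · intro k
    simp only [Finset.univ_unique, Finset.sum_singleton, d]
    by_cases h1 : k = k1
    · rw [if_pos h1, if_pos h1, h1, hk1, add_zero]
    · rw [if_neg h1, if_neg h1, zero_add]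
  · have h1 : ∑ k, d k + m = n := by
      simp only [n]
      rw [← Finset.add_sum_erase _ _ (Finset.mem_univ k1),
        ← Finset.add_sum_erase _ a (Finset.mem_univ k1)]
      have h2 : ∑ k ∈ Finset.univ.erase k1, d k = ∑ k ∈ Finset.univ.erase k1, a k := by
        apply Finset.sum_congr rfl
        intro k hk
        rw [Finset.mem_erase] at hk
        simp only [d, if_neg hk.1]
      rw [h2]
      simp only [d, if_true]
      omega
    simp only [γ]
    omega
  · intro k
    have := hσ k
    simp only [n] at this ⊢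
    omega
  · intro S
    have h1 := (hflow S).2
    rw [Finset.sum_add_distrib, ← Finset.mul_sum] at h1
    have h2 : (0 : ℤ) ≤ ∑ k ∈ S, ((γ * a k + ∑ i, ∑ j, G i k j - (a k * (n - a k) + d k) : ℕ) : ℤ) := by
      positivity
    linarith
  · intro S
    have h1 := (hflow S).1
    rw [Finset.sum_add_distrib, ← Finset.mul_sum] at h1
    have h2 : (0 : ℤ) ≤ ∑ k ∈ S, ((γ * a k + ∑ i, ∑ j, G i k j - (a k * (n - a k) + d k) : ℕ) : ℤ) := by
      positivity
    linarith

end TCM
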