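import Pool.Agent.Lib.MP_c70440_co.AllSpecial

set_option autoImplicit false
set_option maxHeartbeats 4000000

/-!
Complete bipartite and complete tripartite graphs of even order.
-/

namespace TCM

open Finset

theorem sum_fin3 (S : Finset (Fin 3)) (f : Fin 3 → ℤ) :
    ∑ k ∈ S, f k = (if (0 : Fin 3) ∈ S then f 0 else 0) + (if (1 : Fin 3) ∈ S then f 1 else 0) +
      (if (2 : Fin 3) ∈ S then f 2 else 0) := by
  have h : ∑ k ∈ S, f k = ∑ k, if k ∈ S then f k else 0 := by
    rw [Finset.sum_ite_mem, Finset.univ_inter]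
  rw [h, Fin.sum_univ_three]

/-- The cut conditions for three parts. -/
theorem cuts3 (γ : ℤ) (e s d : Fin 3 → ℤ) (c : Fin 3 → Fin 3 → ℤ)
    (hd0 : 0 ≤ d 0) (hd1 : 0 ≤ d 1) (hd2 : 0 ≤ d 2)
    (he0 : |e 0| ≤ γ) (he1 : |e 1| ≤ γ) (he2 : |e 2| ≤ γ) (hsum : e 0 + e 1 + e 2 = 0)
    (c10 : c 1 0 = c 0 1) (c20 : c 2 0 = c 0 2) (c21 : c 2 1 = c 1 2)
    (h0 : γ ≤ s 0 - d 0 + c 0 1 + c 0 2) (h1 : γ ≤ s 1 - d 1 + c 0 1 + c 1 2)
    (h2 : γ ≤ s 2 - d 2 + c 0 2 + c 1 2)
    (h01 : γ ≤ s 0 + s 1 - d 0 - d 1 + c 0 2 + c 1 2)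
    (h02 : γ ≤ s 0 + s 2 - d 0 - d 2 + c 0 1 + c 1 2)
    (h12 : γ ≤ s 1 + s 2 - d 1 - d 2 + c 0 1 + c 0 2)
    (hall : 0 ≤ s 0 + s 1 + s 2 - d 0 - d 1 - d 2) (S : Finset (Fin 3)) :
    0 ≤ ∑ k ∈ S, e k + ∑ k ∈ S, s k + ∑ k ∈ S, d k + ∑ j ∈ S, ∑ k ∈ Sᶜ, c j k ∧
    ∑ k ∈ S, e k ≤ ∑ k ∈ S, s k - ∑ k ∈ S, d k + ∑ j ∈ S, ∑ k ∈ Sᶜ, c j k := by
  rw [abs_le] at he0 he1 he2
  simp only [sum_fin3, Finset.mem_compl]
  by_cases m0 : (0 : Fin 3) ∈ S <;> by_cases m1 : (1 : Fin 3) ∈ S <;>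
    by_cases m2 : (2 : Fin 3) ∈ S <;>
    simp only [m0, m1, m2, if_true, if_false, not_true, not_false_iff] <;>
    constructor <;> linarith

/-- The framework theorem for three parts. -/
theorem framework3 {T : Type} [Fintype T] [DecidableEq T]
    (a : Fin 3 → ℕ) (τ : T → Fin 3) (s : T → ℕ) (G : T → Fin 3 → Fin 3 → ℕ) (γ : ℕ)
    (d σ : Fin 3 → ℕ) (heven : Even (∑ k, a k))
    (hGs : ∀ i j k, G i j k = G i k j) (hG0 : ∀ i j, G i j j = 0)
    (hGd : ∀ i k, (∑ j, G i k j) + (if k = τ i then s i else 0) ≤ a k)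
    (hX : ∀ j k, j ≠ k → ∑ i, G i j k ≤ a j * a k)
    (hdk : ∀ k, ∑ i, (if k = τ i then s i else 0) + d k = a k)
    (hd : ∑ k, d k ≤ γ)
    (hdeg : ∀ k, a k * ((∑ j, a j) - a k) + d k + σ k = γ * a k + ∑ i, ∑ j, G i k j)
    (h0 : γ + d 0 + ∑ i, G i 0 1 + ∑ i, G i 0 2 ≤ σ 0 + a 0 * a 1 + a 0 * a 2)
    (h1 : γ + d 1 + ∑ i, G i 0 1 + ∑ i, G i 1 2 ≤ σ 1 + a 0 * a 1 + a 1 * a 2)
    (h2 : γ + d 2 + ∑ i, G i 0 2 + ∑ i, G i 1 2 ≤ σ 2 + a 0 * a 2 + a 1 * a 2)
    (h01 : γ + d 0 + d 1 + ∑ i, G i 0 2 + ∑ i, G i 1 2 ≤ σ 0 + σ 1 + a 0 * a 2 + a 1 * a 2)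
    (h02 : γ + d 0 + d 2 + ∑ i, G i 0 1 + ∑ i, G i 1 2 ≤ σ 0 + σ 2 + a 0 * a 1 + a 1 * a 2)
    (h12 : γ + d 1 + d 2 + ∑ i, G i 0 1 + ∑ i, G i 0 2 ≤ σ 1 + σ 2 + a 0 * a 1 + a 0 * a 2)
    (hall : d 0 + d 1 + d 2 ≤ σ 0 + σ 1 + σ 2) :
    Col a (Fintype.card T + γ) := by
  classical
  obtain ⟨u, w, huw, hε, hsum⟩ := exists_signs_even a heven
  rw [Fin.sum_univ_three] at hsum
  have hγ0 : (0 : ℤ) ≤ γ := by positivity
  have habs : ∀ k, |(γ : ℤ) * ((u k : ℤ) - w k)| ≤ γ := by
    intro k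
    rw [abs_mul, abs_of_nonneg hγ0]
    have h3 := hε k
    have h4 : ((a k % 2 : ℕ) : ℤ) ≤ 1 := by
      have : a k % 2 ≤ 1 := by omega
      exact_mod_cast this
    nlinarith
  have key := cuts3 (γ : ℤ) (fun k => (γ : ℤ) * ((u k : ℤ) - w k)) (fun k => (σ k : ℤ))
    (fun k => (d k : ℤ)) (fun j k => (a j : ℤ) * a k - ∑ i, (G i j k : ℤ))
    (by positivity) (by positivity) (by positivity) (habs 0) (habs 1) (habs 2)
    (by rw [← mul_add, ← mul_add, hsum, mul_zero])
    (by
      rw [mul_comm]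
      congr 1
      exact Finset.sum_congr rfl (fun i _ => by rw [hGs]))
    (by
      rw [mul_comm]
      congr 1
      exact Finset.sum_congr rfl (fun i _ => by rw [hGs]))
    (by
      rw [mul_comm]
      congr 1
      exact Finset.sum_congr rfl (fun i _ => by rw [hGs]))
    (by zify at h0; linarith) (by zify at h1; linarith)
    (by zify at h2; linarith) (by zify at h01; linarith)
    (by zify at h02; linarith) (by zify at h12; linarith)
    (by zify at hall; linarith)
  refine framework a τ s G γ d σ u w hGs hG0 hGd hX hdk hd huw hdeg ?_ ?_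
  · intro S
    rw [Finset.mul_sum]
    exact (key S).1
  · intro S
    rw [Finset.mul_sum]
    exact (key S).2

theorem caseA (x y z : ℕ) (hx : 2 ≤ x) (hxy : x < y) (hyz : y ≤ z) (heven : Even (x + y + z)) :
    Col ![x, y, z] (y + z + 1) := by
  obtain ⟨i, rfl⟩ : ∃ i, x = i + 2 := ⟨x - 2, by omega⟩
  obtain ⟨j, rfl⟩ : ∃ j, y = i + 3 + j := ⟨y - i - 3, by omega⟩
  obtain ⟨k, rfl⟩ : ∃ k, z = i + 3 + j + k := ⟨z - (i + 3 + j), by omega⟩
  have key := framework3 (T := Fin 1) ![i + 2, i + 3 + j, i + 3 + j + k] ![0] ![i + 2]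
    ![![![0, 0, 0], ![0, 0, i + 3 + j], ![0, i + 3 + j, 0]]]
    ((i + 3 + j) + (i + 3 + j + k)) ![0, i + 3 + j, i + 3 + j + k]
    ![0, (i + 3 + j) * (j + 1), (i + 3 + j + k) * (j + k) + (i + 3 + j)]
    (by simpa [Fin.sum_univ_three] using heven)
    (by intro a b c; fin_cases a; fin_cases b <;> fin_cases c <;> simp)
    (by intro a b; fin_cases a; fin_cases b <;> simp)
    (by intro a b; fin_cases a; fin_cases b <;> simp [Fin.sum_univ_three])
    (by
      intro b c hbc
      fin_cases b <;> fin_cases c <;> simp at hbc ⊢ <;> linarith)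
    (by intro b; fin_cases b <;> simp)
    (by simp [Fin.sum_univ_three])
    (by
      intro b
      fin_cases b
      · simp [Fin.sum_univ_three]
        have e : i + 2 + (i + 3 + j) + (i + 3 + j + k) - (i + 2) =
          (i + 3 + j) + (i + 3 + j + k) := by omega
        rw [e]; ring
      · simp [Fin.sum_univ_three]
        have e : i + 2 + (i + 3 + j) + (i + 3 + j + k) - (i + 3 + j) =
          (i + 2) + (i + 3 + j + k) := by omega
        rw [e]; ring
      · simp [Fin.sum_univ_three]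
        ring)
    (by simp; nlinarith) (by simp; nlinarith) (by simp; nlinarith) (by simp; nlinarith)
    (by simp; nlinarith) (by simp; nlinarith) ?_
  · have e : Fintype.card (Fin 1) + ((i + 3 + j) + (i + 3 + j + k)) =
        (i + 3 + j) + (i + 3 + j + k) + 1 := by simp; ring
    rw [e] at key
    exact key
  · simp
    nlinarith

/-- Three equal even parts. -/
theorem caseB1 (m : ℕ) (hm : 2 ≤ m) (heven : Even m) : Col ![m, m, m] (m + m + 1) := by
  obtain ⟨i, rfl⟩ : ∃ i, m = i + 2 := ⟨m - 2, by omega⟩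
  have key := framework3 (T := Fin 3) ![i + 2, i + 2, i + 2] ![0, 1, 2] ![i + 2, i + 2, i + 2]
    ![![![0, 0, 0], ![0, 0, i + 2], ![0, i + 2, 0]], ![![0, 0, i + 2], ![0, 0, 0], ![i + 2, 0, 0]],
      ![![0, i + 2, 0], ![i + 2, 0, 0], ![0, 0, 0]]]
    (2 * i + 2) ![0, 0, 0] ![0, 0, 0]
    (by
      have h : i + 2 + (i + 2) + (i + 2) = 3 * (i + 2) := by ring
      simp only [Fin.sum_univ_three, Matrix.cons_val_zero, Matrix.cons_val_one, Matrix.cons_val]
      rw [h]
      exact heven.mul_left 3)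
    (by intro a b c; fin_cases a <;> fin_cases b <;> fin_cases c <;> simp)
    (by intro a b; fin_cases a <;> fin_cases b <;> simp)
    (by intro a b; fin_cases a <;> fin_cases b <;> simp [Fin.sum_univ_three])
    (by
      intro b c hbc
      fin_cases b <;> fin_cases c <;> simp [Fin.sum_univ_three] at hbc ⊢)
    (by intro b; fin_cases b <;> simp [Fin.sum_univ_three])
    (by simp [Fin.sum_univ_three])
    (by
      intro b
      fin_cases b <;> simp [Fin.sum_univ_three] <;> ring)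
    (by simp [Fin.sum_univ_three]; nlinarith) (by simp [Fin.sum_univ_three]; nlinarith)
    (by simp [Fin.sum_univ_three]; nlinarith) (by simp [Fin.sum_univ_three]; nlinarith)
    (by simp [Fin.sum_univ_three]; nlinarith) (by simp [Fin.sum_univ_three]; nlinarith) ?_
  · have e : Fintype.card (Fin 3) + (2 * i + 2) = (i + 2) + (i + 2) + 1 := by simp; ring
    rw [e] at key
    exact key
  · simp

/-- Two equal even parts and a bigger part. -/
theorem caseB2 (m z : ℕ) (hm : 2 ≤ m) (hz : m + 2 ≤ z) (heven : Even z) :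
    Col ![m, m, z] (m + z + 1) := by
  obtain ⟨i, rfl⟩ : ∃ i, m = i + 2 := ⟨m - 2, by omega⟩
  obtain ⟨k, rfl⟩ : ∃ k, z = i + 4 + k := ⟨z - (i + 4), by omega⟩
  have key := framework3 (T := Fin 2) ![i + 2, i + 2, i + 4 + k] ![0, 1] ![i + 2, i + 2]
    ![![![0, 0, 0], ![0, 0, i + 2], ![0, i + 2, 0]], ![![0, 0, i + 2], ![0, 0, 0], ![i + 2, 0, 0]]]
    (i + 2 + (i + 3 + k)) ![0, 0, i + 4 + k] ![0, 0, (i + 4 + k) * k + 2 * (i + 2)]
    (by
      have h : i + 2 + (i + 2) + (i + 4 + k) = 2 * (i + 2) + (i + 4 + k) := by ring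
      simp only [Fin.sum_univ_three, Matrix.cons_val_zero, Matrix.cons_val_one, Matrix.cons_val]
      rw [h]
      exact (even_two_mul _).add heven)
    (by intro a b c; fin_cases a <;> fin_cases b <;> fin_cases c <;> simp)
    (by intro a b; fin_cases a <;> fin_cases b <;> simp)
    (by intro a b; fin_cases a <;> fin_cases b <;> simp [Fin.sum_univ_three] <;> omega)
    (by
      intro b c hbc
      fin_cases b <;> fin_cases c <;> simp [Fin.sum_univ_two] at hbc ⊢ <;> linarith)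
    (by intro b; fin_cases b <;> simp [Fin.sum_univ_two])
    (by simp [Fin.sum_univ_three]; omega)
    (by
      intro b
      fin_cases b
      · simp [Fin.sum_univ_three, Fin.sum_univ_two]
        have e : i + 2 + (i + 2) + (i + 4 + k) - (i + 2) = (i + 2) + (i + 4 + k) := by omega
        rw [e]; ring
      · simp [Fin.sum_univ_three, Fin.sum_univ_two]
        have e : i + 2 + (i + 2) + (i + 4 + k) - (i + 2) = (i + 2) + (i + 4 + k) := by omega
        rw [e]; ring
      · simp [Fin.sum_univ_three, Fin.sum_univ_two]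
        ring)
    (by simp [Fin.sum_univ_two]; nlinarith) (by simp [Fin.sum_univ_two]; nlinarith)
    (by simp [Fin.sum_univ_two]; nlinarith) (by simp [Fin.sum_univ_two]; nlinarith)
    (by simp [Fin.sum_univ_two]; nlinarith) (by simp [Fin.sum_univ_two]; nlinarith) ?_
  · have e : Fintype.card (Fin 2) + (i + 2 + (i + 3 + k)) = (i + 2) + (i + 4 + k) + 1 := by
      simp; ring
    rw [e] at key
    exact key
  · simp
    nlinarith

/-- Two equal odd parts `m` and a part `m + 1`. -/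
theorem caseB3 (m : ℕ) (hm : 3 ≤ m) (hodd : Odd m) : Col ![m, m, m + 1] (m + (m + 1) + 1) := by
  obtain ⟨i, rfl⟩ : ∃ i, m = i + 3 := ⟨m - 3, by omega⟩
  have key := framework3 (T := Fin 3) ![i + 3, i + 3, i + 4] ![0, 1, 2] ![i + 2, i + 2, i + 4]
    ![![![0, 0, 1], ![0, 0, i + 3], ![1, i + 3, 0]], ![![0, 0, i + 3], ![0, 0, 1], ![i + 3, 1, 0]],
      ![![0, i + 3, 0], ![i + 3, 0, 0], ![0, 0, 0]]]
    (2 * i + 5) ![1, 1, 0] ![0, 0, i + 4]
    (by
      have h : i + 3 + (i + 3) + (i + 4) = 2 * (i + 3) + (i + 3 + 1) := by ring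
      simp only [Fin.sum_univ_three, Matrix.cons_val_zero, Matrix.cons_val_one, Matrix.cons_val]
      rw [h]
      exact (even_two_mul _).add hodd.add_one)
    (by intro a b c; fin_cases a <;> fin_cases b <;> fin_cases c <;> simp)
    (by intro a b; fin_cases a <;> fin_cases b <;> simp)
    (by intro a b; fin_cases a <;> fin_cases b <;> simp [Fin.sum_univ_three] <;> omega)
    (by
      intro b c hbc
      fin_cases b <;> fin_cases c <;> simp [Fin.sum_univ_three] at hbc ⊢ <;> nlinarith)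
    (by intro b; fin_cases b <;> simp [Fin.sum_univ_three])
    (by simp [Fin.sum_univ_three])
    (by
      intro b
      fin_cases b
      · simp [Fin.sum_univ_three]
        have e : i + 3 + (i + 3) + (i + 4) - (i + 3) = (i + 3) + (i + 4) := by omega
        rw [e]; ring
      · simp [Fin.sum_univ_three]
        have e : i + 3 + (i + 3) + (i + 4) - (i + 3) = (i + 3) + (i + 4) := by omega
        rw [e]; ring
      · simp [Fin.sum_univ_three]
        ring)
    (by simp [Fin.sum_univ_three]; nlinarith) (by simp [Fin.sum_univ_three]; nlinarith)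
    (by simp [Fin.sum_univ_three]; nlinarith) (by simp [Fin.sum_univ_three]; nlinarith)
    (by simp [Fin.sum_univ_three]; nlinarith) (by simp [Fin.sum_univ_three]; nlinarith) ?_
  · have e : Fintype.card (Fin 3) + (2 * i + 5) = (i + 3) + (i + 3 + 1) + 1 := by simp; ring
    rw [e] at key
    exact key
  · simp

/-- Two equal odd parts `m` and a part of size at least `m + 3`. -/
theorem caseB4 (m z : ℕ) (hm : 3 ≤ m) (hz : m + 3 ≤ z) (heven : Even z) :
    Col ![m, m, z] (m + z + 1) := by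
  obtain ⟨i, rfl⟩ : ∃ i, m = i + 3 := ⟨m - 3, by omega⟩
  obtain ⟨k, rfl⟩ : ∃ k, z = i + 6 + k := ⟨z - (i + 6), by omega⟩
  have key := framework3 (T := Fin 2) ![i + 3, i + 3, i + 6 + k] ![0, 1] ![i + 2, i + 2]
    ![![![0, 0, 1], ![0, 0, i + 3], ![1, i + 3, 0]], ![![0, 0, i + 3], ![0, 0, 1], ![i + 3, 1, 0]]]
    (i + 3 + (i + 5 + k)) ![1, 1, i + 6 + k] ![0, 0, (i + 6 + k) * (k + 1) + 2 * (i + 3) + 2]
    (by
      have h : i + 3 + (i + 3) + (i + 6 + k) = 2 * (i + 3) + (i + 6 + k) := by ring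
      simp only [Fin.sum_univ_three, Matrix.cons_val_zero, Matrix.cons_val_one, Matrix.cons_val]
      rw [h]
      exact (even_two_mul _).add heven)
    (by intro a b c; fin_cases a <;> fin_cases b <;> fin_cases c <;> simp)
    (by intro a b; fin_cases a <;> fin_cases b <;> simp)
    (by intro a b; fin_cases a <;> fin_cases b <;> simp [Fin.sum_univ_three] <;> omega)
    (by
      intro b c hbc
      fin_cases b <;> fin_cases c <;> simp [Fin.sum_univ_two] at hbc ⊢ <;> nlinarith)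
    (by intro b; fin_cases b <;> simp [Fin.sum_univ_two])
    (by simp [Fin.sum_univ_three]; omega)
    (by
      intro b
      fin_cases b
      · simp [Fin.sum_univ_three, Fin.sum_univ_two]
        have e : i + 3 + (i + 3) + (i + 6 + k) - (i + 3) = (i + 3) + (i + 6 + k) := by omega
        rw [e]; ring
      · simp [Fin.sum_univ_three, Fin.sum_univ_two]
        have e : i + 3 + (i + 3) + (i + 6 + k) - (i + 3) = (i + 3) + (i + 6 + k) := by omega
        rw [e]; ring
      · simp [Fin.sum_univ_three, Fin.sum_univ_two]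
        ring)
    (by simp [Fin.sum_univ_two]; nlinarith) (by simp [Fin.sum_univ_two]; nlinarith)
    (by simp [Fin.sum_univ_two]; nlinarith) (by simp [Fin.sum_univ_two]; nlinarith)
    (by simp [Fin.sum_univ_two]; nlinarith) (by simp [Fin.sum_univ_two]; nlinarith) ?_
  · have e : Fintype.card (Fin 2) + (i + 3 + (i + 5 + k)) = (i + 3) + (i + 6 + k) + 1 := by
      simp; ring
    rw [e] at key
    exact key
  · simp
    nlinarith

theorem sum_fin2 (S : Finset (Fin 2)) (f : Fin 2 → ℤ) :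
    ∑ k ∈ S, f k = (if (0 : Fin 2) ∈ S then f 0 else 0) + (if (1 : Fin 2) ∈ S then f 1 else 0) := by
  have h : ∑ k ∈ S, f k = ∑ k, if k ∈ S then f k else 0 := by
    rw [Finset.sum_ite_mem, Finset.univ_inter]
  rw [h, Fin.sum_univ_two]

theorem col_two (x y : ℕ) (hx : 0 < x) (hxy : x < y) (heven : Even (x + y)) :
    Col ![x, y] (y + 1) := by
  obtain ⟨i, rfl⟩ : ∃ i, x = i + 1 := ⟨x - 1, by omega⟩
  obtain ⟨j, rfl⟩ : ∃ j, y = i + 3 + j := by
    obtain ⟨r, hr⟩ := heven
    exact ⟨y - (i + 3), by omega⟩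
  obtain ⟨u, w, huw, hε, hsum⟩ := exists_signs_even ![i + 1, i + 3 + j] (by
    simpa [Fin.sum_univ_two] using heven)
  rw [Fin.sum_univ_two] at hsum
  have hle : ∀ k, |((u k : ℤ) - w k)| ≤ 1 := by
    intro k
    refine (hε k).trans ?_
    have : (![i + 1, i + 3 + j] : Fin 2 → ℕ) k % 2 ≤ 1 := by omega
    exact_mod_cast this
  have hu0 := abs_le.1 (hle 0)
  have hu1 := abs_le.1 (hle 1)
  have hcard : Fintype.card (Fin 1) + (i + 3 + j) = i + 3 + j + 1 := by simp; ring
  rw [← hcard]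
  refine framework ![i + 1, i + 3 + j] (fun _ : Fin 1 => 0) (fun _ => i + 1) (fun _ _ _ => 0)
    (i + 3 + j) ![0, i + 3 + j] ![0, (i + 3 + j) * (j + 1)] u w ?_ ?_ ?_ ?_ ?_ ?_ huw ?_ ?_ ?_
  · intro a b c; rfl
  · intro a b; rfl
  · intro a b; fin_cases b <;> simp
  · intro b c _; simp
  · intro b; fin_cases b <;> simp
  · simp [Fin.sum_univ_two]
  · intro b
    fin_cases b
    · simp [Fin.sum_univ_two]
      ring
    · simp [Fin.sum_univ_two]
      ring
  · intro S
    simp only [sum_fin2, Finset.mem_compl]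
    by_cases m0 : (0 : Fin 2) ∈ S <;> by_cases m1 : (1 : Fin 2) ∈ S
    all_goals
      simp only [m0, m1, if_true, if_false, not_true, not_false_iff, Matrix.cons_val_zero,
        Matrix.cons_val_one, Matrix.cons_val_fin_one]
      push_cast
      try simp only [Finset.sum_const_zero]
      nlinarith
  · intro S
    simp only [sum_fin2, Finset.mem_compl]
    by_cases m0 : (0 : Fin 2) ∈ S <;> by_cases m1 : (1 : Fin 2) ∈ S
    all_goals
      simp only [m0, m1, if_true, if_false, not_true, not_false_iff, Matrix.cons_val_zero,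
        Matrix.cons_val_one, Matrix.cons_val_fin_one]
      push_cast
      try simp only [Finset.sum_const_zero]
      nlinarith

theorem col_three (x y z : ℕ) (hx : 2 ≤ x) (hxy : x ≤ y) (hyz : y ≤ z) (heven : Even (x + y + z))
    (hdef : x % 2 + y % 2 + z % 2 ≤ y * (y - x) + z * (z - x)) :
    Col ![x, y, z] (y + z + 1) := by
  rcases Nat.lt_or_ge x y with h | h
  · exact caseA x y z hx h hyz heven
  · have hy : y = x := le_antisymm h hxy
    subst hy
    have hz : Even z := by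
      obtain ⟨r, hr⟩ := heven
      exact ⟨r - y, by omega⟩
    rcases Nat.even_or_odd y with hm | hm
    · by_cases hzy : z = y
      · subst hzy
        exact caseB1 z hx hm
      · apply caseB2 y z hx _ hz
        obtain ⟨r, hr⟩ := hz
        obtain ⟨t, ht⟩ := hm
        omega
    · have h3 : 3 ≤ y := by
        obtain ⟨t, ht⟩ := hm
        omega
      have hzy : z ≠ y := by
        intro e
        rw [e] at hz
        exact (Nat.not_odd_iff_even.2 hz) hm
      by_cases hz1 : z = y + 1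
      · subst hz1
        exact caseB3 y h3 hm
      · apply caseB4 y z h3 _ hz
        obtain ⟨r, hr⟩ := hz
        obtain ⟨t, ht⟩ := hm
        omega

end TCM
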