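import Pool.Agent.Lib.MP_c70440_co.ColOne
import Pool.Agent.Lib.MP_c70440_co.ColThree
import Pool.Agent.Lib.MP_c70440_co.MinTwo
import Pool.Agent.Lib.MP_c70440_co.TwoThreeParts
import Pool.Agent.Lib.MP_c70440_co.Lower
import Pool.Agent.Lib.MP_c70440_co.OddCase

set_option autoImplicit false
set_option maxHeartbeats 4000000

namespace TCM

open Finset

theorem sum_mod_card {V : Type} [Fintype V] (a : V → ℕ) :
    ∑ k, a k % 2 = (Finset.univ.filter (fun i => Odd (a i))).card := by
  rw [Finset.card_eq_sum_ones, Finset.sum_filter]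
  apply Finset.sum_congr rfl
  intro k _
  by_cases h : Odd (a k)
  · rw [if_pos h]
    exact Nat.odd_iff.1 h
  · rw [if_neg h]
    rw [Nat.not_odd_iff_even] at h
    exact Nat.even_iff.1 h

/-- Odd order: `n - m + 1` colours suffice. -/
theorem col_odd_all {V : Type} [Fintype V] [DecidableEq V] (a : V → ℕ) (m : ℕ) (k1 : V)
    (hk1 : a k1 = m) (hmin : ∀ k, m ≤ a k) (hm : 0 < m) (hodd : Odd (∑ k, a k)) :
    Col a ((∑ k, a k) - m + 1) := by
  have hle : m ≤ ∑ k, a k := by
    rw [← hk1]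
    exact Finset.single_le_sum (f := a) (fun _ _ => Nat.zero_le _) (Finset.mem_univ k1)
  rcases Nat.lt_or_ge m 2 with h | h
  · have e : (∑ k, a k) - m + 1 = ∑ k, a k := by omega
    rw [e]
    exact col_odd_n a hodd
  · exact col_odd a m k1 hk1 hmin h hodd

theorem adm_of {V : Type} [Fintype V] [DecidableEq V] (a : V → ℕ) (m : ℕ)
    (hex : ∃ k, a k = m) (hmin : ∀ k, m ≤ a k) (heven : Even (∑ k, a k))
    (hdef : ∑ k, a k % 2 ≤ ∑ k, a k * (a k - m)) : Adm m a := by
  refine ⟨hmin, hex, heven, ?_⟩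
  have h2 : ((∑ k, a k * (a k - m) : ℕ) : ℤ) = ∑ k, (a k : ℤ) * (a k - m) := by
    rw [Nat.cast_sum]
    apply Finset.sum_congr rfl
    intro k _
    rw [Nat.cast_mul, Nat.cast_sub (hmin k)]
  have h3 : ((∑ k, a k % 2 : ℕ) : ℤ) ≤ ((∑ k, a k * (a k - m) : ℕ) : ℤ) := by exact_mod_cast hdef
  simp only [Fc]
  rw [Finset.sum_sub_distrib, ← h2]
  push_cast at h3 ⊢
  linarith

theorem col_single {V : Type} [Fintype V] [DecidableEq V] (a : V → ℕ) (k1 : V)
    (hV : ∀ k, k = k1) (N : ℕ) : Col a (N + 1) := by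
  refine ⟨⟨fun _ => 0, fun _ _ => 0, fun _ _ _ => rfl, ?_, ?_, ?_⟩⟩
  · intro u v huv
    exact absurd ((hV u.1).trans (hV v.1).symm) huv
  · intro u v huv
    exact absurd ((hV u.1).trans (hV v.1).symm) huv
  · intro u v w huv
    exact absurd ((hV u.1).trans (hV v.1).symm) huv

/-- Two parts of different sizes. -/
theorem col_two' (a : Fin 2 → ℕ) (m : ℕ) (hm : 0 < m) (hex : ∃ k, a k = m) (hmin : ∀ k, m ≤ a k)
    (heven : Even (∑ k, a k)) (hne : ¬ ∀ i j, a i = a j) : Col a ((∑ k, a k) - m + 1) := by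
  rw [Fin.sum_univ_two] at heven ⊢
  have h0 := hmin 0
  have h1 := hmin 1
  have hex' : a 0 = m ∨ a 1 = m := by
    obtain ⟨k, hk⟩ := hex
    fin_cases k
    · left; exact hk
    · right; exact hk
  have hne' : a 0 ≠ a 1 := by
    intro h
    apply hne
    intro i j
    fin_cases i <;> fin_cases j <;> simp [h]
  rcases Nat.lt_or_ge (a 0) (a 1) with h | h
  · have hc := col_two (a 0) (a 1) (by omega) h heven
    have e : a 0 + a 1 - m + 1 = a 1 + 1 := by omega
    rw [e]
    have e2 : ![a 0, a 1] = a := by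
      funext i
      fin_cases i <;> rfl
    rw [e2] at hc
    exact hc
  · have hc := col_two (a 1) (a 0) (by omega) (by omega) (by rw [add_comm]; exact heven)
    have e : a 0 + a 1 - m + 1 = a 0 + 1 := by omega
    rw [e]
    refine hc.of_equiv (Equiv.swap 0 1) ?_
    intro i
    fin_cases i <;> simp

/-- Three parts. -/
theorem col_three' (a : Fin 3 → ℕ) (m : ℕ) (hm : 2 ≤ m) (hex : ∃ k, a k = m)
    (hmin : ∀ k, m ≤ a k) (heven : Even (∑ k, a k))
    (hdef : ∑ k, a k % 2 ≤ ∑ k, a k * (a k - m)) : Col a ((∑ k, a k) - m + 1) := by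
  let σ := Tuple.sort a
  let b : Fin 3 → ℕ := a ∘ σ
  have hmono : Monotone b := Tuple.monotone_sort a
  have hsum : ∀ f : ℕ → ℕ, ∑ k, f (b k) = ∑ k, f (a k) := fun f =>
    Equiv.sum_comp σ (fun k => f (a k))
  have h01 : b 0 ≤ b 1 := hmono (by decide)
  have h12 : b 1 ≤ b 2 := hmono (by decide)
  have hb0 : b 0 = m := by
    obtain ⟨k, hk⟩ := hex
    have h1 : b 0 ≤ b (σ.symm k) := hmono (Fin.zero_le _)
    have h2 : b (σ.symm k) = m := by simp [b, hk]
    have h3 : m ≤ b 0 := hmin _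
    omega
  have hs : ∑ k, a k = b 0 + b 1 + b 2 := by
    have := hsum (fun x => x)
    rw [← this, Fin.sum_univ_three]
  have hd : b 0 % 2 + b 1 % 2 + b 2 % 2 ≤ b 1 * (b 1 - b 0) + b 2 * (b 2 - b 0) := by
    have h1 := hsum (fun x => x % 2)
    have h2 := hsum (fun x => x * (x - m))
    rw [← h1, ← h2, Fin.sum_univ_three, Fin.sum_univ_three] at hdef
    rw [hb0] at hdef ⊢
    simpa using hdef
  have hc := col_three (b 0) (b 1) (b 2) (by omega) h01 h12 (by rw [← hs]; exact heven) hd
  have e : (∑ k, a k) - m + 1 = b 1 + b 2 + 1 := by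
    rw [hs, hb0]
    omega
  rw [e]
  refine hc.of_equiv σ.symm ?_
  intro i
  have e2 : ![b 0, b 1, b 2] = b := by
    funext i
    fin_cases i <;> rfl
  rw [e2]
  simp [b]

/-- Upper bound: `Δ + 1` colours unless one of the two exceptional conditions holds. -/
theorem upper (p : ℕ) (a : Fin p → ℕ) (hpos : ∀ i, 0 < a i) (m : ℕ) (hex : ∃ i, a i = m)
    (hmin : ∀ i, m ≤ a i) (h1 : ¬ (p = 2 ∧ ∀ i j, a i = a j))
    (h2 : ¬ (Even (∑ i, a i) ∧
      (∑ i, (a i * (a i - m))) < (Finset.univ.filter (fun i => Odd (a i))).card)) :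
    Col a ((∑ i, a i) - m + 1) := by
  have hm : 0 < m := by
    obtain ⟨i, hi⟩ := hex
    rw [← hi]; exact hpos i
  obtain ⟨k1, hk1⟩ := hex
  rcases Nat.even_or_odd (∑ i, a i) with heven | hodd
  · have hdef : ∑ k, a k % 2 ≤ ∑ k, a k * (a k - m) := by
      rw [sum_mod_card]
      by_contra hne
      push Not at hne
      exact h2 ⟨heven, hne⟩
    have hadm := adm_of a m ⟨k1, hk1⟩ hmin heven hdef
    rcases Nat.lt_or_ge m 2 with hm1 | hm2
    · have : m = 1 := by omega
      subst this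
      exact col_one a hadm
    · rcases Nat.lt_or_ge p 4 with hp | hp
      · interval_cases p
        · exact k1.elim0
        · exact col_single a k1 (fun k => Subsingleton.elim _ _) _
        · exact col_two' a m hm ⟨k1, hk1⟩ hmin heven (fun h => h1 ⟨rfl, h⟩)
        · exact col_three' a m hm2 ⟨k1, hk1⟩ hmin heven hdef
      · have hcard : 4 ≤ Fintype.card (Fin p) := by rw [Fintype.card_fin]; exact hp
        rcases Nat.lt_or_ge m 4 with hm4 | hm4
        · interval_cases m
          · exact col_min_two a (by omega) hadm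
          · exact col_min_three a hcard hadm
        · exact col_ge4 m hm4 a hcard hadm
  · exact col_odd_all a m k1 hk1 hmin hm hodd

/-- Even order, at least two parts: `Δ + 2` colours suffice. -/
theorem upper_succ {V : Type} [Fintype V] [DecidableEq V] (a : V → ℕ) (m : ℕ) (k1 k2 : V)
    (hk : k2 ≠ k1) (hk1 : a k1 = m) (hmin : ∀ k, m ≤ a k) (hm : 0 < m)
    (heven : Even (∑ k, a k)) : Col a ((∑ k, a k) - m + 2) := by
  let a' : V → ℕ := fun k => if k = k2 then a k + 1 else a k
  have hsum : ∑ k, a' k = ∑ k, a k + 1 := by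
    simp only [a']
    rw [← Finset.add_sum_erase _ _ (Finset.mem_univ k2),
      ← Finset.add_sum_erase _ a (Finset.mem_univ k2), if_pos rfl]
    have h1 : ∑ k ∈ Finset.univ.erase k2, (if k = k2 then a k + 1 else a k) =
        ∑ k ∈ Finset.univ.erase k2, a k := by
      apply Finset.sum_congr rfl
      intro k hk
      rw [Finset.mem_erase] at hk
      rw [if_neg hk.1]
    rw [h1]
    omega
  have hodd : Odd (∑ k, a' k) := by
    rw [hsum]
    exact heven.add_one
  have hle : m ≤ ∑ k, a k := by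
    rw [← hk1]
    exact Finset.single_le_sum (f := a) (fun _ _ => Nat.zero_le _) (Finset.mem_univ k1)
  have hc := col_odd_all a' m k1 (by simp only [a', if_neg (Ne.symm hk)]; exact hk1)
    (by
      intro k
      have := hmin k
      simp only [a']
      split_ifs <;> omega) hm hodd
  have e : (∑ k, a' k) - m + 1 = (∑ k, a k) - m + 2 := by omega
  rw [e] at hc
  apply hc.of_le
  intro k
  simp only [a']
  split_ifs <;> omega

theorem hoffman_rodger : ∀ (p : ℕ) (a : Fin p → ℕ), (∀ i, 0 < a i) → ∀ m : ℕ,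
    (∃ i, a i = m) → (∀ i, m ≤ a i) →
      ((¬ FCol a ((∑ i, a i) - m + 1) ∧ FCol a ((∑ i, a i) - m + 2)) ↔
      ((p = 2 ∧ ∀ i j, a i = a j) ∨
        (Even (∑ i, a i) ∧
          (∑ i, (a i * (a i - m))) < (Finset.univ.filter (fun i => Odd (a i))).card))) := by
  intro p a hpos m hex hmin
  rw [FCol_iff, FCol_iff]
  have hm : 0 < m := by
    obtain ⟨i, hi⟩ := hex
    rw [← hi]; exact hpos i
  constructor
  · rintro ⟨h1, _⟩
    by_contra hne
    push Not at hne
    apply h1
    apply upper p a hpos m hex hmin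
    · rintro ⟨h2, h3⟩
      obtain ⟨i, j, hij⟩ := hne.1 h2
      exact hij (h3 i j)
    · rintro ⟨h2, h3⟩
      have := hne.2 h2
      omega
  · rintro (⟨h1, h2⟩ | ⟨h1, h2⟩)
    · subst h1
      obtain ⟨k1, hk1⟩ := hex
      have hall : ∀ i, a i = m := fun i => (h2 i k1).trans hk1
      have hsum : ∑ i, a i = m + m := by
        rw [Fin.sum_univ_two, hall, hall]
      constructor
      · have h3 := lower_two a m hm hall
        have e : (∑ i, a i) - m + 1 = m + 1 := by omega
        rw [e]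
        exact h3
      · exact upper_succ a m 0 1 (by decide) (hall 0) hmin hm ⟨m, hsum⟩
    · refine ⟨lower_even a hpos m hex hmin h1 h2, ?_⟩
      obtain ⟨k1, hk1⟩ := hex
      by_cases hk2 : ∃ k2, k2 ≠ k1
      · obtain ⟨k2, hk2⟩ := hk2
        exact upper_succ a m k1 k2 hk2 hk1 hmin hm h1
      · push Not at hk2
        exact col_single a k1 hk2 _

end TCM
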