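import Pool.Agent.Lib.MP_c70440_co.Basic
import Pool.Agent.Lib.MP_c70440_co.Decomp

set_option autoImplicit false

namespace TCM

open Finset

/-- Outline (amalgamated) total colouring. -/
structure Outline {W V C : Type} [Fintype W] [Fintype C] (π : W → V) (b : W → ℕ)
    (x : C → W → W → ℕ) (y : C → W → ℕ) : Prop where
  symm : ∀ c w w', x c w w' = x c w' w
  zero : ∀ c w w', π w = π w' → x c w w' = 0
  tot : ∀ w w', π w ≠ π w' → ∑ c, x c w w' = b w * b w'
  vtot : ∀ w, ∑ c, y c w = b w
  deg : ∀ c w, (∑ w', x c w w') + y c w ≤ b w
  vpart : ∀ c w w', y c w ≠ 0 → y c w' ≠ 0 → π w = π w'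

theorem exists_unique_of_sum_one {C : Type} [Fintype C] (f : C → ℕ) (h : ∑ c, f c = 1) :
    ∃ c, f c = 1 ∧ ∀ c', f c' ≠ 0 → c' = c := by
  classical
  have h1 : ∃ c, f c ≠ 0 := by
    by_contra hne
    push Not at hne
    rw [Finset.sum_congr rfl (fun c _ => hne c)] at h
    simp at h
  obtain ⟨c, hc⟩ := h1
  have h2 : f c + ∑ c' ∈ Finset.univ.erase c, f c' = 1 := by
    rw [Finset.add_sum_erase _ _ (Finset.mem_univ c)]
    exact h
  refine ⟨c, by omega, ?_⟩
  intro c' hc'
  by_contra hne
  have h3 : f c' ≤ ∑ c' ∈ Finset.univ.erase c, f c' :=
    Finset.single_le_sum (fun _ _ => Nat.zero_le _) (by simp [hne])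
  omega

theorem Outline.base {W V C : Type} [Fintype W] [Fintype C] {π : W → V} {b : W → ℕ}
    {x : C → W → W → ℕ} {y : C → W → ℕ} (h : Outline π b x y) (hb : ∀ w, b w ≤ 1) :
    HasTC (fun u : (Σ w, Fin (b w)) => π u.1) C := by
  classical
  have hb1 : ∀ u : (Σ w, Fin (b w)), b u.1 = 1 := by
    intro u
    have := u.2.pos
    have := hb u.1
    omega
  have huniq : ∀ u v : (Σ w, Fin (b w)), u.1 = v.1 → u = v := by
    rintro ⟨w, i⟩ ⟨w', i'⟩ hww
    dsimp only at hww
    subst hww
    have h1 := hb1 ⟨w, i⟩
    dsimp only at h1
    have : i = i' := by
      apply Fin.ext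
      have := i.2
      have := i'.2
      omega
    rw [this]
  have hv : ∀ u : (Σ w, Fin (b w)), ∃ c, y c u.1 = 1 ∧ ∀ c', y c' u.1 ≠ 0 → c' = c := by
    intro u
    apply exists_unique_of_sum_one
    rw [h.vtot, hb1]
  have he : ∀ u v : (Σ w, Fin (b w)), ∃ c, π u.1 ≠ π v.1 →
      (x c u.1 v.1 = 1 ∧ ∀ c', x c' u.1 v.1 ≠ 0 → c' = c) := by
    intro u v
    by_cases huv : π u.1 ≠ π v.1
    · obtain ⟨c, hc⟩ := exists_unique_of_sum_one (fun c => x c u.1 v.1)
        (by rw [h.tot _ _ huv, hb1, hb1])
      exact ⟨c, fun _ => hc⟩
    · obtain ⟨c, _⟩ := hv u
      exact ⟨c, fun h => absurd h huv⟩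
  choose cv hcv1 hcv2 using hv
  choose ce hce using he
  refine ⟨⟨cv, ce, ?_, ?_, ?_, ?_⟩⟩
  · intro u v huv
    have h1 := hce u v huv
    have h2 := hce v u (Ne.symm huv)
    apply h2.2
    rw [h.symm, h1.1]
    exact one_ne_zero
  · intro u v huv e
    apply huv
    apply h.vpart (cv u)
    · rw [hcv1]; exact one_ne_zero
    · rw [e, hcv1]; exact one_ne_zero
  · intro u v huv e
    have h1 := hce u v huv
    have h2 := h.deg (cv u) u.1
    rw [hcv1, hb1] at h2
    have h3 : x (cv u) u.1 v.1 ≤ ∑ w', x (cv u) u.1 w' :=
      Finset.single_le_sum (fun _ _ => Nat.zero_le _) (Finset.mem_univ v.1)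
    rw [e, h1.1] at h3
    rw [e] at h2
    omega
  · intro u v w huv huw hvw e
    have h1 := hce u v huv
    have h2 := hce u w huw
    have hne : v.1 ≠ w.1 := fun e => hvw (huniq _ _ e)
    have h3 := h.deg (ce u v) u.1
    rw [hb1] at h3
    have h4 : x (ce u v) u.1 v.1 + x (ce u v) u.1 w.1 ≤ ∑ w', x (ce u v) u.1 w' := by
      rw [← Finset.sum_pair hne]
      exact Finset.sum_le_sum_of_subset (Finset.subset_univ _)
    rw [h1.1] at h4
    rw [e, h2.1] at h4
    rw [e] at h3
    omega

theorem Outline.hasTC_aux : ∀ (k : ℕ) {W V C : Type} [Fintype W] [Fintype C] {π : W → V}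
    {b : W → ℕ} {x : C → W → W → ℕ} {y : C → W → ℕ} (_ : Outline π b x y)
    (_ : ∑ w, (b w - 1) = k), HasTC (fun u : (Σ w, Fin (b w)) => π u.1) C := by
  classical
  intro k
  induction k with
  | zero =>
    intro W V C _ _ π b x y h hk
    apply h.base
    intro w
    rw [Finset.sum_eq_zero_iff] at hk
    have := hk w (Finset.mem_univ w)
    omega
  | succ k ih =>
    intro W V C _ _ π b x y h hk
    have hex : ∃ w0, 2 ≤ b w0 := by
      by_contra hne
      push Not at hne
      have : ∑ w, (b w - 1) = 0 := Finset.sum_eq_zero (fun w _ => by have := hne w; omega)
      omega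
    obtain ⟨w0, hw0⟩ := hex
    obtain ⟨B, hB⟩ : ∃ B, b w0 = B + 1 := ⟨b w0 - 1, by omega⟩
    let M : C → Option W → ℕ := fun c o => match o with
      | none => y c w0
      | some w => x c w0 w
    let κ : Option W → ℕ := fun o => match o with
      | none => 1
      | some w => if π w = π w0 then 0 else b w
    have hMr : ∀ c, ∑ o, M c o ≤ (B + 1) * 1 := by
      intro c
      rw [Fintype.sum_option]
      simp only [M]
      have := h.deg c w0
      omega
    have hMc : ∀ o, ∑ c, M c o = (B + 1) * κ o := by
      rintro (_ | w)
      · simp only [M, κ]
        rw [h.vtot, hB, mul_one]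
      · simp only [M, κ]
        split_ifs with hw
        · rw [mul_zero]
          exact Finset.sum_eq_zero (fun c _ => h.zero c _ _ hw.symm)
        · rw [h.tot _ _ (Ne.symm hw), hB]
    obtain ⟨D, hD1, hD2, hD3, hD4, hD5⟩ :=
      bd_extract M B (fun _ => 1) κ hMr (fun o => (hMc o).le)
    have hDc : ∀ o, ∑ c, D c o = κ o ∧ ∑ c, (M c o - D c o) = B * κ o := by
      intro o
      have h1 := hD3 o
      have h2 := hD5 o
      have h3 := hMc o
      have h4 : ∑ c, M c o = ∑ c, D c o + ∑ c, (M c o - D c o) := by
        rw [← Finset.sum_add_distrib]
        exact Finset.sum_congr rfl (fun c _ => by have := hD1 c o; omega)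
      have h5 : (B + 1) * κ o = B * κ o + κ o := by ring
      constructor <;> omega
    let π' : Option W → V := fun o => match o with
      | none => π w0
      | some w => π w
    let b' : Option W → ℕ := fun o => match o with
      | none => 1
      | some w => if w = w0 then B else b w
    let x' : C → Option W → Option W → ℕ := fun c o o' => match o, o' with
      | none, none => 0
      | none, some w => D c (some w)
      | some w, none => D c (some w)
      | some w, some w' => if w = w0 then x c w0 w' - D c (some w') else
          if w' = w0 then x c w0 w - D c (some w) else x c w w'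
    let y' : C → Option W → ℕ := fun c o => match o with
      | none => D c none
      | some w => if w = w0 then y c w0 - D c none else y c w
    have hD0 : ∀ c w, π w = π w0 → D c (some w) = 0 := by
      intro c w hw
      have h1 := hD1 c (some w)
      simp only [M] at h1
      rw [h.zero c w0 w hw.symm] at h1
      omega
    have h' : Outline π' b' x' y' := by
      constructor
      · rintro c (_ | w) (_ | w')
        · rfl
        · rfl
        · rfl
        · simp only [x']
          split_ifs with h1 h2 h3
          · subst h1; subst h2; rfl
          · rfl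
          · rfl
          · exact h.symm c w w'
      · rintro c (_ | w) (_ | w') hww
        · rfl
        · exact hD0 c w' hww.symm
        · exact hD0 c w hww
        · simp only [x']
          have hww' : π w = π w' := hww
          split_ifs with h1 h2
          · subst h1
            rw [h.zero c w w' hww', Nat.zero_sub]
          · subst h2
            rw [h.zero c w' w hww'.symm, Nat.zero_sub]
          · exact h.zero c w w' hww'
      · rintro (_ | w) (_ | w') hww
        · exact absurd rfl hww
        · have hww' : π w0 ≠ π w' := hww
          simp only [x', b']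
          have h1 := (hDc (some w')).1
          simp only [κ] at h1
          rw [if_neg (Ne.symm hww')] at h1
          rw [if_neg (fun e => hww' (by rw [e])), one_mul]
          exact h1
        · have hww' : π w ≠ π w0 := hww
          simp only [x', b']
          have h1 := (hDc (some w)).1
          simp only [κ] at h1
          rw [if_neg hww'] at h1
          rw [if_neg (fun e => hww' (by rw [e])), mul_one]
          exact h1
        · have hww' : π w ≠ π w' := hww
          simp only [x', b']
          by_cases h1 : w = w0
          · subst h1
            have hne : ¬ (w' = w) := fun e => hww' (by rw [e])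
            simp only [if_true, if_neg hne]
            have h2 := (hDc (some w')).2
            simp only [κ, M] at h2
            rw [if_neg (Ne.symm hww')] at h2
            exact h2
          · simp only [if_neg h1]
            by_cases h2 : w' = w0
            · subst h2
              simp only [if_true]
              have h2 := (hDc (some w)).2
              simp only [κ, M] at h2
              rw [if_neg hww'] at h2
              rw [h2, mul_comm]
            · simp only [if_neg h2]
              exact h.tot w w' hww'
      · rintro (_ | w)
        · simp only [y', b']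
          exact (hDc none).1
        · simp only [y', b']
          split_ifs with h1
          · have h2 := (hDc none).2
            simp only [κ, M, mul_one] at h2
            exact h2
          · exact h.vtot w
      · rintro c (_ | w)
        · rw [Fintype.sum_option]
          simp only [x', y', b', zero_add]
          have h1 := hD2 c
          rw [Fintype.sum_option] at h1
          omega
        · rw [Fintype.sum_option]
          simp only [x', y', b']
          by_cases h1 : w = w0
          · subst h1
            simp only [if_true]
            have h2 := hD4 c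
            rw [Fintype.sum_option] at h2
            simp only [M] at h2
            have h3 := hD0 c w rfl
            omega
          · simp only [if_neg h1]
            have h2 : ∑ w', (if w' = w0 then x c w0 w - D c (some w) else x c w w') +
                D c (some w) = ∑ w', x c w w' := by
              rw [← Finset.add_sum_erase _ _ (Finset.mem_univ w0),
                ← Finset.add_sum_erase (Finset.univ) (fun w' => x c w w') (Finset.mem_univ w0)]
              simp only [if_true]
              have h3 : ∑ w' ∈ Finset.univ.erase w0,
                  (if w' = w0 then x c w0 w - D c (some w) else x c w w') =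
                  ∑ w' ∈ Finset.univ.erase w0, x c w w' := by
                apply Finset.sum_congr rfl
                intro w' hw'
                rw [Finset.mem_erase] at hw'
                rw [if_neg hw'.1]
              rw [h3]
              have h4 := hD1 c (some w)
              simp only [M] at h4
              have h5 := h.symm c w w0
              omega
            have h3 := h.deg c w
            omega
      · rintro c (_ | w) (_ | w') h1 h2
        · rfl
        · simp only [y'] at h1 h2
          have h3 := hD1 c none
          simp only [M] at h3
          show π w0 = π w'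
          split_ifs at h2 with h4
          · rw [h4]
          · exact h.vpart c w0 w' (by omega) h2
        · simp only [y'] at h1 h2
          have h3 := hD1 c none
          simp only [M] at h3
          show π w = π w0
          split_ifs at h1 with h4
          · rw [h4]
          · exact h.vpart c w w0 h1 (by omega)
        · simp only [y'] at h1 h2
          show π w = π w'
          split_ifs at h1 h2 with h4 h5 h5
          · rw [h4, h5]
          · rw [h4]
            exact h.vpart c w0 w' (by omega) h2
          · rw [h5]
            exact h.vpart c w w0 h1 (by omega)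
          · exact h.vpart c w w' h1 h2
    have hk' : ∑ o, (b' o - 1) = k := by
      rw [Fintype.sum_option]
      simp only [b']
      rw [← Finset.add_sum_erase _ _ (Finset.mem_univ w0)]
      rw [← Finset.add_sum_erase _ _ (Finset.mem_univ w0)] at hk
      simp only [if_true]
      have h3 : ∑ w' ∈ Finset.univ.erase w0, ((if w' = w0 then B else b w') - 1) =
          ∑ w' ∈ Finset.univ.erase w0, (b w' - 1) := by
        apply Finset.sum_congr rfl
        intro w' hw'
        rw [Finset.mem_erase] at hw'
        rw [if_neg hw'.1]
      rw [h3]
      omega
    have hTC := ih h' hk'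
    refine hTC.mono (fun u => if hu : u.1 = w0 ∧ u.2.val = B then
        ⟨none, ⟨0, by simp only [b']; exact Nat.one_pos⟩⟩
      else ⟨some u.1, ⟨u.2.val, ?_⟩⟩) ?_ ?_ id Function.injective_id
    · rcases u with ⟨w, i⟩
      have hi := i.2
      simp only [b']
      dsimp only at hu
      split_ifs with h1
      · subst h1
        simp only [true_and] at hu
        show i.val < B
        omega
      · exact hi
    · rintro ⟨w, i⟩ ⟨w', i'⟩ huv
      dsimp only at huv
      have hi := i.2
      have hi' := i'.2
      by_cases h1 : w = w0 ∧ i.val = B <;> by_cases h2 : w' = w0 ∧ i'.val = B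
      · obtain ⟨rfl, h1⟩ := h1
        obtain ⟨rfl, h2⟩ := h2
        rw [Fin.ext (h1.trans h2.symm)]
      · rw [dif_pos h1, dif_neg h2] at huv
        simp at huv
      · rw [dif_neg h1, dif_pos h2] at huv
        simp at huv
      · rw [dif_neg h1, dif_neg h2] at huv
        have hww : w = w' := by
          have := congrArg Sigma.fst huv
          simpa using this
        subst hww
        simp only [Sigma.mk.injEq, heq_eq_eq, true_and, Fin.mk.injEq] at huv
        rw [Fin.ext huv]
    · rintro ⟨w, i⟩ ⟨w', i'⟩ hww
      dsimp only at hww ⊢
      have hπ' : ∀ (w : W) (i : Fin (b w)), π' (if hu : w = w0 ∧ i.val = B then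
          (⟨none, ⟨0, by simp only [b']; exact Nat.one_pos⟩⟩ : Σ o, Fin (b' o))
          else ⟨some w, ⟨i.val, by
            have hi := i.2
            simp only [b']
            split_ifs with h1
            · subst h1
              simp only [true_and] at hu
              show i.val < B
              omega
            · exact hi⟩⟩).1 = π w := by
        intro w i
        by_cases h1 : w = w0 ∧ i.val = B
        · rw [dif_pos h1]
          show π w0 = π w
          rw [h1.1]
        · rw [dif_neg h1]
      rw [hπ' w i, hπ' w' i']
      exact hww

theorem Outline.hasTC {W V C : Type} [Fintype W] [Fintype C] {π : W → V}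
    {b : W → ℕ} {x : C → W → W → ℕ} {y : C → W → ℕ} (h : Outline π b x y) :
    HasTC (fun u : (Σ w, Fin (b w)) => π u.1) C :=
  Outline.hasTC_aux _ h rfl

end TCM
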