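import Pool.Agent.Lib.MP_c70440_co.GeFour
import Pool.Agent.Lib.MP_c70440_co.Exceptional

set_option autoImplicit false
set_option maxHeartbeats 4000000

namespace TCM

open Finset

theorem Specials.of_equiv {V V' : Type} [Fintype V] [DecidableEq V] [Fintype V'] [DecidableEq V']
    (e : V ≃ V') {a : V → ℕ} {a' : V' → ℕ} (he : ∀ k, a k = a' (e k))
    {G' : V' → V' → V' → ℕ} (h : Specials a' G') :
    Specials a (fun i j k => G' (e i) (e j) (e k)) := by
  constructor
  · intro i j k
    exact h.symm _ _ _
  · intro i j
    exact h.diag _ _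
  · intro i j
    rw [Equiv.sum_comp e (fun k => G' (e i) (e j) k), h.deg, he, he]
    by_cases hji : j = i
    · rw [if_pos hji, if_pos (by rw [hji])]
    · rw [if_neg hji, if_neg (fun h => hji (e.injective h))]
  · intro j k hjk
    rw [Equiv.sum_comp e (fun i => G' i (e j) (e k)), he, he]
    exact h.le _ _ (fun h => hjk (e.injective h))

theorem exists_equiv0 {V : Type} [Fintype V] [DecidableEq V] (p : ℕ)
    (hp : Fintype.card V = p + 1) (x : V) : ∃ e : V ≃ Fin (p + 1), e x = 0 := by
  let e0 := Fintype.equivFinOfCardEq hp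
  refine ⟨e0.trans (Equiv.swap (e0 x) 0), ?_⟩
  simp

theorem exists_equiv1 {V : Type} [Fintype V] [DecidableEq V] (p : ℕ)
    (hp : Fintype.card V = p + 2) (x y : V) (hxy : x ≠ y) :
    ∃ e : V ≃ Fin (p + 2), e x = 0 ∧ e y = 1 := by
  obtain ⟨e, he⟩ := exists_equiv0 (p + 1) hp x
  refine ⟨e.trans (Equiv.swap (e y) 1), ?_, ?_⟩
  · rw [Equiv.trans_apply, he, Equiv.swap_apply_of_ne_of_ne]
    · intro h
      rw [← he] at h
      exact hxy (e.injective h)
    · exact Fin.zero_ne_one
  · simp

theorem Fc3_ge (b : ℕ) (h : 3 ≤ b) : 5 * ((b : ℤ) - 3) - 1 ≤ Fc 3 b := by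
  simp only [Fc]
  obtain ⟨e, he⟩ : ∃ e, b = 3 + e := ⟨b - 3, by omega⟩
  subst he
  have hδ : (3 + e) % 2 + e % 2 = 1 := by omega
  rcases Nat.lt_or_ge e 3 with h1 | h1
  · interval_cases e <;> simp
  · have h2 : (((3 + e) % 2 : ℕ) : ℤ) ≤ 1 := by
      have : (3 + e) % 2 ≤ 1 := by omega
      exact_mod_cast this
    have h3 : (3 : ℤ) ≤ e := by exact_mod_cast h1
    push_cast at h2 ⊢
    nlinarith

theorem Fc3_big (b : ℕ) (h : 4 ≤ b) : 4 ≤ Fc 3 b := by
  have h1 := Fc3_ge b (by omega)
  have h2 : (4 : ℤ) ≤ b := by exact_mod_cast h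
  linarith

theorem exc_cases (A p E' N n : ℕ) (h3 : 3 ≤ A) (hA7 : A ≤ 7) (hp5 : 5 ≤ p)
    (hmain : n < 2 * A + 2 * p) (hn : n = N + N) (hnE : n = A + 3 * (p - 1) + E')
    (hir6 : A = 6 → 5 * E' < p + 1) (hir7 : A = 7 → 5 * E' + 4 < p) :
    (A = 4 ∧ p = 5 ∧ E' = 0) ∨ (A = 5 ∧ p = 6 ∧ E' = 0) ∨
        (A = 5 ∧ p = 5 ∧ E' = 1) ∨ (A = 6 ∧ p = 5 ∧ E' = 0) ∨
        (A = 6 ∧ p = 7 ∧ E' = 0) ∨ (A = 6 ∧ p = 6 ∧ E' = 1) ∨
        (A = 7 ∧ p = 6 ∧ E' = 0) ∨ (A = 7 ∧ p = 8 ∧ E' = 0) := by
  have hpE : p + E' ≤ A + 1 := by omega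
  have hp8 : p ≤ 8 := by omega
  have hE3 : E' ≤ 3 := by omega
  subst hn
  interval_cases A <;> interval_cases p <;> interval_cases E' <;> omega

/-- Specials for minimum part `3`, irreducible case, at least `4` parts. -/
theorem specials_three {V : Type} [Fintype V] [DecidableEq V] (a : V → ℕ)
    (hp : 4 ≤ Fintype.card V) (ha : Adm 3 a) (hir : Irr 3 a) :
    ∃ G : V → V → V → ℕ, Specials a G := by
  classical
  have hmin := ha.min
  have hb : ∀ j, Bnd 3 (Fintype.card V) (a j) := Irr.bnd ha hir
  have heven := ha.even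
  rcases Nat.lt_or_ge (Fintype.card V) 5 with hp4 | hp5
  · -- four parts
    have hp4' : Fintype.card V = 4 := by omega
    have hsmall : ∀ k, a k ≤ 6 := by
      intro k
      by_contra hk
      push Not at hk
      have h1 := (hb k).hi (by omega)
      rw [hp4'] at h1
      obtain ⟨c, hc⟩ : ∃ c, a k = 7 + c := ⟨a k - 7, by omega⟩
      have e1 : a k - 2 * 3 = c + 1 := by omega
      have e2 : a k - 3 = c + 4 := by omega
      rw [e1, e2] at h1
      rcases Nat.eq_zero_or_pos c with h4 | h4
      · subst h4
        omega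
      · have : 2 * 5 ≤ (c + 1) * (c + 4) := Nat.mul_le_mul (by omega) (by omega)
        omega
    apply specials_any a heven (fun k => by have := hmin k; omega) (by omega)
    · intro i k hik
      have h1 := sum_ge_two a 3 hmin i k hik
      have h2 := hsmall k
      rw [hp4'] at h1
      omega
    · intro j k hjk
      have hj := hmin j
      have hk := hmin k
      rw [hp4']
      have key : ∀ x y : ℕ, 3 ≤ x → x ≤ y → (4 - 2) * x + x % 2 + y % 2 ≤ x * y := by
        intro x y hx hxy
        have h1 : 3 * x ≤ y * x := Nat.mul_le_mul_right x (by omega)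
        have h3 : y * x = x * y := by ring
        omega
      rcases le_total (a j) (a k) with h | h
      · left
        exact key (a j) (a k) hj h
      · right
        have := key (a k) (a j) hk h
        rw [mul_comm (a j) (a k)]
        omega
  obtain ⟨k0, hk0⟩ := ha.ex
  obtain ⟨km, _, hkm⟩ := Finset.exists_max_image Finset.univ a ⟨k0, Finset.mem_univ k0⟩
  have hkm' : ∀ k, a k ≤ a km := fun k => hkm k (Finset.mem_univ k)
  -- irreducibility at a part of size at least 6
  have hirr : ∀ k, 6 ≤ a k → ∑ j ∈ Finset.univ.erase k, Fc 3 (a j) < 1 - Fc 3 (a k - 3) := by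
    intro k hk
    have h1 := hir k hk
    rw [← Finset.add_sum_erase _ _ (Finset.mem_univ k)] at h1
    have h2 : Fc 3 3 = -1 := by simp [Fc]
    linarith
  by_cases hmain : 2 * a km + 2 * Fintype.card V ≤ ∑ k, a k
  · -- Dirac in decreasing order
    obtain ⟨p, hpp⟩ : ∃ p, p = Fintype.card V := ⟨_, rfl⟩
    rw [← hpp] at hp5 hmain
    let idx : V → ℕ := fun k => (Fintype.equivFin V k).val
    have hidx : ∀ k, idx k < p := fun k => by rw [hpp]; exact (Fintype.equivFin V k).2
    let ord : V → ℕ := fun k => (a km - a k) * p + idx k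
    have hord : Function.Injective ord := by
      intro x y h
      have h1 : ((a km - a x) * p + idx x) % p = ((a km - a y) * p + idx y) % p :=
        congrArg (· % p) h
      rw [Nat.mul_add_mod', Nat.mul_add_mod', Nat.mod_eq_of_lt (hidx x),
        Nat.mod_eq_of_lt (hidx y)] at h1
      exact (Fintype.equivFin V).injective (Fin.ext h1)
    have hordle : ∀ i j, ord j < ord i → a i ≤ a j := by
      intro i j h
      by_contra hne
      push Not at hne
      have h1 := hidx i
      have h2 := hkm' i
      have h3 : a km - a i + 1 ≤ a km - a j := by omega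
      have h4 : (a km - a i + 1) * p ≤ (a km - a j) * p := Nat.mul_le_mul_right p h3
      have h5 : (a km - a i + 1) * p = (a km - a i) * p + p := by ring
      simp only [ord] at h
      omega
    have hpos : ∀ i, Finset.univ.filter (fun j => ord j < ord i) ⊆
        (Finset.univ.filter (fun j => a i ≤ a j)).erase i := by
      intro i j hj
      simp only [Finset.mem_filter, Finset.mem_univ, true_and] at hj
      simp only [Finset.mem_erase, Finset.mem_filter, Finset.mem_univ, true_and]
      refine ⟨?_, hordle i j hj⟩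
      rintro rfl
      exact lt_irrefl _ hj
    have hpos1 : ∀ i, (Finset.univ.filter (fun j => ord j < ord i)).card + 1 ≤ p := by
      intro i
      have h1 := Finset.card_le_card (hpos i)
      have h2 : ((Finset.univ.filter (fun j => a i ≤ a j)).erase i).card ≤
          (Finset.univ.erase i).card :=
        Finset.card_le_card (Finset.erase_subset_erase _ (Finset.filter_subset _ _))
      rw [Finset.card_erase_of_mem (Finset.mem_univ i), Finset.card_univ] at h2
      omega
    let R := Finset.univ.filter (fun j => 4 ≤ a j)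
    have hpos2 : ∀ i, 4 ≤ a i →
        (Finset.univ.filter (fun j => ord j < ord i)).card + 1 ≤ R.card := by
      intro i hi
      have h1 := Finset.card_le_card (hpos i)
      have hiR : i ∈ R := by simp [R, hi]
      have h2 : ((Finset.univ.filter (fun j => a i ≤ a j)).erase i).card ≤ (R.erase i).card := by
        apply Finset.card_le_card
        apply Finset.erase_subset_erase
        intro j hj
        simp only [Finset.mem_filter, Finset.mem_univ, true_and, R] at hj ⊢
        omega
      rw [Finset.card_erase_of_mem hiR] at h2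
      have h3 : 0 < R.card := Finset.card_pos.2 ⟨i, hiR⟩
      omega
    have hR1 : R.card + 1 ≤ p := by
      have h1 : R ⊆ Finset.univ.erase k0 := by
        intro j hj
        simp only [Finset.mem_filter, Finset.mem_univ, true_and, R] at hj
        simp only [Finset.mem_erase, Finset.mem_univ, and_true]
        rintro rfl
        omega
      have h2 := Finset.card_le_card h1
      rw [Finset.card_erase_of_mem (Finset.mem_univ k0), Finset.card_univ] at h2
      omega
    -- refined lower bound for n
    let g : V → ℕ := fun j => if 4 ≤ a j then 4 else 3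
    have hgsum : ∑ j, g j = 3 * p + R.card := by
      have h1 : ∀ j, g j = 3 + (if 4 ≤ a j then 1 else 0) := by
        intro j
        simp only [g]
        split_ifs <;> rfl
      rw [Finset.sum_congr rfl (fun j _ => h1 j), Finset.sum_add_distrib, Finset.sum_const,
        Finset.card_univ, ← Finset.sum_filter, ← Finset.card_eq_sum_ones, hpp, smul_eq_mul]
      simp only [R]
      ring
    have hga : ∀ j, g j ≤ a j := by
      intro j
      simp only [g]
      have := hmin j
      split_ifs <;> omega
    have hn2 : ∀ i k, k ≠ i → a i + a k + (3 * p + R.card) ≤ ∑ j, a j + g i + g k := by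
      intro i k hik
      have e1 := Finset.add_sum_erase Finset.univ a (Finset.mem_univ i)
      have e2 := Finset.add_sum_erase (Finset.univ.erase i) a (show k ∈ _ by simp [hik])
      have e3 := Finset.add_sum_erase Finset.univ g (Finset.mem_univ i)
      have e4 := Finset.add_sum_erase (Finset.univ.erase i) g (show k ∈ _ by simp [hik])
      have e5 : ∑ j ∈ (Finset.univ.erase i).erase k, g j ≤
          ∑ j ∈ (Finset.univ.erase i).erase k, a j := Finset.sum_le_sum (fun j _ => hga j)
      omega
    have hg4 : ∀ j, g j ≤ 4 := by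
      intro j
      simp only [g]
      split_ifs <;> omega
    have hg3 : ∀ j, a j < 4 → g j = 3 := by
      intro j hj
      simp only [g]
      rw [if_neg (by omega)]
    -- the crucial inequality for two big parts
    have hcruc : ∀ i k, k ≠ i → 4 ≤ a i → 4 ≤ a k → a k + R.card + 6 ≤ 3 * p := by
      intro i k hik hi hk
      rcases Nat.lt_or_ge (a k) 6 with h6 | h6
      · omega
      · have h1 := (hb k).hi (by omega)
        rw [← hpp] at h1
        obtain ⟨c, hc⟩ : ∃ c, a k = 6 + c := ⟨a k - 6, by omega⟩
        have e1 : a k - 2 * 3 = c := by omega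
        have e2 : a k - 3 = c + 3 := by omega
        rw [e1, e2] at h1
        rcases Nat.lt_or_ge p 6 with hp6 | hp6
        · -- p = 5
          have hp5' : p = 5 := by omega
          have hc1 : c ≤ 1 := by
            by_contra hne
            push Not at hne
            have : 2 * 5 ≤ c * (c + 3) := Nat.mul_le_mul (by omega) (by omega)
            omega
          have h2 := hirr k (by omega)
          have h3 : (-1 : ℤ) ≤ Fc 3 (a k - 3) := Fc_ge 3 _ (by omega)
          have h4 : 5 * (R.card : ℤ) - 9 ≤ ∑ j ∈ Finset.univ.erase k, Fc 3 (a j) := by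
            have h5 : ∀ j, (if 4 ≤ a j then (5 : ℤ) else 0) - 1 ≤ Fc 3 (a j) := by
              intro j
              split_ifs with h
              · have := Fc3_big (a j) h
                linarith
              · have := Fc_ge 3 (a j) (hmin j)
                linarith
            have h6 : ∑ j ∈ Finset.univ.erase k, ((if 4 ≤ a j then (5 : ℤ) else 0) - 1) ≤
                ∑ j ∈ Finset.univ.erase k, Fc 3 (a j) := Finset.sum_le_sum (fun j _ => h5 j)
            have h7 := Finset.add_sum_erase Finset.univ
              (fun j => ((if 4 ≤ a j then (5 : ℤ) else 0) - 1)) (Finset.mem_univ k)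
            have h8 : ∑ j, ((if 4 ≤ a j then (5 : ℤ) else 0) - 1) = 5 * R.card - p := by
              rw [Finset.sum_sub_distrib, ← Finset.sum_filter]
              simp only [Finset.sum_const, Finset.card_univ, nsmul_eq_mul, mul_one, R, hpp]
              ring
            rw [h8, if_pos hk, hp5'] at h7
            push_cast at h7
            linarith
          have h9 : R.card ≤ 2 := by
            have : 5 * (R.card : ℤ) < 11 := by linarith
            have : 5 * R.card < 11 := by exact_mod_cast this
            omega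
          omega
        · rcases Nat.lt_or_ge c 2 with hc2 | hc2
          · interval_cases c
            · omega
            · omega
          · have : 2 * (c + 3) ≤ c * (c + 3) := Nat.mul_le_mul_right _ hc2
            have : c * 5 ≤ c * (c + 3) := Nat.mul_le_mul_left _ (by omega)
            omega
    apply specials_dirac' a heven ord hord
    · intro i k hik
      have h1 := hpos1 i
      have h2 := hkm' k
      rcases Nat.lt_or_ge (a i) 4 with hi | hi
      · have := hmin i
        omega
      · have h3 := hpos2 i hi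
        have h4 := hn2 i k hik
        have h5 := hg4 i
        rcases Nat.lt_or_ge (a k) 4 with hk | hk
        · have h6 := hg3 k hk
          have h7 := hmin k
          omega
        · have h6 := hg4 k
          have h7 := hcruc i k hik hi hk
          omega
    · intro i
      have h1 := hpos1 i
      have h2 := sum_ge_one a 3 hmin i
      rw [← hpp] at h2
      omega
  · -- exceptional lists
    push Not at hmain
    obtain ⟨N, hN⟩ := heven
    obtain ⟨E', hE'⟩ : ∃ E', E' = ∑ j ∈ Finset.univ.erase km, (a j - 3) := ⟨_, rfl⟩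
    have hcardE : (Finset.univ.erase km).card = Fintype.card V - 1 := by
      rw [Finset.card_erase_of_mem (Finset.mem_univ km), Finset.card_univ]
    have hnE : ∑ k, a k = a km + 3 * (Fintype.card V - 1) + E' := by
      rw [← Finset.add_sum_erase _ _ (Finset.mem_univ km), hE', ← hcardE]
      have h1 : ∑ j ∈ Finset.univ.erase km, a j =
          ∑ j ∈ Finset.univ.erase km, (3 + (a j - 3)) :=
        Finset.sum_congr rfl (fun j _ => by have := hmin j; omega)
      rw [h1, Finset.sum_add_distrib, Finset.sum_const, smul_eq_mul]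
      ring
    have hA7 : a km ≤ 7 := by
      by_contra hne
      push Not at hne
      have h1 := (hb km).hi (by omega)
      obtain ⟨c, hc⟩ : ∃ c, a km = 8 + c := ⟨a km - 8, by omega⟩
      have e1 : a km - 2 * 3 = c + 2 := by omega
      have e2 : a km - 3 = c + 5 := by omega
      rw [e1, e2] at h1
      have : 2 * (c + 5) ≤ (c + 2) * (c + 5) := Nat.mul_le_mul_right _ (by omega)
      omega
    have hFE : 5 * (E' : ℤ) - (Fintype.card V - 1) ≤ ∑ j ∈ Finset.univ.erase km, Fc 3 (a j) := by
      have h1 : ∑ j ∈ Finset.univ.erase km, (5 * ((a j : ℤ) - 3) - 1) ≤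
          ∑ j ∈ Finset.univ.erase km, Fc 3 (a j) :=
        Finset.sum_le_sum (fun j _ => Fc3_ge (a j) (hmin j))
      have h2 : (E' : ℤ) = ∑ j ∈ Finset.univ.erase km, ((a j : ℤ) - 3) := by
        rw [hE', Nat.cast_sum]
        apply Finset.sum_congr rfl
        intro j _
        rw [Nat.cast_sub (hmin j)]
        rfl
      rw [Finset.sum_sub_distrib, ← Finset.mul_sum, ← h2, Finset.sum_const, hcardE] at h1
      rw [nsmul_eq_mul, Nat.cast_sub (by omega)] at h1
      push_cast at h1
      linarith
    have hir6 : a km = 6 → 5 * E' < Fintype.card V + 1 := by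
      intro h6
      have h1 := hirr km (by omega)
      rw [h6] at h1
      have h2 : Fc 3 (6 - 3) = -1 := by simp [Fc]
      rw [h2] at h1
      have : 5 * (E' : ℤ) < Fintype.card V + 1 := by linarith
      exact_mod_cast this
    have hir7 : a km = 7 → 5 * E' + 4 < Fintype.card V := by
      intro h7
      have h1 := hirr km (by omega)
      rw [h7] at h1
      have h2 : Fc 3 (7 - 3) = 4 := by simp [Fc]
      rw [h2] at h1
      have : 5 * (E' : ℤ) + 4 < Fintype.card V := by linarith
      exact_mod_cast this
    -- values of the other parts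
    have hzero : E' = 0 → ∀ j, j ≠ km → a j = 3 := by
      intro h0 j hj
      rw [h0] at hE'
      have h1 := (Finset.sum_eq_zero_iff.1 hE'.symm) j (by simp [hj])
      have := hmin j
      omega
    have hone : E' = 1 → ∃ j1, j1 ≠ km ∧ a j1 = 4 ∧ ∀ j, j ≠ km → j ≠ j1 → a j = 3 := by
      intro h0
      rw [h0] at hE'
      have h1 : ∃ j1 ∈ Finset.univ.erase km, a j1 - 3 ≠ 0 := by
        by_contra hne
        push Not at hne
        rw [Finset.sum_eq_zero hne] at hE'
        omega
      obtain ⟨j1, hj1, hj2⟩ := h1
      rw [← Finset.add_sum_erase _ _ hj1] at hE'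
      have h3 : ∑ j ∈ (Finset.univ.erase km).erase j1, (a j - 3) = 0 := by omega
      refine ⟨j1, (Finset.mem_erase.1 hj1).1, by omega, ?_⟩
      intro j hj hj'
      have h4 := (Finset.sum_eq_zero_iff.1 h3) j (by simp [hj, hj'])
      have := hmin j
      omega
    have htrans0 : ∀ (p A : ℕ) (l : Fin (p + 1) → ℕ), Fintype.card V = p + 1 → E' = 0 →
        l 0 = a km → (∀ x, x ≠ 0 → l x = 3) → (∃ G, Specials l G) → ∃ G, Specials a G := by
      intro p A l hcard h0 hl0 hl hG
      obtain ⟨G, hG⟩ := hG
      obtain ⟨e, he⟩ := exists_equiv0 p hcard km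
      refine ⟨_, hG.of_equiv e ?_⟩
      intro k
      by_cases hk : k = km
      · rw [hk, he, hl0]
      · rw [hzero h0 k hk, hl]
        intro h
        rw [← he] at h
        exact hk (e.injective h)
    have htrans1 : ∀ (p A : ℕ) (l : Fin (p + 2) → ℕ), Fintype.card V = p + 2 → E' = 1 →
        l 0 = a km → l 1 = 4 → (∀ x, x ≠ 0 → x ≠ 1 → l x = 3) → (∃ G, Specials l G) →
        ∃ G, Specials a G := by
      intro p A l hcard h0 hl0 hl1 hl hG
      obtain ⟨G, hG⟩ := hG
      obtain ⟨j1, hj1, hj2, hj3⟩ := hone h0
      obtain ⟨e, he, he1⟩ := exists_equiv1 p hcard km j1 (Ne.symm hj1)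
      refine ⟨_, hG.of_equiv e ?_⟩
      intro k
      by_cases hk : k = km
      · rw [hk, he, hl0]
      · by_cases hk1 : k = j1
        · rw [hk1, he1, hl1, hj2]
        · rw [hj3 k hk hk1, hl]
          · intro h
            rw [← he] at h
            exact hk (e.injective h)
          · intro h
            rw [← he1] at h
            exact hk1 (e.injective h)
    obtain ⟨p, hpp⟩ : ∃ p, p = Fintype.card V := ⟨_, rfl⟩
    rw [← hpp] at hp5 hmain hir6 hir7 hnE
    have hcases := exc_cases (a km) p E' N (∑ k, a k) (hmin km) hA7 hp5 hmain hN hnE hir6 hir7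
    rcases hcases with ⟨h1, h2, h3⟩ | ⟨h1, h2, h3⟩ | ⟨h1, h2, h3⟩ | ⟨h1, h2, h3⟩ |
      ⟨h1, h2, h3⟩ | ⟨h1, h2, h3⟩ | ⟨h1, h2, h3⟩ | ⟨h1, h2, h3⟩
    · exact htrans0 4 0 ![4, 3, 3, 3, 3] (by omega) h3 (by rw [h1]; rfl) (by decide) specials_exc1
    · exact htrans0 5 0 ![5, 3, 3, 3, 3, 3] (by omega) h3 (by rw [h1]; rfl) (by decide)
        specials_exc2
    · exact htrans1 3 0 ![5, 4, 3, 3, 3] (by omega) h3 (by rw [h1]; rfl) rfl (by decide)
        specials_exc3
    · exact htrans0 4 0 ![6, 3, 3, 3, 3] (by omega) h3 (by rw [h1]; rfl) (by decide) specials_exc4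
    · exact htrans0 6 0 ![6, 3, 3, 3, 3, 3, 3] (by omega) h3 (by rw [h1]; rfl) (by decide)
        specials_exc5
    · exact htrans1 4 0 ![6, 4, 3, 3, 3, 3] (by omega) h3 (by rw [h1]; rfl) rfl (by decide)
        specials_exc6
    · exact htrans0 5 0 ![7, 3, 3, 3, 3, 3] (by omega) h3 (by rw [h1]; rfl) (by decide)
        specials_exc7
    · exact htrans0 7 0 ![7, 3, 3, 3, 3, 3, 3, 3] (by omega) h3 (by rw [h1]; rfl) (by decide)
        specials_exc8

end TCM
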